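import Pool.Agent.H73.CR.B0

/-!
# CR KA: Harnack inequality for nonvanishing bounded functions; Bloch's theorem

`harnack`: `g` holomorphic on the unit disc, `0 < ‖g‖ ≤ M`. `L = log (M / g)` (`exists_log`) has `Re L ≥ 0`. If `Re L 0 = 0` then
`Re L = 0` everywhere (maximum principle for `g`). Otherwise `φ = (L - L 0) / (L + conj (L 0))` maps
the disc to the disc, `φ 0 = 0`, Schwarz: `‖φ z‖ ≤ ‖z‖`, so `‖L z - L 0‖ ≤ ‖z‖ ‖L z + conj (L 0)‖`, which gives
`(1-‖z‖)/(1+‖z‖) ≤ Re L z / Re L 0 ≤ (1+‖z‖)/(1-‖z‖)`.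
`bloch`: let `h` be holomorphic on a neighbourhood of the closed ball of radius `s < r` (then `s → r`, or take `s = r/2` and a
worse constant), `M = max (s - ‖z - x‖) ‖h' z‖ ≥ s ‖h' x‖`, attained at `a`, `ρ = (s - ‖a - x‖)/2`; on `ball a ρ`: `‖h'‖ ≤ 2 ‖h' a‖`;
by the Schwarz lemma for `h' - h' a`: `‖h' z - h' a‖ ≤ 3 ‖h' a‖ ‖z - a‖ / ρ`; on the circle `‖z - a‖ = ρ/4`:
`‖h z - h a‖ ≥ ‖h' a‖ (ρ/4 - 3ρ/32)`; `DiffContOnCl.ball_subset_image_closedBall`.
-/

set_option autoImplicit false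

open Set Metric

namespace Pool.Agent.CR

/-- the quadratic inequality behind the Harnack inequality -/
private theorem KA_quad {x a r : ℝ} (hr : 0 ≤ r) (hr1 : r < 1) (ha : 0 < a) (hx : 0 ≤ x)
    (h : (1 - r ^ 2) * (x - a) ^ 2 ≤ 4 * r ^ 2 * (x * a)) :
    (1 - r) / (1 + r) * a ≤ x ∧ x ≤ (1 + r) / (1 - r) * a := by
  have h1 : (x * (1 - r) - a * (1 + r)) * (x * (1 + r) - a * (1 - r)) ≤ 0 := by nlinarith
  have h2 : x * (1 - r) - a * (1 + r) ≤ x * (1 + r) - a * (1 - r) := by nlinarith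
  have hA : x * (1 - r) - a * (1 + r) ≤ 0 := by
    by_contra hcon
    push Not at hcon
    have h3 := mul_pos hcon (lt_of_lt_of_le hcon h2)
    linarith
  have hB : 0 ≤ x * (1 + r) - a * (1 - r) := by
    by_contra hcon
    push Not at hcon
    have h3 : x * (1 - r) - a * (1 + r) < 0 := lt_of_le_of_lt h2 hcon
    have h4 := mul_pos_of_neg_of_neg h3 hcon
    linarith
  constructor
  · rw [div_mul_eq_mul_div, div_le_iff₀ (by linarith)]
    linarith
  · rw [div_mul_eq_mul_div, le_div_iff₀ (by linarith)]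
    linarith

private theorem KA_pos {L : ℂ → ℂ} (hL : DifferentiableOn ℂ L (ball 0 1))
    (h0 : ∀ z ∈ ball (0 : ℂ) 1, 0 ≤ (L z).re) (h00 : 0 < (L 0).re) {z : ℂ}
    (hz : z ∈ ball (0 : ℂ) 1) :
    (1 - ‖z‖) / (1 + ‖z‖) * (L 0).re ≤ (L z).re ∧
      (L z).re ≤ (1 + ‖z‖) / (1 - ‖z‖) * (L 0).re := by
  have hden : ∀ z ∈ ball (0 : ℂ) 1, L z + (starRingEnd ℂ) (L 0) ≠ 0 := by
    intro z hz h
    have h1 := congrArg Complex.re h
    simp only [Complex.add_re, Complex.conj_re, Complex.zero_re] at h1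
    have := h0 z hz
    linarith
  have hid : ∀ z : ℂ, ‖L z + (starRingEnd ℂ) (L 0)‖ ^ 2 =
      ‖L z - L 0‖ ^ 2 + 4 * ((L z).re * (L 0).re) := by
    intro z
    rw [Complex.sq_norm, Complex.sq_norm, Complex.normSq_apply, Complex.normSq_apply]
    simp only [Complex.add_re, Complex.conj_re, Complex.add_im, Complex.conj_im, Complex.sub_re,
      Complex.sub_im]
    ring
  set φ : ℂ → ℂ := fun z => (L z - L 0) / (L z + (starRingEnd ℂ) (L 0)) with hφ
  have hφd : DifferentiableOn ℂ φ (ball 0 1) :=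
    (hL.sub_const _).div (hL.add_const _) hden
  have hφ0 : φ 0 = 0 := by simp [hφ]
  have hmaps : MapsTo φ (ball 0 1) (closedBall (φ 0) 1) := by
    intro z hz
    rw [hφ0, mem_closedBall_zero_iff, hφ]
    simp only
    rw [norm_div, div_le_one (norm_pos_iff.mpr (hden z hz))]
    apply le_of_sq_le_sq _ (norm_nonneg _)
    rw [hid z]
    have := mul_nonneg (h0 z hz) h00.le
    linarith
  have hS := Complex.dist_le_div_mul_dist_of_mapsTo_ball hφd hmaps hz
  rw [hφ0, dist_zero_right, dist_zero_right, div_one, one_mul] at hS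
  have hz1 : ‖z‖ < 1 := by simpa using hz
  apply KA_quad (norm_nonneg z) hz1 h00 (h0 z hz)
  have h1 : ‖L z - L 0‖ ≤ ‖z‖ * ‖L z + (starRingEnd ℂ) (L 0)‖ := by
    rw [hφ] at hS
    simp only at hS
    rwa [norm_div, div_le_iff₀ (norm_pos_iff.mpr (hden z hz))] at hS
  have h2 : ‖L z - L 0‖ ^ 2 ≤ ‖z‖ ^ 2 * ‖L z + (starRingEnd ℂ) (L 0)‖ ^ 2 := by
    rw [← mul_pow]
    exact pow_le_pow_left₀ (norm_nonneg _) h1 2
  rw [hid z] at h2
  have h3 : ((L z).re - (L 0).re) ^ 2 ≤ ‖L z - L 0‖ ^ 2 := by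
    rw [Complex.sq_norm, Complex.normSq_apply]
    simp only [Complex.sub_re, Complex.sub_im]
    nlinarith [mul_self_nonneg ((L z).im - (L 0).im)]
  have h4 : 0 ≤ 1 - ‖z‖ ^ 2 := by nlinarith [norm_nonneg z]
  have h5 := mul_le_mul_of_nonneg_left h3 h4
  linarith

/-- positive harmonic functions of the form `Re L` -/
theorem harnack_re {L : ℂ → ℂ} (hL : DifferentiableOn ℂ L (ball 0 1))
    (h0 : ∀ z ∈ ball (0 : ℂ) 1, 0 ≤ (L z).re) {z : ℂ} (hz : z ∈ ball (0 : ℂ) 1) :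
    (1 - ‖z‖) / (1 + ‖z‖) * (L 0).re ≤ (L z).re ∧
      (L z).re ≤ (1 + ‖z‖) / (1 - ‖z‖) * (L 0).re := by
  have hz1 : ‖z‖ < 1 := by simpa using hz
  have hε : ∀ ε : ℝ, 0 < ε →
      (1 - ‖z‖) / (1 + ‖z‖) * ((L 0).re + ε) ≤ (L z).re + ε ∧
      (L z).re + ε ≤ (1 + ‖z‖) / (1 - ‖z‖) * ((L 0).re + ε) := by
    intro ε hε
    have h1 := KA_pos (L := fun z => L z + (ε : ℂ)) (hL.add_const _) (by
      intro w hw
      have := h0 w hw
      simp only [Complex.add_re, Complex.ofReal_re]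
      linarith) (by
      have := h0 0 (by simp)
      simp only [Complex.add_re, Complex.ofReal_re]
      linarith) hz
    simpa only [Complex.add_re, Complex.ofReal_re] using h1
  have hlim : ∀ c d : ℝ, Filter.Tendsto (fun ε : ℝ => c * (d + ε)) (nhdsWithin 0 (Ioi 0))
      (nhds (c * d)) := by
    intro c d
    have h1 : Continuous fun ε : ℝ => c * (d + ε) := by fun_prop
    have h2 := h1.tendsto 0
    simp only [add_zero] at h2
    exact h2.mono_left nhdsWithin_le_nhds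
  constructor
  · have h1 := hlim 1 (L z).re
    simp only [one_mul] at h1
    refine le_of_tendsto_of_tendsto (hlim _ _) h1 ?_
    filter_upwards [self_mem_nhdsWithin] with ε hε'
    exact (hε ε hε').1
  · have h1 := hlim 1 (L z).re
    simp only [one_mul] at h1
    refine le_of_tendsto_of_tendsto h1 (hlim _ _) ?_
    filter_upwards [self_mem_nhdsWithin] with ε hε'
    exact (hε ε hε').2

theorem harnack {g : ℂ → ℂ} (hg : DifferentiableOn ℂ g (ball 0 1)) (h0 : ∀ z ∈ ball (0 : ℂ) 1, g z ≠ 0)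
    {M : ℝ} (hM : ∀ z ∈ ball (0 : ℂ) 1, ‖g z‖ ≤ M) {z : ℂ} (hz : z ∈ ball (0 : ℂ) 1) :
    (1 - ‖z‖) / (1 + ‖z‖) * Real.log (M / ‖g 0‖) ≤ Real.log (M / ‖g z‖) ∧
      Real.log (M / ‖g z‖) ≤ (1 + ‖z‖) / (1 - ‖z‖) * Real.log (M / ‖g 0‖) := by
  have hz0 : (0 : ℂ) ∈ ball (0 : ℂ) 1 := by simp
  have hM0 : 0 < M := lt_of_lt_of_le (norm_pos_iff.mpr (h0 0 hz0)) (hM 0 hz0)
  have hMc : (M : ℂ) ≠ 0 := by exact_mod_cast hM0.ne'
  obtain ⟨s, hs1, hs2, -⟩ := exists_log isOpen_ball (convex_ball (0 : ℂ) 1)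
    (g := fun z => (M : ℂ) / g z) ((differentiableOn_const _).div hg h0)
    (fun z hz => div_ne_zero hMc (h0 z hz)) (x0 := 0) (s0 := Complex.log ((M : ℂ) / g 0)) hz0
    (Complex.exp_log (div_ne_zero hMc (h0 0 hz0)))
  have hre : ∀ z ∈ ball (0 : ℂ) 1, (s z).re = Real.log (M / ‖g z‖) := by
    intro z hz
    have h1 := congrArg norm (hs2 z hz)
    rw [Complex.norm_exp, norm_div, Complex.norm_real, Real.norm_eq_abs, abs_of_pos hM0] at h1
    rw [← h1, Real.log_exp]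
  have h1 := harnack_re hs1 (fun z hz => by
    rw [hre z hz]
    apply Real.log_nonneg
    rw [le_div_iff₀ (norm_pos_iff.mpr (h0 z hz)), one_mul]
    exact hM z hz) hz
  rw [hre z hz, hre 0 hz0] at h1
  exact h1

theorem bloch : ∃ b : ℝ, 0 < b ∧ ∀ (h : ℂ → ℂ) (x : ℂ) (r : ℝ), 0 < r →
    DifferentiableOn ℂ h (ball x r) → ∃ a : ℂ, ball a (b * r * ‖deriv h x‖) ⊆ h '' ball x r := by
  refine ⟨1 / 128, by norm_num, ?_⟩
  intro h x r hr hd
  by_cases hx0 : deriv h x = 0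
  · refine ⟨0, ?_⟩
    rw [hx0, norm_zero, mul_zero, ball_zero]
    exact empty_subset _
  have hx0' : 0 < ‖deriv h x‖ := norm_pos_iff.mpr hx0
  have hd' : DifferentiableOn ℂ (deriv h) (ball x r) := hd.deriv isOpen_ball
  have hsub : closedBall x (r / 2) ⊆ ball x r := closedBall_subset_ball (by linarith)
  have hcont : ContinuousOn (fun z => (r / 2 - ‖z - x‖) * ‖deriv h z‖) (closedBall x (r / 2)) := by
    apply ContinuousOn.mul
    · fun_prop
    · exact (hd'.continuousOn.mono hsub).norm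
  obtain ⟨a, ha, hmax⟩ := (isCompact_closedBall x (r / 2)).exists_isMaxOn
    ⟨x, mem_closedBall_self (by linarith)⟩ hcont
  have hmax' : ∀ z ∈ closedBall x (r / 2),
      (r / 2 - ‖z - x‖) * ‖deriv h z‖ ≤ (r / 2 - ‖a - x‖) * ‖deriv h a‖ := fun z hz => hmax hz
  have hmx := hmax' x (mem_closedBall_self (by linarith))
  rw [sub_self, norm_zero, sub_zero] at hmx
  have hpos : 0 < (r / 2 - ‖a - x‖) * ‖deriv h a‖ := lt_of_lt_of_le (by positivity) hmx
  have hax : ‖a - x‖ ≤ r / 2 := by simpa [dist_eq_norm] using ha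
  have hax' : 0 < r / 2 - ‖a - x‖ := by
    by_contra hcon
    have h1 : r / 2 - ‖a - x‖ = 0 := by linarith
    rw [h1, zero_mul] at hpos
    exact lt_irrefl _ hpos
  have ha0 : 0 < ‖deriv h a‖ := by
    by_contra hcon
    have h1 : ‖deriv h a‖ = 0 := le_antisymm (not_lt.mp hcon) (norm_nonneg _)
    rw [h1, mul_zero] at hpos
    exact lt_irrefl _ hpos
  obtain ⟨ρ, hρ⟩ : ∃ ρ, ρ = (r / 2 - ‖a - x‖) / 2 := ⟨_, rfl⟩
  have hρ0 : 0 < ρ := by rw [hρ]; linarith
  have hΦ : (r / 2 - ‖a - x‖) = 2 * ρ := by rw [hρ]; ring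
  rw [hΦ] at hmax' hmx
  have hball : ∀ z ∈ ball a ρ, z ∈ closedBall x (r / 2) ∧ ρ ≤ r / 2 - ‖z - x‖ := by
    intro z hz
    rw [mem_ball, dist_eq_norm] at hz
    have h1 : ‖z - x‖ ≤ ‖z - a‖ + ‖a - x‖ := by
      have := norm_add_le (z - a) (a - x)
      rwa [sub_add_sub_cancel] at this
    have h2 : ρ ≤ r / 2 - ‖z - x‖ := by linarith
    refine ⟨?_, h2⟩
    rw [mem_closedBall, dist_eq_norm]
    linarith
  have hsub2 : ball a ρ ⊆ ball x r := fun z hz => hsub (hball z hz).1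
  have hbd : ∀ z ∈ ball a ρ, ‖deriv h z‖ ≤ 2 * ‖deriv h a‖ := by
    intro z hz
    obtain ⟨h1, h2⟩ := hball z hz
    have h3 := hmax' z h1
    have h4 : ρ * ‖deriv h z‖ ≤ ρ * (2 * ‖deriv h a‖) := by
      calc ρ * ‖deriv h z‖ ≤ (r / 2 - ‖z - x‖) * ‖deriv h z‖ :=
            mul_le_mul_of_nonneg_right h2 (norm_nonneg _)
        _ ≤ 2 * ρ * ‖deriv h a‖ := h3
        _ = ρ * (2 * ‖deriv h a‖) := by ring
    exact le_of_mul_le_mul_left h4 hρ0
  have hS : ∀ z ∈ ball a ρ, ‖deriv h z - deriv h a‖ ≤ 3 * ‖deriv h a‖ / ρ * ‖z - a‖ := by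
    intro z hz
    have h1 := Complex.dist_le_div_mul_dist_of_mapsTo_ball (f := deriv h) (hd'.mono hsub2)
      (R₂ := 3 * ‖deriv h a‖) (by
        intro w hw
        rw [mem_closedBall, dist_eq_norm]
        have h2 := norm_sub_le (deriv h w) (deriv h a)
        have h3 := hbd w hw
        linarith) hz
    rwa [dist_eq_norm, dist_eq_norm] at h1
  have hsub3 : closedBall a (ρ / 4) ⊆ ball a ρ := closedBall_subset_ball (by linarith)
  have hdiff : ∀ z ∈ ball x r, HasDerivAt h (deriv h z) z := fun z hz =>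
    (hd.differentiableAt (isOpen_ball.mem_nhds hz)).hasDerivAt
  have haρ : a ∈ ball a ρ := mem_ball_self hρ0
  have hmv : ∀ z ∈ closedBall a (ρ / 4),
      ‖(h z - deriv h a * z) - (h a - deriv h a * a)‖ ≤ 3 * ‖deriv h a‖ / 4 * ‖z - a‖ := by
    intro z hz
    apply (convex_closedBall a (ρ / 4)).norm_image_sub_le_of_norm_hasDerivWithin_le
      (f := fun z => h z - deriv h a * z) (f' := fun z => deriv h z - deriv h a)
      (fun w hw => ?_) (fun w hw => ?_) (mem_closedBall_self (by positivity)) hz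
    · have h1 := (hdiff w (hsub2 (hsub3 hw))).sub ((hasDerivAt_id w).const_mul (deriv h a))
      rw [mul_one] at h1
      exact h1.hasDerivWithinAt
    · have h1 := hS w (hsub3 hw)
      rw [mem_closedBall, dist_eq_norm] at hw
      have h2 : 3 * ‖deriv h a‖ / ρ * ‖w - a‖ ≤ 3 * ‖deriv h a‖ / ρ * (ρ / 4) :=
        mul_le_mul_of_nonneg_left hw (by positivity)
      have h3 : 3 * ‖deriv h a‖ / ρ * (ρ / 4) = 3 * ‖deriv h a‖ / 4 := by field_simp
      linarith
  have hlow : ∀ z ∈ sphere a (ρ / 4), ‖deriv h a‖ * ρ / 16 ≤ ‖h z - h a‖ := by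
    intro z hz
    have h1 := hmv z (sphere_subset_closedBall hz)
    rw [mem_sphere, dist_eq_norm] at hz
    have h2 : h z - h a = ((h z - deriv h a * z) - (h a - deriv h a * a)) +
        deriv h a * (z - a) := by ring
    have h3 : ‖deriv h a * (z - a)‖ = ‖deriv h a‖ * (ρ / 4) := by rw [norm_mul, hz]
    have h4 : ‖deriv h a * (z - a)‖ ≤ ‖h z - h a‖ +
        ‖(h z - deriv h a * z) - (h a - deriv h a * a)‖ := by
      have h5 : deriv h a * (z - a) = (h z - h a) -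
        ((h z - deriv h a * z) - (h a - deriv h a * a)) := by ring
      rw [h5]
      exact norm_sub_le _ _
    rw [h3] at h4
    rw [hz] at h1
    linarith
  have hfr : ∃ᶠ z in nhds a, h z ≠ h a := by
    have h1 := (hdiff a (hsub2 haρ)).eventually_ne (c := h a) (norm_pos_iff.mp ha0)
    exact h1.frequently.filter_mono nhdsWithin_le_nhds
  have hDC : DiffContOnCl ℂ h (ball a (ρ / 4)) := by
    apply DifferentiableOn.diffContOnCl
    apply hd.mono
    exact (closure_ball_subset_closedBall.trans hsub3).trans hsub2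
  have himg := hDC.ball_subset_image_closedBall (by positivity) hlow hfr
  refine ⟨h a, ?_⟩
  refine (ball_subset_ball ?_).trans (himg.trans (image_mono (hsub3.trans hsub2)))
  have h1 : r / 2 * ‖deriv h x‖ ≤ 2 * ρ * ‖deriv h a‖ := hmx
  linarith

end Pool.Agent.CR
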