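import Pool.Agent.H73.CR.KA

/-!
# CR KB: Koebe theorems with weak constants

`koebe`: let `w0 ∉ h '' ball x r`, `g = log (h - w0)` (`exists_log`). `g '' ball x r` contains no ball of radius `> π`: it would
contain two points which differ by `2 π i`, and `h` would not be injective. Bloch: `b r ‖g' x‖ ≤ π + 1`,
`‖g' x‖ = ‖h' x‖ / ‖h x - w0‖`, so `‖h x - w0‖ ≥ b r ‖h' x‖ / (π + 1)`.
`growth` (`x = 0`, `r = 1`, `h 0 = 0` by rescaling, `h' 0 ≠ 0` by injectivity): there is an omitted value `w0` with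
`‖w0‖ ≤ 2 ‖h' 0‖ = 2 d`: otherwise `{z | ‖h z‖ ≤ 3 d / 2}` is compact (`h` is a homeomorphism onto its open
image, which contains the closed ball), and `z / h z` (holomorphic, value `1 / h' 0` at `0`) is bounded by `1 / (3 d / 2)` outside
this set, so everywhere (maximum principle): `1 / d ≤ 2 / (3 d)`. Let `k = sqrt (1 - h / w0)`, `k 0 = 1` (`exists_sqrt`); `k` is injective and
`k z ≠ - k z'` for all `z, z'`. By `koebe` the image of `k` contains `ball 1 κ'`, `κ' = κ ‖k' 0‖ = κ ‖h' 0‖ / (2 ‖w0‖) ≥ κ / 4`, so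
`‖k z + 1‖ ≥ κ/4` on the disc. `g = 1 / (k + 1)` is bounded by `4/κ`, nonvanishing, `g 0 = 1/2`; `harnack`:
`‖g‖ ≥ c` on `ball 0 (3/4)`, so `‖k‖ ≤ 1/c + 1`, `‖h‖ = ‖w0‖ ‖1 - k^2‖ ≤ C ‖h' 0‖` there.
`distortion`: Cauchy's estimate gives `‖h' z‖ ≤ C ‖h' 0‖` for `‖z‖ ≤ 1/2`; the lower bound: let `m` be the midpoint of `x` and `z`;
apply the upper bound in `ball m (r/2)` at `x` and in `ball z (r/2)` at `m`.
-/

set_option autoImplicit false

open Set Metric

namespace Pool.Agent.CR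

open Topology Filter in
private theorem KB_deriv_ne {h : ℂ → ℂ} {s : Set ℂ} (hs : IsOpen s) (hd : DifferentiableOn ℂ h s)
    (hi : InjOn h s) {x : ℂ} (hx : x ∈ s) : deriv h x ≠ 0 := by
  intro h0
  have hns : s ∈ 𝓝 x := hs.mem_nhds hx
  have han : AnalyticAt ℂ h x := hd.analyticAt hns
  have hF : AnalyticAt ℂ (fun z => h z - h x) x := han.sub analyticAt_const
  have hne : ¬ ∀ᶠ z in 𝓝 x, h z - h x = 0 := by
    intro hev
    have h1 : ∀ᶠ z in 𝓝[≠] x, z ∈ s ∧ h z - h x = 0 :=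
      (Filter.Eventually.and (show ∀ᶠ z in 𝓝 x, z ∈ s from hns) hev).filter_mono nhdsWithin_le_nhds
    obtain ⟨z, ⟨hz1, hz2⟩, hz3⟩ := (h1.and self_mem_nhdsWithin).exists
    exact hz3 (hi hz1 hx (sub_eq_zero.1 hz2))
  obtain ⟨n, g, hg, hg0, hev⟩ := (hF.exists_eventuallyEq_pow_smul_nonzero_iff).2 hne
  have hn0 : n ≠ 0 := by
    rintro rfl
    have h1 := hev.self_of_nhds
    simp at h1
    exact hg0 h1.symm
  have hn1 : n ≠ 1 := by
    rintro rfl
    have hev' : (fun z => h z - h x) =ᶠ[𝓝 x] (fun z => (z - x) ^ 1 • g z) := hev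
    have h1 : deriv (fun z => h z - h x) x = deriv (fun z => (z - x) ^ 1 • g z) x := hev'.deriv_eq
    rw [deriv_sub_const, h0] at h1
    have h2 : HasDerivAt (fun z => (z - x) ^ 1 • g z) (1 * g x + (x - x) * deriv g x) x := by
      have h3 : HasDerivAt (fun z : ℂ => z - x) 1 x := (hasDerivAt_id x).sub_const x
      have h4 := h3.fun_mul hg.differentiableAt.hasDerivAt
      simpa only [pow_one, smul_eq_mul] using h4
    rw [h2.deriv] at h1
    simp at h1
    exact hg0 h1.symm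
  have hn2 : 2 ≤ n := by omega
  -- a ball on which everything holds
  have hev2 : ∀ᶠ z in 𝓝 x, z ∈ s ∧ AnalyticAt ℂ g z ∧ g z ≠ 0 ∧ h z - h x = (z - x) ^ n • g z := by
    filter_upwards [hns, hg.eventually_analyticAt, hg.continuousAt.eventually_ne hg0, hev] with z h1 h2 h3 h4
    exact ⟨h1, h2, h3, h4⟩
  obtain ⟨ρ, hρ, hball⟩ := Metric.eventually_nhds_iff_ball.1 hev2
  obtain ⟨L, hL, hexp, _⟩ := exists_log isOpen_ball (convex_ball x ρ)
    (fun z hz => (hball z hz).2.1.differentiableAt.differentiableWithinAt)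
    (fun z hz => (hball z hz).2.2.1) (mem_ball_self hρ) (s0 := Complex.log (g x)) (Complex.exp_log hg0)
  have hnC : (n : ℂ) ≠ 0 := by exact_mod_cast hn0
  set φ : ℂ → ℂ := fun z => (z - x) * Complex.exp (L z / n) with hφ
  have hφpow : ∀ z ∈ ball x ρ, φ z ^ n = h z - h x := by
    intro z hz
    rw [(hball z hz).2.2.2, hφ]
    simp only
    rw [mul_pow, ← Complex.exp_nat_mul, mul_div_cancel₀ _ hnC, hexp z hz, smul_eq_mul]
  have hLan : AnalyticAt ℂ L x := hL.analyticAt (ball_mem_nhds x hρ)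
  have hE : AnalyticAt ℂ (fun z => Complex.exp (L z / n)) x :=
    (hLan.div analyticAt_const hnC).cexp
  have hφan : AnalyticAt ℂ φ x := (analyticAt_id.sub analyticAt_const).mul hE
  have hφd : HasDerivAt φ (1 * Complex.exp (L x / n) + (x - x) * deriv (fun z => Complex.exp (L z / n)) x) x := by
    have h3 : HasDerivAt (fun z : ℂ => z - x) 1 x := (hasDerivAt_id x).sub_const x
    exact h3.mul hE.differentiableAt.hasDerivAt
  have hφs : HasStrictDerivAt φ (Complex.exp (L x / n)) x := by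
    have h5 := hφan.hasStrictDerivAt
    rw [hφd.deriv] at h5
    simpa using h5
  have hmap := hφs.map_nhds_eq (Complex.exp_ne_zero _)
  have hφx : φ x = 0 := by simp [hφ]
  rw [hφx] at hmap
  have hU : φ '' ball x ρ ∈ 𝓝 (0 : ℂ) := by
    rw [← hmap]
    exact image_mem_map (ball_mem_nhds x hρ)
  set ζ : ℂ := Complex.exp (2 * Real.pi * Complex.I / n) with hζ
  have hprim : IsPrimitiveRoot ζ n := Complex.isPrimitiveRoot_exp n hn0
  have hV : ∀ᶠ w in 𝓝 (0 : ℂ), ζ * w ∈ φ '' ball x ρ := by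
    have hc : Continuous fun w : ℂ => ζ * w := by fun_prop
    have h6 := hc.tendsto 0
    rw [mul_zero] at h6
    exact h6.eventually hU
  have hW : ∀ᶠ w in 𝓝[≠] (0 : ℂ), w ∈ φ '' ball x ρ ∧ ζ * w ∈ φ '' ball x ρ :=
    (Filter.Eventually.and (show ∀ᶠ w in 𝓝 (0 : ℂ), w ∈ φ '' ball x ρ from hU) hV).filter_mono nhdsWithin_le_nhds
  obtain ⟨w, ⟨hw1, hw2⟩, hw3⟩ := (hW.and self_mem_nhdsWithin).exists
  have hw3' : w ≠ 0 := hw3
  obtain ⟨z1, hz1, e1⟩ := hw1
  obtain ⟨z2, hz2, e2⟩ := hw2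
  have e3 : h z1 = h z2 := by
    have h7 := hφpow z1 hz1
    have h8 := hφpow z2 hz2
    rw [e1] at h7
    rw [e2, mul_pow, hprim.pow_eq_one, one_mul] at h8
    have h9 : h z1 - h x = h z2 - h x := by rw [← h7, ← h8]
    exact sub_left_inj.1 h9
  have e4 : z1 = z2 := hi (hball z1 hz1).1 (hball z2 hz2).1 e3
  rw [e4, e2] at e1
  have e5 : (ζ - 1) * w = 0 := by rw [sub_mul, e1, one_mul, sub_self]
  rcases mul_eq_zero.1 e5 with h10 | h10
  · exact hprim.ne_one (by omega) (sub_eq_zero.1 h10)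
  · exact hw3' h10

theorem koebe : ∃ κ : ℝ, 0 < κ ∧ ∀ (h : ℂ → ℂ) (x : ℂ) (r : ℝ), 0 < r →
    DifferentiableOn ℂ h (ball x r) → InjOn h (ball x r) →
      ball (h x) (κ * r * ‖deriv h x‖) ⊆ h '' ball x r := by
  obtain ⟨b, hb, hB⟩ := bloch
  have hpi := Real.pi_pos
  refine ⟨b / Real.pi, by positivity, ?_⟩
  intro h x r hr hd hi w0 hw0
  by_contra hnot
  have hne : ∀ z ∈ ball x r, h z - w0 ≠ 0 := by
    intro z hz h0
    exact hnot ⟨z, hz, sub_eq_zero.1 h0⟩
  have hxb : x ∈ ball x r := mem_ball_self hr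
  obtain ⟨g, hg, hexp, hgx⟩ := exists_log isOpen_ball (convex_ball x r) (hd.sub_const w0) hne hxb
    (s0 := Complex.log (h x - w0)) (Complex.exp_log (hne x hxb))
  obtain ⟨a, ha⟩ := hB g x r hr hg
  have h1 : b * r * ‖deriv g x‖ ≤ Real.pi := by
    by_contra hc
    push Not at hc
    have hn : ‖(Real.pi : ℂ) * Complex.I‖ = Real.pi := by
      rw [norm_mul, Complex.norm_I, mul_one, Complex.norm_real, Real.norm_eq_abs, abs_of_pos hpi]
    have m1 : a + Real.pi * Complex.I ∈ ball a (b * r * ‖deriv g x‖) := by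
      rw [mem_ball, dist_eq_norm, add_sub_cancel_left, hn]
      exact hc
    have m2 : a - Real.pi * Complex.I ∈ ball a (b * r * ‖deriv g x‖) := by
      rw [mem_ball, dist_eq_norm, sub_sub_cancel_left, norm_neg, hn]
      exact hc
    obtain ⟨z1, hz1, e1⟩ := ha m1
    obtain ⟨z2, hz2, e2⟩ := ha m2
    have e3 : h z1 - w0 = h z2 - w0 := by
      rw [← hexp z1 hz1, ← hexp z2 hz2, e1, e2, Complex.exp_add, Complex.exp_sub, Complex.exp_pi_mul_I]
      ring
    have e4 : z1 = z2 := hi hz1 hz2 (sub_left_inj.1 e3)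
    rw [e4, e2] at e1
    have e5 : (2 * Real.pi : ℂ) * Complex.I = 0 := by linear_combination (-1 : ℂ) * e1
    rw [mul_eq_zero, mul_eq_zero] at e5
    rcases e5 with (h5 | h5) | h5
    · norm_num at h5
    · exact hpi.ne' (by exact_mod_cast h5)
    · exact Complex.I_ne_zero h5
  have hgd : DifferentiableAt ℂ g x := hg.differentiableAt (ball_mem_nhds x hr)
  have h2 : (h x - w0) * deriv g x = deriv h x := by
    have h3 : HasDerivAt (fun z => Complex.exp (g z)) (Complex.exp (g x) * deriv g x) x := hgd.hasDerivAt.cexp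
    have h4 : (fun z => Complex.exp (g z)) =ᶠ[nhds x] fun z => h z - w0 := by
      filter_upwards [ball_mem_nhds x hr] with z hz
      exact hexp z hz
    have h5 := h4.deriv_eq
    rw [h3.deriv, deriv_sub_const, hexp x hxb] at h5
    exact h5
  rw [mem_ball, dist_eq_norm, norm_sub_rev, ← h2, norm_mul] at hw0
  have h6 : 0 < ‖h x - w0‖ := norm_pos_iff.2 (hne x hxb)
  have h7 : b / Real.pi * r * (‖h x - w0‖ * ‖deriv g x‖) = (b * r * ‖deriv g x‖) / Real.pi * ‖h x - w0‖ := by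
    ring
  rw [h7] at hw0
  have h8 : (b * r * ‖deriv g x‖) / Real.pi ≤ 1 := by
    rw [div_le_one hpi]
    exact h1
  nlinarith

/-- an omitted value -/
private theorem KB_omit {H : ℂ → ℂ} (hd : DifferentiableOn ℂ H (ball 0 1)) (hi : InjOn H (ball 0 1)) (h0 : H 0 = 0) :
    ∃ w0 : ℂ, ‖w0‖ ≤ 2 * ‖deriv H 0‖ ∧ w0 ∉ H '' ball 0 1 := by
  have hz0 : (0 : ℂ) ∈ ball (0 : ℂ) 1 := mem_ball_self one_pos
  have hdne := KB_deriv_ne isOpen_ball hd hi hz0
  have hdpos : 0 < ‖deriv H 0‖ := norm_pos_iff.2 hdne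
  by_contra hcon
  push Not at hcon
  set g : ℂ → ℂ := Function.invFunOn H (ball 0 1) with hg
  have hleft : ∀ z ∈ ball (0 : ℂ) 1, g (H z) = z := hi.leftInvOn_invFunOn
  have hder : ∀ z ∈ ball (0 : ℂ) 1, HasStrictDerivAt g (deriv H z)⁻¹ (H z) := by
    intro z hz
    have h1 : HasStrictDerivAt H (deriv H z) z := (hd.analyticAt (isOpen_ball.mem_nhds hz)).hasStrictDerivAt
    refine h1.to_local_left_inverse (KB_deriv_ne isOpen_ball hd hi hz) ?_
    filter_upwards [isOpen_ball.mem_nhds hz] with y hy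
    exact hleft y hy
  have hgd : DifferentiableOn ℂ g (ball 0 (2 * ‖deriv H 0‖)) := by
    intro w hw
    obtain ⟨z, hz, rfl⟩ := hcon w (by simpa using (mem_ball_zero_iff.1 hw).le)
    exact (hder z hz).hasDerivAt.differentiableAt.differentiableWithinAt
  have hg0 : g 0 = 0 := by
    have := hleft 0 hz0
    rwa [h0] at this
  have hmaps : MapsTo g (ball 0 (2 * ‖deriv H 0‖)) (closedBall (g 0) 1) := by
    intro w hw
    obtain ⟨z, hz, rfl⟩ := hcon w (by simpa using (mem_ball_zero_iff.1 hw).le)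
    rw [hleft z hz, hg0]
    exact ball_subset_closedBall hz
  have h2 := Complex.norm_deriv_le_div_of_mapsTo_ball hgd hmaps (by positivity)
  have h3 := (hder 0 hz0).hasDerivAt
  rw [h0] at h3
  rw [h3.deriv, norm_inv, inv_eq_one_div, div_le_div_iff₀ hdpos (by positivity)] at h2
  linarith

private theorem KB_growth0 : ∃ C : ℝ, 1 ≤ C ∧ ∀ H : ℂ → ℂ, DifferentiableOn ℂ H (ball 0 1) → InjOn H (ball 0 1) →
    H 0 = 0 → ∀ z ∈ ball (0 : ℂ) (3 / 4), ‖H z‖ ≤ C * ‖deriv H 0‖ := by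
  obtain ⟨κ, hκ, hK⟩ := koebe
  set M : ℝ := 4 / κ + 1 with hM
  have hM1 : 1 ≤ M := by
    rw [hM]
    have : 0 < 4 / κ := by positivity
    linarith
  have hM0 : 0 < M := by linarith
  set C1 : ℝ := (2 * M) ^ 7 / M with hC1
  have hC1pos : 0 < C1 := by positivity
  refine ⟨2 * (1 + (C1 + 1) ^ 2), by nlinarith, ?_⟩
  intro H hd hi h0 z hz
  have hz0 : (0 : ℂ) ∈ ball (0 : ℂ) 1 := mem_ball_self one_pos
  have hdne := KB_deriv_ne isOpen_ball hd hi hz0
  have hdpos : 0 < ‖deriv H 0‖ := norm_pos_iff.2 hdne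
  obtain ⟨w0, hw0, hw0'⟩ := KB_omit hd hi h0
  have hw0ne : w0 ≠ 0 := by
    rintro rfl
    exact hw0' ⟨0, hz0, h0⟩
  have hw0pos : 0 < ‖w0‖ := norm_pos_iff.2 hw0ne
  have hne : ∀ y ∈ ball (0 : ℂ) 1, 1 - H y / w0 ≠ 0 := by
    intro y hy h
    apply hw0'
    refine ⟨y, hy, ?_⟩
    have h1 : H y / w0 = 1 := (sub_eq_zero.1 h).symm
    rwa [div_eq_one_iff_eq hw0ne] at h1
  obtain ⟨k, hk, hk2, hk0⟩ := exists_sqrt isOpen_ball (convex_ball (0 : ℂ) 1)
    ((hd.div_const w0).const_sub 1) hne hz0 (s0 := 1) (by rw [h0]; simp)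
  have hki : ∀ y ∈ ball (0 : ℂ) 1, ∀ y' ∈ ball (0 : ℂ) 1, k y ^ 2 = k y' ^ 2 → y = y' := by
    intro y hy y' hy' he
    rw [hk2 y hy, hk2 y' hy'] at he
    apply hi hy hy'
    have h1 : H y / w0 = H y' / w0 := by linear_combination -he
    rwa [div_left_inj' hw0ne] at h1
  have hkinj : InjOn k (ball 0 1) := fun y hy y' hy' he => hki y hy y' hy' (by rw [he])
  have hkd : deriv k 0 * (2 * w0) = -deriv H 0 := by
    have h1 : HasDerivAt k (deriv k 0) 0 := (hk.differentiableAt (ball_mem_nhds 0 one_pos)).hasDerivAt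
    have h2 := h1.fun_pow 2
    have h3 : (fun y => k y ^ 2) =ᶠ[nhds 0] fun y => 1 - H y / w0 := by
      filter_upwards [ball_mem_nhds (0 : ℂ) one_pos] with y hy
      exact hk2 y hy
    have h4 : HasDerivAt H (deriv H 0) 0 := (hd.differentiableAt (ball_mem_nhds 0 one_pos)).hasDerivAt
    have h5 : HasDerivAt (fun y => 1 - H y / w0) (-(deriv H 0 / w0)) 0 := (h4.div_const w0).const_sub 1
    have h6 := h3.deriv_eq
    have h2' : HasDerivAt (fun y => k y ^ 2) (2 * k 0 * deriv k 0) 0 := by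
      simpa using h2
    rw [h2'.deriv, h5.deriv, hk0] at h6
    have h7 : deriv k 0 * 2 * w0 = -(deriv H 0 / w0) * w0 := by rw [← h6]; ring
    rw [neg_mul, div_mul_cancel₀ _ hw0ne] at h7
    rw [← h7]
    ring
  have hkd4 : 1 / 4 ≤ ‖deriv k 0‖ := by
    have h1 : ‖deriv k 0‖ * (2 * ‖w0‖) = ‖deriv H 0‖ := by
      have := congrArg norm hkd
      rw [norm_mul, norm_neg, norm_mul] at this
      simpa using this
    by_contra hc
    push Not at hc
    have h2 : ‖deriv k 0‖ * (2 * ‖w0‖) < 1 / 4 * (2 * ‖w0‖) := by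
      apply mul_lt_mul_of_pos_right hc
      positivity
    linarith
  have hsub := hK k 0 1 one_pos hk hkinj
  rw [hk0, mul_one] at hsub
  have hfar : ∀ y ∈ ball (0 : ℂ) 1, κ / 4 ≤ ‖k y + 1‖ := by
    intro y hy
    by_contra hc
    push Not at hc
    have h1 : -k y ∈ ball (1 : ℂ) (κ * ‖deriv k 0‖) := by
      rw [mem_ball, dist_eq_norm]
      have h2 : -k y - 1 = -(k y + 1) := by ring
      rw [h2, norm_neg]
      nlinarith
    obtain ⟨y', hy', he⟩ := hsub h1
    have h3 : y = y' := hki y hy y' hy' (by rw [he]; ring)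
    rw [← h3] at he
    have h4 : k y = 0 := by
      have : (2 : ℂ) * k y = 0 := by linear_combination he
      simpa using this
    have h5 := hk2 y hy
    rw [h4] at h5
    exact hne y hy (by rw [← h5]; ring)
  have hkne : ∀ y ∈ ball (0 : ℂ) 1, k y + 1 ≠ 0 := by
    intro y hy h
    have := hfar y hy
    rw [h, norm_zero] at this
    linarith [show 0 < κ / 4 by positivity]
  have hz1 : z ∈ ball (0 : ℂ) 1 := ball_subset_ball (by norm_num) hz
  have hgM : ∀ y ∈ ball (0 : ℂ) 1, ‖(k y + 1)⁻¹‖ ≤ M := by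
    intro y hy
    rw [norm_inv]
    have h1 := hfar y hy
    have h2 : ‖k y + 1‖⁻¹ ≤ (κ / 4)⁻¹ := inv_anti₀ (by positivity) h1
    have h3 : (κ / 4)⁻¹ = 4 / κ := by rw [inv_div]
    rw [h3] at h2
    linarith
  have hhar := (harnack (g := fun y => (k y + 1)⁻¹) ((hk.add_const 1).inv hkne)
    (fun y hy => inv_ne_zero (hkne y hy)) hgM hz1).2
  have hk0' : ‖(k 0 + 1)⁻¹‖ = 1 / 2 := by
    rw [hk0, norm_inv]
    norm_num
  simp only [hk0'] at hhar
  have hlog : 0 ≤ Real.log (M / (1 / 2)) := by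
    apply Real.log_nonneg
    rw [le_div_iff₀ (by norm_num)]
    linarith
  have hznorm : ‖z‖ < 3 / 4 := mem_ball_zero_iff.1 hz
  have hzn0 : 0 ≤ ‖z‖ := norm_nonneg z
  have hfac : (1 + ‖z‖) / (1 - ‖z‖) ≤ 7 := by
    rw [div_le_iff₀ (by linarith)]
    linarith
  have hle : Real.log (M / ‖(k z + 1)⁻¹‖) ≤ 7 * Real.log (M / (1 / 2)) :=
    hhar.trans (mul_le_mul_of_nonneg_right hfac hlog)
  have hkz1 : 0 < ‖(k z + 1)⁻¹‖ := norm_pos_iff.2 (inv_ne_zero (hkne z hz1))
  have e1 : M / (1 / 2) = 2 * M := by ring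
  have e2 : (7 : ℝ) * Real.log (2 * M) = Real.log ((2 * M) ^ 7) := by
    rw [Real.log_pow]
    norm_num
  rw [e1, e2, Real.log_le_log_iff (by positivity) (by positivity), norm_inv, div_inv_eq_mul] at hle
  have hk1 : ‖k z + 1‖ ≤ C1 := by
    rw [hC1, le_div_iff₀ hM0, mul_comm]
    exact hle
  have hk3 : ‖k z‖ ≤ C1 + 1 := by
    have h1 : ‖k z‖ ≤ ‖k z + 1‖ + ‖(1 : ℂ)‖ := by
      have := norm_sub_le (k z + 1) 1
      rwa [add_sub_cancel_right] at this
    rw [norm_one] at h1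
    linarith
  have hHz : H z = w0 * (1 - k z ^ 2) := by
    rw [hk2 z hz1]
    field_simp
    ring
  rw [hHz, norm_mul]
  have h8 : ‖1 - k z ^ 2‖ ≤ 1 + (C1 + 1) ^ 2 := by
    have h1 := norm_sub_le (1 : ℂ) (k z ^ 2)
    rw [norm_one, norm_pow] at h1
    have h2 : ‖k z‖ ^ 2 ≤ (C1 + 1) ^ 2 := pow_le_pow_left₀ (norm_nonneg _) hk3 2
    linarith
  calc ‖w0‖ * ‖1 - k z ^ 2‖ ≤ (2 * ‖deriv H 0‖) * (1 + (C1 + 1) ^ 2) :=
        mul_le_mul hw0 h8 (norm_nonneg _) (by positivity)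
    _ = 2 * (1 + (C1 + 1) ^ 2) * ‖deriv H 0‖ := by ring

theorem growth : ∃ C : ℝ, 1 ≤ C ∧ ∀ (h : ℂ → ℂ) (x : ℂ) (r : ℝ), 0 < r →
    DifferentiableOn ℂ h (ball x r) → InjOn h (ball x r) →
      ∀ z ∈ ball x (3 * r / 4), ‖h z - h x‖ ≤ C * r * ‖deriv h x‖ := by
  obtain ⟨C, hC1, hC⟩ := KB_growth0
  refine ⟨C, hC1, ?_⟩
  intro h x r hr hd hi z hz
  have hrC : (r : ℂ) ≠ 0 := by exact_mod_cast hr.ne'
  have hmem : ∀ u : ℂ, ‖u‖ < 1 → x + r * u ∈ ball x r := by
    intro u hu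
    rw [mem_ball, dist_eq_norm, add_sub_cancel_left, norm_mul, Complex.norm_real, Real.norm_eq_abs, abs_of_pos hr]
    nlinarith
  have hmaps : MapsTo (fun u : ℂ => x + r * u) (ball 0 1) (ball x r) := fun u hu => hmem u (mem_ball_zero_iff.1 hu)
  have hder0 : HasDerivAt (fun u : ℂ => x + r * u) r 0 := by
    have h1 := ((hasDerivAt_id (0 : ℂ)).const_mul (r : ℂ)).const_add x
    simpa using h1
  have hH := hC (fun u => h (x + r * u) - h x) (by
      refine (hd.comp ?_ hmaps).sub_const _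
      fun_prop) (by
      intro u hu u' hu' he
      have h1 : h (x + r * u) = h (x + r * u') := sub_left_inj.1 he
      have h2 := hi (hmaps hu) (hmaps hu') h1
      have h3 : (r : ℂ) * u = r * u' := add_left_cancel h2
      exact mul_left_cancel₀ hrC h3) (by simp) ((z - x) / r) (by
      rw [mem_ball_zero_iff, norm_div, Complex.norm_real, Real.norm_eq_abs, abs_of_pos hr, div_lt_iff₀ hr, ← dist_eq_norm]
      have := mem_ball.1 hz
      linarith)
  have e1 : x + (r : ℂ) * ((z - x) / r) = z := by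
    field_simp
    ring
  have e2 : deriv (fun u => h (x + r * u) - h x) 0 = deriv h x * r := by
    have h1 : HasDerivAt h (deriv h x) (x + r * 0) := by
      rw [mul_zero, add_zero]
      exact (hd.differentiableAt (ball_mem_nhds x hr)).hasDerivAt
    exact ((h1.comp (0 : ℂ) hder0).sub_const (h x)).deriv
  simp only [e1, e2] at hH
  rw [norm_mul, Complex.norm_real, Real.norm_eq_abs, abs_of_pos hr] at hH
  linarith

theorem distortion : ∃ C : ℝ, 1 ≤ C ∧ ∀ (h : ℂ → ℂ) (x : ℂ) (r : ℝ), 0 < r →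
    DifferentiableOn ℂ h (ball x r) → InjOn h (ball x r) → ∀ z ∈ ball x (r / 2),
      ‖deriv h z‖ ≤ C * ‖deriv h x‖ ∧ ‖deriv h x‖ ≤ C * ‖deriv h z‖ := by
  obtain ⟨C, hC1, hC⟩ := growth
  have key : ∀ (h : ℂ → ℂ) (x : ℂ) (r : ℝ), 0 < r →
      DifferentiableOn ℂ h (ball x r) → InjOn h (ball x r) → ∀ z ∈ ball x (r / 2),
      ‖deriv h z‖ ≤ 8 * C * ‖deriv h x‖ := by
    intro h x r hr hd hi z hz
    have hz' := mem_ball.1 hz
    have hsub : ball z (r / 4) ⊆ ball x (3 * r / 4) := by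
      intro y hy
      have h1 := mem_ball.1 hy
      rw [mem_ball]
      have := dist_triangle y z x
      linarith
    have hsub2 : ball z (r / 4) ⊆ ball x r := fun y hy => ball_subset_ball (by linarith) (hsub hy)
    have h1 : DiffContOnCl ℂ (fun y => h y - h x) (ball z (r / 8)) := by
      apply DifferentiableOn.diffContOnCl
      have h2 : closure (ball z (r / 8)) ⊆ ball x r := by
        refine (closure_ball_subset_closedBall).trans ?_
        intro y hy
        apply hsub2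
        rw [mem_ball]
        have := mem_closedBall.1 hy
        linarith
      exact (hd.sub_const _).mono h2
    have h3 := Complex.norm_deriv_le_of_forall_mem_sphere_norm_le (show 0 < r / 8 by positivity) h1
      (C := C * r * ‖deriv h x‖) (by
        intro y hy
        apply hC h x r hr hd hi
        apply hsub
        rw [mem_ball, mem_sphere.1 hy]
        linarith)
    rw [deriv_sub_const] at h3
    have h4 : C * r * ‖deriv h x‖ / (r / 8) = 8 * C * ‖deriv h x‖ := by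
      field_simp
    rwa [h4] at h3
  refine ⟨(8 * C) ^ 2, by nlinarith, ?_⟩
  intro h x r hr hd hi z hz
  have h8 : 1 ≤ 8 * C := by linarith
  constructor
  · refine (key h x r hr hd hi z hz).trans ?_
    have : 8 * C ≤ (8 * C) ^ 2 := by nlinarith
    exact mul_le_mul_of_nonneg_right this (norm_nonneg _)
  · have hz' := mem_ball.1 hz
    set m : ℂ := (x + z) / 2 with hm
    have hxm : dist x m = dist z x / 2 := by
      rw [dist_eq_norm, dist_eq_norm, hm]
      have : x - (x + z) / 2 = (z - x) * (-(1 / 2)) := by ring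
      rw [this, norm_mul]
      norm_num
      ring
    have hmz : dist m z = dist z x / 2 := by
      rw [dist_eq_norm, dist_eq_norm, hm]
      have : (x + z) / 2 - z = (z - x) * (-(1 / 2)) := by ring
      rw [this, norm_mul]
      norm_num
      ring
    have hs1 : ball m (r / 2) ⊆ ball x r := by
      intro y hy
      have h1 := mem_ball.1 hy
      rw [mem_ball]
      have h2 := dist_triangle y m x
      rw [dist_comm m x] at h2
      linarith
    have hs2 : ball z (r / 2) ⊆ ball x r := by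
      intro y hy
      have h1 := mem_ball.1 hy
      rw [mem_ball]
      have h2 := dist_triangle y z x
      linarith
    have k1 := key h m (r / 2) (by positivity) (hd.mono hs1) (hi.mono hs1) x (by rw [mem_ball]; linarith)
    have k2 := key h z (r / 2) (by positivity) (hd.mono hs2) (hi.mono hs2) m (by rw [mem_ball]; linarith)
    calc ‖deriv h x‖ ≤ 8 * C * ‖deriv h m‖ := k1
      _ ≤ 8 * C * (8 * C * ‖deriv h z‖) := mul_le_mul_of_nonneg_left k2 (by linarith)
      _ = (8 * C) ^ 2 * ‖deriv h z‖ := by ring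

end Pool.Agent.CR
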