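import Pool.Agent.H73.CR.Defs

/-!
# CR B0: inverse branches of the iterates on convex open sets

`exists_sqrt`: `Complex.exists_continuousOn_pow_eq` (Mathlib, BranchLogRoot; a convex open set is
simply connected) gives a continuous square root `s` of `g`; it is holomorphic because
`s(z) - s(z') = (g(z) - g(z')) / (s(z) + s(z'))`, `s(z) + s(z') → 2 s(z') ≠ 0`; change the sign of `s` if necessary.
`exists_inv`: `f l y = b` iff `(y + l/2)^2 = b - v l`, with `v l = -l^2/4`.
`exists_inv_iter`: induction on `n`. With `y1 = (f l)^[n] y0` one has `f l y1 = β x0`; take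
`η1` from `exists_inv` with `η1 x0 = y1`; `η1 z ≠ (f l)^[k] (v l)` for `k < n`, since otherwise
`β z = (f l)^[k+1] (v l)`; apply the induction hypothesis to `η1`.
`inv_unique`: induction on `n`; for `n = 1`: `{z ∈ Ω | η z = η' z}` and `{z ∈ Ω | η z + η' z = -l}` are
closed in `Ω`, disjoint (both would give `η z = -l/2`, `β z = v l`) and cover `Ω`.
-/

set_option autoImplicit false

open Set

namespace Pool.Agent.CR

/-- a continuous lift of a holomorphic function through a local biholomorphism is holomorphic -/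
private theorem B0_diff {F L g : ℂ → ℂ} {z F' : ℂ} (hF : HasDerivAt F F' (L z)) (hF' : F' ≠ 0)
    (hL : ContinuousAt L z) (hg : DifferentiableAt ℂ g z) (h : ∀ᶠ w in nhds z, F (L w) = g w) :
    DifferentiableAt ℂ L z := by
  have h0 : F (L z) = g z := h.self_of_nhds
  have hd : ContinuousAt (dslope F (L z)) (L z) := continuousAt_dslope_same.2 hF.differentiableAt
  have hφ : Filter.Tendsto (fun w => dslope F (L z) (L w)) (nhdsWithin z {z}ᶜ) (nhds F') := by
    have h1 : Filter.Tendsto (fun w => dslope F (L z) (L w)) (nhds z)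
        (nhds (dslope F (L z) (L z))) := hd.tendsto.comp hL
    rw [dslope_same, hF.deriv] at h1
    exact h1.mono_left nhdsWithin_le_nhds
  have hgs := hasDerivAt_iff_tendsto_slope.1 hg.hasDerivAt
  have hq := hgs.div hφ hF'
  have hd2 : HasDerivAt L (deriv g z / F') z := by
    rw [hasDerivAt_iff_tendsto_slope]
    refine hq.congr' ?_
    filter_upwards [hφ.eventually_ne hF', nhdsWithin_le_nhds h] with w hw hw2
    have h2 := sub_smul_dslope F (L z) (L w)
    rw [hw2, h0, smul_eq_mul] at h2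
    simp only [slope_def_field, Pi.div_apply]
    rw [div_div, mul_comm (w - z), ← div_div, ← h2, mul_div_cancel_right₀ _ hw]
  exact hd2.differentiableAt

theorem exists_log {Ω : Set ℂ} (ho : IsOpen Ω) (hc : Convex ℝ Ω) {g : ℂ → ℂ}
    (hg : DifferentiableOn ℂ g Ω) (h0 : ∀ z ∈ Ω, g z ≠ 0) {x0 s0 : ℂ} (hx : x0 ∈ Ω)
    (hs : Complex.exp s0 = g x0) :
    ∃ s : ℂ → ℂ, DifferentiableOn ℂ s Ω ∧ (∀ z ∈ Ω, Complex.exp (s z) = g z) ∧ s x0 = s0 := by
  have hcs : ContractibleSpace Ω := hc.contractibleSpace ⟨x0, hx⟩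
  have hsc : SimplyConnectedSpace Ω := inferInstance
  obtain ⟨s, hs1, hs2⟩ := Complex.exists_continuousOn_eqOn_exp_comp (U := Ω) hsc ho
    hg.continuousOn (by
      rintro ⟨z, hz, hz0⟩
      exact h0 z hz hz0)
  have hs2' : ∀ z ∈ Ω, Complex.exp (s z) = g z := fun z hz => hs2 hz
  have hsd : DifferentiableOn ℂ s Ω := by
    intro z hz
    apply DifferentiableAt.differentiableWithinAt
    apply B0_diff (F := Complex.exp) (g := g) (Complex.hasDerivAt_exp (s z)) (Complex.exp_ne_zero _)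
      (hs1.continuousAt (ho.mem_nhds hz)) (hg.differentiableAt (ho.mem_nhds hz))
    filter_upwards [ho.mem_nhds hz] with w hw
    exact hs2' w hw
  refine ⟨fun z => s z + (s0 - s x0), hsd.add_const _, ?_, by ring⟩
  intro z hz
  simp only
  rw [Complex.exp_add, hs2' z hz, Complex.exp_sub, hs, hs2' x0 hx, div_self (h0 x0 hx), mul_one]

theorem exists_sqrt {Ω : Set ℂ} (ho : IsOpen Ω) (hc : Convex ℝ Ω) {g : ℂ → ℂ}
    (hg : DifferentiableOn ℂ g Ω) (h0 : ∀ z ∈ Ω, g z ≠ 0) {x0 s0 : ℂ} (hx : x0 ∈ Ω)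
    (hs : s0 ^ 2 = g x0) :
    ∃ s : ℂ → ℂ, DifferentiableOn ℂ s Ω ∧ (∀ z ∈ Ω, s z ^ 2 = g z) ∧ s x0 = s0 := by
  have hs00 : s0 ≠ 0 := by
    rintro rfl
    apply h0 x0 hx
    rw [← hs]
    ring
  have hexp : Complex.exp (2 * Complex.log s0) = g x0 := by
    have h1 : (2 : ℂ) * Complex.log s0 = ((2 : ℕ) : ℂ) * Complex.log s0 := by norm_num
    rw [h1, Complex.exp_nat_mul, Complex.exp_log hs00, hs]
  obtain ⟨t, ht1, ht2, ht3⟩ := exists_log ho hc hg h0 hx hexp
  refine ⟨fun z => Complex.exp (t z / 2), ?_, ?_, ?_⟩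
  · exact (ht1.div_const 2).cexp
  · intro z hz
    simp only
    rw [← Complex.exp_nat_mul, ← ht2 z hz]
    congr 1
    push_cast
    ring
  · simp only
    rw [ht3, mul_div_cancel_left₀ _ two_ne_zero, Complex.exp_log hs00]

private theorem B0_square (l y : ℂ) : (y + l / 2) ^ 2 = f l y - v l := by
  unfold f v
  ring

theorem exists_inv (l : ℂ) {Ω : Set ℂ} (ho : IsOpen Ω) (hc : Convex ℝ Ω) {β : ℂ → ℂ}
    (hβ : DifferentiableOn ℂ β Ω) (hv : ∀ z ∈ Ω, β z ≠ v l) {x0 y0 : ℂ} (hx : x0 ∈ Ω)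
    (hy : f l y0 = β x0) :
    ∃ η : ℂ → ℂ, DifferentiableOn ℂ η Ω ∧ (∀ z ∈ Ω, f l (η z) = β z) ∧ η x0 = y0 := by
  obtain ⟨s, hs1, hs2, hs3⟩ := exists_sqrt ho hc (g := fun z => β z - v l) (hβ.sub_const _)
    (fun z hz => sub_ne_zero.mpr (hv z hz)) hx (s0 := y0 + l / 2) (by rw [B0_square, hy])
  refine ⟨fun z => s z - l / 2, hs1.sub_const _, ?_, ?_⟩
  · intro z hz
    have h1 := B0_square l (s z - l / 2)
    rw [sub_add_cancel, hs2 z hz] at h1
    simp only
    linear_combination -h1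
  · simp only
    rw [hs3]
    ring

theorem exists_inv_iter (l : ℂ) {Ω : Set ℂ} (ho : IsOpen Ω) (hc : Convex ℝ Ω) {β : ℂ → ℂ}
    (hβ : DifferentiableOn ℂ β Ω) {n : ℕ} (hv : ∀ z ∈ Ω, ∀ k < n, β z ≠ (f l)^[k] (v l))
    {x0 y0 : ℂ} (hx : x0 ∈ Ω) (hy : (f l)^[n] y0 = β x0) :
    ∃ η : ℂ → ℂ, DifferentiableOn ℂ η Ω ∧ (∀ z ∈ Ω, (f l)^[n] (η z) = β z) ∧ η x0 = y0 := by
  induction n generalizing β with
  | zero => exact ⟨β, hβ, fun z _ => rfl, hy.symm⟩
  | succ n ih =>
    rw [Function.iterate_succ_apply'] at hy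
    obtain ⟨η1, h1, h2, h3⟩ := exists_inv l ho hc hβ
      (fun z hz => hv z hz 0 (Nat.succ_pos n)) hx hy
    obtain ⟨η, h4, h5, h6⟩ := ih h1 (fun z hz k hk h0 => hv z hz (k + 1) (by omega) (by
      rw [Function.iterate_succ_apply', ← h0, h2 z hz])) h3.symm
    refine ⟨η, h4, fun z hz => ?_, h6⟩
    rw [Function.iterate_succ_apply', h5 z hz, h2 z hz]

private theorem B0_unique (l : ℂ) {X : Type*} [TopologicalSpace X] {Ω : Set X}
    (hc : IsPreconnected Ω) {β η η' : X → ℂ} (hv : ∀ z ∈ Ω, β z ≠ v l)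
    (hη : ContinuousOn η Ω) (hη' : ContinuousOn η' Ω) (h1 : ∀ z ∈ Ω, f l (η z) = β z)
    (h2 : ∀ z ∈ Ω, f l (η' z) = β z) {x0 : X} (hx : x0 ∈ Ω) (h0 : η x0 = η' x0) :
    ∀ z ∈ Ω, η z = η' z := by
  have h := hc.eq_of_sq_eq (f := fun z => η z + l / 2) (g := fun z => η' z + l / 2)
    (hη.add continuousOn_const) (hη'.add continuousOn_const) (by
      intro z hz
      simp only [Pi.pow_apply]
      rw [B0_square, B0_square, h1 z hz, h2 z hz]) (by
      intro z hz h3
      apply hv z hz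
      have h4 := B0_square l (η' z)
      rw [h3, h2 z hz] at h4
      have h5 : β z - v l = 0 := by rw [← h4]; ring
      exact sub_eq_zero.mp h5) hx (by simp only [h0])
  intro z hz
  have h6 := h hz
  simp only at h6
  exact add_right_cancel h6

private theorem B0_cont (l : ℂ) (n : ℕ) : Continuous ((f l)^[n]) := by
  apply Continuous.iterate
  unfold f
  fun_prop

theorem inv_unique (l : ℂ) {X : Type*} [TopologicalSpace X] {Ω : Set X} (hc : IsPreconnected Ω)
    {β η η' : X → ℂ} {n : ℕ} (hv : ∀ z ∈ Ω, ∀ k < n, β z ≠ (f l)^[k] (v l))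
    (hη : ContinuousOn η Ω) (hη' : ContinuousOn η' Ω) (h1 : ∀ z ∈ Ω, (f l)^[n] (η z) = β z)
    (h2 : ∀ z ∈ Ω, (f l)^[n] (η' z) = β z) {x0 : X} (hx : x0 ∈ Ω) (h0 : η x0 = η' x0) :
    ∀ z ∈ Ω, η z = η' z := by
  induction n generalizing β with
  | zero =>
    intro z hz
    have h3 := h1 z hz
    have h4 := h2 z hz
    simp only [Function.iterate_zero, id_eq] at h3 h4
    rw [h3, h4]
  | succ n ih =>
    have h1' : ∀ z ∈ Ω, f l ((f l)^[n] (η z)) = β z := fun z hz => by
      rw [← Function.iterate_succ_apply' (f l) n (η z)]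
      exact h1 z hz
    have h2' : ∀ z ∈ Ω, f l ((f l)^[n] (η' z)) = β z := fun z hz => by
      rw [← Function.iterate_succ_apply' (f l) n (η' z)]
      exact h2 z hz
    have h3 := B0_unique l hc (fun z hz => hv z hz 0 (Nat.succ_pos n))
      ((B0_cont l n).comp_continuousOn hη) ((B0_cont l n).comp_continuousOn hη') h1' h2' hx
      (by simp only [Function.comp_apply, h0])
    apply ih (β := fun z => (f l)^[n] (η z))
    · intro z hz k hk h4
      apply hv z hz (k + 1) (by omega)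
      rw [Function.iterate_succ_apply', ← h4, h1' z hz]
    · intro z _
      rfl
    · intro z hz
      exact (h3 z hz).symm

end Pool.Agent.CR
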