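import Pool.Agent.H73.CR.B0

/-!
# CR B1: the filled Julia set for `‖l‖ ≤ 1`; the critical orbit is bounded

`norm_f_gt`: `‖z^2 + l z‖ ≥ ‖z‖ (‖z‖ - 1)`.
`tendsto_escape`: from `‖f z‖ ≥ ‖z‖ (‖z‖ - 1)`: with `δ = ‖z‖ - 2 > 0` all iterates satisfy
`‖f^[n] z‖ ≥ ‖z‖ (1 + δ)^n`.
`v_mem_K`: for `l = 0` trivial. For `0 < ‖l‖ < 1` suppose some iterate of `v l` has norm `> 2`. Let
`r = 1 - ‖l‖`; `ball 0 r` is forward invariant, so no iterate of `v l` lies in it (`tendsto_escape`).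
By `exists_inv_iter` with `β = id` there are holomorphic `h n` on `ball 0 r` with `f^[n] (h n z) = z`,
`h n 0 = 0`; `‖h n z‖ ≤ 2` (otherwise it escapes), `deriv (h n) 0 = l^(-n)` (chain rule;
`deriv (f l)^[n] 0 = l^n`); Cauchy's estimate bounds it by `4 / r`, a contradiction.
For `‖l‖ = 1`: `(f l)^[n] (v l)` is continuous in `l`, limit of `s l`, `s → 1-`.
-/

set_option autoImplicit false

open Set Filter Topology

namespace Pool.Agent.CR

private theorem B1_f_eq (l z : ℂ) : f l z = z * (z + l) := by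
  unfold f
  ring

theorem norm_f_ge {l z : ℂ} (hl : ‖l‖ ≤ 1) : ‖z‖ * (‖z‖ - 1) ≤ ‖f l z‖ := by
  rw [B1_f_eq, norm_mul]
  refine mul_le_mul_of_nonneg_left ?_ (norm_nonneg _)
  have h1 : ‖z‖ ≤ ‖z + l‖ + ‖l‖ := by
    calc ‖z‖ = ‖(z + l) - l‖ := by rw [add_sub_cancel_right]
      _ ≤ _ := norm_sub_le _ _
  linarith

theorem norm_f_gt {l z : ℂ} (hl : ‖l‖ ≤ 1) (hz : 2 < ‖z‖) : ‖z‖ < ‖f l z‖ := by
  have h1 := norm_f_ge (z := z) hl
  nlinarith

theorem tendsto_escape {l z : ℂ} (hl : ‖l‖ ≤ 1) (hz : 2 < ‖z‖) :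
    Tendsto (fun n => ‖(f l)^[n] z‖) atTop atTop := by
  have h1 : ∀ n : ℕ, ‖z‖ * (‖z‖ - 1) ^ n ≤ ‖(f l)^[n] z‖ := by
    intro n
    induction n with
    | zero => simp
    | succ n ih =>
      rw [Function.iterate_succ_apply']
      have h2 := norm_f_ge (z := (f l)^[n] z) hl
      have h3 : (1 : ℝ) ≤ (‖z‖ - 1) ^ n := one_le_pow₀ (by linarith)
      have h4 : ‖z‖ ≤ ‖(f l)^[n] z‖ := by nlinarith
      calc ‖z‖ * (‖z‖ - 1) ^ (n + 1) = (‖z‖ * (‖z‖ - 1) ^ n) * (‖z‖ - 1) := by ring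
        _ ≤ ‖(f l)^[n] z‖ * (‖(f l)^[n] z‖ - 1) :=
          mul_le_mul ih (by linarith) (by linarith) (norm_nonneg _)
        _ ≤ _ := h2
  refine tendsto_atTop_mono h1 ?_
  exact Tendsto.const_mul_atTop (by linarith) (tendsto_pow_atTop_atTop_of_one_lt (by linarith))

theorem mem_K_iff {l z : ℂ} (hl : ‖l‖ ≤ 1) :
    z ∈ K l ↔ ∃ C : ℝ, ∀ n : ℕ, ‖(f l)^[n] z‖ ≤ C := by
  constructor
  · intro h
    exact ⟨2, h⟩
  · rintro ⟨C, hC⟩ n
    by_contra hcon
    push Not at hcon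
    have h1 := tendsto_escape hl hcon
    obtain ⟨m, hm⟩ := (h1.eventually (eventually_gt_atTop C)).exists
    have h2 := hC (m + n)
    rw [Function.iterate_add_apply] at h2
    linarith

theorem f_mem_K {l z : ℂ} (hl : ‖l‖ ≤ 1) : f l z ∈ K l ↔ z ∈ K l := by
  rw [mem_K_iff hl, mem_K_iff hl]
  constructor
  · rintro ⟨C, hC⟩
    refine ⟨max C ‖z‖, fun n => ?_⟩
    rcases n with _ | n
    · simp
    · rw [Function.iterate_succ_apply]
      exact (hC n).trans (le_max_left _ _)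
  · rintro ⟨C, hC⟩
    refine ⟨C, fun n => ?_⟩
    have h1 := hC (n + 1)
    rwa [Function.iterate_succ_apply] at h1

theorem iter_mem_K {l z : ℂ} (hl : ‖l‖ ≤ 1) (n : ℕ) : (f l)^[n] z ∈ K l ↔ z ∈ K l := by
  induction n with
  | zero => simp
  | succ n ih => rw [Function.iterate_succ_apply', f_mem_K hl, ih]

theorem zero_mem_K (l : ℂ) : (0 : ℂ) ∈ K l := by
  intro n
  have h1 : (f l)^[n] 0 = 0 := Function.iterate_fixed (by unfold f; simp) n
  rw [h1, norm_zero]
  norm_num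

private theorem B1_cont : ∀ n : ℕ, Continuous fun p : ℂ × ℂ => (f p.1)^[n] p.2 := by
  intro n
  induction n with
  | zero => exact continuous_snd
  | succ n ih =>
    have h1 : (fun p : ℂ × ℂ => (f p.1)^[n + 1] p.2) =
        (fun p : ℂ × ℂ => (f p.1)^[n] p.2) ∘ fun p : ℂ × ℂ => (p.1, f p.1 p.2) := by
      funext p
      rw [Function.iterate_succ_apply]
      rfl
    rw [h1]
    refine ih.comp ?_
    unfold f
    fun_prop

theorem isCompact_K (l : ℂ) : IsCompact (K l) := by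
  refine Metric.isCompact_of_isClosed_isBounded ?_ ?_
  · have h1 : K l = ⋂ n : ℕ, {z | ‖(f l)^[n] z‖ ≤ 2} := by
      ext z
      simp [K]
    rw [h1]
    refine isClosed_iInter fun n => ?_
    have h2 : Continuous fun z => (f l)^[n] z :=
      (B1_cont n).comp (continuous_const.prodMk continuous_id : Continuous fun z : ℂ => (l, z))
    exact isClosed_le h2.norm continuous_const
  · refine (Metric.isBounded_closedBall (x := (0 : ℂ)) (r := 2)).subset fun z hz => ?_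
    have h1 := hz 0
    simpa using h1

theorem iter_hasDerivAt_zero (l : ℂ) (n : ℕ) : HasDerivAt ((f l)^[n]) (l ^ n) 0 := by
  have hfix : f l 0 = 0 := by unfold f; simp
  have h2 : HasDerivAt (f l) (2 * (0 : ℂ) + l) 0 := by
    have h3 : HasDerivAt (fun z : ℂ => z ^ 2) (2 * (0 : ℂ)) 0 := by
      simpa using hasDerivAt_pow 2 (0 : ℂ)
    have h4 : HasDerivAt (fun z : ℂ => l * z) l 0 := by
      simpa using (hasDerivAt_id (0 : ℂ)).const_mul l
    exact h3.add h4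
  rw [mul_zero, zero_add] at h2
  exact HasDerivAt.iterate 0 h2 hfix n

private theorem B1_ball {l : ℂ} {z : ℂ} (hz : z ∈ Metric.ball (0 : ℂ) (1 - ‖l‖)) :
    z ∈ K l := by
  have h0 : ‖z‖ < 1 - ‖l‖ := by simpa using hz
  have h1 : ∀ n : ℕ, ‖(f l)^[n] z‖ < 1 - ‖l‖ := by
    intro n
    induction n with
    | zero => simpa using h0
    | succ n ih =>
      rw [Function.iterate_succ_apply', B1_f_eq, norm_mul]
      have h2 := norm_add_le ((f l)^[n] z) l
      have h3 := norm_nonneg ((f l)^[n] z)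
      have h4 := norm_nonneg l
      nlinarith
  intro n
  have h2 := h1 n
  have h3 := norm_nonneg l
  linarith

private theorem B1_lt {l : ℂ} (hl : ‖l‖ < 1) (h0 : l ≠ 0) : v l ∈ K l := by
  by_contra hcon
  set r := 1 - ‖l‖ with hr
  have hr0 : 0 < r := by linarith
  have hv : ∀ (n : ℕ), ∀ z ∈ Metric.ball (0 : ℂ) r, ∀ k < n, id z ≠ (f l)^[k] (v l) := by
    intro n z hz k _ he
    apply hcon
    rw [← iter_mem_K hl.le k, ← he]
    exact B1_ball hz
  have key : ∀ n : ℕ, 1 ≤ ‖l‖ ^ n * (4 / r) := by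
    intro n
    have hfix : (f l)^[n] 0 = 0 := Function.iterate_fixed (by unfold f; simp) n
    obtain ⟨η, h1, h2, h3⟩ := exists_inv_iter l (Metric.isOpen_ball (x := (0 : ℂ)) (ε := r))
      (convex_ball 0 r) differentiableOn_id (hv n) (x0 := 0) (y0 := 0)
      (Metric.mem_ball_self hr0) (by rw [hfix]; rfl)
    have h4 : ∀ z ∈ Metric.ball (0 : ℂ) r, ‖η z‖ ≤ 2 := by
      intro z hz
      have h5 : η z ∈ K l := by
        rw [← iter_mem_K hl.le n, h2 z hz]
        exact B1_ball hz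
      exact h5 0
    have hsub : Metric.closedBall (0 : ℂ) (r / 2) ⊆ Metric.ball 0 r :=
      Metric.closedBall_subset_ball (by linarith)
    have h5 : ‖deriv η 0‖ ≤ 2 / (r / 2) := by
      refine Complex.norm_deriv_le_of_forall_mem_sphere_norm_le (by linarith)
        (h1.diffContOnCl_ball hsub) fun z hz => ?_
      exact h4 z (hsub (Metric.sphere_subset_closedBall hz))
    have h6 : HasDerivAt η (deriv η 0) 0 :=
      (h1.differentiableAt (Metric.isOpen_ball.mem_nhds (Metric.mem_ball_self hr0))).hasDerivAt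
    have h7 : HasDerivAt ((f l)^[n] ∘ η) (l ^ n * deriv η 0) 0 := by
      refine HasDerivAt.comp 0 ?_ h6
      rw [h3]
      exact iter_hasDerivAt_zero l n
    have h8 : HasDerivAt ((f l)^[n] ∘ η) 1 0 := by
      refine (hasDerivAt_id (0 : ℂ)).congr_of_eventuallyEq ?_
      filter_upwards [Metric.isOpen_ball.mem_nhds (Metric.mem_ball_self hr0)] with z hz
      exact h2 z hz
    have h9 := h7.unique h8
    have h10 : ‖l ^ n * deriv η 0‖ = 1 := by rw [h9, norm_one]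
    rw [norm_mul, norm_pow] at h10
    have h11 : 2 / (r / 2) = 4 / r := by
      field_simp
      norm_num
    rw [h11] at h5
    rw [← h10]
    exact mul_le_mul_of_nonneg_left h5 (by positivity)
  have h1 : Tendsto (fun n : ℕ => ‖l‖ ^ n * (4 / r)) atTop (𝓝 (0 * (4 / r))) :=
    (tendsto_pow_atTop_nhds_zero_of_lt_one (norm_nonneg _) hl).mul_const _
  rw [zero_mul] at h1
  have h2 := ge_of_tendsto' h1 key
  linarith

theorem v_mem_K {l : ℂ} (hl : ‖l‖ ≤ 1) : v l ∈ K l := by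
  by_cases h0 : l = 0
  · subst h0
    have h1 : v 0 = 0 := by unfold v; simp
    rw [h1]
    exact zero_mem_K 0
  rcases lt_or_eq_of_le hl with h1 | h1
  · exact B1_lt h1 h0
  intro n
  have hc : Continuous fun s : ℝ => ‖(f ((s : ℂ) * l))^[n] (v ((s : ℂ) * l))‖ := by
    have h2 : Continuous fun s : ℝ => (((s : ℂ) * l, v ((s : ℂ) * l)) : ℂ × ℂ) := by
      unfold v
      fun_prop
    exact ((B1_cont n).comp h2).norm
  have h2 : Tendsto (fun s : ℝ => ‖(f ((s : ℂ) * l))^[n] (v ((s : ℂ) * l))‖) (𝓝[<] (1 : ℝ))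
      (𝓝 ‖(f (((1 : ℝ) : ℂ) * l))^[n] (v (((1 : ℝ) : ℂ) * l))‖) :=
    (hc.tendsto 1).mono_left nhdsWithin_le_nhds
  rw [Complex.ofReal_one, one_mul] at h2
  refine le_of_tendsto h2 ?_
  have h3 : Set.Ioo (0 : ℝ) 1 ∈ 𝓝[<] (1 : ℝ) := Ioo_mem_nhdsLT (by norm_num)
  filter_upwards [h3] with s hs
  have h4 : ‖(s : ℂ) * l‖ < 1 := by
    rw [norm_mul, h1, mul_one, Complex.norm_real, Real.norm_eq_abs, abs_of_pos hs.1]
    exact hs.2
  have h5 : (s : ℂ) * l ≠ 0 := mul_ne_zero (by exact_mod_cast hs.1.ne') h0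
  exact B1_lt h4 h5 n

end Pool.Agent.CR
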