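import Pool.Agent.H73.CR.B1

/-!
# CR B2: `‖cf l k‖ ≤ 2` for `‖l‖ ≤ 1`

For `n : ℕ` put `ρ n = (1/4)^(1/2^n)` (so `ρ (n+1) ^ 2 = ρ n`, `ρ n → 1`). By induction on `n` there is `h` holomorphic on
`ball 0 (ρ n)` with `h 0 = 1`, `(f l)^[n] (h u / u) = (u⁻¹)^(2^n)` for `u ≠ 0`, `‖h u‖ ≤ 2`, whose Taylor coefficients
of degree `k < 2^n` are `cf l k`.
`n = 0`: `h = 1`. Step: let `H u = -l u / 2 + s u`, `s` the square root (`exists_sqrt`) of
`h (u^2) + l^2 u^2 / 4` on `ball 0 (ρ (n+1))` with `s 0 = 1`; this does not vanish: for `u ≠ 0` its zero would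
mean `h (u^2) / u^2 = v l`, but `(f l)^[n] (h (u^2) / u^2) = (u^2)⁻¹^(2^n)` has norm `> 4` and
`(f l)^[n] (v l)` has norm `≤ 2`. Then `H u ^ 2 + l u H u = h (u^2)`, i.e. `f l (H u / u) = h (u^2) / u^2`.
Bound: for `z = H u / u` (`u ≠ 0`), if `‖z‖ ≥ 2` then `‖f l z‖ - 1 ≥ (‖z‖ - 1)^2`, so
`(‖z‖ - 1)^(2^(n+1)) ≤ ‖(f l)^[n+1] z‖ - 1 < ‖u‖^(-2^(n+1))`, `‖z‖ ≤ 1 + 1/‖u‖`; hence `‖H u‖ ≤ max (2 ‖u‖) (1 + ‖u‖) ≤ 2`.
Coefficients: comparing the coefficients of degree `k + 1` in `H^2 + l u H = h (u^2)` gives the recursion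
of `cf` (strong induction in `k`, only the coefficients of degree `(k+1)/2 < 2^n` of `h` enter).
Then Cauchy's estimate: `‖cf l k‖ ≤ 2 / r^k` for all `r < ρ n`, all `n` with `k < 2^n`; let `r → 1`.
(Use `DifferentiableOn.hasFPowerSeriesOnBall` or `hasSum_taylorSeries_on_ball`, Cauchy products.)
-/

set_option autoImplicit false

open Set Filter Topology

namespace Pool.Agent.CR

theorem cf_zero (l : ℂ) : cf l 0 = 1 := by
  rw [cf]

theorem cf_succ (l : ℂ) (k : ℕ) : cf l (k + 1) =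
    ((if Even (k + 1) then cf l ((k + 1) / 2) else 0) - l * cf l k -
      ∑ i : Fin k, cf l (i + 1) * cf l (k - i)) / 2 := by
  rw [cf]

/-- `(∑ cf u^k)^2 + l u ∑ cf u^k = ∑ cf u^(2k)`, as an identity of coefficients. -/
theorem cf_conv (l : ℂ) (k : ℕ) :
    ∑ i ∈ Finset.range (k + 1), cf l i * cf l (k - i) + (if k = 0 then 0 else l * cf l (k - 1)) =
      if Even k then cf l (k / 2) else 0 := by
  cases k with
  | zero => simp [cf_zero]
  | succ k =>
    rw [Finset.sum_range_succ, Finset.sum_range_succ', if_neg (Nat.succ_ne_zero k)]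
    have h1 := cf_succ l k
    rw [Fin.sum_univ_eq_sum_range (fun i => cf l (i + 1) * cf l (k - i)) k] at h1
    have h2 : ∀ i, k + 1 - (i + 1) = k - i := fun i => by omega
    simp only [h2, Nat.sub_self, Nat.sub_zero, cf_zero]
    linear_combination 2 * h1

private theorem b2_continuous (k : ℕ) : Differentiable ℂ (fun l => cf l k) := by
  induction k using Nat.strong_induction_on with
  | _ k ih =>
    cases k with
    | zero => 
      simp only [cf_zero]
      exact differentiable_const _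
    | succ k =>
      rw [funext fun l => cf_succ l k]
      refine Differentiable.div_const (Differentiable.sub (Differentiable.sub ?_ ?_) ?_) _
      · split_ifs with h
        · exact ih _ (by omega)
        · exact differentiable_const _
      · exact differentiable_id.mul (ih k (by omega))
      · refine Differentiable.fun_sum fun i _ => ?_
        exact (ih _ (by omega)).mul (ih _ (by omega))

theorem cf_continuous (k : ℕ) : Continuous (fun l => cf l k) := (b2_continuous k).continuous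

theorem cf_differentiable (k : ℕ) : Differentiable ℂ (fun l => cf l k) := b2_continuous k

private theorem b2_unique {r : ℝ} (hr : 0 < r) {a b : ℕ → ℂ} {g : ℂ → ℂ}
    (ha : ∀ u : ℂ, ‖u‖ < r → HasSum (fun k => a k * u ^ k) (g u))
    (hb : ∀ u : ℂ, ‖u‖ < r → HasSum (fun k => b k * u ^ k) (g u)) (k : ℕ) : a k = b k := by
  have key : ∀ c : ℕ → ℂ, (∀ u : ℂ, ‖u‖ < r → HasSum (fun k => c k * u ^ k) (g u)) →
      HasFPowerSeriesAt g (FormalMultilinearSeries.ofScalars ℂ c) 0 := by
    intro c hc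
    rw [hasFPowerSeriesAt_iff]
    filter_upwards [Metric.ball_mem_nhds (0 : ℂ) hr] with u hu
    rw [mem_ball_zero_iff] at hu
    rw [zero_add]
    have h1 := hc u hu
    have h2 : (fun n => u ^ n • (FormalMultilinearSeries.ofScalars ℂ c).coeff n) =
        fun k => c k * u ^ k := by
      funext n
      rw [FormalMultilinearSeries.coeff_ofScalars, smul_eq_mul, mul_comm]
    rw [h2]
    exact h1
  have h1 := (key a ha).eq_formalMultilinearSeries (key b hb)
  have h2 := congrArg (fun p => FormalMultilinearSeries.coeff p k) h1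
  simpa [FormalMultilinearSeries.coeff_ofScalars] using h2

private theorem b2_sq {a : ℕ → ℂ} {u s : ℂ} (h : HasSum (fun k => a k * u ^ k) s) :
    HasSum (fun k => (∑ i ∈ Finset.range (k + 1), a i * a (k - i)) * u ^ k) (s ^ 2) := by
  have h1 : Summable fun k => ‖a k * u ^ k‖ := h.summable.norm
  have h2 := hasSum_sum_range_mul_of_summable_norm h1 h1
  rw [h.tsum_eq, ← sq] at h2
  have h3 : (fun k => (∑ i ∈ Finset.range (k + 1), a i * a (k - i)) * u ^ k) =
      fun n => ∑ k ∈ Finset.range (n + 1), a k * u ^ k * (a (n - k) * u ^ (n - k)) := by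
    funext n
    rw [Finset.sum_mul]
    refine Finset.sum_congr rfl fun i hi => ?_
    have h4 : i + (n - i) = n := by
      have := Finset.mem_range.1 hi
      omega
    calc a i * a (n - i) * u ^ n = a i * a (n - i) * u ^ (i + (n - i)) := by rw [h4]
      _ = _ := by rw [pow_add]; ring
  rw [h3]
  exact h2

private theorem b2_shift {a : ℕ → ℂ} {u s : ℂ} (l : ℂ) (h : HasSum (fun k => a k * u ^ k) s) :
    HasSum (fun k => (if k = 0 then 0 else l * a (k - 1)) * u ^ k) (l * u * s) := by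
  have h1 := h.mul_left (l * u)
  have h2 : HasSum (fun n : ℕ => (if n + 1 = 0 then 0 else l * a (n + 1 - 1)) * u ^ (n + 1))
      (l * u * s) := by
    have h3 : (fun n : ℕ => (if n + 1 = 0 then 0 else l * a (n + 1 - 1)) * u ^ (n + 1)) =
        fun k => l * u * (a k * u ^ k) := by
      funext k
      rw [if_neg (Nat.succ_ne_zero k), Nat.add_sub_cancel]
      ring
    rw [h3]
    exact h1
  have h3 := (hasSum_nat_add_iff
    (f := fun k => (if k = 0 then 0 else l * a (k - 1)) * u ^ k) 1).1 h2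
  rw [Finset.sum_range_one, if_pos rfl, zero_mul, add_zero] at h3
  exact h3

private theorem b2_even {b : ℕ → ℂ} {u s : ℂ} (h : HasSum (fun k => b k * (u ^ 2) ^ k) s) :
    HasSum (fun k => (if Even k then b (k / 2) else 0) * u ^ k) s := by
  have hinj : Function.Injective (fun k : ℕ => 2 * k) := fun a b h => by
    have : 2 * a = 2 * b := h
    omega
  have h0 : ∀ x ∉ Set.range (fun k : ℕ => 2 * k),
      (fun k => (if Even k then b (k / 2) else 0) * u ^ k) x = 0 := by
    intro x hx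
    have h1 : ¬ Even x := fun ⟨y, hy⟩ => hx ⟨y, by show 2 * y = x; omega⟩
    show (if Even x then b (x / 2) else 0) * u ^ x = 0
    rw [if_neg h1, zero_mul]
  rw [← hinj.hasSum_iff h0]
  have h2 : (fun k => (if Even k then b (k / 2) else 0) * u ^ k) ∘ (fun k : ℕ => 2 * k) =
      fun k => b k * (u ^ 2) ^ k := by
    funext k
    show (if Even (2 * k) then b (2 * k / 2) else 0) * u ^ (2 * k) = _
    rw [if_pos (even_two_mul k), Nat.mul_div_cancel_left k (by norm_num), pow_mul]
  rw [h2]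
  exact h

private theorem b2_taylor {h : ℂ → ℂ} {r : ℝ} (hh : DifferentiableOn ℂ h (Metric.ball 0 r))
    {u : ℂ} (hu : ‖u‖ < r) :
    HasSum (fun k => (k.factorial : ℂ)⁻¹ * iteratedDeriv k h 0 * u ^ k) (h u) := by
  have h1 := Complex.hasSum_taylorSeries_on_ball hh (mem_ball_zero_iff.2 hu)
  have h2 : (fun k => (k.factorial : ℂ)⁻¹ * iteratedDeriv k h 0 * u ^ k) =
      fun n : ℕ ↦ (n.factorial : ℂ)⁻¹ • (u - 0) ^ n • iteratedDeriv n h 0 := by
    funext k
    rw [smul_eq_mul, smul_eq_mul, sub_zero]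
    ring
  rw [h2]
  exact h1

/-- the coefficients are determined by the recursion -/
private theorem b2_coeff {l : ℂ} {h H : ℂ → ℂ} {r : ℝ} {N : ℕ} (hr : 0 < r)
    (hh : DifferentiableOn ℂ h (Metric.ball 0 (r ^ 2)))
    (hH : DifferentiableOn ℂ H (Metric.ball 0 r)) (hH0 : H 0 = 1)
    (heq : ∀ u ∈ Metric.ball (0 : ℂ) r, H u ^ 2 + l * u * H u = h (u ^ 2))
    (hc : ∀ k < N, (k.factorial : ℂ)⁻¹ * iteratedDeriv k h 0 = cf l k) :
    ∀ k < 2 * N, (k.factorial : ℂ)⁻¹ * iteratedDeriv k H 0 = cf l k := by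
  set a : ℕ → ℂ := fun k => (k.factorial : ℂ)⁻¹ * iteratedDeriv k H 0 with ha
  set b : ℕ → ℂ := fun k => (k.factorial : ℂ)⁻¹ * iteratedDeriv k h 0 with hb
  have ha0 : a 0 = 1 := by
    simp [ha, hH0]
  have hu2 : ∀ u : ℂ, ‖u‖ < r → ‖u ^ 2‖ < r ^ 2 := fun u hu => by
    rw [norm_pow]
    exact pow_lt_pow_left₀ hu (norm_nonneg _) (by norm_num)
  have hrec : ∀ k, ∑ i ∈ Finset.range (k + 1), a i * a (k - i) +
      (if k = 0 then 0 else l * a (k - 1)) = if Even k then b (k / 2) else 0 := by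
    refine b2_unique (g := fun u => h (u ^ 2)) hr (fun u hu => ?_) (fun u hu => ?_)
    · have h1 := b2_taylor hH hu
      have h2 := (b2_sq h1).add (b2_shift l h1)
      rw [heq u (mem_ball_zero_iff.2 hu)] at h2
      have h3 : (fun k => (∑ i ∈ Finset.range (k + 1), a i * a (k - i) +
          (if k = 0 then 0 else l * a (k - 1))) * u ^ k) = fun k =>
          (∑ i ∈ Finset.range (k + 1), a i * a (k - i)) * u ^ k +
          (if k = 0 then 0 else l * a (k - 1)) * u ^ k := by
        funext k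
        rw [add_mul]
      rw [h3]
      exact h2
    · exact b2_even (b2_taylor hh (hu2 u hu))
  intro k
  show k < 2 * N → a k = cf l k
  induction k using Nat.strong_induction_on with
  | _ k ih =>
    intro hk
    cases k with
    | zero => rw [ha0, cf_zero]
    | succ k =>
      have h1 := hrec (k + 1)
      have h2 := cf_conv l (k + 1)
      rw [Finset.sum_range_succ, Finset.sum_range_succ', if_neg (Nat.succ_ne_zero k)] at h1 h2
      have h3 : ∀ i, k + 1 - (i + 1) = k - i := fun i => by omega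
      simp only [h3, Nat.sub_self, Nat.sub_zero, cf_zero, ha0] at h1 h2
      have h4 : ∑ i ∈ Finset.range k, a (i + 1) * a (k - i) =
          ∑ i ∈ Finset.range k, cf l (i + 1) * cf l (k - i) := by
        refine Finset.sum_congr rfl fun i hi => ?_
        have := Finset.mem_range.1 hi
        rw [ih (i + 1) (by omega) (by omega), ih (k - i) (by omega) (by omega)]
      have h5 : a k = cf l k := ih k (by omega) (by omega)
      have h6 : (if Even (k + 1) then b ((k + 1) / 2) else 0) =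
          if Even (k + 1) then cf l ((k + 1) / 2) else 0 := by
        split_ifs with h
        · exact hc _ (by omega)
        · rfl
      rw [h4, h6, ← h2] at h1
      rw [h5] at h1
      linear_combination h1 / 2

private theorem b2_growth {l : ℂ} (hl : ‖l‖ ≤ 1) (n : ℕ) : ∀ z : ℂ, 2 ≤ ‖z‖ →
    (‖z‖ - 1) ^ 2 ^ n ≤ ‖(f l)^[n] z‖ - 1 := by
  induction n with
  | zero => intro z _; simp
  | succ n ih =>
    intro z hz
    rw [Function.iterate_succ_apply, pow_succ', pow_mul]
    have h1 := norm_f_ge (l := l) (z := z) hl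
    have h2 : 2 ≤ ‖f l z‖ := by nlinarith
    refine le_trans ?_ (ih _ h2)
    refine pow_le_pow_left₀ (sq_nonneg _) ?_ _
    nlinarith

private theorem b2_main {l : ℂ} (hl : ‖l‖ ≤ 1) (n : ℕ) : ∀ r : ℝ, 0 < r → r ^ 2 ^ n ≤ 1 / 4 →
    ∃ h : ℂ → ℂ, DifferentiableOn ℂ h (Metric.ball 0 r) ∧ h 0 = 1 ∧
      (∀ u ∈ Metric.ball (0 : ℂ) r, u ≠ 0 → (f l)^[n] (h u / u) = u⁻¹ ^ 2 ^ n) ∧
      (∀ u ∈ Metric.ball (0 : ℂ) r, ‖h u‖ ≤ 2) ∧
      ∀ k < 2 ^ n, (k.factorial : ℂ)⁻¹ * iteratedDeriv k h 0 = cf l k := by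
  induction n with
  | zero =>
    intro r hr hr4
    refine ⟨fun _ => 1, differentiableOn_const _, rfl, fun u _ _ => ?_, fun u _ => ?_,
      fun k hk => ?_⟩
    · simp
    · simp
    · have : k = 0 := by simpa using hk
      subst this
      simp [cf_zero]
  | succ n ih =>
    intro r hr hr4
    have hr1 : r < 1 := by
      by_contra hcon
      have := one_le_pow₀ (n := 2 ^ (n + 1)) (not_lt.1 hcon)
      linarith
    have hr2 : (r ^ 2) ^ 2 ^ n ≤ 1 / 4 := by
      rwa [← pow_mul, ← pow_succ']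
    obtain ⟨h, hh, h0, hiter, hbd, hcoef⟩ := ih (r ^ 2) (by positivity) hr2
    have hu2 : ∀ u ∈ Metric.ball (0 : ℂ) r, u ^ 2 ∈ Metric.ball (0 : ℂ) (r ^ 2) := fun u hu => by
      rw [mem_ball_zero_iff] at hu ⊢
      rw [norm_pow]
      exact pow_lt_pow_left₀ hu (norm_nonneg _) (by norm_num)
    have hg : DifferentiableOn ℂ (fun u => h (u ^ 2) + l ^ 2 * u ^ 2 / 4) (Metric.ball 0 r) := by
      refine DifferentiableOn.add ?_ ?_
      · exact hh.comp (differentiable_pow 2).differentiableOn hu2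
      · fun_prop
    have hg0 : ∀ u ∈ Metric.ball (0 : ℂ) r, h (u ^ 2) + l ^ 2 * u ^ 2 / 4 ≠ 0 := by
      intro u hu hz
      by_cases hu0 : u = 0
      · subst hu0
        simp [h0] at hz
      have hu20 : u ^ 2 ≠ 0 := pow_ne_zero 2 hu0
      have h1 : h (u ^ 2) / u ^ 2 = v l := by
        rw [div_eq_iff hu20]
        simp only [v]
        linear_combination hz
      have h2 := hiter (u ^ 2) (hu2 u hu) hu20
      rw [h1] at h2
      have h3 := v_mem_K hl n
      rw [h2, norm_pow, norm_inv, norm_pow, inv_pow, ← pow_mul, ← pow_succ'] at h3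
      have h4 : ‖u‖ ^ 2 ^ (n + 1) ≤ 1 / 4 := by
        refine le_trans (pow_le_pow_left₀ (norm_nonneg _) ?_ _) hr4
        exact (mem_ball_zero_iff.1 hu).le
      have h5 : 0 < ‖u‖ ^ 2 ^ (n + 1) := pow_pos (norm_pos_iff.2 hu0) _
      have h6 : (4 : ℝ) ≤ (‖u‖ ^ 2 ^ (n + 1))⁻¹ := by
        rw [le_inv_comm₀ (by norm_num) h5]
        linarith
      linarith
    obtain ⟨s, hs, hsq, hs0⟩ := exists_sqrt Metric.isOpen_ball (convex_ball (0 : ℂ) r) hg hg0
      (Metric.mem_ball_self hr) (s0 := 1) (by simp [h0])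
    have hfun : ∀ u ∈ Metric.ball (0 : ℂ) r,
        (s u - l * u / 2) ^ 2 + l * u * (s u - l * u / 2) = h (u ^ 2) := by
      intro u hu
      have := hsq u hu
      linear_combination this
    have hHd : DifferentiableOn ℂ (fun u => s u - l * u / 2) (Metric.ball 0 r) :=
      hs.sub (by fun_prop)
    have hH0 : (fun u => s u - l * u / 2) 0 = 1 := by simp [hs0]
    have hHiter : ∀ u ∈ Metric.ball (0 : ℂ) r, u ≠ 0 →
        (f l)^[n + 1] ((s u - l * u / 2) / u) = u⁻¹ ^ 2 ^ (n + 1) := by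
      intro u hu hu0
      rw [Function.iterate_succ_apply]
      have h1 : f l ((s u - l * u / 2) / u) = h (u ^ 2) / u ^ 2 := by
        rw [← hfun u hu]
        simp only [f]
        field_simp
      rw [h1, hiter _ (hu2 u hu) (pow_ne_zero 2 hu0), inv_pow, inv_pow, ← pow_mul, ← pow_succ']
    refine ⟨fun u => s u - l * u / 2, hHd, hH0, hHiter, fun u hu => ?_, ?_⟩
    · by_cases hu0 : u = 0
      · subst hu0
        simp only [hs0]
        norm_num
      have hun : 0 < ‖u‖ := norm_pos_iff.2 hu0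
      have hu1 : ‖u‖ < 1 := (mem_ball_zero_iff.1 hu).trans hr1
      have h1 : ‖s u - l * u / 2‖ = ‖(s u - l * u / 2) / u‖ * ‖u‖ := by
        rw [norm_div, div_mul_cancel₀ _ hun.ne']
      show ‖s u - l * u / 2‖ ≤ 2
      rw [h1]
      rcases le_total ‖(s u - l * u / 2) / u‖ 2 with h2 | h2
      · nlinarith
      · have h3 := b2_growth hl (n + 1) _ h2
        rw [hHiter u hu hu0] at h3
        have h4 : (‖(s u - l * u / 2) / u‖ - 1) ^ 2 ^ (n + 1) ≤ (‖u‖⁻¹) ^ 2 ^ (n + 1) := by
          rw [norm_pow, norm_inv] at h3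
          linarith
        have h5 := (pow_le_pow_iff_left₀ (by linarith) (by positivity) (by positivity)).1 h4
        have h6 : ‖u‖⁻¹ * ‖u‖ = 1 := inv_mul_cancel₀ hun.ne'
        nlinarith
    · rw [pow_succ']
      exact b2_coeff hr hh hHd hH0 hfun hcoef

theorem norm_cf_le {l : ℂ} (hl : ‖l‖ ≤ 1) (k : ℕ) : ‖cf l k‖ ≤ 2 := by
  have key : ∀ r : ℝ, 0 < r → r < 1 → ‖cf l k‖ * r ^ k ≤ 2 := by
    intro r hr hr1
    -- choose `n`
    obtain ⟨q, hq1, hq2⟩ := exists_between hr1
    have hq0 : 0 < q := hr.trans hq1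
    have h1 : Tendsto (fun n : ℕ => q ^ 2 ^ n) atTop (𝓝 0) :=
      (tendsto_pow_atTop_nhds_zero_of_lt_one hq0.le hq2).comp
        (tendsto_pow_atTop_atTop_of_one_lt (by norm_num))
    have h2 : Tendsto (fun n : ℕ => (2 : ℕ) ^ n) atTop atTop :=
      tendsto_pow_atTop_atTop_of_one_lt (by norm_num)
    obtain ⟨n, hn1, hn2⟩ := ((h1.eventually_le_const (by norm_num : (0 : ℝ) < 1 / 4)).and
      (h2.eventually_gt_atTop k)).exists
    obtain ⟨h, hh, -, -, hbd, hcoef⟩ := b2_main hl n q hq0 hn1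
    rw [← hcoef k hn2]
    have h3 : DiffContOnCl ℂ h (Metric.ball 0 r) := by
      refine DifferentiableOn.diffContOnCl ?_
      rw [closure_ball (0 : ℂ) hr.ne']
      exact hh.mono (Metric.closedBall_subset_ball hq1)
    have h4 := Complex.norm_iteratedDeriv_le_of_forall_mem_sphere_norm_le k hr h3 (C := 2)
      (fun z hz => hbd z (Metric.closedBall_subset_ball hq1 (Metric.sphere_subset_closedBall hz)))
    rw [norm_mul, norm_inv]
    have h5 : ‖(k.factorial : ℂ)‖ = k.factorial := by simp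
    rw [h5]
    have h6 : (0 : ℝ) < k.factorial := by exact_mod_cast k.factorial_pos
    rw [le_div_iff₀ (pow_pos hr k)] at h4
    calc (k.factorial : ℝ)⁻¹ * ‖iteratedDeriv k h 0‖ * r ^ k
        = (k.factorial : ℝ)⁻¹ * (‖iteratedDeriv k h 0‖ * r ^ k) := by ring
      _ ≤ (k.factorial : ℝ)⁻¹ * (k.factorial * 2) := by gcongr
      _ = 2 := by field_simp
  have h1 : Tendsto (fun r : ℝ => ‖cf l k‖ * r ^ k) (𝓝[<] 1) (𝓝 (‖cf l k‖ * 1 ^ k)) := by
    have : Continuous (fun r : ℝ => ‖cf l k‖ * r ^ k) := by fun_prop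
    exact this.continuousAt.tendsto.mono_left nhdsWithin_le_nhds
  rw [one_pow, mul_one] at h1
  refine le_of_tendsto h1 ?_
  have h2 : Ioo (0 : ℝ) 1 ∈ 𝓝[<] (1 : ℝ) := Ioo_mem_nhdsLT (by norm_num)
  filter_upwards [h2] with r hr
  exact key r hr.1 hr.2

end Pool.Agent.CR
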