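import Pool.Agent.H73.CR.B2

/-!
# CR B3: the function `psi`

`h u = ∑ cf l k u^k`, `‖u‖ < 1`, `psi l w = w h(1/w)`; from `cf_conv` (Cauchy product) `h(u)^2 + l u h(u) = h(u^2)`.
`norm_psi_sub_le`: `‖psi l w - w‖ ≤ ∑_{k≥1} 2 ‖w‖^(1-k) = 2 / (1 - 1/‖w‖) ≤ 4`.
`norm_psi_le`: let `z = psi l w`, suppose `‖z‖ ≥ 2`. `(f l)^[n] z = psi l (w^(2^n))` has norm
`≤ ‖w‖^(2^n) + 4` for large `n`, and `(‖z‖ - 1)^(2^n) ≤ ‖(f l)^[n] z‖ - 1` (`‖f l y‖ - 1 ≥ (‖y‖-1)^2` for `‖y‖ ≥ 2`);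
let `n → ∞`: `‖z‖ - 1 ≤ ‖w‖`.
-/

set_option autoImplicit false

open Set Filter Topology

namespace Pool.Agent.CR

private lemma B3_bound {l u : ℂ} (hl : ‖l‖ ≤ 1) {r : ℝ} (hu : ‖u‖ ≤ r) (k : ℕ) :
    ‖cf l k * u ^ k‖ ≤ 2 * r ^ k := by
  rw [norm_mul, norm_pow]
  exact mul_le_mul (norm_cf_le hl k) (pow_le_pow_left₀ (norm_nonneg _) hu k) (by positivity)
    (by norm_num)

private lemma B3_geo {r : ℝ} (h0 : 0 ≤ r) (h1 : r < 1) : Summable (fun k : ℕ => 2 * r ^ k) :=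
  (summable_geometric_of_lt_one h0 h1).mul_left 2

private lemma B3_sn {l u : ℂ} (hl : ‖l‖ ≤ 1) (hu : ‖u‖ < 1) :
    Summable (fun k : ℕ => ‖cf l k * u ^ k‖) :=
  Summable.of_nonneg_of_le (fun _ => norm_nonneg _) (fun k => B3_bound hl le_rfl k)
    (B3_geo (norm_nonneg _) hu)

private lemma B3_s {l u : ℂ} (hl : ‖l‖ ≤ 1) (hu : ‖u‖ < 1) :
    Summable (fun k : ℕ => cf l k * u ^ k) :=
  (B3_sn hl hu).of_norm

private lemma B3_inv {w : ℂ} (hw : 1 < ‖w‖) : ‖w⁻¹‖ < 1 := by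
  rw [norm_inv]
  exact inv_lt_one_of_one_lt₀ hw

/-- the functional equation of the series -/
private lemma B3_func {l u : ℂ} (hl : ‖l‖ ≤ 1) (hu : ‖u‖ < 1) :
    (∑' k : ℕ, cf l k * u ^ k) ^ 2 + l * u * ∑' k : ℕ, cf l k * u ^ k =
      ∑' k : ℕ, cf l k * (u ^ 2) ^ k := by
  have h1 : (∑' k : ℕ, cf l k * u ^ k) ^ 2 =
      ∑' n : ℕ, ∑ i ∈ Finset.range (n + 1), cf l i * u ^ i * (cf l (n - i) * u ^ (n - i)) := by
    rw [sq]
    exact tsum_mul_tsum_eq_tsum_sum_range_of_summable_norm (B3_sn hl hu) (B3_sn hl hu)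
  have hs1 : Summable (fun n : ℕ => ∑ i ∈ Finset.range (n + 1),
      cf l i * u ^ i * (cf l (n - i) * u ^ (n - i))) :=
    (summable_norm_sum_mul_range_of_summable_norm (B3_sn hl hu) (B3_sn hl hu)).of_norm
  have hs3 : Summable (fun k : ℕ => l * cf l k * u ^ (k + 1)) := by
    refine ((B3_s hl hu).mul_left (l * u)).congr fun k => ?_
    ring
  have hs2 : Summable (fun n : ℕ => (if n = 0 then 0 else l * cf l (n - 1)) * u ^ n) := by
    rw [← summable_nat_add_iff 1]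
    refine hs3.congr fun k => ?_
    simp
  have h2 : l * u * ∑' k : ℕ, cf l k * u ^ k =
      ∑' n : ℕ, (if n = 0 then 0 else l * cf l (n - 1)) * u ^ n := by
    rw [hs2.tsum_eq_zero_add, ← tsum_mul_left]
    simp only [if_true, zero_mul, zero_add]
    refine tsum_congr fun k => ?_
    rw [if_neg (Nat.succ_ne_zero k), Nat.add_sub_cancel, pow_succ]
    ring
  have h3 : ∑' k : ℕ, cf l k * (u ^ 2) ^ k =
      ∑' n : ℕ, (if Even n then cf l (n / 2) else 0) * u ^ n := by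
    have hinj : Function.Injective (fun k : ℕ => 2 * k) := fun a b h => by
      simpa using h
    rw [← hinj.tsum_eq (f := fun n : ℕ => (if Even n then cf l (n / 2) else 0) * u ^ n)]
    · refine tsum_congr fun k => ?_
      show _ = (if Even (2 * k) then cf l (2 * k / 2) else 0) * u ^ (2 * k)
      rw [if_pos (even_two_mul k), Nat.mul_div_cancel_left k (by norm_num), pow_mul]
    · intro n hn
      rw [Function.mem_support] at hn
      by_cases he : Even n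
      · obtain ⟨m, hm⟩ := he
        exact ⟨m, by simp only []; omega⟩
      · rw [if_neg he, zero_mul] at hn
        exact absurd rfl hn
  rw [h1, h2, h3, ← hs1.tsum_add hs2]
  refine tsum_congr fun n => ?_
  rw [← cf_conv l n, add_mul, Finset.sum_mul]
  congr 1
  refine Finset.sum_congr rfl fun i hi => ?_
  have hi' : i ≤ n := Nat.lt_succ_iff.1 (Finset.mem_range.1 hi)
  have : u ^ n = u ^ i * u ^ (n - i) := by
    rw [← pow_add, Nat.add_sub_cancel' hi']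
  rw [this]
  ring

theorem psi_f {l w : ℂ} (hl : ‖l‖ ≤ 1) (hw : 1 < ‖w‖) : f l (psi l w) = psi l (w ^ 2) := by
  have hw0 : w ≠ 0 := by
    intro h
    rw [h, norm_zero] at hw
    linarith
  have h := B3_func hl (B3_inv hw)
  have h2 : psi l (w ^ 2) = w ^ 2 * ∑' k : ℕ, cf l k * (w⁻¹ ^ 2) ^ k := by
    unfold psi
    rw [inv_pow]
  rw [h2, ← h]
  unfold f psi
  have h3 : w * w⁻¹ = 1 := mul_inv_cancel₀ hw0
  linear_combination (-(l * w * ∑' k : ℕ, cf l k * w⁻¹ ^ k)) * h3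

private lemma B3_pow {w : ℂ} (hw : 1 < ‖w‖) (n : ℕ) : 1 < ‖w ^ 2 ^ n‖ := by
  rw [norm_pow]
  exact one_lt_pow₀ hw (by positivity)

theorem psi_iter {l w : ℂ} (hl : ‖l‖ ≤ 1) (hw : 1 < ‖w‖) (n : ℕ) :
    (f l)^[n] (psi l w) = psi l (w ^ 2 ^ n) := by
  induction n with
  | zero => simp
  | succ n ih =>
    rw [Function.iterate_succ_apply', ih, psi_f hl (B3_pow hw n), ← pow_mul, ← pow_succ]

theorem psi_differentiableOn {l : ℂ} (hl : ‖l‖ ≤ 1) : DifferentiableOn ℂ (psi l) {w | 1 < ‖w‖} := by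
  intro w hw
  obtain ⟨r, hr1, hr2⟩ := exists_between (show 1 < ‖w‖ from hw)
  have ho : IsOpen {w : ℂ | r < ‖w‖} := isOpen_lt continuous_const continuous_norm
  have hd : DifferentiableOn ℂ (fun w => ∑' k : ℕ, cf l k * w⁻¹ ^ k) {w : ℂ | r < ‖w‖} := by
    refine Complex.differentiableOn_tsum_of_summable_norm
      (B3_geo (r := r⁻¹) (by positivity) (inv_lt_one_of_one_lt₀ hr1)) (fun k => ?_) ho
      (fun k z hz => ?_)
    · intro z hz
      have hz1 : r < ‖z‖ := hz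
      have hz0 : z ≠ 0 := by
        intro h
        rw [h, norm_zero] at hz1
        linarith
      exact ((differentiableAt_inv hz0).pow k).const_mul (cf l k) |>.differentiableWithinAt
    · refine B3_bound hl ?_ k
      rw [norm_inv]
      exact inv_anti₀ (by linarith) (le_of_lt hz)
  have h1 : DifferentiableAt ℂ (psi l) w :=
    differentiableAt_id.mul (hd.differentiableAt (ho.mem_nhds hr2))
  exact h1.differentiableWithinAt

theorem norm_psi_sub_le {l w : ℂ} (hl : ‖l‖ ≤ 1) (hw : 2 ≤ ‖w‖) : ‖psi l w - w‖ ≤ 4 := by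
  have hw1 : 1 < ‖w‖ := by linarith
  have hw0 : w ≠ 0 := by
    intro h
    rw [h, norm_zero] at hw
    linarith
  have hu := B3_inv hw1
  have hs := B3_s hl hu
  have h1 : psi l w - w = ∑' k : ℕ, cf l (k + 1) * w⁻¹ ^ k := by
    unfold psi
    rw [hs.tsum_eq_zero_add, cf_zero, pow_zero, mul_add, mul_one, mul_one, add_sub_cancel_left,
      ← tsum_mul_left]
    refine tsum_congr fun k => ?_
    rw [pow_succ]
    field_simp
  have h2 : ∀ k : ℕ, ‖cf l (k + 1) * w⁻¹ ^ k‖ ≤ 2 * (1 / 2 : ℝ) ^ k := fun k => by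
    rw [norm_mul, norm_pow]
    refine mul_le_mul (norm_cf_le hl (k + 1)) (pow_le_pow_left₀ (norm_nonneg _) ?_ k)
      (by positivity) (by norm_num)
    rw [norm_inv, one_div]
    exact inv_anti₀ (by norm_num) hw
  rw [h1]
  have h3 : HasSum (fun k : ℕ => 2 * (1 / 2 : ℝ) ^ k) 4 := by
    have := hasSum_geometric_two.mul_left 2
    norm_num at this ⊢
    exact this
  exact tsum_of_norm_bounded h3 h2

private lemma B3_f_ge {l y : ℂ} (hl : ‖l‖ ≤ 1) (hy : 2 ≤ ‖y‖) : (‖y‖ - 1) ^ 2 + 1 ≤ ‖f l y‖ := by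
  have h1 := norm_f_ge (z := y) hl
  nlinarith

private lemma B3_it_ge {l y : ℂ} (hl : ‖l‖ ≤ 1) (hy : 2 ≤ ‖y‖) (n : ℕ) :
    (‖y‖ - 1) ^ 2 ^ n + 1 ≤ ‖(f l)^[n] y‖ := by
  induction n with
  | zero => simp
  | succ n ih =>
    have h1 : 1 ≤ (‖y‖ - 1) ^ 2 ^ n := one_le_pow₀ (by linarith)
    have h2 : 2 ≤ ‖(f l)^[n] y‖ := by linarith
    rw [Function.iterate_succ_apply']
    refine le_trans ?_ (B3_f_ge hl h2)
    have h3 : (‖y‖ - 1) ^ 2 ^ (n + 1) = ((‖y‖ - 1) ^ 2 ^ n) ^ 2 := by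
      rw [← pow_mul, ← pow_succ]
    rw [h3]
    have h4 : (‖y‖ - 1) ^ 2 ^ n ≤ ‖(f l)^[n] y‖ - 1 := by linarith
    have h5 := pow_le_pow_left₀ (by linarith) h4 2
    linarith

theorem norm_psi_le {l w : ℂ} (hl : ‖l‖ ≤ 1) (hw : 1 < ‖w‖) : ‖psi l w‖ ≤ ‖w‖ + 1 := by
  by_contra hcon
  rw [not_le] at hcon
  set a : ℝ := ‖psi l w‖ - 1 with ha
  have hab : ‖w‖ < a := by linarith
  have h2 : 2 ≤ ‖psi l w‖ := by linarith
  have h3 : Tendsto (fun n : ℕ => (a / ‖w‖) ^ n) atTop atTop :=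
    tendsto_pow_atTop_atTop_of_one_lt ((one_lt_div (by linarith)).2 hab)
  have h4 : Tendsto (fun n : ℕ => ‖w‖ ^ n) atTop atTop := tendsto_pow_atTop_atTop_of_one_lt hw
  have h5 : Tendsto (fun n : ℕ => (2 : ℕ) ^ n) atTop atTop :=
    tendsto_pow_atTop_atTop_of_one_lt (by norm_num)
  obtain ⟨n, hn1, hn2⟩ := (((h3.comp h5).eventually_ge_atTop 2).and
    ((h4.comp h5).eventually_ge_atTop 4)).exists
  simp only [Function.comp] at hn1 hn2
  rw [div_pow, le_div_iff₀ (by positivity)] at hn1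
  have h6 := B3_it_ge hl h2 n
  rw [← ha, psi_iter hl hw n] at h6
  have h7 : 2 ≤ ‖w ^ 2 ^ n‖ := by
    rw [norm_pow]
    linarith
  have h8 := norm_psi_sub_le hl h7
  have h9 : ‖psi l (w ^ 2 ^ n)‖ ≤ ‖w ^ 2 ^ n‖ + 4 := by
    have := norm_sub_norm_le (psi l (w ^ 2 ^ n)) (w ^ 2 ^ n)
    linarith
  rw [norm_pow] at h9
  linarith

/-- joint continuity -/
theorem psi_continuousOn :
    ContinuousOn (fun p : ℂ × ℂ => psi p.1 p.2) {p | ‖p.1‖ ≤ 1 ∧ 1 < ‖p.2‖} := by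
  rintro ⟨l, w⟩ ⟨hl, hw⟩
  obtain ⟨r, hr1, hr2⟩ := exists_between (show 1 < ‖w‖ from hw)
  have hc : ContinuousOn (fun p : ℂ × ℂ => ∑' k : ℕ, cf p.1 k * p.2⁻¹ ^ k)
      {p : ℂ × ℂ | ‖p.1‖ ≤ 1 ∧ r < ‖p.2‖} := by
    refine continuousOn_tsum (fun k => ?_)
      (B3_geo (r := r⁻¹) (by positivity) (inv_lt_one_of_one_lt₀ hr1)) (fun k p hp => ?_)
    · refine ContinuousOn.mul ((cf_continuous k).comp continuous_fst).continuousOn ?_
      refine ContinuousOn.pow (ContinuousOn.inv₀ continuous_snd.continuousOn fun p hp h => ?_) k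
      have := hp.2
      rw [h, norm_zero] at this
      linarith
    · refine B3_bound hp.1 ?_ k
      rw [norm_inv]
      exact inv_anti₀ (by linarith) (le_of_lt hp.2)
  have hc2 : ContinuousOn (fun p : ℂ × ℂ => psi p.1 p.2)
      {p : ℂ × ℂ | ‖p.1‖ ≤ 1 ∧ r < ‖p.2‖} := continuous_snd.continuousOn.mul hc
  refine (hc2 (l, w) ⟨hl, hr2⟩).mono_of_mem_nhdsWithin ?_
  have ho : {p : ℂ × ℂ | r < ‖p.2‖} ∈ 𝓝 ((l, w) : ℂ × ℂ) :=
    (isOpen_lt continuous_const (continuous_norm.comp continuous_snd)).mem_nhds hr2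
  filter_upwards [self_mem_nhdsWithin, mem_nhdsWithin_of_mem_nhds ho] with p hp hp2
  exact ⟨hp.1, hp2⟩

theorem psi_differentiableOn_left {w : ℂ} (hw : 1 < ‖w‖) :
    DifferentiableOn ℂ (fun l => psi l w) (Metric.ball 0 1) := by
  have hd : DifferentiableOn ℂ (fun l => ∑' k : ℕ, cf l k * w⁻¹ ^ k) (Metric.ball 0 1) := by
    refine Complex.differentiableOn_tsum_of_summable_norm (B3_geo (norm_nonneg _) (B3_inv hw))
      (fun k => ?_) Metric.isOpen_ball (fun k l hl => ?_)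
    · exact ((cf_differentiable k).mul_const _).differentiableOn
    · refine B3_bound ?_ le_rfl k
      rw [mem_ball_zero_iff] at hl
      exact hl.le
  exact hd.const_mul w

theorem psi_div_tendsto {l : ℂ} (hl : ‖l‖ ≤ 1) :
    Tendsto (fun w => psi l w / w) (Bornology.cobounded ℂ) (𝓝 1) := by
  rw [tendsto_iff_norm_sub_tendsto_zero]
  have h1 : Tendsto (fun w : ℂ => 4 / ‖w‖) (Bornology.cobounded ℂ) (𝓝 0) :=
    tendsto_norm_cobounded_atTop.const_div_atTop 4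
  refine squeeze_zero' (Eventually.of_forall fun _ => norm_nonneg _) ?_ h1
  filter_upwards [tendsto_norm_cobounded_atTop.eventually_ge_atTop 2] with w hw
  have hw0 : w ≠ 0 := by
    intro h
    rw [h, norm_zero] at hw
    linarith
  have h2 : psi l w / w - 1 = (psi l w - w) / w := by
    field_simp
  rw [h2, norm_div]
  exact div_le_div_of_nonneg_right (norm_psi_sub_le hl hw) (norm_nonneg _)

end Pool.Agent.CR
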