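import Pool.Agent.H73.CR.B3

/-!
# CR B4: `psi l` is a bijection from `{1 < ‖w‖}` to the complement of `K l`

`psi_notMem`: `(f l)^[n] (psi l w) = psi l (w^(2^n))` tends to infinity.
`psi_neg`: `psi l w + psi l (-w) = -l`: both are preimages of `psi l (w^2)` under `f l`; so for each `w` either
the identity holds or `psi l w = psi l (-w)`; for large `‖w‖` the second is impossible (`norm_psi_sub_le`); identity theorem
on the connected set `{1 < ‖w‖}` (`AnalyticOnNhd.eqOn_of_preconnected_of_eventuallyEq`).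
`psi_injOn`: if `psi l w = psi l w'`, then `psi l (w^(2^n)) = psi l (w'^(2^n))` for all `n`; for large arguments `psi l` is
injective (`psi l w - w` is bounded by `4` on a large ball, so it is a contraction there, by the Schwarz lemma); so
`w^(2^n) = w'^(2^n)` for some `n`. If `w ≠ w'` take the smallest `n ≥ 1` with this; `a = w^(2^(n-1))`,
`a' = w'^(2^(n-1))`, `a' = -a`, `psi l a = psi l (-a)`, so `psi l a = -l/2` by `psi_neg`, `psi l (a^2) = v l ∈ K l`,
contradiction.
`exists_psi_eq`: first for `‖z‖ ≥ 40`: the quantitative open mapping theorem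
`DiffContOnCl.ball_subset_image_closedBall` on the ball of radius `18` around `z`.
In general some iterate of `z` has norm `≥ 40`; go back: if
`f l z = psi l W`, `W = w^2`, then `z = psi l w` or `z = psi l (-w)` (`psi_neg`).
-/

set_option autoImplicit false

open Set Filter Topology

namespace Pool.Agent.CR

private theorem b4_one_lt_norm_pow {w : ℂ} (hw : 1 < ‖w‖) (n : ℕ) : 1 < ‖w ^ 2 ^ n‖ := by
  rw [norm_pow]
  exact one_lt_pow₀ hw (by positivity)

private theorem b4_tendsto {w : ℂ} (hw : 1 < ‖w‖) :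
    Tendsto (fun n : ℕ => ‖w ^ 2 ^ n‖) atTop atTop := by
  have h1 : Tendsto (fun n : ℕ => (2 : ℕ) ^ n) atTop atTop :=
    tendsto_pow_atTop_atTop_of_one_lt (by norm_num)
  have h2 := (tendsto_pow_atTop_atTop_of_one_lt hw).comp h1
  refine h2.congr fun n => ?_
  simp [norm_pow]

theorem psi_notMem {l w : ℂ} (hl : ‖l‖ ≤ 1) (hw : 1 < ‖w‖) : psi l w ∉ K l := by
  intro h
  obtain ⟨n, hn⟩ := ((b4_tendsto hw).eventually_gt_atTop 6).exists
  have h1 := h n
  rw [psi_iter hl hw] at h1
  have h2 := norm_psi_sub_le (w := w ^ 2 ^ n) hl (by linarith)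
  have h3 : ‖w ^ 2 ^ n‖ ≤ ‖psi l (w ^ 2 ^ n)‖ + ‖psi l (w ^ 2 ^ n) - w ^ 2 ^ n‖ := by
    have := norm_sub_le (psi l (w ^ 2 ^ n)) (psi l (w ^ 2 ^ n) - w ^ 2 ^ n)
    simpa using this
  linarith

theorem psi_ne_zero {l w : ℂ} (hl : ‖l‖ ≤ 1) (hw : 1 < ‖w‖) : psi l w ≠ 0 := by
  intro h
  exact psi_notMem hl hw (h ▸ zero_mem_K l)

private theorem b4_isOpen : IsOpen {w : ℂ | 1 < ‖w‖} := isOpen_lt continuous_const continuous_norm

private theorem b4_preconnected : IsPreconnected {w : ℂ | 1 < ‖w‖} := by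
  have h1 : {w : ℂ | 1 < ‖w‖} = Complex.exp '' {z | 0 < z.re} := by
    ext w
    constructor
    · intro hw
      have hw' : 1 < ‖w‖ := hw
      have h0 : w ≠ 0 := by
        rintro rfl
        simp at hw'
        linarith
      refine ⟨Complex.log w, ?_, Complex.exp_log h0⟩
      show 0 < (Complex.log w).re
      rw [Complex.log_re]
      exact Real.log_pos hw'
    · rintro ⟨z, hz, rfl⟩
      show 1 < ‖Complex.exp z‖
      rw [Complex.norm_exp]
      exact Real.one_lt_exp_iff.2 hz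
  rw [h1]
  exact (convex_halfSpace_re_gt 0).isPreconnected.image _ Complex.continuous_exp.continuousOn

private theorem b4_sq {l w w' : ℂ} (hl : ‖l‖ ≤ 1) (hw : 1 < ‖w‖) (hw' : 1 < ‖w'‖)
    (h : w ^ 2 = w' ^ 2) : psi l w = psi l w' ∨ psi l w + psi l w' = -l := by
  have h1 := psi_f hl hw
  have h2 := psi_f hl hw'
  rw [← h, ← h1] at h2
  simp only [f] at h2
  have h3 : (psi l w - psi l w') * (psi l w + psi l w' + l) = 0 := by
    linear_combination -h2
  rcases mul_eq_zero.1 h3 with h4 | h4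
  · exact Or.inl (sub_eq_zero.1 h4)
  · exact Or.inr (by linear_combination h4)

private theorem b4_close {l w w' : ℂ} (hl : ‖l‖ ≤ 1) (hw : 2 ≤ ‖w‖) (hw' : 2 ≤ ‖w'‖)
    (h : psi l w = psi l w') : ‖w - w'‖ ≤ 8 := by
  have h1 := norm_psi_sub_le hl hw
  have h2 := norm_psi_sub_le hl hw'
  have h3 : w - w' = (psi l w' - w') - (psi l w - w) := by
    rw [h]; ring
  rw [h3]
  exact (norm_sub_le _ _).trans (by linarith)

theorem psi_neg {l w : ℂ} (hl : ‖l‖ ≤ 1) (hw : 1 < ‖w‖) : psi l w + psi l (-w) = -l := by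
  have hneg : ∀ w : ℂ, 1 < ‖w‖ → 1 < ‖-w‖ := fun w hw => by rwa [norm_neg]
  -- for large arguments
  have hbig : ∀ w : ℂ, 4 < ‖w‖ → psi l w + psi l (-w) = -l := by
    intro w hw
    have h1 : 1 < ‖w‖ := by linarith
    rcases b4_sq hl h1 (hneg w h1) (by ring) with h | h
    · exfalso
      have h2 := b4_close hl (by linarith) (by rw [norm_neg]; linarith) h
      have h3 : w - -w = 2 * w := by ring
      rw [h3, norm_mul] at h2
      norm_num at h2
      linarith
    · exact h
  have ha : AnalyticOnNhd ℂ (psi l) {w : ℂ | 1 < ‖w‖} :=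
    (psi_differentiableOn hl).analyticOnNhd b4_isOpen
  have hd2 : DifferentiableOn ℂ (fun w => psi l (-w)) {w : ℂ | 1 < ‖w‖} :=
    (psi_differentiableOn hl).comp (differentiable_id.neg.differentiableOn) (fun w hw => hneg w hw)
  have hb : AnalyticOnNhd ℂ (fun w => psi l w + psi l (-w)) {w : ℂ | 1 < ‖w‖} :=
    ((psi_differentiableOn hl).add hd2).analyticOnNhd b4_isOpen
  have hc : AnalyticOnNhd ℂ (fun _ : ℂ => -l) {w : ℂ | 1 < ‖w‖} := analyticOnNhd_const
  have h5 : (5 : ℂ) ∈ {w : ℂ | 1 < ‖w‖} := by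
    show (1 : ℝ) < ‖(5 : ℂ)‖
    norm_num
  refine hb.eqOn_of_preconnected_of_eventuallyEq hc b4_preconnected h5 ?_ hw
  have h6 : {w : ℂ | 4 < ‖w‖} ∈ 𝓝 (5 : ℂ) := by
    refine (isOpen_lt continuous_const continuous_norm).mem_nhds ?_
    show (4 : ℝ) < ‖(5 : ℂ)‖
    norm_num
  filter_upwards [h6] with w hw
  exact hbig w hw

private theorem b4_inj_big {l w w' : ℂ} (hl : ‖l‖ ≤ 1) (hw : 20 < ‖w‖) (hw' : 20 < ‖w'‖)
    (h : psi l w = psi l w') : w = w' := by
  have h8 := b4_close hl (by linarith) (by linarith) h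
  set r : ℝ := ‖w‖ - 2 with hr
  have hball : ∀ y ∈ Metric.ball w r, 2 ≤ ‖y‖ := by
    intro y hy
    rw [Metric.mem_ball, dist_eq_norm] at hy
    have h1 : ‖w‖ ≤ ‖y‖ + ‖y - w‖ := by
      have := norm_sub_le y (y - w)
      simpa using this
    linarith
  have hd : DifferentiableOn ℂ (fun y => psi l y - y) (Metric.ball w r) := by
    refine ((psi_differentiableOn hl).mono fun y hy => ?_).sub differentiableOn_id
    show 1 < ‖y‖
    linarith [hball y hy]
  have hm : MapsTo (fun y => psi l y - y) (Metric.ball w r)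
      (Metric.closedBall ((fun y => psi l y - y) w) 8) := by
    intro y hy
    rw [Metric.mem_closedBall, dist_eq_norm]
    have h1 := norm_psi_sub_le hl (hball y hy)
    have h2 := norm_psi_sub_le (w := w) hl (by linarith)
    exact (norm_sub_le _ _).trans (by linarith)
  have hz : w' ∈ Metric.ball w r := by
    rw [Metric.mem_ball, dist_eq_norm, norm_sub_rev]
    linarith
  have h3 := Complex.dist_le_div_mul_dist_of_mapsTo_ball hd hm hz
  rw [dist_eq_norm, dist_eq_norm] at h3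
  have h4 : (fun y => psi l y - y) w' - (fun y => psi l y - y) w = -(w' - w) := by
    show psi l w' - w' - (psi l w - w) = _
    rw [h]; ring
  rw [h4, norm_neg] at h3
  have h5 : 8 / r ≤ 1 / 2 := by
    rw [div_le_div_iff₀ (by linarith) (by norm_num)]
    linarith
  have h6 : ‖w' - w‖ ≤ 1 / 2 * ‖w' - w‖ := h3.trans (mul_le_mul_of_nonneg_right h5 (norm_nonneg _))
  have h7 : ‖w' - w‖ = 0 := by
    have := norm_nonneg (w' - w)
    linarith
  exact (sub_eq_zero.1 (norm_eq_zero.1 h7)).symm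

theorem psi_injOn {l : ℂ} (hl : ‖l‖ ≤ 1) : InjOn (psi l) {w | 1 < ‖w‖} := by
  intro w hw w' hw' h
  have hw : 1 < ‖w‖ := hw
  have hw' : 1 < ‖w'‖ := hw'
  have hall : ∀ n : ℕ, psi l (w ^ 2 ^ n) = psi l (w' ^ 2 ^ n) := by
    intro n
    rw [← psi_iter hl hw, ← psi_iter hl hw', h]
  obtain ⟨n, hn1, hn2⟩ := (((b4_tendsto hw).eventually_gt_atTop 20).and
    ((b4_tendsto hw').eventually_gt_atTop 20)).exists
  have heq : w ^ 2 ^ n = w' ^ 2 ^ n := b4_inj_big hl hn1 hn2 (hall n)
  clear hn1 hn2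
  induction n with
  | zero => simpa using heq
  | succ n ih =>
    refine ih ?_
    have h1 : (w ^ 2 ^ n) ^ 2 = (w' ^ 2 ^ n) ^ 2 := by
      rw [← pow_mul, ← pow_mul, ← pow_succ]
      exact heq
    rcases sq_eq_sq_iff_eq_or_eq_neg.1 h1 with h2 | h2
    · exact h2
    · exfalso
      have h3 := hall n
      have h4 := psi_neg hl (b4_one_lt_norm_pow hw n)
      have h5 : -(w ^ 2 ^ n) = w' ^ 2 ^ n := by rw [h2]; ring
      rw [h5, ← h3] at h4
      have h6 : psi l (w ^ 2 ^ n) = -l / 2 := by linear_combination h4 / 2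
      have h7 := psi_f hl (b4_one_lt_norm_pow hw n)
      have h8 : f l (psi l (w ^ 2 ^ n)) = v l := by
        rw [h6]
        simp only [f, v]
        ring
      rw [h8] at h7
      refine psi_notMem (l := l) (w := (w ^ 2 ^ n) ^ 2) hl ?_ (h7 ▸ v_mem_K hl)
      rw [norm_pow]
      exact one_lt_pow₀ (b4_one_lt_norm_pow hw n) (by norm_num)

private theorem b4_surj_big {l z : ℂ} (hl : ‖l‖ ≤ 1) (hz : 40 < ‖z‖) :
    ∃ w, 1 < ‖w‖ ∧ psi l w = z := by
  have hcl : ∀ y ∈ Metric.closedBall z 18, 20 < ‖y‖ := by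
    intro y hy
    rw [Metric.mem_closedBall, dist_eq_norm] at hy
    have h1 : ‖z‖ ≤ ‖y‖ + ‖y - z‖ := by
      have := norm_sub_le y (y - z)
      simpa using this
    linarith
  have hd : DiffContOnCl ℂ (psi l) (Metric.ball z 18) := by
    refine DifferentiableOn.diffContOnCl ?_
    rw [closure_ball z (by norm_num : (18 : ℝ) ≠ 0)]
    refine (psi_differentiableOn hl).mono fun y hy => ?_
    show 1 < ‖y‖
    linarith [hcl y hy]
  have hz4 := norm_psi_sub_le (w := z) hl (by linarith)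
  have hs : ∀ y ∈ Metric.sphere z 18, (10 : ℝ) ≤ ‖psi l y - psi l z‖ := by
    intro y hy
    have h1 := norm_psi_sub_le (w := y) hl (by linarith [hcl y (Metric.sphere_subset_closedBall hy)])
    rw [mem_sphere_iff_norm] at hy
    have h2 : y - z = (psi l y - psi l z) - (psi l y - y) + (psi l z - z) := by ring
    have h3 : ‖y - z‖ ≤ ‖psi l y - psi l z‖ + ‖psi l y - y‖ + ‖psi l z - z‖ := by
      conv_lhs => rw [h2]
      exact (norm_add_le _ _).trans (by linarith [norm_sub_le (psi l y - psi l z) (psi l y - y)])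
    linarith
  have hf : ∃ᶠ y in 𝓝 z, psi l y ≠ psi l z := by
    have h1 : ∀ᶠ y in 𝓝[≠] z, psi l y ≠ psi l z := by
      have h2 : ∀ᶠ y in 𝓝[≠] z, y ∈ Metric.closedBall z 18 :=
        (mem_nhdsWithin_of_mem_nhds (Metric.closedBall_mem_nhds z (by norm_num)))
      filter_upwards [h2, self_mem_nhdsWithin] with y hy hne heq
      exact hne (b4_inj_big hl (hcl y hy) (by linarith) heq)
    exact h1.frequently.filter_mono nhdsWithin_le_nhds
  have h1 := hd.ball_subset_image_closedBall (by norm_num : (0 : ℝ) < 18) hs hf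
  have h2 : z ∈ Metric.ball (psi l z) (10 / 2) := by
    rw [Metric.mem_ball, dist_eq_norm, norm_sub_rev]
    linarith
  obtain ⟨w, hw, hwz⟩ := h1 h2
  exact ⟨w, by linarith [hcl w hw], hwz⟩

theorem exists_psi_eq {l z : ℂ} (hl : ‖l‖ ≤ 1) (hz : z ∉ K l) : ∃ w, 1 < ‖w‖ ∧ psi l w = z := by
  have h1 : ∃ n : ℕ, 40 < ‖(f l)^[n] z‖ := by
    by_contra hcon
    push Not at hcon
    exact hz ((mem_K_iff hl).2 ⟨40, hcon⟩)
  obtain ⟨n, hn⟩ := h1
  obtain ⟨W, hW⟩ := b4_surj_big hl hn
  clear hn hz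
  induction n generalizing z W with
  | zero => exact ⟨W, hW.1, by simpa using hW.2⟩
  | succ n ih =>
    rw [Function.iterate_succ_apply] at hW
    obtain ⟨V, hV1, hV2⟩ := ih W hW
    obtain ⟨w, hw⟩ := IsAlgClosed.exists_pow_nat_eq V (n := 2) (by norm_num)
    have hw1 : 1 < ‖w‖ := by
      by_contra hcon
      have h2 : ‖w‖ ≤ 1 := not_lt.1 hcon
      have h3 : ‖V‖ ≤ 1 := by
        rw [← hw, norm_pow]
        exact pow_le_one₀ (norm_nonneg _) h2
      linarith
    have h4 := psi_f hl hw1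
    rw [hw, hV2] at h4
    simp only [f] at h4
    have h5 : (psi l w - z) * (psi l w + z + l) = 0 := by linear_combination h4
    rcases mul_eq_zero.1 h5 with h6 | h6
    · exact ⟨w, hw1, sub_eq_zero.1 h6⟩
    · refine ⟨-w, by rwa [norm_neg], ?_⟩
      have h7 := psi_neg hl hw1
      linear_combination h7 - h6

end Pool.Agent.CR
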