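import Pool.Agent.H73.CR.B4

/-!
# CR B5: rays

`ray l θ t = psi l (exp (t + 2 π i θ))`. All statements are direct consequences of B3, B4.
`tendsto_infDist`: if `t → 0+` then the distance of `ray l θ t` to `K l` tends to `0`: a limit point `z` of
`ray l θ t` satisfies `‖(f l)^[m] z‖ = lim ‖ray l (2 ^ m * θ) (2 ^ m * t)‖ ≤ lim (exp (2 ^ m * t) + 1) = 2` for all `m`.
-/

set_option autoImplicit false

open Set Filter Topology

namespace Pool.Agent.CR

private lemma B5_norm (θ t : ℝ) :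
    ‖Complex.exp ((t : ℂ) + 2 * Real.pi * θ * Complex.I)‖ = Real.exp t := by
  rw [Complex.norm_exp]
  congr 1
  simp

private lemma B5_one_lt (θ : ℝ) {t : ℝ} (ht : 0 < t) :
    1 < ‖Complex.exp ((t : ℂ) + 2 * Real.pi * θ * Complex.I)‖ := by
  rw [B5_norm]
  exact Real.one_lt_exp_iff.2 ht

private lemma B5_pow (θ t : ℝ) (n : ℕ) :
    Complex.exp ((t : ℂ) + 2 * Real.pi * θ * Complex.I) ^ 2 ^ n =
      Complex.exp (((2 ^ n * t : ℝ) : ℂ) + 2 * Real.pi * ((2 ^ n * θ : ℝ) : ℂ) * Complex.I) := by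
  rw [← Complex.exp_nat_mul]
  congr 1
  push_cast
  ring

theorem ray_iter {l : ℂ} (hl : ‖l‖ ≤ 1) (θ : ℝ) {t : ℝ} (ht : 0 < t) (n : ℕ) :
    (f l)^[n] (ray l θ t) = ray l (2 ^ n * θ) (2 ^ n * t) := by
  unfold ray
  rw [psi_iter hl (B5_one_lt θ ht), B5_pow]

theorem ray_f {l : ℂ} (hl : ‖l‖ ≤ 1) (θ : ℝ) {t : ℝ} (ht : 0 < t) :
    f l (ray l θ t) = ray l (2 * θ) (2 * t) := by
  have h := ray_iter hl θ ht 1
  rw [Function.iterate_one, pow_one] at h
  exact h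

theorem ray_add_int (l : ℂ) (θ t : ℝ) (m : ℤ) : ray l (θ + m) t = ray l θ t := by
  unfold ray
  congr 1
  rw [Complex.exp_eq_exp_iff_exists_int]
  refine ⟨m, ?_⟩
  push_cast
  ring

theorem ray_notMem {l : ℂ} (hl : ‖l‖ ≤ 1) (θ : ℝ) {t : ℝ} (ht : 0 < t) : ray l θ t ∉ K l :=
  psi_notMem hl (B5_one_lt θ ht)

theorem ray_ne_zero {l : ℂ} (hl : ‖l‖ ≤ 1) (θ : ℝ) {t : ℝ} (ht : 0 < t) : ray l θ t ≠ 0 :=
  psi_ne_zero hl (B5_one_lt θ ht)

theorem norm_ray_le {l : ℂ} (hl : ‖l‖ ≤ 1) (θ : ℝ) {t : ℝ} (ht : 0 < t) :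
    ‖ray l θ t‖ ≤ Real.exp t + 1 := by
  have h := norm_psi_le hl (B5_one_lt θ ht)
  rw [B5_norm] at h
  exact h

theorem ray_continuousOn :
    ContinuousOn (fun p : ℂ × ℝ × ℝ => ray p.1 p.2.1 p.2.2) {p | ‖p.1‖ ≤ 1 ∧ 0 < p.2.2} := by
  have hg : Continuous (fun p : ℂ × ℝ × ℝ =>
      ((p.1, Complex.exp ((p.2.2 : ℂ) + 2 * Real.pi * p.2.1 * Complex.I)) : ℂ × ℂ)) := by
    fun_prop
  exact psi_continuousOn.comp hg.continuousOn fun p hp => ⟨hp.1, B5_one_lt p.2.1 hp.2⟩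

theorem ray_inj {l : ℂ} (hl : ‖l‖ ≤ 1) {θ θ' t t' : ℝ} (ht : 0 < t) (ht' : 0 < t')
    (h : ray l θ t = ray l θ' t') : t = t' ∧ ∃ m : ℤ, θ - θ' = m := by
  have h1 := psi_injOn hl (B5_one_lt θ ht) (B5_one_lt θ' ht') h
  have hn := congrArg norm h1
  rw [B5_norm, B5_norm] at hn
  refine ⟨Real.exp_injective hn, ?_⟩
  rw [Complex.exp_eq_exp_iff_exists_int] at h1
  obtain ⟨m, hm⟩ := h1
  refine ⟨m, ?_⟩
  have h2 := congrArg Complex.im hm
  simp at h2
  have hpi : (2 * Real.pi) ≠ 0 := by positivity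
  have h3 : 2 * Real.pi * (θ - θ') = 2 * Real.pi * m := by linarith
  exact mul_left_cancel₀ hpi h3

theorem tendsto_infDist {l : ℂ} (hl : ‖l‖ ≤ 1) (θ : ℝ) :
    Tendsto (fun t => Metric.infDist (ray l θ t) (K l)) (𝓝[>] 0) (𝓝 0) := by
  rw [tendsto_iff_ultrafilter]
  intro G hG
  have hpos : ∀ᶠ t in (G : Filter ℝ), 0 < t := hG self_mem_nhdsWithin
  have hG0 : Tendsto (fun t : ℝ => t) G (𝓝 0) := hG.trans nhdsWithin_le_nhds
  have hb : ∀ᶠ t in (G : Filter ℝ), ray l θ t ∈ Metric.closedBall (0 : ℂ) 4 := by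
    have h1 : ∀ᶠ t in (G : Filter ℝ), t < 1 := hG0.eventually (eventually_lt_nhds one_pos)
    filter_upwards [hpos, h1] with t ht ht1
    rw [mem_closedBall_zero_iff]
    have h2 := norm_ray_le hl θ ht
    have h3 := Real.exp_one_lt_d9
    have h4 := Real.exp_le_exp.2 ht1.le
    linarith
  obtain ⟨z, -, hz⟩ := (isCompact_closedBall (0 : ℂ) 4).ultrafilter_le_nhds' (G.map (ray l θ)) hb
  have hz' : Tendsto (ray l θ) G (𝓝 z) := hz
  have hK : z ∈ K l := by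
    intro m
    have hc : Continuous ((f l)^[m]) := by
      refine Continuous.iterate ?_ m
      unfold f
      fun_prop
    have h1 : Tendsto (fun t => ‖(f l)^[m] (ray l θ t)‖) G (𝓝 ‖(f l)^[m] z‖) :=
      (hc.norm.tendsto z).comp hz'
    have h2 : Tendsto (fun t : ℝ => Real.exp (2 ^ m * t) + 1) G (𝓝 2) := by
      have hc2 : Continuous (fun t : ℝ => Real.exp (2 ^ m * t) + 1) := by fun_prop
      have h3 := (hc2.tendsto 0).comp hG0
      have h4 : Real.exp (2 ^ m * 0) + 1 = 2 := by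
        rw [mul_zero, Real.exp_zero]
        norm_num
      rw [h4] at h3
      exact h3
    refine le_of_tendsto_of_tendsto h1 h2 ?_
    filter_upwards [hpos] with t ht
    rw [ray_iter hl θ ht m]
    exact norm_ray_le hl _ (by positivity)
  have h3 := ((Metric.continuous_infDist_pt (K l)).tendsto z).comp hz'
  rw [Metric.infDist_zero_of_mem hK] at h3
  exact h3

end Pool.Agent.CR
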