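import Mathlib

/-!
# CR: basic definitions (a Cremer polynomial with an external ray landing at the Cremer point)

`f l z = z^2 + l z`; `K l` the filled Julia set for `‖l‖ ≤ 1`; `v l` the critical value;
`psi l w = w ∑ cf l k w^(-k)` the inverse of the Boettcher map, `1 < ‖w‖`;
`ray l θ t = psi l (exp (t + 2 π i θ))`, `0 < t`.
-/

set_option autoImplicit false

namespace Pool.Agent.CR

/-- The quadratic polynomial with a fixed point of multiplier `l` at `0`. -/
def f (l z : ℂ) : ℂ := z ^ 2 + l * z

/-- The critical value. -/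
noncomputable def v (l : ℂ) : ℂ := -(l ^ 2) / 4

/-- The filled Julia set (for `‖l‖ ≤ 1`). -/
def K (l : ℂ) : Set ℂ := {z | ∀ n : ℕ, ‖(f l)^[n] z‖ ≤ 2}

/-- The coefficients of the inverse of the Boettcher map. -/
noncomputable def cf (l : ℂ) : ℕ → ℂ
  | 0 => 1
  | (k + 1) => ((if Even (k + 1) then cf l ((k + 1) / 2) else 0) - l * cf l k -
      ∑ i : Fin k, cf l (i + 1) * cf l (k - i)) / 2
termination_by k => k
decreasing_by all_goals omega

/-- The inverse of the Boettcher map. -/
noncomputable def psi (l w : ℂ) : ℂ := w * ∑' k : ℕ, cf l k * w⁻¹ ^ k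

/-- External rays: angle `θ`, potential `t > 0`. -/
noncomputable def ray (l : ℂ) (θ t : ℝ) : ℂ :=
  psi l (Complex.exp ((t : ℂ) + 2 * Real.pi * θ * Complex.I))

/-- The multiplier of rotation number `x`. -/
noncomputable def mu (x : ℝ) : ℂ := Complex.exp (2 * Real.pi * x * Complex.I)

/-- The angles of the rotation cycle with rotation number `p / q`. -/
noncomputable def ang (p q : ℕ) (i : ℤ) : ℝ :=
  ∑' n : ℕ, (((i + (n + 1) * p) / q - (i + n * p) / q : ℤ) : ℝ) / 2 ^ (n + 1)

end Pool.Agent.CR
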