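import Pool.Agent.H73.CR.GP10
import Pool.Agent.H48.CR.Pass
import Pool.Agent.H33.CR.GI

/-!
# CR GP11: the chain of sectors through the gate

`n = qN q e N`, `l = lN p q s e N`, `z k j τ = sec p q l (j - k p) (τ / 2^k)`; `f l (z (k+1) j τ) = z k j τ` and `z (k+1) j (2 τ) = z k (j - p) τ` (`sec_f`, definition).

We may replace `r` by a larger number (`Lf`, `Wm` are decreasing). Let `C`, `r1` be the constants of `pass`; assume `r ≥ r1 + 13`, `r ≥ 2 R + 13`, `c.C * r^(-1/q) ≤ 1/8`. `sec_base` with `R' = 2 r` gives `a = min a1 1` and `B` (take `B ≥ 1`). Let `m0 ≥ 8 (B + r + 10)`. All `N` with `sec_base`, `N ≥ N0`, `n ≥ 2 m0`.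
(*) If `w ∈ Lf (2 r)`, `‖w‖ ≤ B`, `-2 ≤ x ≤ n - m0 + 2` real, `‖u - (w - x)‖ ≤ 1/2`, then `u ∈ Wm n r` [holes `i n`, `i ≥ 0`: `u.re - i n ≤ w.re + 5/2 ≤ -2 r + 5/2 ≤ -r` and `-u.im ≤ |w.im| + 1/2 ≤ -w.re/8 + 1/2 ≤ (-w.re - 5/2)/4`, as `-w.re ≥ 2 r ≥ 26`; holes `i n`, `i ≤ -1`: `u.re - i n ≥ -B - x - 1/2 + n ≥ m0 - B - 5/2 ≥ r`,
`-u.im ≤ B + 1/2 ≤ (m0 - B - 5/2)/4`]. `Wm n r ⊆ Wd n R ∩ Wi n R` (`r ≥ R + 2`), all these sets are invariant under `w ↦ w + i n` (integers `i`).

Claim(k), `k + m0 ≤ n`: for all `j` and `τ ∈ An a` there are `w ∈ Lf (2 r)`, `‖w‖ ≤ B`, and `w'` with `sec l j τ = W N (w + j n)`, `‖w' - (w - k)‖ ≤ 1/8`, `z k j τ = W N (w' + (j - k p) n)`. (Then `w' ∈ Wm n r` by (*).) `k = 0`: `w' = w`.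
Step, `k + 1 + m0 ≤ n`. Let `j`, `J = j - (k+1) p`. (1) For each `τ ∈ An a`: `w, w'` as in Claim(k). Let `g u = u + δ N (u + J n)`, differentiable on `ball (w' - 1) 1` (for `u` in it `u + J n ∈ Wd n R`, `u + J n + 1 ∈ Wi n R`: `‖u - (w - (k+1))‖ ≤ 9/8`, use (*) with `x = k + 1 - (real shift ≤ 9/8)`: write `u = (w - x) + i y`-free: it is enough that (*) holds with `‖u - (w - x)‖ ≤ 5/2`,
which has the same proof), `‖g u - u‖ ≤ 1/8` (`δ_small`). `near_id_solve` (`H33/CR/GB`): `u` with `‖u - (w' - 1)‖ ≤ 1/8`, `g u = w' - 1`, so `u + 1 + δ N (u + J n) = w'` and by `c.map`: `f l (W N (u + J n)) = W N (u + J n + p n + 1 + δ) = W N (w' + (j - k p) n) = z k j τ = f l (z (k+1) j τ)`. By `c.small` (distance of `u + J n` to the holes `≥ r`) `‖W N (u + J n)‖ ≤ 1/8`.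
Since `f l x = f l y` means `x = y` or `x = - l - y`, `‖z (k+1) j τ‖ ≤ 1/8` or `‖z (k+1) j τ‖ ≥ 7/8`. (2) `τ ↦ ‖z (k+1) j τ‖` is continuous on the connected set `An a`, so one of the two alternatives holds for all `τ ∈ An a`. At `τ = 2 a`: `z (k+1) j (2 a) = z k (j - p) a = W N (w'' + (j - p - k p) n)` (Claim(k) for `j - p`, `τ = a`), norm `≤ 1/8` by `c.small`. So `‖z (k+1) j τ‖ ≤ 1/8` for all `τ ∈ An a`,
and `z (k+1) j τ = W N (u + J n)` (`GI_f_inj`, `‖l‖ = 1`). (3) `pass` with `u + J n`, `k + 1 ≤ n` steps, all `u + J n + i ∈ Wm n r`, `i ≤ k + 1` (by (*): `‖u - (w - (k+1))‖ ≤ 1/4`): `(f l)^[k+1] (W N (u + J n)) = W N (u + J n + (k+1) (p n + 1) + E) = W N (u + (k + 1) + E + j n)`, `‖E‖ ≤ 1/8`; and `(f l)^[k+1] (z (k+1) j τ) = sec l j τ = W N (w + j n)` (`sec_iter`).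
`c.inj`: `w = u + (k+1) + E + i (q n)`, `‖w - (u + (k+1) + E)‖ ≤ 3/8 < 1 ≤ q n`, so `i = 0`, `‖u - (w - (k+1))‖ = ‖E‖ ≤ 1/8`. This is Claim(k+1) with `w' = u`.
-/

set_option autoImplicit false

open Set Filter Topology Metric

namespace Pool.Agent.CR

variable {p q s e : ℕ}

theorem Wm_sub {n R r : ℝ} (hR : 4 ≤ R) (hr : R + 2 ≤ r) {w : ℂ} (hw : w ∈ Wm n r) : w ∈ Wd n R ∧ w ∈ Wi n R := by
  have key : ∀ k : ℤ, R + 2 ≤ ‖w - k * n‖ ∧ -w.im < |w.re - k * n| / 2 := by
    intro k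
    obtain ⟨h1, h2⟩ := hw k
    refine ⟨hr.trans h1, ?_⟩
    rcases eq_or_lt_of_le (abs_nonneg (w.re - k * n)) with h0 | h0
    · have h3 : w.re - k * n = 0 := abs_eq_zero.1 h0.symm
      have h4 : (w - k * n).re = 0 := by
        simp only [Complex.sub_re, Complex.mul_re, Complex.intCast_re, Complex.ofReal_re, Complex.intCast_im, Complex.ofReal_im,
          mul_zero, sub_zero]
        exact h3
      have h5 : (w - k * n).im = w.im := by simp
      have h6 : ‖w - k * n‖ = |w.im| := by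
        rw [← h5, Complex.norm_eq_sqrt_sq_add_sq, h4]
        simp [Real.sqrt_sq_eq_abs]
      rw [← h0] at h2 ⊢
      rw [h6] at h1
      have h7 : 0 ≤ w.im := by linarith
      rw [abs_of_nonneg h7] at h1
      linarith
    · linarith
  refine ⟨fun k => ⟨?_, ?_⟩, fun k => ⟨?_, (key k).2⟩⟩
  · linarith [(key k).1]
  · have := (key k).2
    have := abs_nonneg (w.re - k * n)
    linarith
  · linarith [(key k).1]

theorem Wm_add (n r : ℝ) (k : ℤ) (w : ℂ) : w + k * n ∈ Wm n r ↔ w ∈ Wm n r := by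
  have key : ∀ j : ℤ, ∀ v : ℂ, v ∈ Wm n r → v + j * n ∈ Wm n r := by
    intro j v hv i
    have h1 := hv (i - j)
    have e1 : v + j * n - i * n = v - ((i - j : ℤ) : ℂ) * n := by push_cast; ring
    have e2 : (v + j * n).re - i * n = v.re - ((i - j : ℤ) : ℝ) * n := by
      simp only [Complex.add_re, Complex.mul_re, Complex.intCast_re, Complex.ofReal_re, Complex.intCast_im, Complex.ofReal_im,
        mul_zero, sub_zero]
      push_cast; ring
    have e3 : (v + j * n).im = v.im := by simp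
    rw [e1, e2, e3]
    exact h1
  constructor
  · intro h
    have h1 := key (-k) _ h
    have e1 : w + k * n + ((-k : ℤ) : ℂ) * n = w := by push_cast; ring
    rwa [e1] at h1
  · exact key k w

private theorem GP11_star {n ρ B m0 : ℝ} (hρ : 13 ≤ ρ) (hB0 : 0 ≤ B) (hm0 : 8 * (B + ρ + 10) ≤ m0) {w u : ℂ}
    {x : ℝ} (hw : w ∈ Lf (2 * ρ)) (hB : ‖w‖ ≤ B) (hx : 0 ≤ x) (hxn : x + m0 ≤ n)
    (hu : ‖u - (w - x)‖ ≤ 3 / 2) : u ∈ Wm n ρ := by
  intro i
  have hre := abs_le.1 ((Complex.abs_re_le_norm (u - (w - x))).trans hu)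
  have him := abs_le.1 ((Complex.abs_im_le_norm (u - (w - x))).trans hu)
  simp only [Complex.sub_re, Complex.sub_im, Complex.ofReal_re, Complex.ofReal_im, sub_zero] at hre him
  have hwre := abs_le.1 ((Complex.abs_re_le_norm w).trans hB)
  have hwim := abs_le.1 ((Complex.abs_im_le_norm w).trans hB)
  obtain ⟨hw1, hw2⟩ := hw
  have hw3 := abs_le.1 hw2.le
  have hn : 0 ≤ n := by linarith
  have hle : |u.re - i * n| ≤ ‖u - i * n‖ := by
    have h1 := Complex.abs_re_le_norm (u - i * n)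
    simpa using h1
  rcases le_or_gt 0 i with hi | hi
  · have hi' : (0 : ℝ) ≤ i := by exact_mod_cast hi
    have hin : 0 ≤ i * n := mul_nonneg hi' hn
    have habs : |u.re - i * n| = -(u.re - i * n) := abs_of_nonpos (by linarith)
    refine ⟨?_, ?_⟩
    · refine le_trans ?_ hle
      rw [habs]; linarith
    · rw [habs]; linarith
  · have hi' : (i : ℝ) ≤ -1 := by
      have : i ≤ -1 := by omega
      exact_mod_cast this
    have hin : i * n ≤ -n := by nlinarith
    have habs : |u.re - i * n| = u.re - i * n := abs_of_nonneg (by linarith)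
    refine ⟨?_, ?_⟩
    · refine le_trans ?_ hle
      rw [habs]; linarith
    · rw [habs]; linarith

private theorem GP11_Wm_mono {n r ρ : ℝ} (h : r ≤ ρ) : Wm n ρ ⊆ Wm n r := fun _ hw k =>
  ⟨h.trans (hw k).1, (hw k).2⟩

private theorem GP11_exists_rho (hq : 0 < q) (C M : ℝ) : ∃ ρ : ℝ, M ≤ ρ ∧ C * ρ ^ (-(1 / (q : ℝ))) ≤ 1 / 8 := by
  have hq' : (0 : ℝ) < 1 / q := by positivity
  have h1 : Tendsto (fun ρ : ℝ => C * ρ ^ (-(1 / (q : ℝ)))) atTop (𝓝 (C * 0)) :=
    (tendsto_rpow_neg_atTop hq').const_mul C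
  rw [mul_zero] at h1
  have h2 := (h1.eventually (gt_mem_nhds (show (0 : ℝ) < 1 / 8 by norm_num))).and (eventually_ge_atTop M)
  obtain ⟨ρ, h3, h4⟩ := h2.exists
  exact ⟨ρ, h4, h3.le⟩

private theorem GP11_dich {l A S : ℂ} (hl : ‖l‖ = 1) (h : f l A = f l S) (hA : ‖A‖ ≤ 1 / 8) :
    S = A ∨ 7 / 8 ≤ ‖S‖ := by
  have h1 : (A - S) * (A + S + l) = 0 := by
    unfold f at h
    linear_combination h
  rcases mul_eq_zero.1 h1 with h2 | h2
  · exact Or.inl (sub_eq_zero.1 h2).symm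
  · right
    have h3 : l = -(A + S) := by linear_combination h2
    have h4 : ‖l‖ ≤ ‖A‖ + ‖S‖ := by
      rw [h3, norm_neg]; exact norm_add_le _ _
    rw [hl] at h4
    linarith

private theorem GP11_mem_An {a t : ℝ} (ha : 0 < a) (h1 : a ≤ t) (h2 : t ≤ 4 * a) : (t : ℂ) ∈ An a := by
  refine ⟨by simpa using h1, by simpa using h2, ?_⟩
  simp only [Complex.ofReal_im, abs_zero, Complex.ofReal_re]
  linarith


/-- **The chain of sectors through the gate.** -/
theorem chain (hp : 0 < p) (hpq : p < q) (hs : q * s = p * e + 1) {c : Chart p q s e} (hR : RaySheet c) (r : ℝ) :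
    ∃ (a B : ℝ) (m0 : ℕ), 0 < a ∧ 0 < B ∧ 8 * (B + |r| + 10) ≤ m0 ∧ ∀ᶠ N : ℕ in atTop,
      ∀ k : ℕ, k + m0 ≤ qN q e N → ∀ (j : ℤ), ∀ τ ∈ An a,
        ∃ w w' : ℂ, w ∈ Lf r ∧ ‖w‖ ≤ B ∧ ‖w' - (w - k)‖ ≤ 1 / 8 ∧ w' ∈ Wm (qN q e N) r ∧
          sec p q (lN p q s e N) (j - k * p) (τ / 2 ^ k) = c.W N (w' + (j - k * p : ℤ) * qN q e N) := by
  have hq : 0 < q := by omega
  obtain ⟨C, r1, hC, hr1, hCr1, hpass⟩ := pass hq c
  have hR4 := c.R_ge
  obtain ⟨ρ, hρM, hρC⟩ := GP11_exists_rho hq c.C (max (|r| + 13) (max (r1 + 13) (2 * c.R + 13)))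
  have hρr : |r| + 13 ≤ ρ := (le_max_left _ _).trans hρM
  have hρr1 : r1 + 13 ≤ ρ := (le_max_left _ _).trans ((le_max_right _ _).trans hρM)
  have hρR : 2 * c.R + 13 ≤ ρ := (le_max_right _ _).trans ((le_max_right _ _).trans hρM)
  have hr' : r ≤ ρ := by linarith [le_abs_self r]
  have hρ13 : 13 ≤ ρ := by linarith [abs_nonneg r]
  obtain ⟨a, ha, hbase⟩ := sec_base hp hpq hs hR (2 * ρ)
  obtain ⟨B, hB, hbase⟩ := hbase a ha le_rfl
  obtain ⟨m0, hm0⟩ := exists_nat_ge (8 * (B + ρ + 10))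
  refine ⟨a, B, m0, ha, hB, by linarith, ?_⟩
  filter_upwards [hbase, eventually_ge_atTop c.N0] with N hN hN0
  set n : ℝ := (qN q e N : ℝ) with hndef
  set l := lN p q s e N with hldef
  have hl1 : ‖l‖ = 1 := lN_norm p q s e N
  have hn400 : 400 ≤ n := by
    have := c.n_ge N hN0
    linarith
  have hqn : 1 ≤ q * n := by
    have h1 : (1 : ℝ) ≤ q := by exact_mod_cast hq
    nlinarith
  have hWsmall : ∀ u : ℂ, u ∈ Wm n ρ → ‖c.W N u‖ ≤ 1 / 8 := fun u hu =>
    (c.small N hN0 u (Wm_sub hR4 (by linarith) hu).1 ρ (by linarith) fun k => (hu k).1).trans hρC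
  have hcast : ((qN q e N : ℕ) : ℂ) = (n : ℂ) := by rw [hndef]; push_cast; rfl
  have claim : ∀ k : ℕ, k + m0 ≤ qN q e N → ∀ (j : ℤ), ∀ τ ∈ An a, ∃ w w' : ℂ, w ∈ Lf (2 * ρ) ∧ ‖w‖ ≤ B ∧
      ‖w' - (w - k)‖ ≤ 1 / 8 ∧ sec p q l j τ = c.W N (w + j * n) ∧
      sec p q l (j - k * p) (τ / 2 ^ k) = c.W N (w' + (j - k * p : ℤ) * n) := by
    intro k
    induction k with
    | zero =>
      intro _ j τ hτ
      obtain ⟨w, h1, h2, h3⟩ := hN j τ hτ
      rw [hcast] at h3
      refine ⟨w, w, h1, h2, by simp, h3, ?_⟩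
      simpa using h3
    | succ k ih =>
      intro hk j τ0 hτ0
      have hk' : k + m0 ≤ qN q e N := by omega
      have ih := ih hk'
      have hkn : (k : ℝ) + 1 + m0 ≤ n := by rw [hndef]; exact_mod_cast hk
      have hJp : ((j - (k + 1 : ℕ) * p : ℤ) + p : ℤ) = j - k * p := by push_cast; ring
      set J : ℤ := j - (k + 1 : ℕ) * p with hJ
      -- step 1
      have step1 : ∀ τ ∈ An a, ∃ w u : ℂ, w ∈ Lf (2 * ρ) ∧ ‖w‖ ≤ B ∧ ‖u - (w - (k + 1))‖ ≤ 1 / 4 ∧
          sec p q l j τ = c.W N (w + j * n) ∧ u + J * n ∈ Wm n ρ ∧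
          f l (c.W N (u + J * n)) = f l (sec p q l J (τ / 2 ^ (k + 1))) := by
        intro τ hτ
        obtain ⟨w, w', hwL, hwB, hww, hj, hjk⟩ := ih j τ hτ
        have hτre : 0 < τ.re := lt_of_lt_of_le ha hτ.1
        have hdom : ∀ y ∈ ball (w' - 1) 1, y ∈ Wm n ρ ∧ y + 1 ∈ Wm n ρ := by
          intro y hy
          rw [mem_ball, dist_eq_norm] at hy
          constructor
          · refine GP11_star (x := k + 1) hρ13 hB.le hm0 hwL hwB (by positivity) hkn ?_
            have e1 : y - (w - ((k + 1 : ℝ) : ℂ)) = (y - (w' - 1)) + (w' - (w - k)) := by push_cast; ring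
            rw [e1]
            refine (norm_add_le _ _).trans ?_
            linarith
          · refine GP11_star (x := k) hρ13 hB.le hm0 hwL hwB (by positivity) (by linarith) ?_
            have e1 : y + 1 - (w - ((k : ℝ) : ℂ)) = (y - (w' - 1)) + (w' - (w - k)) := by push_cast; ring
            rw [e1]
            refine (norm_add_le _ _).trans ?_
            linarith
        have hdom' : ∀ y ∈ ball (w' - 1) 1, y + J * n ∈ Wd n c.R ∧ y + J * n + 1 ∈ Wi n c.R := by
          intro y hy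
          obtain ⟨h1, h2⟩ := hdom y hy
          refine ⟨(Wm_sub hR4 (by linarith) ((Wm_add n ρ J y).2 h1)).1, ?_⟩
          have e1 : y + J * n + 1 = y + 1 + J * n := by ring
          rw [e1]
          exact (Wm_sub hR4 (by linarith) ((Wm_add n ρ J (y + 1)).2 h2)).2
        have hd : DifferentiableOn ℂ (fun y => y + c.δ N (y + J * n)) (ball (w' - 1) 1) := by
          refine differentiableOn_id.add ?_
          refine (c.δ_diff N hN0).comp (by fun_prop) ?_
          intro y hy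
          exact hdom' y hy
        have hg : ∀ y ∈ ball (w' - 1) 1, ‖(fun y => y + c.δ N (y + J * n)) y - y‖ ≤ 1 / 8 := by
          intro y hy
          show ‖y + c.δ N (y + J * n) - y‖ ≤ 1 / 8
          rw [add_sub_cancel_left]
          exact (c.δ_small N hN0 _ (hdom' y hy).1 (hdom' y hy).2).1
        obtain ⟨u, hu1, hu2⟩ := near_id_solve le_rfl hd hg
        have hu2' : u + c.δ N (u + J * n) = w' - 1 := hu2
        have hub : u ∈ ball (w' - 1) 1 := by
          rw [mem_ball, dist_eq_norm]; linarith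
        refine ⟨w, u, hwL, hwB, ?_, hj, (Wm_add n ρ J u).2 (hdom u hub).1, ?_⟩
        · have e1 : u - (w - (k + 1)) = (u - (w' - 1)) + (w' - (w - k)) := by ring
          rw [e1]
          refine (norm_add_le _ _).trans ?_
          linarith
        · have h1 := c.map N hN0 (u + J * n) (hdom' u hub).1 (hdom' u hub).2
          rw [← hldef] at h1
          rw [h1]
          have h2 := sec_f hq hpq.le hl1.le J (τ := τ / 2 ^ (k + 1)) (by
            have : (τ / 2 ^ (k + 1)).re = τ.re / 2 ^ (k + 1) := by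
              have e3 : (2 : ℂ) ^ (k + 1) = ((2 ^ (k + 1) : ℝ) : ℂ) := by push_cast; rfl
              rw [e3, Complex.div_ofReal_re]
            rw [this]; positivity)
          rw [h2]
          have e4 : 2 * (τ / 2 ^ (k + 1)) = τ / 2 ^ k := by
            rw [pow_succ]; field_simp
          rw [e4, hJp, hjk]
          congr 1
          have e5 : ((j - k * p : ℤ) : ℂ) = (J : ℂ) + p := by rw [← hJp]; push_cast; ring
          rw [e5]
          have e6 : ((qN q e N : ℕ) : ℂ) = (n : ℂ) := hcast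
          rw [e6]
          linear_combination hu2'
      -- step 2: all values are small
      have hcont : ContinuousOn (fun τ => ‖sec p q l J (τ / 2 ^ (k + 1))‖) (An a) := by
        refine ContinuousOn.norm ?_
        refine (sec_diff p q hl1.le J).continuousOn.comp (by fun_prop) ?_
        intro τ hτ
        show 0 < (τ / 2 ^ (k + 1)).re
        have e3 : (2 : ℂ) ^ (k + 1) = ((2 ^ (k + 1) : ℝ) : ℂ) := by push_cast; rfl
        rw [e3, Complex.div_ofReal_re]
        have : 0 < τ.re := lt_of_lt_of_le ha hτ.1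
        positivity
      have hdich : ∀ τ ∈ An a, ‖sec p q l J (τ / 2 ^ (k + 1))‖ ≤ 1 / 8 ∨ 7 / 8 ≤ ‖sec p q l J (τ / 2 ^ (k + 1))‖ := by
        intro τ hτ
        obtain ⟨w, u, -, -, -, -, huW, hf⟩ := step1 τ hτ
        rcases GP11_dich hl1 hf (hWsmall _ huW) with h | h
        · left; rw [h]; exact hWsmall _ huW
        · right; exact h
      have h2a : ((2 * a : ℝ) : ℂ) ∈ An a := GP11_mem_An ha (by linarith) (by linarith)
      have hsm2a : ‖sec p q l J (((2 * a : ℝ) : ℂ) / 2 ^ (k + 1))‖ ≤ 1 / 8 := by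
        obtain ⟨w, w', hwL, hwB, hww, -, hjk⟩ := ih (j - p) (a : ℂ) (GP11_mem_An ha le_rfl (by linarith))
        have e1 : (((2 * a : ℝ) : ℂ)) / 2 ^ (k + 1) = (a : ℂ) / 2 ^ k := by
          rw [pow_succ]; push_cast; field_simp
        have e2 : J = j - p - k * p := by rw [hJ]; push_cast; ring
        rw [e1, e2, hjk]
        refine hWsmall _ ((Wm_add n ρ _ w').2 ?_)
        refine GP11_star (x := k) hρ13 hB.le hm0 hwL hwB (by positivity) (by linarith) ?_
        refine le_trans ?_ (show (1 / 8 : ℝ) ≤ 3 / 2 by norm_num)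
        exact_mod_cast hww
      have hsmall : ∀ τ ∈ An a, ‖sec p q l J (τ / 2 ^ (k + 1))‖ ≤ 1 / 8 := by
        intro τ hτ
        rcases hdich τ hτ with h | h
        · exact h
        · exfalso
          have hpre : IsPreconnected (An a) := (convex_An a).isPreconnected
          have hiv := hpre.intermediate_value h2a hτ hcont
          obtain ⟨τ1, hτ1, hval⟩ := hiv ⟨hsm2a.trans (show (1 / 8 : ℝ) ≤ 1 / 2 by norm_num),
            (show (1 / 2 : ℝ) ≤ 7 / 8 by norm_num).trans h⟩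
          have hval' : ‖sec p q l J (τ1 / 2 ^ (k + 1))‖ = 1 / 2 := hval
          rcases hdich τ1 hτ1 with h3 | h3
          · rw [hval'] at h3; norm_num at h3
          · rw [hval'] at h3; norm_num at h3
      -- step 3
      obtain ⟨w, u, hwL, hwB, huw, hj, huW, hf⟩ := step1 τ0 hτ0
      have hA := hWsmall _ huW
      have hS := hsmall τ0 hτ0
      have hAS : c.W N (u + J * n) = sec p q l J (τ0 / 2 ^ (k + 1)) := GI_f_inj hf (by rw [hl1]; linarith)
      have hwW : w ∈ Wm n ρ := GP11_star (x := 0) hρ13 hB.le hm0 hwL hwB le_rfl (by linarith [(Nat.cast_nonneg k : (0 : ℝ) ≤ k)])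
        (by rw [Complex.ofReal_zero, sub_zero, sub_self, norm_zero]; norm_num)
      have hchain : ∀ i ≤ k + 1, u + J * n + i ∈ Wm (qN q e N) ρ := by
        intro i hi
        have e1 : u + J * n + i = (u + i) + J * n := by ring
        rw [e1]
        refine (Wm_add n ρ J _).2 ?_
        have hi' : (i : ℝ) ≤ k + 1 := by exact_mod_cast hi
        refine GP11_star (x := k + 1 - i) hρ13 hB.le hm0 hwL hwB (by linarith)
          (by linarith [(Nat.cast_nonneg i : (0 : ℝ) ≤ i)]) ?_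
        have e2 : u + i - (w - ((k + 1 - i : ℝ) : ℂ)) = u - (w - (k + 1)) := by push_cast; ring
        rw [e2]
        linarith
      obtain ⟨E, hE1, hE2⟩ := hpass ρ (by linarith) N hN0 (u + J * n) (k + 1) (by omega) hchain
      have hE : ‖E‖ ≤ 1 / 8 := by
        refine hE1.trans (le_trans ?_ hCr1)
        refine mul_le_mul_of_nonneg_left ?_ hC.le
        refine Real.rpow_le_rpow_of_nonpos (by linarith) (by linarith) ?_
        rw [neg_nonpos]; positivity
      have hτre : 0 < (τ0 / 2 ^ (k + 1)).re := by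
        have e3 : (2 : ℂ) ^ (k + 1) = ((2 ^ (k + 1) : ℝ) : ℂ) := by push_cast; rfl
        rw [e3, Complex.div_ofReal_re]
        have : 0 < τ0.re := lt_of_lt_of_le ha hτ0.1
        positivity
      have hit := sec_iter hq hpq.le hl1.le J hτre (k + 1)
      have e7 : (2 : ℂ) ^ (k + 1) * (τ0 / 2 ^ (k + 1)) = τ0 := by field_simp
      have e8 : J + (k + 1 : ℕ) * p = j := by rw [hJ]; ring
      rw [e7, e8, hj, ← hAS, hE2] at hit
      have e9 : u + J * n + (k + 1 : ℕ) * (p * (qN q e N : ℕ) + 1) + E = (u + (k + 1) + E) + j * n := by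
        have e10 : (j : ℂ) = (J : ℂ) + ((k : ℂ) + 1) * p := by rw [← e8]; push_cast; ring
        rw [e10, hcast]; push_cast; ring
      rw [e9] at hit
      have hdist : ‖(u + (k + 1) + E) - w‖ ≤ 3 / 8 := by
        have e11 : (u + (k + 1) + E) - w = (u - (w - (k + 1))) + E := by ring
        rw [e11]
        refine (norm_add_le _ _).trans ?_
        linarith
      have hvW : u + (k + 1) + E ∈ Wm n ρ := by
        refine GP11_star (x := 0) hρ13 hB.le hm0 hwL hwB le_rfl (by linarith [(Nat.cast_nonneg k : (0 : ℝ) ≤ k)]) ?_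
        rw [Complex.ofReal_zero, sub_zero]
        linarith
      obtain ⟨i, hi⟩ := c.inj N hN0 (w + j * n) (Wm_sub hR4 (by linarith) ((Wm_add n ρ j w).2 hwW)).1
        ((u + (k + 1) + E) + j * n) (Wm_sub hR4 (by linarith) ((Wm_add n ρ j _).2 hvW)).1 hit.symm
      have hi2 : (u + (k + 1) + E) - w = i * (q * n) := by
        rw [hcast] at hi
        linear_combination hi
      have hi0 : i = 0 := by
        by_contra h0
        have h1 : (1 : ℝ) ≤ |(i : ℝ)| := by
          rw [← Int.cast_abs]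
          exact_mod_cast Int.one_le_abs h0
        rw [hi2] at hdist
        have h2 : ‖(i : ℂ) * (q * (n : ℂ))‖ = |(i : ℝ)| * (q * n) := by
          rw [norm_mul, norm_mul, Complex.norm_intCast, Complex.norm_natCast, Complex.norm_real,
            Real.norm_of_nonneg (by linarith)]
        rw [h2] at hdist
        nlinarith
      have hfin : u - (w - (k + 1)) = -E := by
        rw [hi0] at hi2
        simp only [Int.cast_zero, zero_mul] at hi2
        linear_combination hi2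
      refine ⟨w, u, hwL, hwB, ?_, hj, hAS.symm⟩
      have e12 : u - (w - ((k + 1 : ℕ) : ℂ)) = -E := by push_cast; exact hfin
      rw [e12, norm_neg]
      exact hE
  intro k hk j τ hτ
  obtain ⟨w, w', h1, h2, h3, -, h5⟩ := claim k hk j τ hτ
  refine ⟨w, w', Lf_mono (by linarith) h1, h2, h3, ?_, ?_⟩
  · refine GP11_Wm_mono hr' ?_
    refine GP11_star (x := k) hρ13 hB.le hm0 h1 h2 (by positivity) (by rw [hndef]; exact_mod_cast hk) ?_
    refine le_trans ?_ (show (1 / 8 : ℝ) ≤ 3 / 2 by norm_num)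
    exact_mod_cast h3
  · rw [h5, hcast]

end Pool.Agent.CR
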