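import Pool.Agent.H73.CR.GP2
import Pool.Agent.H73.CR.GP11

/-!
# CR GP12: the fields `gate1` and the positions for `gate2`

`n = qN q e N`, `l = lN`, `xN` from `GP2` (`0 ≤ xN ≤ 2`).
Common part (`gate_pos_aux`): let `a, B, m0` be from `chain` for `r`. Let `T ≥ 4 a 2^m0`, `T ≥ 4 π`, `T / 2^n ≤ 4 a`. There is `k` with `2 a < 2^k T / 2^n ≤ 4 a` (largest `k` with `2^k T/2^n ≤ 4 a`; e.g. `exists_nat_pow_near`), and `k + m0 ≤ n` since `2^(k + m0) T ≤ 4 a 2^m0 2^n ≤ T 2^n`.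
Put `τ = 2^k (T + 2 π i xN) / 2^n`: `τ ∈ An a`: `Re τ = 2^k T/2^n ∈ [a, 4a]`, `|Im τ| = 2^k 2 π xN / 2^n ≤ 2^k 4 π/2^n ≤ Re τ`. By `ray_angN_zero`: `ray l (angN 0) (T/2^n) = sec p q l (-1 - n p) ((T + 2 π i xN)/2^n) = sec p q l (j - k p) (τ/2^k)` with `j = -1 - n p + k p`.
`chain`: `= W N (w' + (-1 - n p) n)`, `‖w' - (w - k)‖ ≤ 1/8`, `w ∈ Lf r`, `‖w‖ ≤ B`, `w' ∈ Wm n r`.
`gate1_of`: `r ≥ c.R + 2` with `c.C r^(-1/q) ≤ ρ`; `Ts = 4 a`, `Tl = max (4 a 2^m0) (4 π)`; for `T' = T/2^n` in the range apply this to `T = 2^n T'`; `c.small` at `w' + (-1 - n p) n ∈ Wm n r` (`Wm_add`).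
`gate2_pos`: `r = max S (c.R + 3)`; `T1 = max (4 a 2^m0) (4 π)`. For `T1 ≤ T ≤ b` and `N` large (`b/2^n ≤ 4 a`): `n - k =: m1 ≥ m0` and `2 a < T/2^m1`, so `2^m1 ≤ b/(2a)` bounds `m1` (e.g. `m1 ≤ 2^m1 ≤ b/(2 a)`). `-1 - n p = - q pN` (`qN_mul`), so by `W_per` `W N (w' + (-1 - n p) n) = W N w'`. Put `v = w' + n`, so `w' = v + (-1) n` and `‖v - (w + m1)‖ ≤ 1/8`.
`v.re + 4 v.im ≥ m1 - B - 4 B - 1 > S` (`m1 ≥ m0 ≥ 8 (B + |r| + 10)`): `v ∈ HP 1 S`; `‖v‖ ≤ B + m1 + 1 ≤ V := B + b/(2a) + 1`; `v ∈ Wd0 c.R` : `v.re ≥ m1 - B - 1 > c.R`, `-v.im ≤ B + 1 < v.re`.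
-/

set_option autoImplicit false

open Set Filter Topology Metric

namespace Pool.Agent.CR

variable {p q s e : ℕ}

private theorem GP12_aux (hp : 0 < p) (hpq : p < q) (hs : q * s = p * e + 1) {c : Chart p q s e} {a B r : ℝ} {m0 N : ℕ}
    (ha : 0 < a)
    (hN : ∀ k : ℕ, k + m0 ≤ qN q e N → ∀ (j : ℤ), ∀ τ ∈ An a,
        ∃ w w' : ℂ, w ∈ Lf r ∧ ‖w‖ ≤ B ∧ ‖w' - (w - k)‖ ≤ 1 / 8 ∧ w' ∈ Wm (qN q e N) r ∧
          sec p q (lN p q s e N) (j - k * p) (τ / 2 ^ k) = c.W N (w' + (j - k * p : ℤ) * qN q e N))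
    {T : ℝ} (h1 : 4 * a * 2 ^ m0 ≤ T) (h2 : 4 * Real.pi ≤ T) (h3 : T / 2 ^ qN q e N ≤ 4 * a) :
    ∃ (k : ℕ) (w w' : ℂ), k + m0 ≤ qN q e N ∧ 2 * a < 2 ^ k * (T / 2 ^ qN q e N) ∧ w ∈ Lf r ∧ ‖w‖ ≤ B ∧
      ‖w' - (w - k)‖ ≤ 1 / 8 ∧ w' ∈ Wm (qN q e N) r ∧
      ray (lN p q s e N) (angN p q s e N 0) (T / 2 ^ qN q e N) =
        c.W N (w' + (-1 - qN q e N * p : ℤ) * qN q e N) := by
  have hpi := Real.pi_pos
  obtain ⟨n, hn⟩ : ∃ n : ℕ, n = qN q e N := ⟨_, rfl⟩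
  rw [← hn] at hN h3 ⊢
  have hT : 0 < T := by linarith
  have h2n : (0 : ℝ) < 2 ^ n := by positivity
  have hpos : 0 < T / 2 ^ n := by positivity
  obtain ⟨k, hk1, hk2⟩ := exists_nat_pow_near (x := 4 * a / (T / 2 ^ n)) (y := (2 : ℝ)) ((one_le_div hpos).2 h3) one_lt_two
  rw [le_div_iff₀ hpos] at hk1
  rw [div_lt_iff₀ hpos, pow_succ] at hk2
  have hk3 : 2 * a < 2 ^ k * (T / 2 ^ n) := by linarith
  have hkn : k + m0 ≤ n := by
    have h4 : (2 : ℝ) ^ (k + m0) ≤ 2 ^ n := by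
      have h5 : 2 ^ k * T ≤ 4 * a * 2 ^ n := by
        have h6 : 2 ^ k * (T / 2 ^ n) = 2 ^ k * T / 2 ^ n := by ring
        rw [h6, div_le_iff₀ h2n] at hk1
        exact hk1
      have h7 : 2 ^ k * (4 * a * 2 ^ m0) ≤ 2 ^ k * T := mul_le_mul_of_nonneg_left h1 (by positivity)
      have h8 : (4 * a) * 2 ^ (k + m0) ≤ (4 * a) * 2 ^ n := by
        rw [pow_add]; linarith
      exact le_of_mul_le_mul_left h8 (by linarith)
    exact (pow_le_pow_iff_right₀ one_lt_two).1 h4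
  obtain ⟨hx0, hx2⟩ := xN_mem hp hpq hs N
  obtain ⟨x, hx⟩ : ∃ x : ℝ, x = xN p q s e N := ⟨_, rfl⟩
  rw [← hx] at hx0 hx2
  obtain ⟨τ, hτ⟩ : ∃ τ : ℂ, τ = 2 ^ k * (((T : ℂ) + 2 * Real.pi * x * Complex.I) / 2 ^ n) := ⟨_, rfl⟩
  have hτ' : τ = ((2 ^ k * (T / 2 ^ n) : ℝ) : ℂ) + ((2 ^ k * (2 * Real.pi * x / 2 ^ n) : ℝ) : ℂ) * Complex.I := by
    rw [hτ]; push_cast; ring
  have hre : τ.re = 2 ^ k * (T / 2 ^ n) := by
    rw [hτ', Complex.add_re, Complex.ofReal_re, Complex.re_ofReal_mul, Complex.I_re, mul_zero, add_zero]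
  have him : τ.im = 2 ^ k * (2 * Real.pi * x / 2 ^ n) := by
    rw [hτ', Complex.add_im, Complex.ofReal_im, Complex.im_ofReal_mul, Complex.I_im, mul_one, zero_add]
  have hAn : τ ∈ An a := by
    refine ⟨by rw [hre]; linarith, by rw [hre]; exact hk1, ?_⟩
    rw [hre, him, abs_of_nonneg (by positivity)]
    refine mul_le_mul_of_nonneg_left ?_ (by positivity)
    refine div_le_div_of_nonneg_right ?_ h2n.le
    nlinarith
  obtain ⟨w, w', hw1, hw2, hw3, hw4, hw5⟩ := hN k hkn (-1 - n * p + k * p) τ hAn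
  refine ⟨k, w, w', hkn, hk3, hw1, hw2, hw3, hw4, ?_⟩
  have h9 := ray_angN_zero hp hpq hs N T
  rw [← hn, ← hx] at h9
  rw [h9]
  have h10 : (-1 - n * p + k * p - k * p : ℤ) = -1 - n * p := by ring
  rw [h10] at hw5
  rw [← hw5, hτ]
  congr 1
  have h2k : (2 : ℂ) ^ k ≠ 0 := pow_ne_zero _ two_ne_zero
  field_simp

private theorem GP12_pow (hq : 0 < q) (x y : ℝ) (hy : 0 < y) : ∀ᶠ N : ℕ in atTop, x / 2 ^ qN q e N ≤ y := by
  have h1 : Tendsto (fun N : ℕ => (2 : ℝ) ^ N) atTop atTop := tendsto_pow_atTop_atTop_of_one_lt one_lt_two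
  filter_upwards [h1.eventually_ge_atTop (x / y)] with N hN
  have h2 : (2 : ℝ) ^ N ≤ 2 ^ qN q e N := pow_le_pow_right₀ one_le_two (qN_ge q e N hq)
  rw [div_le_iff₀ (by positivity)]
  rw [div_le_iff₀ hy] at hN
  nlinarith

theorem gate1_of (hp : 0 < p) (hpq : p < q) (hs : q * s = p * e + 1) {c : Chart p q s e} (hR : RaySheet c) :
    ∀ ρ : ℝ, 0 < ρ → ∃ Ts Tl : ℝ, 0 < Ts ∧ 0 < Tl ∧ ∀ᶠ N in atTop, ∀ T : ℝ,
      Tl / 2 ^ qN q e N ≤ T → T ≤ Ts → ‖ray (lN p q s e N) (angN p q s e N 0) T‖ ≤ ρ := by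
  intro ρ hρ
  have hR4 := c.R_ge
  have hq : 0 < q := hp.trans hpq
  have hα : (0 : ℝ) < 1 / (q : ℝ) := by positivity
  have hlim : Tendsto (fun x : ℝ => c.C * x ^ (-(1 / (q : ℝ)))) atTop (𝓝 0) := by
    have := (tendsto_rpow_neg_atTop hα).const_mul c.C
    rwa [mul_zero] at this
  obtain ⟨r, hr1, hr2⟩ := ((hlim.eventually (ge_mem_nhds hρ)).and (eventually_ge_atTop (c.R + 2))).exists
  obtain ⟨a, B, m0, ha, hB, -, hch⟩ := chain hp hpq hs hR r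
  have hpi := Real.pi_pos
  refine ⟨4 * a, max (4 * a * 2 ^ m0) (4 * Real.pi), by positivity, lt_of_lt_of_le (by positivity) (le_max_right _ _), ?_⟩
  filter_upwards [hch, eventually_ge_atTop c.N0] with N hN hN0 T hT1 hT2
  have h2n : (0 : ℝ) < 2 ^ qN q e N := by positivity
  have h1 : max (4 * a * 2 ^ m0) (4 * Real.pi) ≤ T * 2 ^ qN q e N := by
    rwa [div_le_iff₀ h2n] at hT1
  have h2 : T * 2 ^ qN q e N / 2 ^ qN q e N = T := mul_div_cancel_right₀ T h2n.ne'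
  obtain ⟨k, w, w', -, -, -, -, -, hw4, hw5⟩ := GP12_aux hp hpq hs ha hN (T := T * 2 ^ qN q e N)
    ((le_max_left _ _).trans h1) ((le_max_right _ _).trans h1) (by rw [h2]; exact hT2)
  rw [h2] at hw5
  rw [hw5]
  have h3 : w' + (-1 - qN q e N * p : ℤ) * qN q e N ∈ Wm (qN q e N) r := by
    have := (Wm_add (qN q e N : ℝ) r (-1 - qN q e N * p : ℤ) w').2 hw4
    simpa using this
  have h4 := (Wm_sub hR4 hr2 h3).1
  refine (c.small N hN0 _ h4 r (by linarith) (fun k => ?_)).trans hr1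
  have := (h3 k).1
  simpa using this

theorem gate2_pos (hp : 0 < p) (hpq : p < q) (hs : q * s = p * e + 1) {c : Chart p q s e} (hR : RaySheet c) (S : ℝ) :
    ∃ T1 : ℝ, 0 < T1 ∧ ∀ b : ℝ, T1 ≤ b → ∃ V : ℝ, ∀ᶠ N : ℕ in atTop, ∀ T : ℝ, T1 ≤ T → T ≤ b →
      ∃ v : ℂ, v ∈ HP 1 S ∧ v ∈ Wd0 c.R ∧ ‖v‖ ≤ V ∧
        ray (lN p q s e N) (angN p q s e N 0) (T / 2 ^ qN q e N) = c.W N (v + (-1 : ℤ) * qN q e N) := by
  have hR4 := c.R_ge
  have hq : 0 < q := hp.trans hpq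
  obtain ⟨r, hr⟩ : ∃ r : ℝ, r = max S (c.R + 3) := ⟨_, rfl⟩
  have hr1 : S ≤ r := hr ▸ le_max_left _ _
  have hr2 : c.R + 3 ≤ r := hr ▸ le_max_right _ _
  have hr3 := le_abs_self r
  obtain ⟨a, B, m0, ha, hB, hm0, hch⟩ := chain hp hpq hs hR r
  have hpi := Real.pi_pos
  refine ⟨max (4 * a * 2 ^ m0) (4 * Real.pi), lt_of_lt_of_le (by positivity) (le_max_right _ _), fun b hb => ?_⟩
  refine ⟨B + b / (2 * a) + 1, ?_⟩
  filter_upwards [hch, eventually_ge_atTop c.N0, GP12_pow (e := e) hq b (4 * a) (by positivity)] with N hN hN0 hNb T hT1 hT2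
  have h2n : (0 : ℝ) < 2 ^ qN q e N := by positivity
  obtain ⟨k, w, w', hkn, hk3, hw1, hw2, hw3, hw4, hw5⟩ := GP12_aux hp hpq hs ha hN (T := T)
    ((le_max_left _ _).trans hT1) ((le_max_right _ _).trans hT1) ((div_le_div_of_nonneg_right hT2 h2n.le).trans hNb)
  obtain ⟨m1, hm1⟩ : ∃ m1 : ℕ, qN q e N = k + m1 := Nat.exists_eq_add_of_le ((Nat.le_add_right k m0).trans hkn)
  have hm01 : m0 ≤ m1 := by omega
  have hm01' : (m0 : ℝ) ≤ m1 := by exact_mod_cast hm01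
  have hn' : (qN q e N : ℝ) = k + m1 := by exact_mod_cast hm1
  have hnC : (qN q e N : ℂ) = k + m1 := by exact_mod_cast hm1
  have hpow : (2 : ℝ) ^ m1 ≤ b / (2 * a) := by
    rw [hm1, pow_add] at hk3
    have h1 : (2 : ℝ) ^ k * (T / (2 ^ k * 2 ^ m1)) = T / 2 ^ m1 := by
      have h2k : (2 : ℝ) ^ k ≠ 0 := by positivity
      field_simp
    rw [h1, lt_div_iff₀ (by positivity)] at hk3
    rw [le_div_iff₀ (by positivity)]
    linarith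
  have hm1b : (m1 : ℝ) ≤ b / (2 * a) := by
    refine le_trans ?_ hpow
    exact_mod_cast (Nat.lt_two_pow_self (n := m1)).le
  have hWd : w' ∈ Wd (qN q e N) c.R := (Wm_sub hR4 (by linarith) hw4).1
  have hd : ‖(w' + (qN q e N : ℂ)) - (w + m1)‖ ≤ 1 / 8 := by
    have h1 : (w' + (qN q e N : ℂ)) - (w + m1) = w' - (w - k) := by rw [hnC]; ring
    rw [h1]; exact hw3
  obtain ⟨v, hv⟩ : ∃ v : ℂ, v = w' + (qN q e N : ℂ) := ⟨_, rfl⟩
  rw [← hv] at hd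
  have hre : |v.re - (w.re + m1)| ≤ 1 / 8 := by
    have := (Complex.abs_re_le_norm _).trans hd
    simpa using this
  have him : |v.im - w.im| ≤ 1 / 8 := by
    have := (Complex.abs_im_le_norm _).trans hd
    simpa using this
  have hre' := abs_le.1 hre
  have him' := abs_le.1 him
  have hwre := abs_le.1 ((Complex.abs_re_le_norm w).trans hw2)
  have hwim := abs_le.1 ((Complex.abs_im_le_norm w).trans hw2)
  have hvn : v.re ≤ ‖v‖ := (le_abs_self _).trans (Complex.abs_re_le_norm v)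
  have hva := le_abs_self v.re
  refine ⟨v, ?_, ⟨?_, ?_⟩, ?_, ?_⟩
  · simp only [HP, mem_ofPred_eq]
    linarith
  · linarith
  · linarith
  · have h1 : v = (v - (w + m1)) + (w + m1) := by ring
    have h2 : ‖v‖ ≤ ‖v - (w + m1)‖ + ‖w + (m1 : ℂ)‖ := by
      conv_lhs => rw [h1]
      exact norm_add_le _ _
    have h3 : ‖w + (m1 : ℂ)‖ ≤ ‖w‖ + ‖(m1 : ℂ)‖ := norm_add_le _ _
    rw [Complex.norm_natCast] at h3
    linarith
  · rw [hw5]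
    have h1 := qN_mul hs N
    have h2 : ((-1 - qN q e N * p : ℤ) : ℂ) * qN q e N = (-(pN p s N : ℤ) : ℤ) * (q * qN q e N) := by
      have h3 : (q : ℂ) * pN p s N = p * qN q e N + 1 := by exact_mod_cast h1
      push_cast
      linear_combination (qN q e N : ℂ) * h3
    rw [h2, W_per c hN0 hWd, hv]
    congr 1
    push_cast
    ring

end Pool.Agent.CR
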