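import Pool.Agent.H73.CR.GP6
import Pool.Agent.H73.CR.GP12
import Pool.Agent.H48.CR.GC

/-!
# CR GP13: the field `gate2`

`x N T = ray lN (angN 0) (T/2^n)`, `y T = W0 (-1) (h (Γ T))`. `T1` from `gate2_pos (S := S + 1)` (and `≥ T0`). Let `T1 ≤ a ≤ b` (if `b < a` nothing is to be shown). Suppose the convergence is not uniform on `Icc a b`: there are `ε > 0` and for infinitely many `N` points `T_N ∈ Icc a b` with `‖x N T_N - y T_N‖ ≥ ε`; `x N T_N = c.W N (v_N + (-1) n)` with `‖v_N‖ ≤ V`, `v_N ∈ HP 1 (S+1)`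
(`gate2_pos`). The closure of `{v ∈ HP 1 (S + 1) | ‖v‖ ≤ V}` is a compact subset of `HP 1 S ⊆ Wd0 R` (`hv`). Extract a strictly increasing `N_i` with `T_i → T∞ ∈ Icc a b`, `v_i → v∞ ∈ HP 1 S`. `c.lim (-1)`: `x (N_i) T_i → W0 (-1) v∞ =: x∞ ∈ F.B`.
For every `m`: `lavm`: `(f lN)^[n - m] (x (N_i) T_i) → F.pr m (F.phi x∞)` (locally uniform convergence to a continuous function on the open set `F.B`, at the points `x (N_i) T_i → x∞`). And `(f lN)^[n - m] (x N T) = ray lN (angN m) (T/2^m)` (`iter_rayN`) tends to `ray l0 (th m) (T∞/2^m) = F.pr m (Γ T∞)` (`ray_angN_tendsto`). So `F.pr m (F.phi x∞) = F.pr m (Γ T∞)` for all `m`, and `F.phi x∞ = Γ T∞`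
(`pr_unique`). By `hv`: `h (Γ T∞) = h (F.phi (W0 (-1) v∞)) = v∞`, so `y T∞ = W0 (-1) v∞ = x∞`. `y (T_i) → y T∞` by continuity, so `‖x (N_i) T_i - y T_i‖ → 0`, a contradiction.
-/

set_option autoImplicit false

open Set Filter Topology Metric

namespace Pool.Agent.CR

variable {p q s e : ℕ}

theorem gate2_of (hp : 0 < p) (hpq : p < q) (hs : q * s = p * e + 1) {c : Chart p q s e} (hR : RaySheet c) (F : Fat c)
    (lavm : ∀ m : ℕ, TendstoLocallyUniformlyOn (fun N z => (f (lN p q s e N))^[qN q e N - m] z)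
      (fun z => F.pr m (F.phi z)) atTop F.B)
    {Γ : ℝ → ℂ}
    (hray : ∀ m : ℕ, ∀ T : ℝ, 0 < T → F.pr m (Γ T) = ray (mu ((p : ℝ) / q)) (th p q m) (T / 2 ^ m))
    {S : ℝ} {h : ℂ → ℂ} (hv : ∀ v ∈ HP 1 S, v ∈ Wd0 c.R ∧ c.W0 (-1) v ∈ F.B ∧ h (F.phi (c.W0 (-1) v)) = v)
    {T0 : ℝ} (hT0 : 0 < T0) (hy : ContinuousOn (fun T => c.W0 (-1) (h (Γ T))) (Ici T0)) :
    ∃ T1 : ℝ, T0 ≤ T1 ∧ ∀ a b : ℝ, T1 ≤ a → TendstoUniformlyOn
      (fun N T => ray (lN p q s e N) (angN p q s e N 0) (T / 2 ^ qN q e N)) (fun T => c.W0 (-1) (h (Γ T))) atTop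
        (Icc a b) := by
  classical
  have hq : 0 < q := hp.trans hpq
  obtain ⟨T1, hT1, hpos⟩ := gate2_pos hp hpq hs hR (S + 1)
  refine ⟨max T0 T1, le_max_left _ _, fun a b ha => ?_⟩
  rcases lt_or_ge b a with hab | hab
  · rw [Icc_eq_empty hab.not_ge]
    exact tendstoUniformlyOn_empty
  obtain ⟨V, hV⟩ := hpos b (((le_max_right _ _).trans ha).trans hab)
  rw [← tendstoLocallyUniformlyOn_iff_tendstoUniformlyOn_of_compact isCompact_Icc,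
    tendstoLocallyUniformlyOn_iff_filter]
  intro T hT
  have hT0' : T0 ≤ T := ((le_max_left _ _).trans ha).trans hT.1
  have hTpos : 0 < T := hT0.trans_le hT0'
  have hyc : Tendsto (fun T => c.W0 (-1) (h (Γ T))) (𝓝[Icc a b] T) (𝓝 (c.W0 (-1) (h (Γ T)))) :=
    (hy T hT0').mono fun t ht => ((le_max_left _ _).trans ha).trans ht.1
  rw [tendstoUniformlyOnFilter_iff_tendsto]
  suffices hmain : Tendsto (fun x : ℕ × ℝ => ray (lN p q s e x.1) (angN p q s e x.1 0) (x.2 / 2 ^ qN q e x.1))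
      (atTop ×ˢ 𝓝[Icc a b] T) (𝓝 (c.W0 (-1) (h (Γ T)))) from
    ((hyc.comp tendsto_snd).prodMk_nhds hmain).mono_right (nhds_le_uniformity _)
  rw [tendsto_iff_ultrafilter]
  intro g hg
  -- the points of the chart
  have hev : ∀ᶠ x : ℕ × ℝ in (g : Filter (ℕ × ℝ)), ∃ v : ℂ, v ∈ HP 1 (S + 1) ∧ v ∈ Wd0 c.R ∧ ‖v‖ ≤ V ∧
      ray (lN p q s e x.1) (angN p q s e x.1 0) (x.2 / 2 ^ qN q e x.1) = c.W x.1 (v + (-1 : ℤ) * qN q e x.1) := by
    refine hg ?_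
    have h1 : ∀ᶠ x : ℕ × ℝ in atTop ×ˢ 𝓝[Icc a b] T, x.2 ∈ Icc a b :=
      (tendsto_snd : Tendsto Prod.snd (atTop ×ˢ 𝓝[Icc a b] T) (𝓝[Icc a b] T)).eventually self_mem_nhdsWithin
    have h2 : ∀ᶠ x : ℕ × ℝ in atTop ×ˢ 𝓝[Icc a b] T, ∀ T : ℝ, T1 ≤ T → T ≤ b →
        ∃ v : ℂ, v ∈ HP 1 (S + 1) ∧ v ∈ Wd0 c.R ∧ ‖v‖ ≤ V ∧
        ray (lN p q s e x.1) (angN p q s e x.1 0) (T / 2 ^ qN q e x.1) = c.W x.1 (v + (-1 : ℤ) * qN q e x.1) :=
      (tendsto_fst : Tendsto Prod.fst (atTop ×ˢ 𝓝[Icc a b] T) atTop).eventually hV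
    filter_upwards [h1, h2] with x hx1 hx2
    exact hx2 x.2 (((le_max_right _ _).trans ha).trans hx1.1) hx1.2
  obtain ⟨v, hv'⟩ : ∃ v : ℕ × ℝ → ℂ, ∀ᶠ x : ℕ × ℝ in (g : Filter (ℕ × ℝ)), v x ∈ HP 1 (S + 1) ∧ v x ∈ Wd0 c.R ∧
      ‖v x‖ ≤ V ∧
      ray (lN p q s e x.1) (angN p q s e x.1 0) (x.2 / 2 ^ qN q e x.1) = c.W x.1 (v x + (-1 : ℤ) * qN q e x.1) := by
    refine ⟨fun x => if hx : ∃ v : ℂ, v ∈ HP 1 (S + 1) ∧ v ∈ Wd0 c.R ∧ ‖v‖ ≤ V ∧
      ray (lN p q s e x.1) (angN p q s e x.1 0) (x.2 / 2 ^ qN q e x.1) = c.W x.1 (v + (-1 : ℤ) * qN q e x.1)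
      then hx.choose else 0, ?_⟩
    filter_upwards [hev] with x hx
    rw [dif_pos hx]
    exact hx.choose_spec
  have hCc : IsCompact (closedBall (0 : ℂ) V ∩ {w : ℂ | S + 1 ≤ 1 * w.re + 4 * w.im}) :=
    (isCompact_closedBall _ _).inter_right (isClosed_le continuous_const (by fun_prop))
  obtain ⟨v0, hv0, hlim⟩ := hCc.ultrafilter_le_nhds (g.map v) (by
    rw [le_principal_iff, Ultrafilter.mem_coe, Ultrafilter.mem_map]
    filter_upwards [hv'] with x hx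
    exact ⟨mem_closedBall_zero_iff.2 hx.2.2.1, (show S + 1 < 1 * (v x).re + 4 * (v x).im from hx.1).le⟩)
  have hv0' : v0 ∈ HP 1 S := (lt_add_one S).trans_le hv0.2
  obtain ⟨hb1, hb2, hb3⟩ := hv v0 hv0'
  have hvt : Tendsto v g (𝓝 v0) := hlim
  have hg1 : Tendsto (fun x : ℕ × ℝ => x.1) g atTop := tendsto_fst.mono_left hg
  have hg2 : Tendsto (fun x : ℕ × ℝ => x.2) g (𝓝[Icc a b] T) := tendsto_snd.mono_left hg
  -- the limit of the points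
  have hx0 : Tendsto (fun x : ℕ × ℝ => ray (lN p q s e x.1) (angN p q s e x.1 0) (x.2 / 2 ^ qN q e x.1)) g
      (𝓝 (c.W0 (-1) v0)) := by
    have h1 := G.cc_of_tlu (G.isOpen_Wd0 c.R) (c.diff0 (-1)).continuousOn (c.lim (-1)) v0 hb1
    refine (h1.comp (hg1.prodMk hvt)).congr' ?_
    filter_upwards [hv'] with x hx
    exact hx.2.2.2.symm
  have hphi : F.phi (c.W0 (-1) v0) = Γ T := by
    refine pr_unique F hq (Filter.Eventually.of_forall fun m => ?_)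
    have hc : ContinuousOn (fun z => F.pr m (F.phi z)) F.B :=
      (F.diff_pr m).continuous.comp_continuousOn F.diff_phi.continuousOn
    have h1 : Tendsto (fun x : ℕ × ℂ => (f (lN p q s e x.1))^[qN q e x.1 - m] x.2)
        (atTop ×ˢ 𝓝 (c.W0 (-1) v0)) (𝓝 (F.pr m (F.phi (c.W0 (-1) v0)))) :=
      G.cc_of_tlu F.isOpen_B hc (lavm m) (c.W0 (-1) v0) hb2
    have h2 : Tendsto (fun x : ℕ × ℝ => (f (lN p q s e x.1))^[qN q e x.1 - m]
        (ray (lN p q s e x.1) (angN p q s e x.1 0) (x.2 / 2 ^ qN q e x.1))) g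
        (𝓝 (F.pr m (F.phi (c.W0 (-1) v0)))) := by
      have h5 : Tendsto (fun x : ℕ × ℝ => (x.1, ray (lN p q s e x.1) (angN p q s e x.1 0) (x.2 / 2 ^ qN q e x.1))) g
          (atTop ×ˢ 𝓝 (c.W0 (-1) v0)) := hg1.prodMk hx0
      have h6 := h1.comp h5
      simp only [Function.comp_def] at h6
      exact h6
    have h3 : Tendsto (fun x : ℕ × ℝ => ray (lN p q s e x.1) (angN p q s e x.1 m) (x.2 / 2 ^ m)) g
        (𝓝 (ray (mu ((p : ℝ) / q)) (th p q m) (T / 2 ^ m))) :=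
      (ray_angN_tendsto hp hpq hs m hTpos).mono_left (hg.trans (Filter.prod_mono le_rfl nhdsWithin_le_nhds))
    have h4 : ∀ᶠ x : ℕ × ℝ in (g : Filter (ℕ × ℝ)), (f (lN p q s e x.1))^[qN q e x.1 - m]
        (ray (lN p q s e x.1) (angN p q s e x.1 0) (x.2 / 2 ^ qN q e x.1)) =
        ray (lN p q s e x.1) (angN p q s e x.1 m) (x.2 / 2 ^ m) := by
      have h5 : ∀ᶠ x : ℕ × ℝ in (g : Filter (ℕ × ℝ)), m ≤ qN q e x.1 := by
        filter_upwards [hg1.eventually_ge_atTop m] with x hx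
        exact le_trans hx (qN_ge q e x.1 hq)
      have h6 : ∀ᶠ x : ℕ × ℝ in (g : Filter (ℕ × ℝ)), 0 < x.2 :=
        (hg2.mono_right nhdsWithin_le_nhds).eventually (lt_mem_nhds hTpos)
      filter_upwards [h5, h6] with x hx5 hx6
      exact iter_rayN hp hpq hs x.1 hx5 hx6
    rw [hray m T hTpos]
    exact tendsto_nhds_unique (h2.congr' h4) h3
  have hh : h (Γ T) = v0 := by rw [← hphi]; exact hb3
  rw [hh]
  exact hx0

end Pool.Agent.CR
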