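import Pool.Agent.H73.CR.GP6

/-!
# CR GP14: the curve `y`

`S, h` from `phi_inv` (passed as hypotheses). `Γ T ∈ HP 1 S` for `T ≥ T0`: `(Γ T).re + 4 (Γ T).im ≥ (Γ T).re - 4 B > S` for large `T`. `y T = c.W0 (-1) (h (Γ T))`: continuity on `Ici T0`: `h` is continuous on `HP 1 S`, `c.W0 (-1)` on `Wd0 c.R` (`diff0`); membership and `phi`: `h1`.
`y T → 0`: `‖h (Γ T)‖ ≥ (Γ T).re - 1/8 → ∞`, `small0`: `‖W0 (-1) w‖ ≤ c.C ‖w‖^(-1/q)`.
-/

set_option autoImplicit false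

open Set Filter Topology Metric

namespace Pool.Agent.CR

variable {p q s e : ℕ}

theorem y_of (hq : 0 < q) {c : Chart p q s e} (F : Fat c) {S : ℝ} {h : ℂ → ℂ} (hc : ContinuousOn h (HP 1 S))
    (h1 : ∀ w ∈ HP 1 S, h w ∈ Wd0 c.R ∧ ‖h w - w‖ ≤ 1 / 8 ∧ c.W0 (-1) (h w) ∈ F.B ∧ F.phi (c.W0 (-1) (h w)) = w)
    {Γ : ℝ → ℂ} (hΓ : ContinuousOn Γ (Ici 0)) (hre : Tendsto (fun T => (Γ T).re) atTop atTop)
    (him : ∃ B : ℝ, ∀ T ≥ 1, |(Γ T).im| ≤ B) :
    ∃ T0 : ℝ, 0 < T0 ∧ ContinuousOn (fun T => c.W0 (-1) (h (Γ T))) (Ici T0) ∧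
      (∀ T ≥ T0, c.W0 (-1) (h (Γ T)) ∈ F.B ∧ F.phi (c.W0 (-1) (h (Γ T))) = Γ T) ∧
      Tendsto (fun T => c.W0 (-1) (h (Γ T))) atTop (𝓝 0) := by
  obtain ⟨B, hB⟩ := him
  obtain ⟨T2, hT2⟩ := eventually_atTop.1 (hre.eventually_gt_atTop (S + 4 * B))
  have hmem : ∀ T ≥ max T2 1, Γ T ∈ HP 1 S := by
    intro T hT
    have h2 := hT2 T ((le_max_left _ _).trans hT)
    have h3 := abs_le.1 (hB T ((le_max_right _ _).trans hT))
    simp only [HP, mem_ofPred_eq]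
    linarith
  have hpos : (0 : ℝ) < max T2 1 := lt_of_lt_of_le one_pos (le_max_right _ _)
  refine ⟨max T2 1, hpos, ?_, ?_, ?_⟩
  · have hg : ContinuousOn (fun T => h (Γ T)) (Ici (max T2 1)) :=
      hc.comp (hΓ.mono (Ici_subset_Ici.2 hpos.le)) (fun T hT => hmem T hT)
    exact (c.diff0 (-1)).continuousOn.comp hg (fun T hT => (h1 _ (hmem T hT)).1)
  · intro T hT
    exact (h1 _ (hmem T hT)).2.2
  · have hα : (0 : ℝ) < 1 / (q : ℝ) := by positivity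
    have hlow : ∀ T ≥ max T2 1, (Γ T).re - 1 / 8 ≤ ‖h (Γ T)‖ := by
      intro T hT
      have h2 := (h1 _ (hmem T hT)).2.1
      have h3 : |(h (Γ T) - Γ T).re| ≤ 1 / 8 := (Complex.abs_re_le_norm _).trans h2
      rw [Complex.sub_re] at h3
      have h4 := (abs_le.1 h3).1
      have h5 := (le_abs_self _).trans (Complex.abs_re_le_norm (h (Γ T)))
      linarith
    have hnorm : Tendsto (fun T => ‖h (Γ T)‖) atTop atTop := by
      refine tendsto_atTop_mono' atTop ?_ (tendsto_atTop_add_const_right _ (-(1 / 8 : ℝ)) hre)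
      filter_upwards [eventually_ge_atTop (max T2 1)] with T hT
      have := hlow T hT
      linarith
    have hlim : Tendsto (fun T => c.C * ‖h (Γ T)‖ ^ (-(1 / (q : ℝ)))) atTop (𝓝 0) := by
      have h2 := ((tendsto_rpow_neg_atTop hα).comp hnorm).const_mul c.C
      rwa [mul_zero] at h2
    refine squeeze_zero_norm' ?_ hlim
    filter_upwards [eventually_ge_atTop (max T2 1)] with T hT
    exact c.small0 (-1) _ (h1 _ (hmem T hT)).1

end Pool.Agent.CR
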