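import Pool.Agent.H73.CR.GP3
import Pool.Agent.H33.CR.GI
import Pool.Agent.H33.CR.GI2

/-!
# CR GP6: injectivity of `pr m` on the left, inverse of the Fatou coordinate on the right

`pr_left`: `GI_G F m (S := 5 r0)`: `F.pr m (ω + m) = W0 (-1 - m p) (G ω)` on `HP (-1) (5 r0)`, `‖G ω - ω‖ ≤ 1/8`. By `near_id_inv` `G` is injective on `HP (-1) (5 r0 + 5)`, `W0 (-1-mp)` is injective on `Wd0 R` (`inj0`): so `ω ↦ F.pr m (ω + m)` is injective there, hence `pr m` on `{ω | ω - m ∈ HP (-1) (5 r0 + 5)}` (open, convex),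
and `deriv ≠ 0` by `deriv_ne_of_injOn`. Third clause: if `F.pr m ω = W0 (-1 - m p) w'` with `w' ∈ Wd0 R` then `w' = G (ω - m)` by `inj0`. Take `S = 5 r0 + 5`.
`pr_unique`: both `ω - m`, `ω' - m` are in `HP (-1) S` for large `m` (`-(re - m) + 4 im > S`).
`pr_of_left`: `F.W0_pr` with `r = S`: `Lf S ⊆ Rr S` (`-im ≤ |im| < -re/8 < -re/4`), `F.C r^(-1/q) ≤ 1/8` for `r ≥ r0` (`C_small`, monotonicity of the power).
`phi_inv`: `g w = F.phi (c.W0 (-1) w)` on `HP 1 S1`, `S1 = 5 r0`: `HP_sub_Ra`: `HP 1 S1 ⊆ Ra (S1/5)`, `S1/5 = r0`; `mem_B` with `m = 0`: `c.W0 (-1) w ∈ F.B`, `‖g w - w‖ ≤ 1/8`; `HP 1 S1 ⊆ Wd0 R` (norm `≥ S1/5 ≥ R`.. see `HP_sub_Wq`, `Wq_near_Wi` or directly: `r0 ≥ 2 R + 2`), so `g` is holomorphic (`diff0`, `diff_phi`).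
`near_id_inv` (`σ = 1`) gives `h` on `HP 1 (S1 + 8)` with `h w ∈ HP 1 (S1 + 7)`, `g (h w) = w`, `‖h w - w‖ ≤ 1/8`, `h (g w) = w` for `w ∈ HP 1 (S1 + 9)`. `S = S1 + 9`.
-/

set_option autoImplicit false

open Set Filter Topology Metric

namespace Pool.Agent.CR

variable {p q s e : ℕ}

private theorem GP6_HP_mono {σ S S' : ℝ} (h : S ≤ S') : HP σ S' ⊆ HP σ S := by
  intro w hw
  simp only [HP, mem_ofPred_eq] at hw ⊢
  linarith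

private theorem GP6_rate {c : Chart p q s e} (F : Fat c) {r : ℝ} (hr : F.r0 ≤ r) :
    F.C * r ^ (-(1 / (q : ℝ))) ≤ 1 / 8 := by
  have hR := c.R_ge
  have hr0 := F.r0_ge
  refine le_trans ?_ F.C_small
  refine mul_le_mul_of_nonneg_left ?_ F.C_pos.le
  refine Real.rpow_le_rpow_of_nonpos (by linarith) hr ?_
  rw [neg_nonpos]; positivity

theorem pr_left {c : Chart p q s e} (F : Fat c) (hq : 0 < q) : ∃ S : ℝ, 5 * F.r0 ≤ S ∧ ∀ m : ℕ,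
    InjOn (F.pr m) {ω : ℂ | ω - m ∈ HP (-1) S} ∧ (∀ ω : ℂ, ω - m ∈ HP (-1) S → deriv (F.pr m) ω ≠ 0) ∧
    ∀ ω w' : ℂ, ω - m ∈ HP (-1) S → w' ∈ Wd0 c.R → F.pr m ω = c.W0 (-1 - m * p) w' → ‖w' - (ω - m)‖ ≤ 1 / 8 := by
  refine ⟨5 * F.r0 + 5, by linarith, fun m => ?_⟩
  obtain ⟨G, hGd, hG⟩ := GI_G F m (le_refl (5 * F.r0))
  have hσ : |(-1 : ℝ)| ≤ 1 := by norm_num
  obtain ⟨hGi, -⟩ := near_id_inv hσ hGd (fun w hw => (hG w hw).2.2)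
  have hval : ∀ ω : ℂ, ω - m ∈ HP (-1) (5 * F.r0 + 5) →
      G (ω - m) ∈ Wd0 c.R ∧ F.pr m ω = c.W0 (-1 - m * p) (G (ω - m)) ∧ ‖G (ω - m) - (ω - m)‖ ≤ 1 / 8 := by
    intro ω hω
    have h1 := hG (ω - m) (GP6_HP_mono (by linarith) hω)
    rw [sub_add_cancel] at h1
    exact h1
  have hinj : InjOn (F.pr m) {ω : ℂ | ω - m ∈ HP (-1) (5 * F.r0 + 5)} := by
    intro ω hω ω' hω' h
    have h1 := hval ω hω
    have h2 := hval ω' hω'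
    rw [h1.2.1, h2.2.1] at h
    have h3 := (c.inj0 _ _ _ h1.1 _ h2.1 h).1
    have h4 := hGi hω hω' h3
    exact sub_left_injective h4
  have hopen : IsOpen {ω : ℂ | ω - m ∈ HP (-1) (5 * F.r0 + 5)} :=
    (isOpen_HP (-1) (5 * F.r0 + 5)).preimage (continuous_id.sub continuous_const)
  refine ⟨hinj, ?_, ?_⟩
  · intro ω hω
    exact deriv_ne_of_injOn hopen (F.diff_pr m).differentiableOn hinj hω
  · intro ω w' hω hw' h
    have h1 := hval ω hω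
    rw [h1.2.1] at h
    have h3 := (c.inj0 _ _ _ h1.1 _ hw' h).1
    rw [← h3]
    exact h1.2.2

theorem pr_unique {c : Chart p q s e} (F : Fat c) (hq : 0 < q) {ω ω' : ℂ}
    (h : ∀ᶠ m : ℕ in atTop, F.pr m ω = F.pr m ω') : ω = ω' := by
  obtain ⟨S, -, hS⟩ := pr_left F hq
  have hev : ∀ x : ℂ, ∀ᶠ m : ℕ in atTop, x - m ∈ HP (-1) S := by
    intro x
    obtain ⟨n, hn⟩ := exists_nat_gt (S + x.re - 4 * x.im)
    filter_upwards [eventually_ge_atTop n] with m hm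
    have hm' : (n : ℝ) ≤ m := by exact_mod_cast hm
    simp only [HP, mem_ofPred_eq, Complex.sub_re, Complex.sub_im, Complex.natCast_re, Complex.natCast_im]
    linarith
  obtain ⟨m, h1, h2, h3⟩ := (h.and ((hev ω).and (hev ω'))).exists
  exact (hS m).1 h2 h3 h1

theorem pr_of_left {c : Chart p q s e} (F : Fat c) (hq : 0 < q) {S : ℝ} (hS : F.r0 ≤ S) (m : ℕ) {w' : ℂ}
    (hw : w' ∈ Lf S) : ∃ ω : ℂ, F.pr m ω = c.W0 (-1 - m * p) w' ∧ ‖w' - (ω - m)‖ ≤ 1 / 8 := by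
  have hR := c.R_ge
  have hr0 := F.r0_ge
  have h1 : w' ∈ Rr S := by
    simp only [Lf, mem_ofPred_eq] at hw
    simp only [Rr, mem_ofPred_eq]
    refine Or.inl ⟨hw.1, ?_⟩
    have := neg_abs_le w'.im
    linarith
  obtain ⟨ω, h2, h3⟩ := F.W0_pr m w' S hS h1
  exact ⟨ω, h2, h3.trans (GP6_rate F hS)⟩

/-- The inverse of the Fatou coordinate on the right part of the sheet `-1`. -/
theorem phi_inv {c : Chart p q s e} (F : Fat c) (hq : 0 < q) : ∃ (S : ℝ) (h : ℂ → ℂ), 0 < S ∧ ContinuousOn h (HP 1 S) ∧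
    (∀ w ∈ HP 1 S, h w ∈ Wd0 c.R ∧ ‖h w - w‖ ≤ 1 / 8 ∧ c.W0 (-1) (h w) ∈ F.B ∧ F.phi (c.W0 (-1) (h w)) = w) ∧
    ∀ v ∈ HP 1 S, v ∈ Wd0 c.R ∧ c.W0 (-1) v ∈ F.B ∧ h (F.phi (c.W0 (-1) v)) = v := by
  obtain ⟨r, hr⟩ : ∃ r : ℝ, r = max F.r0 (c.M0 hq + 1) := ⟨_, rfl⟩
  have hr0 : F.r0 ≤ r := hr ▸ le_max_left _ _
  have hrM : c.M0 hq + 1 ≤ r := hr ▸ le_max_right _ _
  have hM0 := c.M0_ge hq
  have hR := c.R_ge
  have hF0 := F.r0_ge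
  obtain ⟨S, hS⟩ : ∃ S : ℝ, S = 5 * r := ⟨_, rfl⟩
  have hS5 : S / 5 = r := by rw [hS]; ring
  have hSpos : 0 ≤ S := by rw [hS]; linarith
  have hWd : HP 1 S ⊆ Wd0 c.R := by
    intro w hw
    have h1 : w ∈ Wq (1 / 4) (S / 5) := HP_sub_Wq (by norm_num) (by linarith) hw
    exact (Wq_near_Wi hR (by rw [hS5]; linarith) (Wq_mono (by norm_num) le_rfl h1) (by simp : ‖w - w‖ ≤ 1)).2
  have hmem : ∀ w ∈ HP 1 S, c.W0 (-1) w ∈ F.B ∧ ‖F.phi (c.W0 (-1) w) - w‖ ≤ 1 / 8 := by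
    intro w hw
    have h1 : w ∈ Ra r := by
      have := HP_sub_Ra hSpos hw
      rwa [hS5] at this
    have h2 := F.mem_B (c.W0 (-1) w) 0 w r hr0 h1 (by simp)
    refine ⟨h2.1, le_trans ?_ (h2.2.trans (GP6_rate F hr0))⟩
    simp
  obtain ⟨g, hg⟩ : ∃ g : ℂ → ℂ, g = fun w => F.phi (c.W0 (-1) w) := ⟨_, rfl⟩
  have hgd : DifferentiableOn ℂ g (HP 1 S) := by
    rw [hg]
    exact F.diff_phi.comp ((c.diff0 (-1)).mono hWd) (fun w hw => (hmem w hw).1)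
  have hgn : ∀ w ∈ HP 1 S, ‖g w - w‖ ≤ 1 / 8 := by
    intro w hw
    rw [hg]
    exact (hmem w hw).2
  have hσ : |(1 : ℝ)| ≤ 1 := by norm_num
  obtain ⟨-, h, hd, h1, h2⟩ := near_id_inv hσ hgd hgn
  refine ⟨S + 9, h, by linarith, (hd.mono (GP6_HP_mono (by linarith))).continuousOn, ?_, ?_⟩
  · intro w hw
    have h3 := h1 w (GP6_HP_mono (by linarith) hw)
    have h4 : h w ∈ HP 1 S := GP6_HP_mono (by linarith) h3.1
    refine ⟨hWd h4, h3.2.2, (hmem _ h4).1, ?_⟩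
    have h5 := h3.2.1
    rw [hg] at h5
    exact h5
  · intro v hv
    have h4 : v ∈ HP 1 S := GP6_HP_mono (by linarith) hv
    refine ⟨hWd h4, (hmem v h4).1, ?_⟩
    have h5 := h2 v hv
    rw [hg] at h5
    exact h5

end Pool.Agent.CR
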