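import Pool.Agent.H73.CR.GP5
import Pool.Agent.H73.CR.GP6
import Pool.Agent.H33.CR.LL2
import Pool.Agent.H33.CR.GI3

/-!
# CR GP8: the lift `η` of the sector functions

`l0 = mu (p/q)`, `z m τ = sec p q l0 (-1 - m p) (τ / 2^m)`, `f (z (m+1) τ) = z m τ`.

`eta_base`: `S` from `pr_left`, `S' = max S ...` large. `RaySheet` with `C = 1`, `R' = S'` gives `t1`. Take `m1` with `1/2^m1 ≤ t1`: `z m1 1 = W0 (-1 - m1 p) w'`, `w' ∈ Lf S'`; `pr_of_left`: `F.pr m1 η0 = z m1 1`, `‖w' - (η0 - m1)‖ ≤ 1/8`.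
For `m ≤ m1`: apply `(f l0)^[m1 - m]` (`F.pr_f`, `sec_f`; induction downwards). For `m ≥ m1` induction: `f (F.pr (m+1) η0) = F.pr m η0 = z m 1 = f (z (m+1) 1)`; both `F.pr (m+1) η0` and `z (m+1) 1` have norm `< 1/4` (if `m1`, `S'` are large: `z`: `sec_small`; `F.pr (m+1) η0`: `η0 - (m+1) ∈ Rr (S' - 2)` because
`η0 - m1` is within `1/8` of `w' ∈ Lf S'`, `pr_W0` and `small0`: the norm is `≤ c.C (S'-3)^(-1/q)`), so they are equal: `GI_f_inj` (`‖l0‖ = 1`).
`exists_eta`: `R : RepData l0` with `R.pr = F.pr` (`exists_repData`); `R.lift_gen` (module LL2; it has the extra hypothesis `hpr : ∀ m, Continuous (R.pr m)`, from `F.diff_pr`) on `Ω = {τ | 0 < Re τ}` with `ζ = z 0 = sec p q l0 (-1)` (`sec_ne_zero`, `sec_ne_crit`), `x0 = 1`, `η0` from `eta_base`: `η` holomorphic with `pr 0 (η τ) = ζ τ`, `η 1 = η0`.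
For every `m`: `F.pr m ∘ η` and `z m` are continuous solutions `g` of `(f l0)^[m] (g τ) = ζ τ` on the connected `Ω` (`GI2_pr_iter`, `sec_iter`), equal at `1`: `inv_unique`. This is the first clause.
Functional equation: for `m ≥ q`: `F.pr m (η (2^q τ)) = z m (2^q τ) = sec l0 (-1 - m p) (τ/2^(m-q)) = sec l0 (-1 - (m-q) p) (τ/2^(m-q)) = F.pr (m-q) (η τ) = F.pr m (η τ + q)` (`sec_per`, `pr_add`), so `η (2^q τ) = η τ + q` by `pr_unique`.
Derivative: `F.pr 0 (η τ) = sec l0 (-1) τ` near `τ`, the chain rule and `sec_deriv`.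
-/

set_option autoImplicit false

open Set Filter Topology Metric

namespace Pool.Agent.CR

variable {p q s e : ℕ}

private theorem GP8_re_div (x : ℂ) (m : ℕ) : (x / 2 ^ m).re = x.re / 2 ^ m := by
  have h : (2 : ℂ) ^ m = ((2 ^ m : ℝ) : ℂ) := by push_cast; rfl
  rw [h, Complex.div_ofReal_re]

private theorem GP8_re_mul (x : ℂ) (m : ℕ) : (2 ^ m * x).re = 2 ^ m * x.re := by
  have h : (2 : ℂ) ^ m = ((2 ^ m : ℝ) : ℂ) := by push_cast; rfl
  rw [h, Complex.re_ofReal_mul]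

private theorem GP8_re_pos {x : ℂ} (hx : 0 < x.re) (m : ℕ) : 0 < (x / 2 ^ m).re := by
  rw [GP8_re_div]; positivity

private theorem GP8_z_iter (hq : 0 < q) (hpq : p ≤ q) {l : ℂ} (hl : ‖l‖ ≤ 1) {τ : ℂ} (hτ : 0 < τ.re) (m k : ℕ) :
    (f l)^[k] (sec p q l (-1 - ((m + k : ℕ) : ℤ) * p) (τ / 2 ^ (m + k))) = sec p q l (-1 - (m : ℤ) * p) (τ / 2 ^ m) := by
  rw [sec_iter hq hpq hl _ (GP8_re_pos hτ _)]
  congr 1
  · push_cast; ring
  · rw [pow_add]
    have h1 : (2 : ℂ) ^ m ≠ 0 := pow_ne_zero _ two_ne_zero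
    have h2 : (2 : ℂ) ^ k ≠ 0 := pow_ne_zero _ two_ne_zero
    field_simp

private theorem GP8_pr_iter {c : Chart p q s e} (F : Fat c) (m k : ℕ) (w : ℂ) :
    (f (mu ((p : ℝ) / q)))^[k] (F.pr (m + k) w) = F.pr m w := by
  induction k with
  | zero => rfl
  | succ k ih => rw [← add_assoc, Function.iterate_succ_apply, F.pr_f, ih]

private theorem GP8_rpow_small (C : ℝ) (q : ℕ) (hq : 0 < q) :
    ∃ M : ℝ, 1 ≤ M ∧ ∀ x : ℝ, M ≤ x → C * x ^ (-(1 / (q : ℝ))) < 1 / 4 := by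
  have h1 : Tendsto (fun x : ℝ => C * x ^ (-(1 / (q : ℝ)))) atTop (𝓝 (C * 0)) :=
    (tendsto_rpow_neg_atTop (by positivity)).const_mul C
  rw [mul_zero] at h1
  have h2 := h1.eventually (Iio_mem_nhds (show (0 : ℝ) < 1 / 4 by norm_num))
  obtain ⟨M, hM⟩ := eventually_atTop.1 h2
  exact ⟨max M 1, le_max_right _ _, fun x hx => hM x ((le_max_left _ _).trans hx)⟩

theorem eta_base {c : Chart p q s e} (F : Fat c) (hR : RaySheet c) (hp : 0 < p) (hpq : p < q)
    (hs : q * s = p * e + 1) : ∃ η0 : ℂ, ∀ m : ℕ,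
      F.pr m η0 = sec p q (mu ((p : ℝ) / q)) (-1 - m * p) (1 / 2 ^ m) := by
  have hq : 0 < q := by omega
  set l0 := mu ((p : ℝ) / q) with hl0
  have hn : ‖l0‖ = 1 := norm_mu _
  have h1re : (0 : ℝ) < (1 : ℂ).re := by norm_num
  have hR4 := c.R_ge
  have hr0 := F.r0_ge
  obtain ⟨M, hM1, hM⟩ := GP8_rpow_small c.C q hq
  set S : ℝ := F.r0 + M + 3 with hS
  have hSr : F.r0 ≤ S := by linarith
  obtain ⟨t1, ht1, hray⟩ := hR 0 S
  obtain ⟨δ, hδ, hsmall⟩ := sec_small hp hpq (coprime_of hs) 0 (show (0 : ℝ) < 1 / 4 by norm_num)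
  obtain ⟨m1, hm1⟩ : ∃ m1 : ℕ, 1 / (2 : ℝ) ^ m1 < min t1 δ := by
    obtain ⟨n, hn⟩ := exists_pow_lt_of_lt_one (lt_min ht1 hδ) (show (1 / 2 : ℝ) < 1 by norm_num)
    exact ⟨n, by rwa [one_div_pow] at hn⟩
  have hre : ∀ m : ℕ, ((1 : ℂ) / 2 ^ m).re = 1 / 2 ^ m := fun m => by
    rw [GP8_re_div, Complex.one_re]
  have him : ∀ m : ℕ, ((1 : ℂ) / 2 ^ m).im = 0 := fun m => by
    have h : (2 : ℂ) ^ m = ((2 ^ m : ℝ) : ℂ) := by push_cast; rfl
    rw [h, Complex.div_ofReal_im, Complex.one_im, zero_div]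
  obtain ⟨w', hw1, hw2, hw3⟩ := hray (-1 - m1 * p) (1 / 2 ^ m1) (GP8_re_pos h1re _)
    (by rw [hre]; exact (hm1.trans_le (min_le_left _ _)).le) (by rw [him, hre]; simp)
  obtain ⟨η0, h1, h2⟩ := pr_of_left F hq hSr m1 hw2
  have hbase : F.pr m1 η0 = sec p q l0 (-1 - (m1 : ℤ) * p) (1 / 2 ^ m1) := by rw [h1, hw3]
  refine ⟨η0, fun m => ?_⟩
  rcases le_total m m1 with hm | hm
  · obtain ⟨k, rfl⟩ := Nat.exists_eq_add_of_le hm
    rw [← GP8_pr_iter F m k, hbase]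
    exact GP8_z_iter hq hpq.le hn.le h1re m k
  · induction m, hm using Nat.le_induction with
    | base => exact hbase
    | succ m hm ih =>
      have hf : f l0 (F.pr (m + 1) η0) = f l0 (sec p q l0 (-1 - ((m + 1 : ℕ) : ℤ) * p) (1 / 2 ^ (m + 1))) := by
        rw [F.pr_f, ih]
        have := GP8_z_iter hq hpq.le hn.le h1re m 1
        rw [Function.iterate_one] at this
        exact this.symm
      refine GI_f_inj hf ?_
      have hz : ‖sec p q l0 (-1 - ((m + 1 : ℕ) : ℤ) * p) (1 / 2 ^ (m + 1))‖ < 1 / 4 := by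
        refine hsmall _ _ (GP8_re_pos h1re _) ?_ (by rw [him, hre]; simp)
        rw [hre]
        refine lt_of_le_of_lt ?_ (hm1.trans_le (min_le_right _ _))
        exact one_div_le_one_div_of_le (by positivity) (pow_le_pow_right₀ (by norm_num) (by omega))
      have hw2' := hw2
      obtain ⟨hwr, hwi⟩ := hw2'
      have hd := Complex.abs_re_le_norm (w' - (η0 - m1))
      have hd' := Complex.abs_im_le_norm (w' - (η0 - m1))
      have e1 := abs_le.1 (hd.trans h2)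
      have e2 := abs_le.1 (hd'.trans h2)
      have e3 := abs_lt.1 hwi
      simp only [Complex.sub_re, Complex.sub_im, Complex.natCast_re, Complex.natCast_im] at e1 e2
      have hmm : (m1 : ℝ) ≤ (m + 1 : ℕ) := by exact_mod_cast (by omega : m1 ≤ m + 1)
      have hRr : η0 - ((m + 1 : ℕ) : ℂ) ∈ Rr (F.r0 + M + 2) := by
        left
        simp only [Complex.sub_re, Complex.sub_im, Complex.natCast_re, Complex.natCast_im]
        constructor
        · linarith [e1.1, e1.2]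
        · linarith [e1.1, e1.2, e2.1, e2.2, e3.1, e3.2]
      obtain ⟨w'', hw''1, hw''2, hw''3⟩ := F.pr_W0 (m + 1) η0 (F.r0 + M + 2) (by linarith) hRr
      have hpr : ‖F.pr (m + 1) η0‖ < 1 / 4 := by
        rw [hw''2]
        refine (c.small0 _ _ hw''1).trans_lt (hM _ ?_)
        have h3 : F.C * (F.r0 + M + 2) ^ (-(1 / (q : ℝ))) ≤ 1 / 8 := by
          refine le_trans ?_ F.C_small
          refine mul_le_mul_of_nonneg_left ?_ F.C_pos.le
          exact Real.rpow_le_rpow_of_nonpos (by linarith) (by linarith) (by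
            have : (0 : ℝ) ≤ 1 / (q : ℝ) := by positivity
            linarith)
        have h4 := Complex.abs_re_le_norm (w'' - (η0 - ((m + 1 : ℕ) : ℂ)))
        have h5 := abs_le.1 (h4.trans (hw''3.trans h3))
        simp only [Complex.sub_re, Complex.natCast_re] at h5
        have h6 := Complex.abs_re_le_norm w''
        have h7 := neg_abs_le w''.re
        linarith [h5.1, h5.2, e1.1, e1.2]
      rw [hn]
      linarith

theorem exists_eta {c : Chart p q s e} (F : Fat c) (hR : RaySheet c) (hp : 0 < p) (hpq : p < q)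
    (hs : q * s = p * e + 1) : ∃ η : ℂ → ℂ, DifferentiableOn ℂ η {τ | 0 < τ.re} ∧
      (∀ (m : ℕ) (τ : ℂ), 0 < τ.re → F.pr m (η τ) = sec p q (mu ((p : ℝ) / q)) (-1 - m * p) (τ / 2 ^ m)) ∧
      (∀ τ : ℂ, 0 < τ.re → η (2 ^ q * τ) = η τ + q) ∧
      ∀ τ : ℂ, 0 < τ.re → deriv (F.pr 0) (η τ) ≠ 0 := by
  have hq : 0 < q := by omega
  have hn : ‖mu ((p : ℝ) / q)‖ = 1 := norm_mu _
  obtain ⟨η0, hη0⟩ := eta_base F hR hp hpq hs
  obtain ⟨R, hRpr⟩ := exists_repData F hq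
  have ho : IsOpen {τ : ℂ | 0 < τ.re} := isOpen_lt continuous_const Complex.continuous_re
  have hcv : Convex ℝ {τ : ℂ | 0 < τ.re} := convex_halfSpace_re_gt 0
  have h1Ω : (1 : ℂ) ∈ {τ : ℂ | 0 < τ.re} := by
    show (0 : ℝ) < (1 : ℂ).re
    norm_num
  have hb : R.pr 0 η0 = sec p q (mu ((p : ℝ) / q)) (-1) 1 := by
    rw [hRpr, hη0 0]
    norm_num
  obtain ⟨η, hd, hpr, hη1⟩ := R.lift_gen (fun m => by rw [hRpr]; exact (F.diff_pr m).continuous) ho hcv
    (sec_diff p q hn.le (-1)) (fun x hx => sec_ne_zero p q hn.le (-1) hx)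
    (fun x hx k => sec_ne_crit p q hn.le (-1) hx k) h1Ω hb
  rw [hRpr] at hpr
  have hfirst : ∀ (m : ℕ) (τ : ℂ), 0 < τ.re →
      F.pr m (η τ) = sec p q (mu ((p : ℝ) / q)) (-1 - m * p) (τ / 2 ^ m) := by
    intro m τ hτ
    refine inv_unique (mu ((p : ℝ) / q)) hcv.isPreconnected (β := sec p q (mu ((p : ℝ) / q)) (-1))
      (η := fun τ => F.pr m (η τ)) (η' := fun τ => sec p q (mu ((p : ℝ) / q)) (-1 - m * p) (τ / 2 ^ m)) (n := m)
      (fun z hz k _ => sec_ne_crit p q hn.le (-1) hz k) ((F.diff_pr m).continuous.comp_continuousOn hd.continuousOn)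
      ?_ ?_ ?_ h1Ω ?_ τ hτ
    · refine (sec_diff p q hn.le (-1 - m * p)).continuousOn.comp (by fun_prop) ?_
      intro x hx
      exact GP8_re_pos hx m
    · intro x hx
      show (f (mu ((p : ℝ) / q)))^[m] (F.pr m (η x)) = _
      rw [GI2_pr_iter, hpr x hx]
    · intro x hx
      have := GP8_z_iter hq hpq.le hn.le (τ := x) hx 0 m
      simp only [zero_add, Nat.cast_zero, zero_mul, sub_zero, pow_zero, div_one] at this
      exact this
    · show F.pr m (η 1) = _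
      rw [hη1]
      exact hη0 m
  refine ⟨η, hd, hfirst, ?_, ?_⟩
  · intro τ hτ
    refine pr_unique F hq ?_
    filter_upwards [eventually_ge_atTop q] with m hm
    obtain ⟨k, rfl⟩ := Nat.exists_eq_add_of_le' hm
    have h2 : 0 < (2 ^ q * τ).re := by rw [GP8_re_mul]; positivity
    rw [hfirst _ _ h2, F.pr_add, hfirst _ _ hτ]
    have e1 : (2 ^ q * τ / 2 ^ (k + q) : ℂ) = τ / 2 ^ k := by
      have h3 : (2 : ℂ) ^ k ≠ 0 := pow_ne_zero _ two_ne_zero
      have h4 : (2 : ℂ) ^ q ≠ 0 := pow_ne_zero _ two_ne_zero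
      rw [pow_add]
      field_simp
    have e2 : (-1 - ((k + q : ℕ) : ℤ) * p : ℤ) = (-1 - (k : ℤ) * p) + (-(p : ℤ)) * q := by
      push_cast; ring
    rw [e1, e2, sec_per hq]
  · intro τ hτ h0
    have hev : (fun x => F.pr 0 (η x)) =ᶠ[𝓝 τ] sec p q (mu ((p : ℝ) / q)) (-1) := by
      filter_upwards [ho.mem_nhds hτ] with x hx
      exact hpr x hx
    have h1 : HasDerivAt (fun x => F.pr 0 (η x)) (deriv (F.pr 0) (η τ) * deriv η τ) τ :=
      ((F.diff_pr 0 (η τ)).hasDerivAt).comp τ ((hd.differentiableAt (ho.mem_nhds hτ)).hasDerivAt)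
    have h2 := hev.deriv_eq
    rw [h1.deriv, h0, zero_mul] at h2
    exact sec_deriv p q hn.le (-1) hτ h2.symm

end Pool.Agent.CR
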