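import Pool.Agent.H73.CR.GP2
import Pool.Agent.H73.CR.GP8
import Pool.Agent.H68.CR.R7

/-!
# CR GP9: the curve `Γ`, its landing point

`l0 = mu (p/q)`, `n0 := η` from `exists_eta`, `Γ T = η (T + 2 π i gap)` for `T > 0`, `ζ T = F.pr q (Γ T)`; by `exists_eta`, `ray_th`: `F.pr m (Γ T) = ray l0 (th p q m) (T / 2^m)`; by `ray_th_q` (`GP2`): `F.pr q (Γ T) = - l0 - ray l0 (ang p q 0) (T/2^q) → - l0` for `T → 0+` (`R_main`: the ray `ang p q 0` lands at `0`).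

`crit_ne_zero`: `(f l0)^[k] (v l0) ≠ 0` for all `k`: otherwise all later iterates are `0`; but by `R_main`/`exists_par`, `petal` (its `R0`), `crit_petal` some iterate `z = (f l0)^[n] (v l0) ≠ 0` has `R0 ≤ Re Yc`, so all `((f l0)^[q])^[i] z ≠ 0`, a contradiction for `i` large (`q i + n ≥ k`).
So `(f l0)^[k] (v l0) ≠ - l0` (`f l0 (-l0) = 0`). `crit_tendsto`: `(f l0)^[k] (v l0) → 0 ≠ -l0`. Hence there is `ρ0 > 0` such that `ball (-l0) ρ0` contains neither `0` nor any `(f l0)^[k] (v l0)` (finitely many have norm `≥ 1/2`; the others and `0` have distance `≥ 1/2` from `-l0`). This is `avoid_ball`.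

`eta_zero`: `R' : RepData l0` with `R'.pr m = F.pr (m + q)` (`exists_repData`, `RepData.shift R q` of module LL2). Let `T1 > 0` with `F.pr q (Γ T) ∈ ball (-l0) ρ0` for `0 < T ≤ T1`. `R'.lift_gen` (hypothesis `hpr`: the `F.pr m` are differentiable) on the ball, `ζ = id`, `x0 = F.pr q (Γ T1)`, `η0 = Γ T1`: `η1` holomorphic on the ball, `F.pr q (η1 x) = x`, `η1 x0 = Γ T1`.
For `0 < T ≤ T1`: `Γ T = η1 (F.pr q (Γ T))`: for `m ≥ q` the functions `T ↦ F.pr m (Γ T)` and `T ↦ F.pr m (η1 (F.pr q (Γ T)))` are continuous on the connected `Ioc 0 T1`, equal at `T1`, and both satisfy `(f l0)^[m-q] (g T) = F.pr q (Γ T)` (`F.pr_f` iterated): `inv_unique` with `β T = F.pr q (Γ T)` (in the ball, so `≠ (f l0)^[k] (v l0)`). Then `pr_unique`.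

`exists_Gamma`: `Γ 0 := η1 (-l0)`. Continuity at `0`: `Γ T = η1 (F.pr q (Γ T)) → η1 (-l0)`; on `T > 0`: `η` is continuous. `F.pr 0 (Γ 0) = (f l0)^[q] (F.pr q (Γ 0)) = (f l0)^[q] (-l0) = 0` (`F.pr_f` iterated; `f l0 (-l0) = 0`).
`deriv (F.pr 0) (Γ 0) ≠ 0`: `F.pr 0 = (f l0)^[q] ∘ F.pr q`; `deriv (F.pr q) (η1 x) ≠ 0` (`F.pr q ∘ η1 = id` near `-l0`), and `deriv ((f l0)^[q]) (-l0) = deriv ((f l0)^[q-1]) 0 * (2 (-l0) + l0) = - l0^q ≠ 0` (`iter_hasDerivAt_zero`). For `T > 0`: `exists_eta`.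
`Re Γ T → ∞`, `Im` bounded: `S = {τ | 1 ≤ Re τ ≤ 2^q, 0 ≤ Im τ ≤ 4 π}` is compact, `‖η τ‖ ≤ B` on it. For `T ≥ 1` let `k` with `2^(q k) ≤ T ≤ 2^(q (k+1))`: `T + 2 π i gap = (2^q)^k τ` with `τ ∈ S` (`0 ≤ gap ≤ 2`), `Γ T = η τ + q k` (functional equation iterated). So `Re Γ T ≥ q k - B`, `|Im Γ T| ≤ B`, and `k → ∞` for `T → ∞`.
-/

set_option autoImplicit false

open Set Filter Topology Metric

namespace Pool.Agent.CR

variable {p q s e : ℕ}

private theorem GP9_iter_zero (l : ℂ) (j : ℕ) : (f l)^[j] 0 = 0 := by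
  induction j with
  | zero => rfl
  | succ j ih =>
    rw [Function.iterate_succ_apply', ih]
    unfold f
    ring

private theorem GP9_f_neg (l : ℂ) : f l (-l) = 0 := by
  unfold f
  ring

private theorem GP9_pr_iter {c : Chart p q s e} (F : Fat c) (m k : ℕ) (w : ℂ) :
    (f (mu ((p : ℝ) / q)))^[k] (F.pr (m + k) w) = F.pr m w := by
  induction k with
  | zero => rfl
  | succ k ih => rw [← add_assoc, Function.iterate_succ_apply, F.pr_f, ih]

private theorem GP9_crit_ne_zero (hq : 0 < q) (hc : Nat.Coprime p q) (k : ℕ) :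
    (f (mu ((p : ℝ) / q)))^[k] (v (mu ((p : ℝ) / q))) ≠ 0 := by
  intro h
  obtain ⟨A, k', _, hpar⟩ := exists_par (p := p) hq hc
  obtain ⟨R0, _, hR0⟩ := petal hpar
  obtain ⟨n0, hn1, hn2⟩ := crit_petal (norm_mu _).le hq hpar R0
  have h1 := ((hR0 _ hn1 hn2).1 k).1
  apply h1
  rw [← Function.iterate_mul, ← Function.iterate_add_apply]
  have h2 : k ≤ q * k + n0 := by nlinarith
  obtain ⟨j, hj⟩ := Nat.exists_eq_add_of_le h2
  rw [hj, add_comm, Function.iterate_add_apply, h, GP9_iter_zero]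

theorem avoid_ball (hp : 0 < p) (hpq : p < q) (hc : Nat.Coprime p q) : ∃ ρ : ℝ, 0 < ρ ∧ ∀ z ∈ ball (-mu ((p : ℝ) / q)) ρ,
    z ≠ 0 ∧ ∀ k : ℕ, z ≠ (f (mu ((p : ℝ) / q)))^[k] (v (mu ((p : ℝ) / q))) := by
  have hq : 0 < q := hp.trans hpq
  have hn : ‖mu ((p : ℝ) / q)‖ = 1 := norm_mu _
  have hlim := crit_tendsto (p := p) hq hc
  obtain ⟨N, hN⟩ := (Metric.tendsto_atTop.1 hlim) (1 / 2) (by norm_num)
  have hne' : ∀ k, (f (mu ((p : ℝ) / q)))^[k] (v (mu ((p : ℝ) / q))) ≠ -mu ((p : ℝ) / q) := by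
    intro k h
    apply GP9_crit_ne_zero (p := p) hq hc (k + 1)
    rw [Function.iterate_succ_apply', h, GP9_f_neg]
  have hfin : ∀ M : ℕ, ∃ ρ : ℝ, 0 < ρ ∧ ρ ≤ 1 / 2 ∧ ∀ k < M,
      ρ ≤ dist ((f (mu ((p : ℝ) / q)))^[k] (v (mu ((p : ℝ) / q)))) (-mu ((p : ℝ) / q)) := by
    intro M
    induction M with
    | zero => exact ⟨1 / 2, by norm_num, le_rfl, fun k hk => absurd hk (Nat.not_lt_zero _)⟩
    | succ M ih =>
      obtain ⟨ρ, h1, h2, h3⟩ := ih
      refine ⟨min ρ (dist ((f (mu ((p : ℝ) / q)))^[M] (v (mu ((p : ℝ) / q)))) (-mu ((p : ℝ) / q))),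
        lt_min h1 (dist_pos.2 (hne' M)), (min_le_left _ _).trans h2, fun k hk => ?_⟩
      rcases Nat.lt_succ_iff_lt_or_eq.1 hk with hk1 | rfl
      · exact (min_le_left _ _).trans (h3 k hk1)
      · exact min_le_right _ _
  obtain ⟨ρ, h1, h2, h3⟩ := hfin N
  refine ⟨ρ, h1, fun z hz => ⟨?_, fun k => ?_⟩⟩
  · rintro rfl
    rw [mem_ball, dist_eq_norm, zero_sub, neg_neg, hn] at hz
    linarith
  · rintro rfl
    rw [mem_ball] at hz
    rcases lt_or_ge k N with hk | hk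
    · exact absurd hz (not_lt.2 (h3 k hk))
    · have h4 := hN k hk
      rw [dist_zero_right] at h4
      rw [dist_eq_norm, sub_neg_eq_add] at hz
      have h5 : ‖mu ((p : ℝ) / q)‖ ≤ ‖(f (mu ((p : ℝ) / q)))^[k] (v (mu ((p : ℝ) / q))) + mu ((p : ℝ) / q)‖ +
          ‖(f (mu ((p : ℝ) / q)))^[k] (v (mu ((p : ℝ) / q)))‖ := by
        have h6 : mu ((p : ℝ) / q) = ((f (mu ((p : ℝ) / q)))^[k] (v (mu ((p : ℝ) / q))) + mu ((p : ℝ) / q)) -
            (f (mu ((p : ℝ) / q)))^[k] (v (mu ((p : ℝ) / q))) := by ring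
        calc ‖mu ((p : ℝ) / q)‖ = ‖((f (mu ((p : ℝ) / q)))^[k] (v (mu ((p : ℝ) / q))) + mu ((p : ℝ) / q)) -
            (f (mu ((p : ℝ) / q)))^[k] (v (mu ((p : ℝ) / q)))‖ := by rw [← h6]
          _ ≤ _ := norm_sub_le _ _
      rw [hn] at h5
      linarith

theorem eta_zero {c : Chart p q s e} (F : Fat c) (hp : 0 < p) (hpq : p < q) (hs : q * s = p * e + 1) {Γ : ℝ → ℂ}
    (hΓ : ContinuousOn Γ (Ioi 0))
    (hray : ∀ m : ℕ, ∀ T : ℝ, 0 < T → F.pr m (Γ T) = ray (mu ((p : ℝ) / q)) (th p q m) (T / 2 ^ m)) :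
    ∃ (η1 : ℂ → ℂ) (ρ T1 : ℝ), 0 < ρ ∧ 0 < T1 ∧ DifferentiableOn ℂ η1 (ball (-mu ((p : ℝ) / q)) ρ) ∧
      (∀ x ∈ ball (-mu ((p : ℝ) / q)) ρ, F.pr q (η1 x) = x) ∧
      (∀ T : ℝ, 0 < T → T ≤ T1 → F.pr q (Γ T) ∈ ball (-mu ((p : ℝ) / q)) ρ ∧ Γ T = η1 (F.pr q (Γ T))) ∧
      Tendsto (fun T => F.pr q (Γ T)) (𝓝[>] 0) (𝓝 (-mu ((p : ℝ) / q))) := by
  have hq : 0 < q := hp.trans hpq
  have hc : Nat.Coprime p q := coprime_of hs
  have hn : ‖mu ((p : ℝ) / q)‖ = 1 := norm_mu _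
  -- the limit
  have hlim : Tendsto (fun T => F.pr q (Γ T)) (𝓝[>] 0) (𝓝 (-mu ((p : ℝ) / q))) := by
    obtain ⟨A, φ0, _, _, hR⟩ := R_main hp hpq hc
    have h1 := (hR 0).1
    have h2 : Tendsto (fun T : ℝ => T / 2 ^ q) (𝓝[>] 0) (𝓝[>] 0) := by
      refine tendsto_nhdsWithin_iff.2 ⟨?_, ?_⟩
      · have h3 : Tendsto (fun T : ℝ => T / 2 ^ q) (𝓝 0) (𝓝 (0 / 2 ^ q)) :=
          (continuous_id.div_const _).tendsto 0
        rw [zero_div] at h3
        exact h3.mono_left nhdsWithin_le_nhds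
      · filter_upwards [self_mem_nhdsWithin] with T hT
        have hT' : (0 : ℝ) < T := hT
        exact div_pos hT' (by positivity)
    have h3 := (h1.comp h2).const_sub (-mu ((p : ℝ) / q))
    rw [sub_zero] at h3
    refine h3.congr' ?_
    filter_upwards [self_mem_nhdsWithin] with T hT
    have hT' : (0 : ℝ) < T / 2 ^ q := div_pos hT (by positivity)
    show -mu ((p : ℝ) / q) - ray (mu ((p : ℝ) / q)) (ang p q 0) (T / 2 ^ q) = F.pr q (Γ T)
    rw [hray q T hT, ray_th_q hp hpq hc hn.le hT']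
  obtain ⟨ρ, hρ, hav⟩ := avoid_ball hp hpq hc
  obtain ⟨T1, hT1, hT1'⟩ : ∃ T1 : ℝ, 0 < T1 ∧ ∀ T : ℝ, 0 < T → T ≤ T1 →
      F.pr q (Γ T) ∈ ball (-mu ((p : ℝ) / q)) ρ := by
    have h1 := hlim.eventually (ball_mem_nhds _ hρ)
    obtain ⟨u, hu, hu1⟩ := mem_nhdsGT_iff_exists_Ioc_subset.1 h1
    exact ⟨u, hu, fun T h2 h3 => hu1 ⟨h2, h3⟩⟩
  obtain ⟨R, hRpr⟩ := exists_repData F hq
  obtain ⟨η1, hη1, hη2, hη3⟩ := (R.shift q).lift_gen (Ω := ball (-mu ((p : ℝ) / q)) ρ) (ζ := fun x => x)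
    (fun m => by
      rw [R.shift_pr, hRpr]
      exact (F.diff_pr _).continuous) isOpen_ball (convex_ball _ _) differentiableOn_id
    (fun x hx => (hav x hx).1) (fun x hx k => (hav x hx).2 k) (x0 := F.pr q (Γ T1)) (η0 := Γ T1)
    (hT1' T1 hT1 le_rfl) (by rw [R.shift_pr, hRpr, zero_add])
  have hη2' : ∀ x ∈ ball (-mu ((p : ℝ) / q)) ρ, F.pr q (η1 x) = x := by
    intro x hx
    have h1 := hη2 x hx
    rw [R.shift_pr, hRpr, zero_add] at h1
    exact h1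
  refine ⟨η1, ρ, T1, hρ, hT1, hη1, hη2', fun T h0 h1 => ⟨hT1' T h0 h1, ?_⟩, hlim⟩
  refine pr_unique F hq ?_
  filter_upwards [eventually_ge_atTop q] with m hm
  obtain ⟨k, rfl⟩ := Nat.exists_eq_add_of_le hm
  have hcont : ContinuousOn (fun T => F.pr q (Γ T)) (Ioc 0 T1) :=
    (F.diff_pr q).continuous.comp_continuousOn (hΓ.mono (fun x hx => hx.1))
  refine inv_unique (mu ((p : ℝ) / q)) (Ω := Ioc 0 T1) isPreconnected_Ioc (β := fun T => F.pr q (Γ T))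
    (η := fun T => F.pr (q + k) (Γ T)) (η' := fun T => F.pr (q + k) (η1 (F.pr q (Γ T)))) (n := k) ?_ ?_ ?_ ?_ ?_
    (x0 := T1) ⟨hT1, le_rfl⟩ ?_ T ⟨h0, h1⟩
  · intro z hz i _
    exact (hav _ (hT1' z hz.1 hz.2)).2 i
  · exact (F.diff_pr _).continuous.comp_continuousOn (hΓ.mono (fun x hx => hx.1))
  · exact (F.diff_pr _).continuous.comp_continuousOn
      (hη1.continuousOn.comp hcont (fun x hx => hT1' x hx.1 hx.2))
  · intro z hz
    exact GP9_pr_iter F q k (Γ z)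
  · intro z hz
    show (f (mu ((p : ℝ) / q)))^[k] (F.pr (q + k) (η1 (F.pr q (Γ z)))) = F.pr q (Γ z)
    rw [GP9_pr_iter F q k, hη2' _ (hT1' z hz.1 hz.2)]
  · show F.pr (q + k) (Γ T1) = F.pr (q + k) (η1 (F.pr q (Γ T1)))
    rw [hη3]

theorem exists_Gamma {c : Chart p q s e} (F : Fat c) (hR : RaySheet c) (hp : 0 < p) (hpq : p < q)
    (hs : q * s = p * e + 1) : ∃ Γ : ℝ → ℂ, ContinuousOn Γ (Ici 0) ∧ F.pr 0 (Γ 0) = 0 ∧
      (∀ m : ℕ, ∀ T : ℝ, 0 < T → F.pr m (Γ T) = ray (mu ((p : ℝ) / q)) (th p q m) (T / 2 ^ m)) ∧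
      (∀ T : ℝ, 0 ≤ T → deriv (F.pr 0) (Γ T) ≠ 0) ∧ Tendsto (fun T => (Γ T).re) atTop atTop ∧
      ∃ B : ℝ, ∀ T ≥ 1, |(Γ T).im| ≤ B := by
  have hq : 0 < q := hp.trans hpq
  have hl0 : mu ((p : ℝ) / q) ≠ 0 := by
    intro h
    have h1 := norm_mu ((p : ℝ) / q)
    rw [h, norm_zero] at h1
    exact zero_ne_one h1
  obtain ⟨η, hη1, hη2, hη3, hη4⟩ := exists_eta F hR hp hpq hs
  set G : ℂ := 2 * Real.pi * gap p q * Complex.I with hG
  have hGre : ∀ T : ℝ, ((T : ℂ) + G).re = T := by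
    intro T
    rw [hG]
    simp
  have hGim : ∀ T : ℝ, ((T : ℂ) + G).im = 2 * Real.pi * gap p q := by
    intro T
    rw [hG]
    simp
  have hΓ1c : ContinuousOn (fun T : ℝ => η ((T : ℂ) + G)) (Ioi 0) := by
    refine hη1.continuousOn.comp (by fun_prop) ?_
    intro T hT
    show 0 < ((T : ℂ) + G).re
    rw [hGre]
    exact hT
  have hΓ1r : ∀ m : ℕ, ∀ T : ℝ, 0 < T →
      F.pr m (η ((T : ℂ) + G)) = ray (mu ((p : ℝ) / q)) (th p q m) (T / 2 ^ m) := by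
    intro m T hT
    rw [hη2 m _ (by rw [hGre]; exact hT), ray_th]
  obtain ⟨η1, ρ, T1, hρ, hT1, h1, h2, h3, h4⟩ := eta_zero F hp hpq hs hΓ1c hΓ1r
  have hmem : -mu ((p : ℝ) / q) ∈ ball (-mu ((p : ℝ) / q)) ρ := mem_ball_self hρ
  have hη1c : ContinuousAt η1 (-mu ((p : ℝ) / q)) := h1.continuousOn.continuousAt (ball_mem_nhds _ hρ)
  have hiter : ∀ (k : ℕ) (τ : ℂ), 0 < τ.re → η ((2 ^ q) ^ k * τ) = η τ + q * k := by
    intro k
    induction k with
    | zero => intro τ _; simp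
    | succ k ih =>
      intro τ hτ
      have hpos : 0 < ((2 ^ q) ^ k * τ : ℂ).re := by
        have e1 : ((2 ^ q) ^ k * τ : ℂ) = ((((2 : ℝ) ^ q) ^ k : ℝ) : ℂ) * τ := by push_cast; rfl
        rw [e1, Complex.re_ofReal_mul]
        positivity
      have e2 : ((2 ^ q) ^ (k + 1) * τ : ℂ) = 2 ^ q * ((2 ^ q) ^ k * τ) := by rw [pow_succ]; ring
      rw [e2, hη3 _ hpos, ih τ hτ]
      push_cast
      ring
  have hbig : ∃ B : ℝ, ∀ T : ℝ, 1 ≤ T → ∃ (k : ℕ) (τ : ℂ), T < ((2 : ℝ) ^ q) ^ (k + 1) ∧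
      η ((T : ℂ) + G) = η τ + q * k ∧ ‖η τ‖ ≤ B := by
    have hS : IsCompact ({τ : ℂ | 1 ≤ τ.re ∧ τ.re ≤ 2 ^ q ∧ 0 ≤ τ.im ∧ τ.im ≤ 4 * Real.pi}) := by
      refine Metric.isCompact_of_isClosed_isBounded ?_ ?_
      · exact (isClosed_le continuous_const Complex.continuous_re).inter
          ((isClosed_le Complex.continuous_re continuous_const).inter
            ((isClosed_le continuous_const Complex.continuous_im).inter
              (isClosed_le Complex.continuous_im continuous_const)))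
      · refine (Metric.isBounded_closedBall (x := (0 : ℂ)) (r := 2 ^ q + 4 * Real.pi)).subset ?_
        rintro x ⟨hx1, hx2, hx3, hx4⟩
        rw [mem_closedBall, dist_zero_right]
        refine (Complex.norm_le_abs_re_add_abs_im x).trans ?_
        rw [abs_of_nonneg (by linarith : (0 : ℝ) ≤ x.re), abs_of_nonneg hx3]
        linarith
    obtain ⟨B, hB⟩ := (hS.image_of_continuousOn (hη1.continuousOn.mono (fun τ hτ => by
      show (0 : ℝ) < τ.re
      linarith [hτ.1]))).isBounded.exists_norm_le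
    refine ⟨B, fun T hT => ?_⟩
    have h2q : (1 : ℝ) < 2 ^ q := one_lt_pow₀ (by norm_num) hq.ne'
    obtain ⟨k, hk1, hk2⟩ := exists_nat_pow_near hT h2q
    have hpk : (0 : ℝ) < ((2 : ℝ) ^ q) ^ k := by positivity
    have hpk1 : (1 : ℝ) ≤ ((2 : ℝ) ^ q) ^ k := one_le_pow₀ h2q.le
    refine ⟨k, ((T : ℂ) + G) / ((((2 : ℝ) ^ q) ^ k : ℝ) : ℂ), hk2, ?_, ?_⟩
    · rw [← hiter k _ (by
        rw [Complex.div_ofReal_re, hGre]
        exact div_pos (by linarith) hpk)]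
      congr 1
      have hne : ((((2 : ℝ) ^ q) ^ k : ℝ) : ℂ) ≠ 0 := Complex.ofReal_ne_zero.2 hpk.ne'
      have e1 : ((2 : ℂ) ^ q) ^ k = ((((2 : ℝ) ^ q) ^ k : ℝ) : ℂ) := by push_cast; rfl
      rw [e1, mul_div_cancel₀ _ hne]
    · refine hB _ ⟨_, ⟨?_, ?_, ?_, ?_⟩, rfl⟩
      · rw [Complex.div_ofReal_re, hGre, le_div_iff₀ hpk]
        linarith
      · rw [Complex.div_ofReal_re, hGre, div_le_iff₀ hpk]
        rw [pow_succ] at hk2
        linarith
      · rw [Complex.div_ofReal_im, hGim]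
        have hg := (gap_mem hp hpq).1
        positivity
      · rw [Complex.div_ofReal_im, hGim, div_le_iff₀ hpk]
        have hg := gap_mem hp hpq
        have hpi := Real.pi_pos
        nlinarith [mul_le_mul_of_nonneg_left hg.2 hpi.le]
  refine ⟨fun T => if T ≤ 0 then η1 (-mu ((p : ℝ) / q)) else η ((T : ℂ) + G), ?_, ?_, ?_, ?_, ?_, ?_⟩
  · intro T hT
    rcases eq_or_lt_of_le (show (0 : ℝ) ≤ T from hT) with rfl | hT0
    · show Tendsto (fun T : ℝ => if T ≤ 0 then η1 (-mu ((p : ℝ) / q)) else η ((T : ℂ) + G)) (𝓝[≥] 0) (𝓝 _)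
      rw [← Ioi_insert, nhdsWithin_insert]
      simp only [le_refl, if_true]
      refine Tendsto.sup ?_ ?_
      · rw [tendsto_pure_left]
        intro u hu
        simp only [le_refl, if_true]
        exact mem_of_mem_nhds hu
      · refine (hη1c.tendsto.comp h4).congr' ?_
        have h5 : Ioc (0 : ℝ) T1 ∈ 𝓝[>] (0 : ℝ) := Ioc_mem_nhdsGT hT1
        filter_upwards [h5] with x hx
        rw [if_neg (not_le.2 hx.1)]
        exact ((h3 x hx.1 hx.2).2).symm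
    · have h5 : ContinuousAt (fun T : ℝ => η ((T : ℂ) + G)) T := hΓ1c.continuousAt (Ioi_mem_nhds hT0)
      refine (h5.congr ?_).continuousWithinAt
      filter_upwards [Ioi_mem_nhds hT0] with x hx
      rw [if_neg (not_le.2 hx)]
  · simp only [le_refl, if_true]
    have h5 := GP9_pr_iter F 0 q (η1 (-mu ((p : ℝ) / q)))
    rw [zero_add, h2 _ hmem] at h5
    rw [← h5]
    obtain ⟨k, rfl⟩ := Nat.exists_eq_add_of_lt hq
    rw [zero_add, Function.iterate_succ_apply, GP9_f_neg, GP9_iter_zero]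
  · intro m T hT
    show F.pr m (if T ≤ 0 then η1 (-mu ((p : ℝ) / q)) else η ((T : ℂ) + G)) = _
    rw [if_neg (not_le.2 hT)]
    exact hΓ1r m T hT
  · intro T hT
    rcases eq_or_lt_of_le hT with rfl | hT0
    · simp only [le_refl, if_true]
      have hfun : F.pr 0 = fun w => (f (mu ((p : ℝ) / q)))^[q] (F.pr q w) := by
        funext w
        have h5 := GP9_pr_iter F 0 q w
        rw [zero_add] at h5
        exact h5.symm
      have hd1 : HasDerivAt (F.pr q) (deriv (F.pr q) (η1 (-mu ((p : ℝ) / q)))) (η1 (-mu ((p : ℝ) / q))) :=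
        ((F.diff_pr q) _).hasDerivAt
      have hd2 : HasDerivAt η1 (deriv η1 (-mu ((p : ℝ) / q))) (-mu ((p : ℝ) / q)) :=
        (h1.differentiableAt (ball_mem_nhds _ hρ)).hasDerivAt
      have hd3 : HasDerivAt (fun x => F.pr q (η1 x)) 1 (-mu ((p : ℝ) / q)) := by
        refine (hasDerivAt_id (-mu ((p : ℝ) / q))).congr_of_eventuallyEq ?_
        filter_upwards [ball_mem_nhds (-mu ((p : ℝ) / q)) hρ] with x hx
        exact h2 x hx
      have hd4 := (hd1.comp (-mu ((p : ℝ) / q)) hd2).unique hd3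
      have hne1 : deriv (F.pr q) (η1 (-mu ((p : ℝ) / q))) ≠ 0 := left_ne_zero_of_mul_eq_one hd4
      obtain ⟨k, hk⟩ := Nat.exists_eq_add_of_lt hq
      rw [zero_add] at hk
      have hf : HasDerivAt (f (mu ((p : ℝ) / q))) (-mu ((p : ℝ) / q)) (-mu ((p : ℝ) / q)) := by
        have e2 := (hasDerivAt_pow 2 (-mu ((p : ℝ) / q))).fun_add
            ((hasDerivAt_id (-mu ((p : ℝ) / q))).const_mul (mu ((p : ℝ) / q)))
        refine HasDerivAt.congr_deriv (f := f (mu ((p : ℝ) / q))) e2 ?_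
        push_cast
        ring
      have hk0 : HasDerivAt ((f (mu ((p : ℝ) / q)))^[k]) (mu ((p : ℝ) / q) ^ k)
          (f (mu ((p : ℝ) / q)) (-mu ((p : ℝ) / q))) := by
        rw [GP9_f_neg]
        exact iter_hasDerivAt_zero _ _
      have hit : HasDerivAt ((f (mu ((p : ℝ) / q)))^[q]) (mu ((p : ℝ) / q) ^ k * (-mu ((p : ℝ) / q)))
          (-mu ((p : ℝ) / q)) := by
        have e1 := hk0.comp (-mu ((p : ℝ) / q)) hf
        have e2 : (f (mu ((p : ℝ) / q)))^[q] = (f (mu ((p : ℝ) / q)))^[k] ∘ f (mu ((p : ℝ) / q)) := by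
          rw [hk, Function.iterate_succ]
        rw [e2]
        exact e1
      have hit' : HasDerivAt ((f (mu ((p : ℝ) / q)))^[q]) (mu ((p : ℝ) / q) ^ k * (-mu ((p : ℝ) / q)))
          (F.pr q (η1 (-mu ((p : ℝ) / q)))) := by
        rw [h2 _ hmem]
        exact hit
      have hfin := hit'.comp (η1 (-mu ((p : ℝ) / q))) hd1
      have hfin' : HasDerivAt (F.pr 0) (mu ((p : ℝ) / q) ^ k * (-mu ((p : ℝ) / q)) *
          deriv (F.pr q) (η1 (-mu ((p : ℝ) / q)))) (η1 (-mu ((p : ℝ) / q))) := by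
        rw [hfun]
        exact hfin
      rw [hfin'.deriv]
      exact mul_ne_zero (mul_ne_zero (pow_ne_zero _ hl0) (neg_ne_zero.2 hl0)) hne1
    · show deriv (F.pr 0) (if T ≤ 0 then η1 (-mu ((p : ℝ) / q)) else η ((T : ℂ) + G)) ≠ 0
      rw [if_neg (not_le.2 hT0)]
      exact hη4 _ (by rw [hGre]; exact hT0)
  · obtain ⟨B, hB⟩ := hbig
    refine tendsto_atTop.2 fun b => ?_
    obtain ⟨K, hK⟩ := exists_nat_ge (b + B)
    filter_upwards [eventually_ge_atTop (max 1 (((2 : ℝ) ^ q) ^ K))] with T hT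
    obtain ⟨k, τ, hk1, hk2, hk3⟩ := hB T ((le_max_left _ _).trans hT)
    have hT1' : (1 : ℝ) ≤ T := (le_max_left _ _).trans hT
    show b ≤ (if T ≤ 0 then η1 (-mu ((p : ℝ) / q)) else η ((T : ℂ) + G)).re
    rw [if_neg (not_le.2 (by linarith)), hk2, Complex.add_re]
    have h5 : K < k + 1 := by
      have h6 : ((2 : ℝ) ^ q) ^ K < ((2 : ℝ) ^ q) ^ (k + 1) := lt_of_le_of_lt ((le_max_right _ _).trans hT) hk1
      exact (pow_lt_pow_iff_right₀ (one_lt_pow₀ (by norm_num) hq.ne')).1 h6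
    have h7 : (K : ℝ) ≤ k := by exact_mod_cast Nat.lt_succ_iff.1 h5
    have h8 : ((q : ℂ) * (k : ℂ)).re = q * k := by
      rw [← Nat.cast_mul, Complex.natCast_re]
      push_cast
      rfl
    rw [h8]
    have h9 : (1 : ℝ) ≤ q := by exact_mod_cast hq
    have h10 : (k : ℝ) ≤ q * k := by
      have : (0 : ℝ) ≤ k := Nat.cast_nonneg k
      nlinarith
    have h11 : -B ≤ (η τ).re := by
      have h12 := (abs_le.1 ((Complex.abs_re_le_norm (η τ)).trans hk3)).1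
      exact h12
    linarith
  · obtain ⟨B, hB⟩ := hbig
    refine ⟨B, fun T hT => ?_⟩
    obtain ⟨k, τ, hk1, hk2, hk3⟩ := hB T hT
    show |(if T ≤ 0 then η1 (-mu ((p : ℝ) / q)) else η ((T : ℂ) + G)).im| ≤ B
    rw [if_neg (not_le.2 (by linarith)), hk2, Complex.add_im]
    have h8 : ((q : ℂ) * (k : ℂ)).im = 0 := by
      rw [← Nat.cast_mul, Complex.natCast_im]
    rw [h8, add_zero]
    exact (Complex.abs_im_le_norm (η τ)).trans hk3

end Pool.Agent.CR
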