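import Pool.Agent.H24.CR.T8
import Pool.Agent.H33.CR.GJ2
import Pool.Agent.H33.CR.GG2
import Pool.Agent.H33.CR.LV
import Pool.Agent.H73.CR.GP9
import Pool.Agent.H73.CR.GP13
import Pool.Agent.H73.CR.GP14
import Pool.Agent.H48.CR.G10

/-!
# CR GateEx: the structure `Gate` exists
-/

set_option autoImplicit false

open Set Filter Topology Metric

namespace Pool.Agent.CR

/-- Parts G and T. -/
theorem exists_gate {p q s e : ℕ} (hp : 0 < p) (hpq : p < q) (hs : q * s = p * e + 1) :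
    Nonempty (Gate p q s e) := by
  have hq : 0 < q := hp.trans hpq
  have hcop := coprime_of hs
  obtain ⟨c0⟩ := exists_chart hp hpq hs
  obtain ⟨c, hR⟩ := exists_raySheet hp hpq hs c0
  obtain ⟨F⟩ := exists_fat hq c
  obtain ⟨H, Hq, mem_D, E_eq⟩ := exists_horn F hp hpq hs
  have hlav := lav_fat F hp hpq hs
  obtain ⟨Γ, hΓc, hΓ0, hΓr, hΓd, hΓre, hΓim⟩ := exists_Gamma F hR hp hpq hs
  obtain ⟨S, h, hS, hhc, hh1, hh2⟩ := phi_inv F hq
  obtain ⟨T0, hT0, hyc, hy, hylim⟩ := y_of hq F hhc hh1 hΓc hΓre hΓim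
  obtain ⟨T1, hT01, hg2⟩ := gate2_of hp hpq hs hR F (fun m => lavm_fat F hp hpq hs m) hΓr hh2 hT0 hyc
  exact ⟨{
    H := H
    B := F.B
    phi := F.phi
    pr := F.pr
    Γ := Γ
    y := fun T => c.W0 (-1) (h (Γ T))
    T0 := T1
    Hq := Hq
    isOpen_B := F.isOpen_B
    B_sub := GH_B_sub F hq
    zero_notMem := GH_zero F hq
    diff_phi := F.diff_phi
    diff_pr := F.diff_pr
    pr_f := F.pr_f
    pr_small := GI2_pr_small F hq
    mem_D := mem_D
    E_eq := E_eq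
    lav := hlav
    cont_Γ := hΓc
    Γ_zero := hΓ0
    Γ_ray := hΓr
    Γ_deriv := hΓd
    T0_pos := lt_of_lt_of_le hT0 hT01
    cont_y := hyc.mono (Ici_subset_Ici.2 hT01)
    y_mem := fun T hT => (hy T (hT01.trans hT)).1
    phi_y := fun T hT => (hy T (hT01.trans hT)).2
    y_lim := hylim
    gate1 := gate1_of hp hpq hs hR
    gate2 := hg2
    top_final := top_final_thm hp hpq hs c F H Hq mem_D E_eq hlav }⟩

end Pool.Agent.CR
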