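import Pool.Agent.H73.CR.SE

/-!
# CR SG: low backward paths converge

`converge`: let `C` be the constant of `koebe_translate`, `n1 ≥ 1` from `decay` for `δ = 1/(2C)`. Choose `N` and `t_i = i n1 / N` (`0 ≤ i ≤ N`) with
`‖σ s - σ s'‖ < ε/2` for `s, s' ∈ [t_i, t_(i+1)]`. By induction on `k`: `‖σ (s + k n1) - σ (s' + k n1)‖ ≤ 2^(-k) ε/2` for `s, s' ∈ [t_i, t_(i+1)]`: the branch
(`branch` with `n = n1`) at `t_i + k n1` maps `σ (s + k n1)` to `σ (s + (k+1) n1)` and has Lipschitz constant `1/2` on the half ball. Hence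
`‖σ t - σ t'‖ ≤ N 2^(-k) ε` for `t, t' ∈ [k n1, (k+1) n1]`: Cauchy.
-/

set_option autoImplicit false

open Set Filter Topology Metric

namespace Pool.Agent.CR.Horn

variable {H : Horn} {σ : ℝ → ℂ} {a : ℂ} {R1 : ℝ}

/-- Local contraction by the shift by `n1`. -/
private theorem SG_contract (hσ : H.BPath σ) (hT : H.Top a R1) {R3 ε : ℝ} (hL : H.Low a σ R3 ε) :
    ∃ n1 : ℕ, 1 ≤ n1 ∧ ∀ t t' : ℝ, 0 ≤ t → 0 ≤ t' →
      (∀ r ∈ uIcc t t', ‖σ r - σ t‖ < ε / 2) →
      ‖σ (t' + n1) - σ (t + n1)‖ ≤ 1 / 2 * ‖σ t' - σ t‖ := by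
  obtain ⟨C, hC, hK⟩ := koebe_translate
  have hε := hL.ε_pos
  obtain ⟨n0, hn0⟩ := hσ.decay hT hL (δ := 1 / (2 * C)) (by positivity)
  refine ⟨max n0 1, le_max_right _ _, ?_⟩
  intro t t' ht ht' hr
  obtain ⟨G, hG1, hG2, hG3, hG4⟩ := hσ.branch hT ht hε (hL.dist t ht) (max n0 1)
  obtain ⟨hi, htr⟩ := branch_inj hL.ε_le hG2
  obtain ⟨-, hlip⟩ := hK H G (σ t) ε hε hG1 hi htr
  have hd := hn0 (max n0 1) (le_max_left _ _) t ht G hG1 hG2 hG3
  have hball : ∀ s ∈ uIcc t t', σ s ∈ ball (σ t) ε := by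
    intro s hs
    rw [mem_ball_iff_norm]
    linarith [hr s hs]
  have h1 := hG4 t' ht' hball
  have h2 : σ t' ∈ ball (σ t) (ε / 2) := by
    rw [mem_ball_iff_norm]
    exact hr t' right_mem_uIcc
  have h3 : σ t ∈ ball (σ t) (ε / 2) := mem_ball_self (by linarith)
  have h4 := hlip _ h2 _ h3
  rw [h1, hG3] at h4
  refine h4.trans ?_
  have h5 : C * ‖deriv G (σ t)‖ ≤ 1 / 2 := by
    calc C * ‖deriv G (σ t)‖ ≤ C * (1 / (2 * C)) := mul_le_mul_of_nonneg_left hd hC.le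
      _ = 1 / 2 := by field_simp
  exact mul_le_mul_of_nonneg_right h5 (norm_nonneg _)

/-- Chaining small steps. -/
private theorem SG_chain {τ : ℝ → ℂ} {n1 δ B : ℝ} {N : ℕ} (hN : 1 ≤ N) (hNδ : n1 ≤ N * δ)
    (hτ : ∀ s ∈ Icc 0 n1, ∀ s' ∈ Icc 0 n1, |s - s'| ≤ δ → ‖τ s - τ s'‖ ≤ B) :
    ∀ s ∈ Icc 0 n1, ∀ s' ∈ Icc 0 n1, ‖τ s' - τ s‖ ≤ N * B := by
  intro s hs s' hs'
  have hN0 : (0 : ℝ) < N := by exact_mod_cast hN
  have hmem : ∀ j : ℕ, j ≤ N → s + j * ((s' - s) / N) ∈ Icc 0 n1 := by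
    intro j hj
    have hj' : (j : ℝ) ≤ N := by exact_mod_cast hj
    have hj0 : (0 : ℝ) ≤ j := Nat.cast_nonneg j
    have h1 : s + j * ((s' - s) / N) = (1 - j / N) * s + (j / N) * s' := by
      field_simp
      ring
    have h2 : (j : ℝ) / N ≤ 1 := by
      rw [div_le_one hN0]
      exact hj'
    have h3 : (0 : ℝ) ≤ (j : ℝ) / N := div_nonneg hj0 hN0.le
    rw [h1]
    constructor
    · have := mul_nonneg (sub_nonneg.2 h2) hs.1
      have := mul_nonneg h3 hs'.1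
      linarith
    · have h4 := mul_le_mul_of_nonneg_left hs.2 (sub_nonneg.2 h2)
      have h5 := mul_le_mul_of_nonneg_left hs'.2 h3
      linarith
  have hstep : ∀ j : ℕ, j ≤ N → ‖τ (s + j * ((s' - s) / N)) - τ s‖ ≤ j * B := by
    intro j
    induction j with
    | zero =>
      intro _
      simp
    | succ j ih =>
      intro hj
      have h1 := ih (by omega)
      have h2 := hτ _ (hmem (j + 1) hj) _ (hmem j (by omega)) (by
        have e1 : s + ((j + 1 : ℕ) : ℝ) * ((s' - s) / N) - (s + (j : ℝ) * ((s' - s) / N)) =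
            (s' - s) / N := by
          push_cast
          ring
        rw [e1, abs_div, abs_of_pos hN0, div_le_iff₀ hN0]
        have e2 : |s' - s| ≤ n1 := by
          rw [abs_le]
          constructor
          · linarith [hs.2, hs'.1]
          · linarith [hs.1, hs'.2]
        linarith)
      calc ‖τ (s + ((j + 1 : ℕ) : ℝ) * ((s' - s) / N)) - τ s‖
          ≤ ‖τ (s + ((j + 1 : ℕ) : ℝ) * ((s' - s) / N)) - τ (s + (j : ℝ) * ((s' - s) / N))‖ +
            ‖τ (s + (j : ℝ) * ((s' - s) / N)) - τ s‖ := norm_sub_le_norm_sub_add_norm_sub _ _ _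
        _ ≤ B + j * B := add_le_add h2 h1
        _ = ((j + 1 : ℕ) : ℝ) * B := by push_cast; ring
  have h := hstep N le_rfl
  have e : s + (N : ℝ) * ((s' - s) / N) = s' := by
    field_simp
    ring
  rw [e] at h
  exact h

theorem BPath.converge (hσ : H.BPath σ) (hT : H.Top a R1) {R3 ε : ℝ} (hL : H.Low a σ R3 ε) :
    ∃ y : ℂ, Tendsto σ atTop (𝓝 y) := by
  have hε := hL.ε_pos
  obtain ⟨n1, hn1, hcon⟩ := SG_contract hσ hT hL
  have hn1' : (1 : ℝ) ≤ n1 := by exact_mod_cast hn1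
  have hn1pos : (0 : ℝ) < n1 := by linarith
  -- uniform continuity on `[0, n1]`
  have huc : UniformContinuousOn σ (Icc 0 (n1 : ℝ)) :=
    isCompact_Icc.uniformContinuousOn_of_continuous
      (hσ.cont.mono fun t ht => show (0 : ℝ) ≤ t from ht.1)
  obtain ⟨δ', hδ', hδ''⟩ := Metric.uniformContinuousOn_iff.1 huc (ε / 4) (by linarith)
  set δ : ℝ := δ' / 2 with hδdef
  have hδ : 0 < δ := by positivity
  have hstep : ∀ k : ℕ, ∀ s ∈ Icc 0 (n1 : ℝ), ∀ s' ∈ Icc 0 (n1 : ℝ), |s - s'| ≤ δ →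
      ‖σ (s + k * n1) - σ (s' + k * n1)‖ ≤ ε / 4 * (1 / 2) ^ k := by
    intro k
    induction k with
    | zero =>
      intro s hs s' hs' hss
      have h1 := hδ'' s hs s' hs' (by
        rw [Real.dist_eq]
        linarith)
      rw [dist_eq_norm] at h1
      simpa using h1.le
    | succ k ih =>
      intro s hs s' hs' hss
      have hk0 : (0 : ℝ) ≤ k * n1 := mul_nonneg (Nat.cast_nonneg k) hn1pos.le
      have hpow : (1 / 2 : ℝ) ^ k ≤ 1 := pow_le_one₀ (by norm_num) (by norm_num)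
      have h1 := hcon (s' + k * n1) (s + k * n1) (by linarith [hs'.1]) (by linarith [hs.1]) (by
        intro r hr
        have hr0 : r - k * n1 ∈ uIcc s' s := by
          rw [mem_uIcc] at hr ⊢
          rcases hr with hr | hr
          · left
            constructor <;> linarith [hr.1, hr.2]
          · right
            constructor <;> linarith [hr.1, hr.2]
        have hr1 : r - k * n1 ∈ Icc 0 (n1 : ℝ) := by
          rw [mem_uIcc] at hr0
          rcases hr0 with hr0 | hr0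
          · exact ⟨by linarith [hr0.1, hs'.1], by linarith [hr0.2, hs.2]⟩
          · exact ⟨by linarith [hr0.1, hs.1], by linarith [hr0.2, hs'.2]⟩
        have hr2 : |r - k * n1 - s'| ≤ δ := by
          rw [mem_uIcc] at hr0
          rw [abs_le] at hss ⊢
          rcases hr0 with hr0 | hr0
          · constructor <;> linarith [hr0.1, hr0.2, hss.1, hss.2]
          · constructor <;> linarith [hr0.1, hr0.2, hss.1, hss.2]
        have h2 := ih _ hr1 _ hs' hr2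
        have e1 : r - k * n1 + k * n1 = r := by ring
        rw [e1] at h2
        have h3 : ε / 4 * (1 / 2) ^ k ≤ ε / 4 * 1 := mul_le_mul_of_nonneg_left hpow (by linarith)
        linarith)
      have h2 := ih s hs s' hs' hss
      have e1 : s + ((k + 1 : ℕ) : ℝ) * n1 = s + k * n1 + n1 := by push_cast; ring
      have e2 : s' + ((k + 1 : ℕ) : ℝ) * n1 = s' + k * n1 + n1 := by push_cast; ring
      rw [e1, e2, pow_succ]
      linarith
  obtain ⟨N, hN⟩ := exists_nat_ge ((n1 : ℝ) / δ)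
  have hNδ : (n1 : ℝ) ≤ ((N + 1 : ℕ) : ℝ) * δ := by
    rw [div_le_iff₀ hδ] at hN
    push_cast
    linarith
  have hchain : ∀ k : ℕ, ∀ s ∈ Icc 0 (n1 : ℝ), ∀ s' ∈ Icc 0 (n1 : ℝ),
      ‖σ (s' + k * n1) - σ (s + k * n1)‖ ≤ ((N + 1 : ℕ) : ℝ) * (ε / 4 * (1 / 2) ^ k) := by
    intro k
    exact SG_chain (τ := fun s => σ (s + k * n1)) (by omega) hNδ (hstep k)
  set A : ℝ := ((N + 1 : ℕ) : ℝ) * (ε / 4) with hA
  have hcau : CauchySeq fun k : ℕ => σ (k * n1) := by
    refine cauchySeq_of_le_geometric (1 / 2) A (by norm_num) ?_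
    intro k
    have h1 := hchain k 0 ⟨le_rfl, hn1pos.le⟩ n1 ⟨hn1pos.le, le_rfl⟩
    rw [dist_comm, dist_eq_norm]
    have e1 : (n1 : ℝ) + k * n1 = ((k + 1 : ℕ) : ℝ) * n1 := by push_cast; ring
    rw [zero_add, e1] at h1
    rw [hA]
    linarith
  obtain ⟨y, hy⟩ := cauchySeq_tendsto_of_complete hcau
  refine ⟨y, ?_⟩
  have hfl : Tendsto (fun t : ℝ => ⌊t / n1⌋₊) atTop atTop :=
    tendsto_nat_floor_atTop.comp (tendsto_id.atTop_div_const hn1pos)
  have h1 : Tendsto (fun t : ℝ => σ ((⌊t / n1⌋₊ : ℕ) * n1)) atTop (𝓝 y) := hy.comp hfl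
  have h2 : Tendsto (fun t : ℝ => σ t - σ ((⌊t / n1⌋₊ : ℕ) * n1)) atTop (𝓝 0) := by
    have h3 : Tendsto (fun t : ℝ => A * (1 / 2 : ℝ) ^ ⌊t / n1⌋₊) atTop (𝓝 0) := by
      have h4 : Tendsto (fun k : ℕ => A * (1 / 2 : ℝ) ^ k) atTop (𝓝 (A * 0)) :=
        (tendsto_pow_atTop_nhds_zero_of_lt_one (by norm_num) (by norm_num)).const_mul A
      rw [mul_zero] at h4
      exact h4.comp hfl
    refine squeeze_zero_norm' ?_ h3
    filter_upwards [eventually_ge_atTop (0 : ℝ)] with t ht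
    have h5 : 0 ≤ t / n1 := div_nonneg ht hn1pos.le
    have h6 := Nat.floor_le h5
    have h7 := Nat.lt_floor_add_one (t / n1)
    rw [le_div_iff₀ hn1pos] at h6
    rw [div_lt_iff₀ hn1pos] at h7
    have h8 := hchain ⌊t / n1⌋₊ 0 ⟨le_rfl, hn1pos.le⟩ (t - ⌊t / n1⌋₊ * n1)
      ⟨by linarith, by linarith⟩
    have e1 : t - (⌊t / n1⌋₊ : ℝ) * n1 + ⌊t / n1⌋₊ * n1 = t := by ring
    rw [e1, zero_add] at h8
    rw [hA]
    linarith
  have h9 := h1.add h2
  rw [add_zero] at h9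
  refine h9.congr ?_
  intro t
  ring

end Pool.Agent.CR.Horn
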