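import Pool.Agent.H73.CR.SE

/-!
# CR SH: the limit of a low backward path is a repelling fixed point

`limit_fixed`: choose `t0 ≥ 0` with `‖σ t - y‖ < ε/4` for `t ≥ t0`. Let `G` be the branch at `t0` for some `n`. `G (σ t') = σ (t' + n)` for `t' ≥ t0`; `t' → ∞`:
`G y = y`. `n = 1`: `y = G y ∈ D`, `E y = E (G y) = y`. For `n ≥ 1` from `decay` with `δ = 1/(2C)`: `‖deriv G y‖ ≤ 1/2` (Lipschitz bound of
`koebe_translate` near `y`); `E^n (G x) = x`: `(deriv E y)^n * deriv G y = 1`, so `‖deriv E y‖^n ≥ 2`, `‖deriv E y‖ > 1`.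
-/

set_option autoImplicit false

open Set Filter Topology Metric

namespace Pool.Agent.CR.Horn

variable {H : Horn} {σ : ℝ → ℂ} {a : ℂ} {R1 : ℝ}

/-- the branch at a late time fixes the limit -/
private theorem SH_branch (hσ : H.BPath σ) (hT : H.Top a R1) {R3 ε : ℝ} (hL : H.Low a σ R3 ε)
    {y : ℂ} (hy : Tendsto σ atTop (𝓝 y)) {t0 : ℝ} (ht0 : 0 ≤ t0)
    (hclose : ∀ t ≥ t0, ‖σ t - y‖ < ε / 8) (n : ℕ) :
    ∃ G : ℂ → ℂ, DifferentiableOn ℂ G (ball (σ t0) ε) ∧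
      (∀ x ∈ ball (σ t0) ε, H.Def n (G x) ∧ H.E^[n] (G x) = x) ∧ G (σ t0) = σ (t0 + n) ∧
      G y = y := by
  have hε := hL.ε_pos
  obtain ⟨G, hG1, hG2, hG3, hG4⟩ := hσ.branch hT ht0 hε (hL.dist t0 ht0) n
  refine ⟨G, hG1, hG2, hG3, ?_⟩
  have hball : ∀ s ≥ t0, σ s ∈ ball (σ t0) ε := by
    intro s hs
    rw [mem_ball, dist_eq_norm]
    have h1 := hclose s hs
    have h2 := hclose t0 le_rfl
    calc ‖σ s - σ t0‖ = ‖(σ s - y) - (σ t0 - y)‖ := by congr 1; ring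
      _ ≤ ‖σ s - y‖ + ‖σ t0 - y‖ := norm_sub_le _ _
      _ < ε := by linarith
  have hyb : y ∈ ball (σ t0) ε := by
    rw [mem_ball, dist_eq_norm, ← norm_neg]
    have h2 := hclose t0 le_rfl
    calc ‖-(y - σ t0)‖ = ‖σ t0 - y‖ := by congr 1; ring
      _ < ε := by linarith
  have hGt : ∀ s ≥ t0, G (σ s) = σ (s + n) := by
    intro s hs
    refine hG4 s (ht0.trans hs) fun r hr => hball r ?_
    rw [uIcc_of_le hs] at hr
    exact hr.1
  have hGc : ContinuousAt G y :=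
    (hG1.continuousOn).continuousAt (isOpen_ball.mem_nhds hyb)
  have h1 : Tendsto (fun s => G (σ s)) atTop (𝓝 (G y)) := hGc.tendsto.comp hy
  have h2 : Tendsto (fun s : ℝ => σ (s + n)) atTop (𝓝 y) :=
    hy.comp (tendsto_atTop_add_const_right _ _ tendsto_id)
  have h3 : Tendsto (fun s => G (σ s)) atTop (𝓝 y) := by
    refine h2.congr' ?_
    filter_upwards [eventually_ge_atTop t0] with s hs
    exact (hGt s hs).symm
  exact tendsto_nhds_unique h1 h3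

theorem BPath.limit_fixed (hσ : H.BPath σ) (hT : H.Top a R1) {R3 ε : ℝ} (hL : H.Low a σ R3 ε)
    {y : ℂ} (hy : Tendsto σ atTop (𝓝 y)) : y ∈ H.D ∧ H.E y = y ∧ 1 < ‖deriv H.E y‖ := by
  have hε := hL.ε_pos
  obtain ⟨t0, ht0, hclose⟩ : ∃ t0 : ℝ, 0 ≤ t0 ∧ ∀ t ≥ t0, ‖σ t - y‖ < ε / 8 := by
    have h1 := (Metric.tendsto_nhds.1 hy) (ε / 8) (by positivity)
    obtain ⟨t1, ht1⟩ := Filter.eventually_atTop.1 h1
    refine ⟨max t1 0, le_max_right _ _, fun t ht => ?_⟩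
    have := ht1 t ((le_max_left _ _).trans ht)
    rwa [dist_eq_norm] at this
  have hyb : y ∈ ball (σ t0) (ε / 2) := by
    rw [mem_ball, dist_eq_norm, ← norm_neg]
    have h2 := hclose t0 le_rfl
    calc ‖-(y - σ t0)‖ = ‖σ t0 - y‖ := by congr 1; ring
      _ < ε / 2 := by linarith
  have hyb' : y ∈ ball (σ t0) ε := ball_subset_ball (by linarith) hyb
  -- `y` is a fixed point
  obtain ⟨G1, -, hG12, -, hG14⟩ := SH_branch hσ hT hL hy ht0 hclose 1
  obtain ⟨hd1, he1⟩ := hG12 y hyb'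
  rw [hG14] at hd1 he1
  have hyD : y ∈ H.D := hd1 0 (by norm_num)
  have hEy : H.E y = y := by simpa using he1
  refine ⟨hyD, hEy, ?_⟩
  -- the derivative
  obtain ⟨C, hC, hkoebe⟩ := koebe_translate
  obtain ⟨n0, hn0⟩ := hσ.decay hT hL (δ := 1 / (2 * C)) (by positivity)
  obtain ⟨G, hG1, hG2, hG3, hG4⟩ := SH_branch hσ hT hL hy ht0 hclose (max n0 1)
  set n := max n0 1 with hn
  have hdec := hn0 n (le_max_left _ _) t0 ht0 G hG1 hG2 hG3
  obtain ⟨hinj, htr⟩ := branch_inj hL.ε_le hG2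
  obtain ⟨-, hlip⟩ := hkoebe H G (σ t0) ε hε hG1 hinj htr
  have hlip2 : ∀ z ∈ ball (σ t0) (ε / 2), ‖G z - G y‖ ≤ 1 / 2 * ‖z - y‖ := by
    intro z hz
    refine (hlip z hz y hyb).trans ?_
    refine mul_le_mul_of_nonneg_right ?_ (norm_nonneg _)
    calc C * ‖deriv G (σ t0)‖ ≤ C * (1 / (2 * C)) := mul_le_mul_of_nonneg_left hdec hC.le
      _ = 1 / 2 := by field_simp
  have hGd : DifferentiableAt ℂ G y := hG1.differentiableAt (isOpen_ball.mem_nhds hyb')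
  have hdG : ‖deriv G y‖ ≤ 1 / 2 := by
    refine HasDerivAt.le_of_lip' hGd.hasDerivAt (by norm_num) ?_
    filter_upwards [isOpen_ball.mem_nhds hyb] with z hz
    exact hlip2 z hz
  have hEd : HasDerivAt H.E (deriv H.E y) y :=
    (H.diff.differentiableAt (H.isOpen.mem_nhds hyD)).hasDerivAt
  have hit : HasDerivAt (H.E^[n]) (deriv H.E y ^ n) y := HasDerivAt.iterate y hEd hEy n
  have hcomp : HasDerivAt (H.E^[n] ∘ G) (deriv H.E y ^ n * deriv G y) y := by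
    have h1 : HasDerivAt (H.E^[n]) (deriv H.E y ^ n) (G y) := by rw [hG4]; exact hit
    exact h1.comp y hGd.hasDerivAt
  have hid : HasDerivAt (H.E^[n] ∘ G) 1 y := by
    refine (hasDerivAt_id y).congr_of_eventuallyEq ?_
    filter_upwards [isOpen_ball.mem_nhds hyb'] with z hz
    exact (hG2 z hz).2
  have heq := hcomp.unique hid
  have hnorm : ‖deriv H.E y‖ ^ n * ‖deriv G y‖ = 1 := by
    rw [← norm_pow, ← norm_mul, heq, norm_one]
  by_contra hcon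
  push Not at hcon
  have h1 : ‖deriv H.E y‖ ^ n ≤ 1 := pow_le_one₀ (norm_nonneg _) hcon
  have h2 : ‖deriv H.E y‖ ^ n * ‖deriv G y‖ ≤ 1 * (1 / 2) :=
    mul_le_mul h1 hdG (norm_nonneg _) (by norm_num)
  linarith

end Pool.Agent.CR.Horn
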