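import Pool.Agent.H73.CR.SC
import Pool.Agent.H73.CR.SG
import Pool.Agent.H73.CR.SH

/-!
# CR SF: the dichotomy for backward paths of a horn map

`L` from `osc`, `R2` from `trapped`. If for some `n0 : ℕ` all `t ∈ [n0, n0+1]` have `‖u (σ t)‖ > R2`, the first case holds by `trapped`. Otherwise every `t' ≥ 0`
has some `t ∈ [⌊t'⌋, ⌊t'⌋ + 1]` with `‖u (σ t)‖ ≤ R2`, and `‖u (σ t')‖ ≤ R2 exp (2 π L / q)` by `osc` and `norm_u`; `exists_low`, `converge`, `limit_fixed`.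
-/

set_option autoImplicit false

open Set Filter Topology Metric

namespace Pool.Agent.CR.Horn

variable {H : Horn}

theorem BPath.dichotomy {σ : ℝ → ℂ} {a : ℂ} {R1 : ℝ} (hσ : H.BPath σ) (hT : H.Top a R1) :
    (∀ R : ℝ, ∃ t0 : ℝ, ∀ t ≥ t0, R < (σ t).im ∧ |(H.u a (σ t)).im| ≤ -(H.u a (σ t)).re) ∨
      ∃ y ∈ H.D, H.E y = y ∧ 1 < ‖deriv H.E y‖ ∧ Tendsto σ atTop (𝓝 y) := by
  obtain ⟨L, hL⟩ := hσ.osc hT
  obtain ⟨R2, hR2⟩ := hσ.trapped hT
  by_cases h : ∃ n0 : ℕ, ∀ t ∈ Icc (n0 : ℝ) (n0 + 1), R2 < ‖H.u a (σ t)‖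
  · obtain ⟨n0, hn0⟩ := h
    exact Or.inl (hR2 n0 (Nat.cast_nonneg _) hn0)
  · push Not at h
    right
    have hq := H.q_pos
    have hlow : ∀ t : ℝ, 0 ≤ t → ‖H.u a (σ t)‖ ≤ R2 * Real.exp (2 * Real.pi * L / H.q) := by
      intro t' ht'
      obtain ⟨t, ht, htR⟩ := h ⌊t'⌋₊
      have h1 : (⌊t'⌋₊ : ℝ) ≤ t' := Nat.floor_le ht'
      have h2 : t' < (⌊t'⌋₊ : ℝ) + 1 := Nat.lt_floor_add_one t'
      have ht0 : 0 ≤ t := (Nat.cast_nonneg _).trans ht.1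
      have h3 : |t - t'| ≤ 1 := by
        rw [abs_le]
        constructor <;> linarith [ht.1, ht.2]
      have h4 := hL t t' ht0 ht' h3
      have h5 : (σ t').im ≤ (σ t).im + L := by
        have h6 : |(σ t - σ t').im| ≤ ‖σ t - σ t'‖ := Complex.abs_im_le_norm _
        rw [Complex.sub_im] at h6
        have h7 := (abs_le.mp (h6.trans h4)).1
        linarith
      have h8 : ‖H.u a (σ t')‖ ≤ ‖H.u a (σ t)‖ * Real.exp (2 * Real.pi * L / H.q) := by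
        rw [norm_u, norm_u, mul_assoc (H.q / (2 * Real.pi * ‖a‖)), ← Real.exp_add]
        apply mul_le_mul_of_nonneg_left _ (by positivity)
        apply Real.exp_le_exp.mpr
        rw [← add_div]
        apply div_le_div_of_nonneg_right _ hq.le
        nlinarith [Real.pi_pos]
      exact h8.trans (mul_le_mul_of_nonneg_right htR (Real.exp_pos _).le)
    obtain ⟨ε, hε⟩ := hσ.exists_low hT hlow
    obtain ⟨y, hy⟩ := hσ.converge hT hε
    obtain ⟨h1, h2, h3⟩ := hσ.limit_fixed hT hε hy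
    exact ⟨y, h1, h2, h3, hy⟩

end Pool.Agent.CR.Horn
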