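import Pool.Agent.H73.CR.NE2
import Pool.Agent.H73.CR.SF
import Pool.Agent.H73.CR.GateEx

/-!
# CR NF: the stage lemma

Choose `s, e` with `q s = p e + 1` (`coprime`; `0 < p < q`, so such natural numbers exist). `G` from `exists_gate`, `a, R1` from `exists_top G.H`, `Ts, σ` from `exists_path`. By `dichotomy` and `not_low`
the first alternative holds. `M1` from `top_final`; choose `n1 : ℕ` with `Im (σ t) > M1`, `|Im u| ≤ - Re u` for `t ≥ n1`; `top_final` with `n0 = n1`, `σ`, `r` gives `m0`. Let `C` be a bound of `|Re|`, `|Im|` of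
`σ` on `[0, n1 + 1]`, `m0'` from `pr_small` for `C`, `r/2`. `s0` from `R_sector` for `i`, the constant `gap / Ts` and `r/2`. This `s0` works:
given `δ, n0`: choose `m ≥ max m0 m0' 1` with `- 1 - m p ≡ i (mod q)`, `gap / 2^m < δ/2`, (`ang p q (-1-mp) = ang p q i` by `ang_period`; `0 ≤ gap` is not needed: use `|gap|`). For large `N`: `q_N ≥ n0`,
`|angN m - th m| < δ/2`; `p' = p_N`, `q' = q_N`, `i' = - m p_N`. Let `0 < x ≤ s0`.
(1) `x ≥ Ts / 2^m`: `‖ray l0 (th m) x‖ ≤ r/2` by `R_sector` since `|th m - ang p q i| = |gap| / 2^m ≤ (|gap| / Ts) x`; and `ray l_N (angN m) x` is uniformly close (`ray_conv` on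
`[Ts / 2^m, s0]`, `angN_lim`). (2) `x ≤ Ts / 2^m`: `x = Ts pot t / 2^m` for some `t ≥ 0` (`pot_surj`), so the point is `zN m N t`. If `t ≤ n1 + 1`: `‖zN m N t - pr m (σ t)‖ ≤ r/2` (`conv`) and
`‖pr m (σ t)‖ ≤ r/2`. If `t ≥ n1`: `top_final` for `z = zN m N` (`zN_continuousOn`, `zN_map`, `zN_ne_zero`, and `conv` gives `ε`-closeness on `[n1, n1+1]`).
-/

set_option autoImplicit false

open Set Filter Topology Metric

namespace Pool.Agent.CR

private theorem NF_bezout {p q : ℕ} (hc : Nat.Coprime p q) (hp : 0 < p) (hpq : p < q) :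
    ∃ s e : ℕ, q * s = p * e + 1 := by
  rcases Nat.lt_or_ge 1 p with h | h
  · obtain ⟨m, _, hm⟩ := Nat.exists_mul_mod_eq_one_of_coprime hc.symm h
    refine ⟨m, q * m / p, ?_⟩
    have := Nat.div_add_mod (q * m) p
    omega
  · have hp1 : p = 1 := by omega
    subst hp1
    exact ⟨1, q - 1, by omega⟩

private theorem NF_res {p q : ℕ} (hc : Nat.Coprime p q) (hp : 0 < p) (hpq : p < q) (i : ℤ) :
    ∃ m1 : ℕ, ∃ c : ℤ, (-1 - (m1 : ℤ) * p) = i + c * q := by
  obtain ⟨u, _, hu⟩ := Nat.exists_mul_mod_eq_one_of_coprime hc (by omega : 1 < q)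
  have hq : (0 : ℤ) < q := by exact_mod_cast (by omega : 0 < q)
  have hu' : (p : ℤ) * u = q * ((p * u / q : ℕ) : ℤ) + 1 := by
    have h1 := Nat.div_add_mod (p * u) q
    rw [hu] at h1
    exact_mod_cast h1.symm
  set x : ℤ := (-1 - i) * u with hx
  have h0 : 0 ≤ x % q := Int.emod_nonneg _ hq.ne'
  have h1 : x = q * (x / q) + x % q := (Int.mul_ediv_add_emod x q).symm
  refine ⟨(x % q).toNat, (i + 1) * ((p * u / q : ℕ) : ℤ) + x / q * p, ?_⟩
  rw [Int.toNat_of_nonneg h0]
  have h2 : x % q = x - q * (x / q) := by linarith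
  rw [h2]
  have h3 : x * p = (-1 - i) * (q * ((p * u / q : ℕ) : ℤ) + 1) := by
    rw [hx, ← hu']; ring
  linear_combination -h3

theorem stage {p q : ℕ} (hc : Nat.Coprime p q) (hp : 0 < p) (hpq : p < q) (i : ℤ) {r : ℝ}
    (hr : 0 < r) : ∃ s0 : ℝ, 0 < s0 ∧ ∀ δ : ℝ, 0 < δ → ∀ n0 : ℕ, ∃ (p' q' : ℕ) (i' : ℤ),
      Nat.Coprime p' q' ∧ 0 < p' ∧ p' < q' ∧ n0 ≤ q' ∧ q * p' = p * q' + 1 ∧
      |ang p' q' i' - ang p q i| < δ ∧
      ∀ x : ℝ, 0 < x → x ≤ s0 → ‖ray (mu ((p' : ℝ) / q')) (ang p' q' i') x‖ ≤ r := by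
  obtain ⟨s, e, hs⟩ := NF_bezout hc hp hpq
  obtain ⟨G⟩ := exists_gate hp hpq hs
  obtain ⟨a, R1, hT⟩ := Horn.exists_top G.H
  obtain ⟨Ts, σ, hP⟩ := G.exists_path
  have hA := (hP.bpath.dichotomy hT).resolve_right (hP.not_low hT hp hpq hs)
  obtain ⟨M1, hM1⟩ := G.top_final a hT.a_ne hT.coeff
  obtain ⟨t0, ht0⟩ := hA M1
  set n1 : ℕ := ⌈max t0 0⌉₊ with hn1
  have hn1t : t0 ≤ n1 := (le_max_left _ _).trans (Nat.le_ceil _)
  have hn10 : (0 : ℝ) ≤ n1 := by positivity
  have hTs : 0 < Ts := G.T0_pos.trans_le hP.Ts_ge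
  have hcσ : ContinuousOn σ (Icc 0 ((n1 : ℝ) + 1)) :=
    hP.bpath.cont.mono (fun x hx => hx.1)
  obtain ⟨m0, hm0⟩ := hM1 n1 σ (hP.bpath.cont.mono (fun x hx => hn10.trans hx.1))
    (fun t ht => ht0 t (hn1t.trans ht.1)) r hr
  obtain ⟨C, hC⟩ := (isCompact_Icc.image_of_continuousOn hcσ).isBounded.exists_norm_le
  have hC' : ∀ t ∈ Icc (0 : ℝ) ((n1 : ℝ) + 1), ‖σ t‖ ≤ C := fun t ht => hC _ (mem_image_of_mem _ ht)
  obtain ⟨m0', hm0'⟩ := G.pr_small C (r / 2) (by positivity)
  obtain ⟨s0, hs0, hsec⟩ := R_sector hc hp hpq i (|gap p q| / Ts) (r / 2) (by positivity)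
  refine ⟨s0, hs0, ?_⟩
  intro δ hδ n0
  -- choice of m
  obtain ⟨m1, c, hm1⟩ := NF_res hc hp hpq i
  have hq0 : 0 < q := by omega
  obtain ⟨m, hmm0, hmm0', hm1', hgap, cm, hcm⟩ : ∃ m : ℕ, m0 ≤ m ∧ m0' ≤ m ∧ 1 ≤ m ∧
      |gap p q| / 2 ^ m < δ / 2 ∧ ∃ cm : ℤ, (-1 - (m : ℤ) * p) = i + cm * q := by
    have hlim : Tendsto (fun k : ℕ => |gap p q| / 2 ^ (m1 + q * k)) atTop (𝓝 0) := by
      have h1 : Tendsto (fun k : ℕ => |gap p q| * (1 / 2 : ℝ) ^ k) atTop (𝓝 (|gap p q| * 0)) :=
        (tendsto_pow_atTop_nhds_zero_of_lt_one (by norm_num) (by norm_num)).const_mul _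
      rw [mul_zero] at h1
      have h2 : Tendsto (fun k : ℕ => m1 + q * k) atTop atTop := by
        refine tendsto_atTop_mono (fun k => ?_) tendsto_id
        have : k ≤ q * k := Nat.le_mul_of_pos_left k hq0
        simp only [id]
        omega
      refine (h1.comp h2).congr (fun k => ?_)
      simp only [Function.comp]
      rw [one_div, inv_pow, div_eq_mul_inv]
    have hev := (hlim.eventually (gt_mem_nhds (by positivity : (0 : ℝ) < δ / 2))).and
      (eventually_ge_atTop (m0 + m0' + 1))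
    obtain ⟨k, hk1, hk2⟩ := hev.exists
    have : k ≤ q * k := Nat.le_mul_of_pos_left k hq0
    refine ⟨m1 + q * k, by omega, by omega, by omega, hk1, c - k * p, ?_⟩
    push_cast
    linear_combination hm1
  have hang : ang p q (-1 - (m : ℤ) * p) = ang p q i := by
    rw [hcm, ang_period hpq]
  have hth : th p q m = ang p q i + gap p q / 2 ^ m := by
    rw [th, hang]
  obtain ⟨ε, hε, hev3⟩ := hm0 m hmm0
  have hconv := hP.conv hT hp hpq hs m (n1 + 1)
  rw [Metric.tendstoUniformlyOn_iff] at hconv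
  have hev4 := hconv (min ε (r / 2)) (by positivity)
  have hlim2 := angN_lim hp hpq hs hm1'
  have hl0 : ‖mu ((p : ℝ) / q)‖ ≤ 1 := (norm_mu _).le
  have hrc := ray_conv (b := s0) (fun N => (norm_mu _).le) hl0 (lN_tendsto (p := p) s e hq0) hlim2
    (show (0 : ℝ) < Ts / 2 ^ m by positivity)
  rw [Metric.tendstoUniformlyOn_iff] at hrc
  have hev5 := hrc (r / 2) (by positivity)
  have hev2 := (Metric.tendsto_nhds.1 hlim2) (δ / 2) (by positivity)
  obtain ⟨N, hN1, hN2, hN3, hN4, hN5⟩ := ((eventually_ge_atTop (n0 + 1)).and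
    (hev2.and (hev3.and (hev4.and hev5)))).exists
  obtain ⟨hp'0, hp'q', hNq⟩ := pN_lt hp hpq hs (show 1 ≤ N by omega)
  refine ⟨pN p s N, qN q e N, -(m * pN p s N : ℤ), coprime_N hs N, hp'0, hp'q', by omega,
    q_mul_pN hs N, ?_, ?_⟩
  · have h1 : |angN p q s e N m - th p q m| < δ / 2 := by
      rw [← Real.dist_eq]; exact hN2
    have h2 : |th p q m - ang p q i| < δ / 2 := by
      rw [hth, add_sub_cancel_left, abs_div, abs_of_pos (by positivity : (0 : ℝ) < 2 ^ m)]
      exact hgap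
    have h3 : angN p q s e N m - ang p q i =
        (angN p q s e N m - th p q m) + (th p q m - ang p q i) := by ring
    show |angN p q s e N m - ang p q i| < δ
    rw [h3]
    exact (abs_add_le _ _).trans_lt (by linarith)
  · intro x hx0 hxs
    show ‖ray (lN p q s e N) (angN p q s e N m) x‖ ≤ r
    rcases le_total (Ts / 2 ^ m) x with hx | hx
    · -- sector
      have h1 : ‖ray (mu ((p : ℝ) / q)) (th p q m) x‖ ≤ r / 2 := by
        rw [hth]
        refine hsec x (gap p q / 2 ^ m) hx0 hxs ?_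
        rw [abs_div, abs_of_pos (by positivity : (0 : ℝ) < 2 ^ m)]
        have h2 : |gap p q| / 2 ^ m = |gap p q| / Ts * (Ts / 2 ^ m) := by
          field_simp
        rw [h2]
        exact mul_le_mul_of_nonneg_left hx (by positivity)
      have h2 : ‖ray (mu ((p : ℝ) / q)) (th p q m) x -
          ray (lN p q s e N) (angN p q s e N m) x‖ < r / 2 := by
        have h20 := hN5 x ⟨hx, hxs⟩
        rw [dist_eq_norm] at h20
        exact h20
      have h3 : ‖ray (lN p q s e N) (angN p q s e N m) x‖ ≤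
          ‖ray (mu ((p : ℝ) / q)) (th p q m) x‖ +
            ‖ray (mu ((p : ℝ) / q)) (th p q m) x - ray (lN p q s e N) (angN p q s e N m) x‖ := by
        have := norm_sub_norm_le (ray (lN p q s e N) (angN p q s e N m) x)
          (ray (mu ((p : ℝ) / q)) (th p q m) x)
        rw [norm_sub_rev] at this
        linarith
      linarith
    · -- the parametrised part
      have hQ1 : 1 ≤ qN q e N := by omega
      obtain ⟨t, ht0', htx⟩ := pot_surj hQ1 (x := x * 2 ^ m / Ts) (by positivity) (by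
        rw [div_le_one hTs]
        rwa [le_div_iff₀ (by positivity)] at hx)
      have hxt : x = Ts * pot (qN q e N) t / 2 ^ m := by
        rw [htx]; field_simp
      have hz : ray (lN p q s e N) (angN p q s e N m) x = zN p q s e Ts m N t := by
        rw [zN, ← hxt]
      rw [hz]
      rcases le_total t ((n1 : ℝ) + 1) with ht | ht
      · have h1 := hN4 t ⟨ht0', by push_cast; exact ht⟩
        rw [dist_eq_norm] at h1
        have h2 : ‖G.pr m (σ t)‖ ≤ r / 2 := by
          have hb := hC' t ⟨ht0', ht⟩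
          refine hm0' m hmm0' (σ t) ?_ ?_
          · exact (Complex.re_le_norm _).trans hb
          · have := Complex.abs_im_le_norm (σ t)
            have h4 := neg_abs_le (σ t).im
            linarith
        have h3 := norm_sub_norm_le (zN p q s e Ts m N t) (G.pr m (σ t))
        rw [norm_sub_rev] at h3
        have h4 := min_le_right ε (r / 2)
        linarith
      · refine hN3 (zN p q s e Ts m N) ?_ ?_ ?_ ?_ t (by linarith)
        · exact (zN_continuousOn hTs m N).mono (fun y hy => hn10.trans hy)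
        · intro y hy
          exact zN_map hp hpq hs hTs m N (hn10.trans hy)
        · intro y hy
          exact zN_ne_zero hTs m N (hn10.trans hy)
        · intro y hy
          have h1 := hN4 y ⟨hn10.trans hy.1, by push_cast; exact hy.2⟩
          rw [dist_eq_norm, norm_sub_rev] at h1
          exact h1.le.trans (min_le_left _ _)

end Pool.Agent.CR
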