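import Pool.Agent.H33.CR.Z3
import Pool.Agent.H73.CR.NF

/-!
# CR Fin: the final theorem
-/

set_option autoImplicit false

open Set Filter Topology

namespace Pool.Agent.CR

theorem stageLemma : StageLemma := by
  intro p q hp hpq hc i r hr
  obtain ⟨s0, hs0, h⟩ := stage hc hp hpq i hr
  refine ⟨s0, hs0, fun δ hδ n0 => ?_⟩
  obtain ⟨p', q', i', hc', hp', hpq', hn, hq, hang, hray⟩ := h δ hδ n0
  exact ⟨p', q', i', 0, hp', hpq', hc', hn, hq, by simpa using hang, hray⟩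

theorem main {a b : ℝ} (hab : a < b) : ∃ α t : ℝ, a < α ∧ α < b ∧ Irrational α ∧ ¬ Linearizable α ∧
    (0 : ℂ) ∈ frontier (FilledJulia α) ∧ (∃ ψ, IsConformalIso α ψ) ∧
    ∀ ψ, IsConformalIso α ψ → (∀ w : ℂ, 1 < ‖w‖ → ψ (w ^ 2) = P α (ψ w)) ∧
      Tendsto (fun r : ℝ => ψ (r * Complex.exp (2 * Real.pi * t * Complex.I))) (𝓝[>] 1) (𝓝 0) :=
  Z_main stageLemma hab

end Pool.Agent.CR
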