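import Pool.Agent.H73.CR.Gate
import Pool.Agent.H73.CR.B4
import Pool.Agent.H73.CR.B5
import Pool.Agent.H68.CR.R13
import Pool.Agent.H68.CR.R16
import Pool.Agent.H68.CR.R17
import Pool.Agent.H33.CR.Inj

/-!
# CR GP1: sector functions

`sec p q l j τ = psi l (exp (τ + 2 π i ang p q j))`, `Re τ > 0`; `sec p q l j t = ray l (ang p q j) t` for real `t > 0`.

Proofs. `sec_f`: `psi_f`, `exp (2 x) = (exp x)^2`, `two_ang` (`2 ang p q j = ang p q (j + p) + integer`) and `exp (x + 2 π i m) = exp x`. `sec_iter`: induction on `k` (`Function.iterate_succ_apply'`).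
`sec_per`: `ang_add_q` (induction for a general integer `k`; write `ang p q (j + k q) = ang p q j` first). `sec_notMem`: `psi_notMem`, `‖exp x‖ = exp (Re x) > 1`. `sec_ne_zero`: `psi_ne_zero`. `sec_ne_crit`: `v_mem_K`, `iter_mem_K`.
`sec_cont`: `psi_continuousOn.comp`. `sec_diff`: `psi_differentiableOn`. `sec_locInj`: on `ball τ (min (Re τ) 1)` the function is injective: `psi_injOn` and `exp x = exp x'`, `‖x - x'‖ < 2 ≤ 2 π` imply `x = x'` (`Complex.exp_eq_exp_iff_exists_int`);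
`sec_deriv`: `deriv_ne_of_injOn` (`H33/CR/Inj`), or chain rule.
`sec_small`: for each `j` the ray `ang p q j` of `l0 = mu (p/q)` lands at `0` (`R_main`) and `sector_tendsto` applies with `s = Re τ`, `x = Im τ / Re τ`: `τ = s (1 + x i)`; by `sec_per` it is enough to consider `0 ≤ j < q` (minimum of finitely many `δ`).
`lN_norm`: `norm_mu`. `qN_ge`: `q e N = q N + e ≥ N`. `GP_lN_tendsto`: `pN/qN → p/q` (`q pN - p qN = 1`, so `pN/qN - p/q = 1/(q qN) → 0`), continuity of `mu`.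
-/

set_option autoImplicit false

open Set Filter Topology Metric

namespace Pool.Agent.CR

/-- The sector of the ray `ang p q j`. -/
noncomputable def sec (p q : ℕ) (l : ℂ) (j : ℤ) (τ : ℂ) : ℂ :=
  psi l (Complex.exp (τ + 2 * Real.pi * (ang p q j : ℂ) * Complex.I))

private theorem GP1_norm (p q : ℕ) (j : ℤ) (τ : ℂ) :
    ‖Complex.exp (τ + 2 * Real.pi * (ang p q j : ℂ) * Complex.I)‖ = Real.exp τ.re := by
  rw [Complex.norm_exp]
  congr 1
  simp

private theorem GP1_one_lt (p q : ℕ) (j : ℤ) {τ : ℂ} (hτ : 0 < τ.re) :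
    1 < ‖Complex.exp (τ + 2 * Real.pi * (ang p q j : ℂ) * Complex.I)‖ := by
  rw [GP1_norm]
  exact Real.one_lt_exp_iff.2 hτ

theorem ray_eq_sec (p q : ℕ) (l : ℂ) (j : ℤ) (x t : ℝ) :
    ray l (ang p q j + x) t = sec p q l j (t + 2 * Real.pi * x * Complex.I) := by
  unfold ray sec
  congr 2
  push_cast
  ring

theorem sec_f {p q : ℕ} (hq : 0 < q) (hpq : p ≤ q) {l : ℂ} (hl : ‖l‖ ≤ 1) (j : ℤ) {τ : ℂ} (hτ : 0 < τ.re) :
    f l (sec p q l j τ) = sec p q l (j + p) (2 * τ) := by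
  unfold sec
  rw [psi_f hl (GP1_one_lt p q j hτ)]
  congr 1
  rw [← Complex.exp_nat_mul, Complex.exp_eq_exp_iff_exists_int]
  refine ⟨(j + p) / q - j / q, ?_⟩
  have h := two_ang hq hpq j
  have h' : 2 * (ang p q j : ℂ) = (ang p q (j + p) : ℂ) + (((j + p) / q - j / q : ℤ) : ℂ) := by
    exact_mod_cast h
  linear_combination (2 * (Real.pi : ℂ) * Complex.I) * h'

theorem sec_iter {p q : ℕ} (hq : 0 < q) (hpq : p ≤ q) {l : ℂ} (hl : ‖l‖ ≤ 1) (j : ℤ) {τ : ℂ} (hτ : 0 < τ.re) (k : ℕ) :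
    (f l)^[k] (sec p q l j τ) = sec p q l (j + k * p) (2 ^ k * τ) := by
  induction k with
  | zero => simp
  | succ k ih =>
    have h2 : 0 < ((2 : ℂ) ^ k * τ).re := by
      have e1 : ((2 : ℂ) ^ k * τ) = ((2 ^ k : ℝ) : ℂ) * τ := by push_cast; ring
      rw [e1, Complex.re_ofReal_mul]
      positivity
    rw [Function.iterate_succ_apply', ih, sec_f hq hpq hl _ h2]
    have e1 : j + (k : ℤ) * p + p = j + ((k + 1 : ℕ) : ℤ) * p := by push_cast; ring
    have e2 : 2 * ((2 : ℂ) ^ k * τ) = 2 ^ (k + 1) * τ := by ring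
    rw [e1, e2]

private theorem GP1_ang {p q : ℕ} (hq : 0 < q) (j k : ℤ) : ang p q (j + k * q) = ang p q j := by
  induction k using Int.induction_on with
  | zero => simp
  | succ i ih =>
    have e : j + ((i : ℤ) + 1) * q = (j + i * q) + q := by ring
    rw [e, ang_add_q hq, ih]
  | pred i ih =>
    have e : j + (-(i : ℤ)) * q = (j + (-(i : ℤ) - 1) * q) + q := by ring
    rw [e, ang_add_q hq] at ih
    exact ih

theorem sec_per {p q : ℕ} (hq : 0 < q) (l : ℂ) (j k : ℤ) (τ : ℂ) : sec p q l (j + k * q) τ = sec p q l j τ := by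
  unfold sec
  rw [GP1_ang hq]

theorem sec_notMem (p q : ℕ) {l : ℂ} (hl : ‖l‖ ≤ 1) (j : ℤ) {τ : ℂ} (hτ : 0 < τ.re) : sec p q l j τ ∉ K l :=
  psi_notMem hl (GP1_one_lt p q j hτ)

theorem sec_ne_zero (p q : ℕ) {l : ℂ} (hl : ‖l‖ ≤ 1) (j : ℤ) {τ : ℂ} (hτ : 0 < τ.re) : sec p q l j τ ≠ 0 :=
  psi_ne_zero hl (GP1_one_lt p q j hτ)

theorem sec_ne_crit (p q : ℕ) {l : ℂ} (hl : ‖l‖ ≤ 1) (j : ℤ) {τ : ℂ} (hτ : 0 < τ.re) (k : ℕ) :
    sec p q l j τ ≠ (f l)^[k] (v l) := by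
  intro h
  apply sec_notMem p q hl j hτ
  rw [h, iter_mem_K hl]
  exact v_mem_K hl

theorem sec_cont (p q : ℕ) (j : ℤ) :
    ContinuousOn (fun x : ℂ × ℂ => sec p q x.1 j x.2) {x | ‖x.1‖ ≤ 1 ∧ 0 < x.2.re} := by
  have hg : Continuous (fun x : ℂ × ℂ =>
      ((x.1, Complex.exp (x.2 + 2 * Real.pi * (ang p q j : ℂ) * Complex.I)) : ℂ × ℂ)) := by
    fun_prop
  exact psi_continuousOn.comp hg.continuousOn fun x hx => ⟨hx.1, GP1_one_lt p q j hx.2⟩

theorem sec_diff (p q : ℕ) {l : ℂ} (hl : ‖l‖ ≤ 1) (j : ℤ) : DifferentiableOn ℂ (sec p q l j) {τ | 0 < τ.re} := by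
  have hg : Differentiable ℂ (fun τ : ℂ =>
      Complex.exp (τ + 2 * Real.pi * (ang p q j : ℂ) * Complex.I)) := by
    fun_prop
  exact (psi_differentiableOn hl).comp hg.differentiableOn fun τ hτ => GP1_one_lt p q j hτ

private theorem GP1_re {τ x : ℂ} (hx : x ∈ ball τ (min τ.re 1)) : 0 < x.re ∧ ‖x - τ‖ < 1 := by
  rw [mem_ball, dist_eq_norm, lt_min_iff] at hx
  refine ⟨?_, hx.2⟩
  have h1 := (abs_le.1 (Complex.abs_re_le_norm (x - τ))).1
  rw [Complex.sub_re] at h1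
  linarith [hx.1]

theorem sec_locInj (p q : ℕ) {l : ℂ} (hl : ‖l‖ ≤ 1) (j : ℤ) {τ : ℂ} (hτ : 0 < τ.re) :
    InjOn (sec p q l j) (ball τ (min τ.re 1)) := by
  intro x hx x' hx' h
  obtain ⟨hx1, hx2⟩ := GP1_re hx
  obtain ⟨hy1, hy2⟩ := GP1_re hx'
  have h1 := psi_injOn hl (GP1_one_lt p q j hx1) (GP1_one_lt p q j hy1) h
  rw [Complex.exp_eq_exp_iff_exists_int] at h1
  obtain ⟨n, hn⟩ := h1
  have h2 : x - x' = n * (2 * Real.pi * Complex.I) := by linear_combination hn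
  have h3 : ‖x - x'‖ < 2 := by
    have h4 := norm_sub_le (x - τ) (x' - τ)
    rw [sub_sub_sub_cancel_right] at h4
    linarith
  rw [h2, norm_mul, norm_mul, norm_mul, Complex.norm_I, mul_one, Complex.norm_real,
    Real.norm_of_nonneg Real.pi_pos.le, Complex.norm_ofNat, Complex.norm_intCast] at h3
  have h5 : n = 0 := by
    by_contra h0
    have h6 : (1 : ℝ) ≤ |(n : ℝ)| := by exact_mod_cast Int.one_le_abs h0
    nlinarith [Real.pi_gt_three]
  rw [h5] at h2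
  simp only [Int.cast_zero, zero_mul] at h2
  exact sub_eq_zero.1 h2

theorem sec_deriv (p q : ℕ) {l : ℂ} (hl : ‖l‖ ≤ 1) (j : ℤ) {τ : ℂ} (hτ : 0 < τ.re) : deriv (sec p q l j) τ ≠ 0 := by
  have hpos : 0 < min τ.re 1 := lt_min hτ one_pos
  exact deriv_ne_of_injOn isOpen_ball
    ((sec_diff p q hl j).mono fun x hx => (GP1_re hx).1) (sec_locInj p q hl j hτ) (mem_ball_self hpos)

theorem sec_small {p q : ℕ} (hp : 0 < p) (hpq : p < q) (hc : Nat.Coprime p q) (C : ℝ) {ε : ℝ} (hε : 0 < ε) :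
    ∃ δ > 0, ∀ (j : ℤ) (τ : ℂ), 0 < τ.re → τ.re < δ → |τ.im| ≤ C * τ.re →
      ‖sec p q (mu ((p : ℝ) / q)) j τ‖ < ε := by
  have hq : 0 < q := hp.trans hpq
  obtain ⟨A, φ0, _, _, hR⟩ := R_main hp hpq hc
  have hl : ‖mu ((p : ℝ) / q)‖ ≤ 1 := (norm_mu _).le
  have h1 : ∀ i : ℤ, ∃ δ > 0, ∀ s x : ℝ, 0 < s → s < δ → |x| ≤ C →
      ‖psi (mu ((p : ℝ) / q)) (Complex.exp (s * (1 + x * Complex.I) +
        2 * Real.pi * ((ang p q i : ℝ) : ℂ) * Complex.I))‖ < ε :=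
    fun i => sector_tendsto hl (hR i).1 C hε
  choose d hd0 hd using h1
  have h2 : ∀ᶠ δ in 𝓝[>] (0 : ℝ), ∀ i ∈ Finset.range q, δ < d i := by
    rw [Filter.eventually_all_finset]
    intro i _
    exact nhdsWithin_le_nhds (gt_mem_nhds (hd0 i))
  obtain ⟨δ, hδ, hδ0⟩ := (h2.and self_mem_nhdsWithin).exists
  refine ⟨δ, hδ0, fun j τ hτ0 hτ1 hτ2 => ?_⟩
  have hq' : (0 : ℤ) < q := by omega
  have hj0 := Int.emod_nonneg j hq'.ne'
  have hj1 := Int.emod_lt_of_pos j hq'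
  obtain ⟨i, hi⟩ := Int.eq_ofNat_of_zero_le hj0
  have hi' : i < q := by omega
  have e : j = (i : ℤ) + (j / q) * q := by
    rw [← hi]
    linarith [Int.emod_add_mul_ediv j q, mul_comm (q : ℤ) (j / q)]
  rw [e, sec_per hq]
  have h3 := hd i τ.re (τ.im / τ.re) hτ0 (hτ1.trans (hδ i (Finset.mem_range.2 hi'))) (by
    rw [abs_div, abs_of_pos hτ0, div_le_iff₀ hτ0]
    exact hτ2)
  have e2 : ((τ.re : ℝ) : ℂ) * (1 + ((τ.im / τ.re : ℝ) : ℂ) * Complex.I) = τ := by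
    have h0 : ((τ.re : ℝ) : ℂ) ≠ 0 := by exact_mod_cast hτ0.ne'
    rw [Complex.ofReal_div]
    field_simp
    exact Complex.re_add_im τ
  rw [e2] at h3
  exact h3

theorem coprime_of {p q s e : ℕ} (hs : q * s = p * e + 1) : Nat.Coprime p q := by
  have h1 : Nat.gcd p q ∣ p * e + 1 := by
    rw [← hs]
    exact (Nat.gcd_dvd_right p q).mul_right s
  exact Nat.dvd_one.1 ((Nat.dvd_add_right ((Nat.gcd_dvd_left p q).mul_right e)).1 h1)

theorem qN_ge (q e N : ℕ) (hq : 0 < q) : N ≤ qN q e N :=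
  (Nat.le_mul_of_pos_left N hq).trans (Nat.le_add_right _ _)

theorem qN_mul {p q s e : ℕ} (hs : q * s = p * e + 1) (N : ℕ) : q * pN p s N = p * qN q e N + 1 := by
  unfold pN qN
  rw [Nat.mul_add, hs]
  ring

theorem lN_norm (p q s e N : ℕ) : ‖lN p q s e N‖ = 1 :=
  norm_mu _

theorem GP_lN_tendsto {p q s e : ℕ} (hq : 0 < q) (hs : q * s = p * e + 1) :
    Tendsto (fun N => lN p q s e N) atTop (𝓝 (mu ((p : ℝ) / q))) := by
  have hmu : Continuous mu := by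
    unfold mu
    fun_prop
  have hqR : (0 : ℝ) < q := by exact_mod_cast hq
  have h1 : Tendsto (fun N : ℕ => (qN q e N : ℝ)) atTop atTop :=
    tendsto_atTop_mono (fun N => by exact_mod_cast qN_ge q e N hq) tendsto_natCast_atTop_atTop
  have h2 : Tendsto (fun N : ℕ => (p : ℝ) / q + 1 / ((q : ℝ) * qN q e N)) atTop
      (𝓝 ((p : ℝ) / q + 0)) :=
    tendsto_const_nhds.add (tendsto_const_nhds.div_atTop (h1.const_mul_atTop hqR))
  rw [add_zero] at h2
  have h3 : Tendsto (fun N : ℕ => (pN p s N : ℝ) / (qN q e N : ℝ)) atTop (𝓝 ((p : ℝ) / q)) := by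
    refine h2.congr' ?_
    filter_upwards [eventually_ge_atTop 1] with N hN
    have h4 : (0 : ℝ) < qN q e N := by
      have := qN_ge q e N hq
      exact_mod_cast (by omega : 0 < qN q e N)
    have h5 : (q : ℝ) * pN p s N = p * qN q e N + 1 := by exact_mod_cast qN_mul hs N
    rw [div_add_div _ _ hqR.ne' (by positivity), div_eq_div_iff (by positivity) h4.ne']
    linear_combination (-(q : ℝ) * qN q e N) * h5
  exact (hmu.tendsto _).comp h3

end Pool.Agent.CR
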