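import Pool.Agent.H73.CR.GP5
import Pool.Agent.H48.CR.Hz
import Pool.Agent.H48.CR.G5a

/-!
# CR GP10: the sector functions at level `N` in an annular sector

`An a`: the annular sector. Proof of `sec_base`. `l0 = mu (p/q)`, `lN → l0`, `n = qN q e N`. `RaySheet` with `C = 1` and `R' = max R' (c.R + 10) + 1` gives `t1`; `a1 = t1/4`. Let `0 < a ≤ a1`; `An a` is compact. Fix `j` with `0 ≤ j < q` and `τ0 ∈ An a`: `sec l0 j τ0 = W0 j w0`, `w0 ∈ Wd0 R`, `w0 ∈ Lf (R' + 1)`.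
Let `ε > 0` be so small that `‖w' - w0‖ ≤ ε` implies `w' ∈ Lf R'` (`isOpen_Lf`). `hurwitz` (`F N w = c.W N (w + j n)`, `G = c.W0 j`, `U = Wd0 R`; `CC` from `c.lim j` by `cc_of_tlu`; differentiability: `c.diff` and `w + j n ∈ Wd n R` for `w` in a compact subset of `Wd0 R` and `N` large: the other holes `k n`, `k ≠ 0`, are far away;
the same fact is `Wd0_ev` in `H48/CR/G5a`, if you import it) gives: for `(N, v)` close to `(∞, sec l0 j τ0)` there is `w'` with `‖w' - w0‖ ≤ ε`, `W N (w' + j n) = v`. By `sec_cont` `sec lN j τ → sec l0 j τ0` for `N → ∞`, `τ → τ0`. So there are a neighbourhood `V` of `τ0` and `N1` such that the claim holds for `τ ∈ V ∩ An a`, `N ≥ N1`, with `‖w'‖ ≤ ‖w0‖ + ε`.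
Compactness of `An a`: finitely many `τ0` suffice: `N1(j)`, `B(j)`; take maxima over `0 ≤ j < q`. General `j`: `j = j0 + k q`: `sec_per`, and `W N (w + j n) = W N (w + j0 n)` (`c.per` applied `|k|` times; `w + j0 n ∈ Wd n R` for `w ∈ Lf R'`, `‖w‖ ≤ B` and `n > 4 B + 4 R`: elementary; `Wd n R` is invariant under `w ↦ w + n`).
`W_per`: `c.per` iterated. `near_Wd`: elementary.
-/

set_option autoImplicit false

open Set Filter Topology Metric

namespace Pool.Agent.CR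

variable {p q s e : ℕ}

/-- a closed annular sector -/
def An (a : ℝ) : Set ℂ := {τ | a ≤ τ.re ∧ τ.re ≤ 4 * a ∧ |τ.im| ≤ τ.re}

theorem isCompact_An (a : ℝ) : IsCompact (An a) := by
  apply Metric.isCompact_of_isClosed_isBounded
  · exact (isClosed_le continuous_const Complex.continuous_re).inter
      ((isClosed_le Complex.continuous_re continuous_const).inter
        (isClosed_le Complex.continuous_im.abs Complex.continuous_re))
  · refine isBounded_iff_forall_norm_le.2 ⟨8 * a, ?_⟩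
    rintro τ ⟨h1, h2, h3⟩
    have h4 := Complex.norm_le_abs_re_add_abs_im τ
    have h5 := abs_nonneg τ.im
    rw [abs_of_nonneg (h5.trans h3)] at h4
    linarith

theorem convex_An (a : ℝ) : Convex ℝ (An a) := by
  intro x hx y hy u t hu ht hut
  obtain ⟨h1, h2, h3⟩ := hx
  obtain ⟨g1, g2, g3⟩ := hy
  have e1 : (u • x + t • y).re = u * x.re + t * y.re := by simp
  have e2 : (u • x + t • y).im = u * x.im + t * y.im := by simp
  have ht' : t = 1 - u := by linarith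
  refine ⟨?_, ?_, ?_⟩
  · rw [e1]
    calc a = u * a + t * a := by rw [ht']; ring
      _ ≤ u * x.re + t * y.re := by gcongr
  · rw [e1]
    calc u * x.re + t * y.re ≤ u * (4 * a) + t * (4 * a) := by gcongr
      _ = 4 * a := by rw [ht']; ring
  · rw [e1, e2]
    calc |u * x.im + t * y.im| ≤ |u * x.im| + |t * y.im| := abs_add_le _ _
      _ = u * |x.im| + t * |y.im| := by rw [abs_mul, abs_mul, abs_of_nonneg hu, abs_of_nonneg ht]
      _ ≤ u * x.re + t * y.re := by gcongr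

theorem Wd_add (n R : ℝ) (k : ℤ) (w : ℂ) : w + k * n ∈ Wd n R ↔ w ∈ Wd n R := by
  refine ⟨fun h => ?_, fun h => G.Wd_add h k⟩
  have h1 := G.Wd_add h (-k)
  have h2 : w + k * n + ((-k : ℤ) : ℂ) * n = w := by
    push_cast
    ring
  rwa [h2] at h1

private theorem GP10_Wd_add {N : ℕ} {R : ℝ} {w : ℂ} (hw : w ∈ Wd (qN q e N) R) (k : ℤ) :
    w + k * (qN q e N : ℂ) ∈ Wd (qN q e N) R := by
  have h1 := (Wd_add (qN q e N) R k w).2 hw
  rwa [Complex.ofReal_natCast] at h1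

private theorem GP10_per (c : Chart p q s e) {N : ℕ} (hN : c.N0 ≤ N) {w : ℂ} (hw : w ∈ Wd (qN q e N) c.R)
    (t : ℕ) : c.W N (w + t * (q * qN q e N)) = c.W N w := by
  induction t with
  | zero => simp
  | succ t ih =>
    have h1 : w + t * (q * (qN q e N : ℂ)) ∈ Wd (qN q e N) c.R := by
      have h3 := GP10_Wd_add hw (t * q)
      have e1 : w + t * (q * (qN q e N : ℂ)) = w + ((t * q : ℤ) : ℂ) * (qN q e N : ℂ) := by
        push_cast
        ring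
      rw [e1]
      exact h3
    have h2 := c.per N hN _ h1
    rw [← ih, ← h2]
    congr 1
    push_cast
    ring

theorem W_per (c : Chart p q s e) {N : ℕ} (hN : c.N0 ≤ N) {w : ℂ} (hw : w ∈ Wd (qN q e N) c.R) (k : ℤ) :
    c.W N (w + k * (q * qN q e N)) = c.W N w := by
  obtain ⟨m, rfl | rfl⟩ := k.eq_nat_or_neg
  · have h1 := GP10_per c hN hw m
    rw [← h1]
    congr 1
  · have h1 : w + ((-(m : ℤ) : ℤ) : ℂ) * (q * (qN q e N : ℂ)) ∈ Wd (qN q e N) c.R := by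
      have h3 := GP10_Wd_add hw (-(m : ℤ) * q)
      have e1 : w + ((-(m : ℤ) : ℤ) : ℂ) * (q * (qN q e N : ℂ)) =
          w + ((-(m : ℤ) * q : ℤ) : ℂ) * (qN q e N : ℂ) := by
        push_cast
        ring
      rw [e1]
      exact h3
    have h2 := GP10_per c hN h1 m
    rw [← h2]
    congr 1
    push_cast
    ring

private theorem GP10_n_lim (hq : 0 < q) : Tendsto (fun N : ℕ => (qN q e N : ℝ)) atTop atTop :=
  tendsto_natCast_atTop_atTop.comp (tendsto_atTop_mono (fun N => qN_ge q e N hq) tendsto_id)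

private theorem GP10_Wd {n R : ℝ} (hR : 0 < R) {x : ℂ} (hx : x ∈ Wd0 R) (hn : R + 2 * ‖x‖ ≤ n) :
    x ∈ Wd n R := by
  intro k
  have h2 : |x.re| ≤ ‖x‖ := Complex.abs_re_le_norm x
  have h3 : |x.im| ≤ ‖x‖ := Complex.abs_im_le_norm x
  have hx0 := norm_nonneg x
  rcases eq_or_ne k 0 with rfl | hk
  · simpa using (show R < ‖x‖ ∧ -x.im < |x.re| from hx)
  · have h1 : (1 : ℝ) ≤ |(k : ℝ)| := by exact_mod_cast Int.one_le_abs hk
    have hn0 : 0 < n := by linarith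
    have h4 : R + ‖x‖ ≤ |x.re - k * n| := by
      have h6 : |(k : ℝ) * n| - |x.re| ≤ |x.re - k * n| := by
        rw [abs_sub_comm]
        exact abs_sub_abs_le_abs_sub _ _
      rw [abs_mul, abs_of_pos hn0] at h6
      nlinarith
    have h5 : |x.re - k * n| ≤ ‖x - k * n‖ := by
      have := Complex.abs_re_le_norm (x - k * n)
      simpa using this
    have h7 := hx.1
    have h8 := neg_abs_le x.im
    constructor <;> linarith

private theorem GP10_comp {F : ℂ → ℂ} {c w : ℂ} (h : DifferentiableAt ℂ F (w + c)) :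
    DifferentiableAt ℂ (fun w => F (w + c)) w :=
  DifferentiableAt.comp (g := F) (f := fun w => w + c) w h (by fun_prop)

private theorem GP10_diff (c : Chart p q s e) (hq : 0 < q) (j : ℤ) :
    ∀ w ∈ Wd0 c.R, ∀ᶠ x : ℕ × ℂ in atTop ×ˢ 𝓝 w,
      DifferentiableAt ℂ (fun w => c.W x.1 (w + j * qN q e x.1)) x.2 := by
  intro w hw
  have hge : ∀ᶠ x : ℕ × ℂ in atTop ×ˢ 𝓝 w, x.1 ≥ c.N0 :=
    (Filter.eventually_ge_atTop c.N0).prod_inl _
  filter_upwards [G.Wd0_ev (GP10_n_lim (e := e) hq) hw, hge] with x hx hN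
  have hpos : (0 : ℝ) < (qN q e x.1 : ℝ) := by
    have := c.n_ge x.1 hN
    have := c.R_ge
    linarith
  have h1 := GP10_Wd_add hx j
  have h2 := (c.diff x.1 hN).differentiableAt ((G.isOpen_Wd hpos c.R).mem_nhds h1)
  exact GP10_comp h2

/-- convergence of the sector functions -/
private theorem GP10_sec (hq : 0 < q) (hs : q * s = p * e + 1) (j : ℤ) {τ0 : ℂ} (h0 : 0 < τ0.re) :
    Tendsto (fun x : ℕ × ℂ => sec p q (lN p q s e x.1) j x.2) (atTop ×ˢ 𝓝 τ0)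
      (𝓝 (sec p q (mu ((p : ℝ) / q)) j τ0)) := by
  have hl : Tendsto (fun x : ℕ × ℂ => lN p q s e x.1) (atTop ×ˢ 𝓝 τ0) (𝓝 (mu ((p : ℝ) / q))) :=
    (GP_lN_tendsto hq hs).comp tendsto_fst
  have hl1 : ‖mu ((p : ℝ) / q)‖ ≤ 1 := (norm_mu _).le
  have hmem : ((mu ((p : ℝ) / q), τ0) : ℂ × ℂ) ∈ {x : ℂ × ℂ | ‖x.1‖ ≤ 1 ∧ 0 < x.2.re} := ⟨hl1, h0⟩
  have hc := sec_cont p q j _ hmem
  have ht : Tendsto (fun x : ℕ × ℂ => (lN p q s e x.1, x.2)) (atTop ×ˢ 𝓝 τ0)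
      (𝓝[{x : ℂ × ℂ | ‖x.1‖ ≤ 1 ∧ 0 < x.2.re}] (mu ((p : ℝ) / q), τ0)) := by
    refine tendsto_nhdsWithin_iff.2 ⟨hl.prodMk_nhds tendsto_snd, ?_⟩
    have h1 : ∀ᶠ τ : ℂ in 𝓝 τ0, 0 < τ.re :=
      Complex.continuous_re.continuousAt.eventually (lt_mem_nhds h0)
    filter_upwards [h1.prod_inr (atTop : Filter ℕ)] with x hx
    exact ⟨(lN_norm p q s e x.1).le, hx⟩
  exact hc.tendsto.comp ht

private theorem GP10_loc (hp : 0 < p) (hpq : p < q) (hs : q * s = p * e + 1) {c : Chart p q s e} {R2 : ℝ}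
    (j : ℤ) {τ0 : ℂ} (h0 : 0 < τ0.re) {w0 : ℂ} (hw0 : w0 ∈ Wd0 c.R) (hw1 : w0 ∈ Lf R2)
    (he : sec p q (mu ((p : ℝ) / q)) j τ0 = c.W0 j w0) :
    ∀ᶠ x : ℕ × ℂ in atTop ×ˢ 𝓝 τ0, ∃ w : ℂ, w ∈ Lf R2 ∧ ‖w‖ ≤ ‖w0‖ + 1 ∧
      sec p q (lN p q s e x.1) j x.2 = c.W x.1 (w + j * qN q e x.1) := by
  have hq : 0 < q := hp.trans hpq
  obtain ⟨ε1, hε1, hball⟩ := Metric.isOpen_iff.1 (isOpen_Lf R2) w0 hw1
  have hcc : G.CC (fun N w => c.W N (w + j * qN q e N)) (c.W0 j) (Wd0 c.R) :=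
    G.cc_of_tlu (G.isOpen_Wd0 _) (c.diff0 j).continuousOn (c.lim j)
  have hinj : InjOn (c.W0 j) (Wd0 c.R) := fun w hw w' hw' h => (c.inj0 j j w hw w' hw' h).1
  have hε : 0 < min (ε1 / 2) 1 := lt_min (by linarith) one_pos
  have hH := G.hurwitz (G.isOpen_Wd0 c.R) hcc (GP10_diff c hq j) hinj hw0 hε
  rw [← he] at hH
  have ht : Tendsto (fun x : ℕ × ℂ => (x.1, sec p q (lN p q s e x.1) j x.2)) (atTop ×ˢ 𝓝 τ0)
      (atTop ×ˢ 𝓝 (sec p q (mu ((p : ℝ) / q)) j τ0)) :=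
    tendsto_fst.prodMk (GP10_sec hq hs j h0)
  filter_upwards [ht.eventually hH] with x hx
  obtain ⟨w', h1, h2⟩ := hx
  refine ⟨w', hball ?_, ?_, h2.symm⟩
  · rw [mem_ball, dist_eq_norm]
    have := min_le_left (ε1 / 2) (1 : ℝ)
    linarith
  · have h3 : ‖w'‖ ≤ ‖w0‖ + ‖w' - w0‖ := by
      have h4 : w' = w0 + (w' - w0) := by ring
      calc ‖w'‖ = ‖w0 + (w' - w0)‖ := by rw [← h4]
        _ ≤ _ := norm_add_le _ _
    have := min_le_right (ε1 / 2) (1 : ℝ)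
    linarith

theorem sec_base (hp : 0 < p) (hpq : p < q) (hs : q * s = p * e + 1) {c : Chart p q s e} (hR : RaySheet c) (R' : ℝ) :
    ∃ a1 : ℝ, 0 < a1 ∧ ∀ a : ℝ, 0 < a → a ≤ a1 → ∃ B : ℝ, 0 < B ∧ ∀ᶠ N : ℕ in atTop, ∀ (j : ℤ), ∀ τ ∈ An a,
      ∃ w : ℂ, w ∈ Lf R' ∧ ‖w‖ ≤ B ∧ sec p q (lN p q s e N) j τ = c.W N (w + j * qN q e N) := by
  have hq : 0 < q := hp.trans hpq
  have hR4 := c.R_ge
  set R2 := max R' (c.R + 10) with hR2
  obtain ⟨t1, ht1, hsh⟩ := hR 1 R2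
  refine ⟨t1 / 4, by positivity, fun a ha ha1 => ?_⟩
  -- the claim for one `j`
  have hj : ∀ j : ℤ, ∃ B : ℝ, ∀ᶠ N : ℕ in atTop, ∀ τ ∈ An a, ∃ w : ℂ, w ∈ Lf R2 ∧ ‖w‖ ≤ B ∧
      sec p q (lN p q s e N) j τ = c.W N (w + j * qN q e N) := by
    intro j
    refine (isCompact_An a).induction_on (p := fun T => ∃ B : ℝ, ∀ᶠ N : ℕ in atTop, ∀ τ ∈ T, ∃ w : ℂ,
      w ∈ Lf R2 ∧ ‖w‖ ≤ B ∧ sec p q (lN p q s e N) j τ = c.W N (w + j * qN q e N)) ?_ ?_ ?_ ?_
    · exact ⟨0, Eventually.of_forall fun N τ hτ => absurd hτ (notMem_empty τ)⟩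
    · rintro T T' hTT ⟨B, hB⟩
      exact ⟨B, hB.mono fun N hN τ hτ => hN τ (hTT hτ)⟩
    · rintro T T' ⟨B, hB⟩ ⟨B', hB'⟩
      refine ⟨max B B', ?_⟩
      filter_upwards [hB, hB'] with N h1 h2 τ hτ
      rcases hτ with hτ | hτ
      · obtain ⟨w, g1, g2, g3⟩ := h1 τ hτ
        exact ⟨w, g1, g2.trans (le_max_left _ _), g3⟩
      · obtain ⟨w, g1, g2, g3⟩ := h2 τ hτ
        exact ⟨w, g1, g2.trans (le_max_right _ _), g3⟩
    · rintro τ0 ⟨k1, k2, k3⟩
      obtain ⟨w0, g1, g2, g3⟩ := hsh j τ0 (by linarith) (by linarith) (by linarith)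
      obtain ⟨pa, ha', pb, hb', hab⟩ := eventually_prod_iff.1
        (GP10_loc hp hpq hs j (show 0 < τ0.re by linarith) g1 g2 g3)
      refine ⟨{τ | pb τ}, mem_nhdsWithin_of_mem_nhds hb', ‖w0‖ + 1, ?_⟩
      filter_upwards [ha'] with N hN τ hτ
      exact hab hN hτ
  choose Bf hBf using hj
  set B := 1 + ∑ i ∈ Finset.range q, |Bf i| with hBdef
  have hB1 : 1 ≤ B := by
    have : 0 ≤ ∑ i ∈ Finset.range q, |Bf i| := Finset.sum_nonneg fun i _ => abs_nonneg _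
    linarith
  have hBi : ∀ i ∈ Finset.range q, Bf i ≤ B := by
    intro i hi
    have h1 : |Bf i| ≤ ∑ i ∈ Finset.range q, |Bf i| :=
      Finset.single_le_sum (f := fun i : ℕ => |Bf i|) (fun i _ => abs_nonneg _) hi
    have h2 := le_abs_self (Bf i)
    linarith
  refine ⟨B, by linarith, ?_⟩
  have hall : ∀ᶠ N : ℕ in atTop, ∀ i ∈ Finset.range q, ∀ τ ∈ An a, ∃ w : ℂ, w ∈ Lf R2 ∧ ‖w‖ ≤ Bf i ∧
      sec p q (lN p q s e N) (i : ℤ) τ = c.W N (w + ((i : ℤ) : ℂ) * qN q e N) := by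
    rw [Filter.eventually_all_finset]
    intro i _
    exact hBf i
  filter_upwards [hall, eventually_ge_atTop c.N0,
    (GP10_n_lim (e := e) hq).eventually_ge_atTop (c.R + 2 * B)] with N h1 h2 h3 j τ hτ
  have hq' : (0 : ℤ) < q := by exact_mod_cast hq
  obtain ⟨i, hi⟩ := Int.eq_ofNat_of_zero_le (Int.emod_nonneg j hq'.ne')
  have hiq : i < q := by
    have := Int.emod_lt_of_pos j hq'
    rw [hi] at this
    exact_mod_cast this
  obtain ⟨w, g1, g2, g3⟩ := h1 i (Finset.mem_range.2 hiq) τ hτ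
  have g2' : ‖w‖ ≤ B := g2.trans (hBi i (Finset.mem_range.2 hiq))
  refine ⟨w, Lf_mono (le_max_left _ _) g1, g2', ?_⟩
  have hjd : j = (i : ℤ) + (j / q) * q := by
    have := Int.emod_add_mul_ediv j q
    rw [hi] at this
    linarith
  have hwd : w ∈ Wd (qN q e N) c.R := by
    refine GP10_Wd (by linarith) (Lf_sub hR4 (r := R2) ?_ g1).1 (by linarith)
    have := le_max_right R' (c.R + 10)
    linarith
  have hw2 := GP10_Wd_add hwd (i : ℤ)
  have hper := W_per c h2 hw2 (j / q)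
  have e1 : sec p q (lN p q s e N) j τ = sec p q (lN p q s e N) (i : ℤ) τ := by
    conv_lhs => rw [hjd]
    exact sec_per hq _ _ _ _
  rw [e1, g3, ← hper]
  congr 1
  conv_rhs => rw [hjd]
  push_cast
  ring

end Pool.Agent.CR
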