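import Pool.Agent.H73.CR.GP1

/-!
# CR GP2: the angles at level `N`

`angN m = ang pN qN (-m pN)`, `xN = 1 + ang pN qN 0 - ang p q (-1)`. EXACT identity: `angN m = ang p q (-1 - m p) + xN / 2^m` for `1 ≤ m ≤ qN`.

Proofs. Bounds: `s ≤ e` (from `q s = p e + 1`, `0 < p < q`: `e = 0` is impossible, since then `q s = 1`; `q s = p e + 1 ≤ (q - 1) e + 1 ≤ q e`), so `pN ≤ qN`, `0 < qN`; `ang_mem`.
`angN_eq`: `dig` as in `R13`. Fact: for `1 ≤ k ≤ qN`: `⌊(-k pN)/qN⌋ = ⌊(-1 - k p)/q⌋` (integer division). Let `a = ⌊(-1 - k p)/q⌋`, so `a q ≤ -1 - k p` and `-k p ≤ a q + q` (integers). By `q pN = p qN + 1`: `q (-k pN) = -k p qN - k`. Lower bound: `a q qN ≤ (-1 - k p) qN = -qN - k p qN ≤ -k - k p qN`.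
Upper bound: `-k p qN - k < -k p qN ≤ (a + 1) q qN`. Divide by `q`: `a qN ≤ -k pN < (a + 1) qN` (use `Int.ediv_emod_unique`, `Int.le_ediv_iff_mul_le`, `Int.ediv_lt_iff_lt_mul`).
Digits of `angN m` (`dig pN qN (-m pN) n = ⌊(n+1-m) pN/qN⌋ - ⌊(n-m) pN/qN⌋`): for `n + 1 < m` it is `dig p q (-1 - m p) n` (the fact with `k = m - n` and `k = m - n - 1`); for `n + 1 = m` it is `0 - ⌊-pN/qN⌋ = 1` while `dig p q (-1 - m p) (m-1) = ⌊-1/q⌋ - ⌊(-1-p)/q⌋ = -1 + 1 = 0`; for `n ≥ m` it is `dig pN qN 0 (n - m)`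
while `dig p q (-1 - m p) n = dig p q (-1) (n - m)`. Split both sums at `m` (`Summable.sum_add_tsum_nat_add`, `summable_dig`): `angN m = Σ_{n<m-1} .. + 1/2^m + ang pN qN 0 / 2^m`, `ang p q (-1 - m p) = Σ_{n<m-1} .. + 0 + ang p q (-1) / 2^m`. Subtract.
`angN_zero`: `-(qN pN) = 0 + (-pN) qN`, `ang_add_q`-periodicity. `ray_angN`, `ray_angN_zero`: `angN_eq`, `ray_eq_sec` and `(T + 2 π i x)/2^m = T/2^m + 2 π i (x/2^m)`. `ray_th`: `th = ang + gap/2^m` by definition.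
`iter_rayN`: with `n = qN`: `ray_iter`: `(f l)^[n-m] (ray l θ (T/2^n)) = ray l (2^(n-m) θ) (T/2^m)`; `θ = angN 0 = angN n = ang pN qN (-n pN)`; `two_pow_ang` (with `i = -n pN`, `n - m` steps): `2^(n-m) θ = ang pN qN (-n pN + (n-m) pN) + integer = angN m + integer`, `ray_add_int`.
`xN_tendsto`: `ang_tendsto_zero`. `angN_tendsto`: from `angN_eq` and `xN_tendsto` for `m ≥ 1` (or `ang_tendsto`), for `m = 0`: `angN 0 → ang p q 0` and `th p q 0 = 1 + ang p q 0`: so the statement is about `ray` (continuity `ray_continuousOn`), `ray_add_int`.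
`th_q`: `th p q q = ang p q (-1 - q p) + gap / 2^q`, `ang p q (-1 - q p) = ang p q (-1)`. Let `D = ang p q (-1) - ang p q 0`, `gap = 1 - D`. For `0 ≤ n < q`: `dig p q (-1) n - dig p q 0 n` is `1` for `n = 0`, `-1` for `n = q - 1`, `0` otherwise (`⌊(k p - 1)/q⌋ = ⌊k p / q⌋` unless `q ∣ k p`, i.e. `q ∣ k`, `p`, `q` coprime,
and then it is `k p / q - 1`), if `q ≥ 2`; the digits are periodic: `dig p q i (n + q) = dig p q i n`. So `2^q D = Σ_{n<q} 2^(q-1-n) (..) + D = 2^(q-1) - 1 + D`. Hence `th p q q - ang p q 0 = D + (1 - D)/2^q = D (1 - 2^-q) + 2^-q = (2^(q-1) - 1)/2^q + 2^-q = 1/2`.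
`ray_th_q`: `ray l (ang 0 + 1/2) t = psi l (- exp (t + 2 π i ang 0)) = - l - ray l (ang 0) t` (`psi_neg`).
-/

set_option autoImplicit false

open Set Filter Topology Metric

namespace Pool.Agent.CR

variable {p q s e : ℕ}

private theorem GP2_div {q : ℤ} (hq : 0 < q) {x y : ℤ} (h1 : y * q ≤ x) (h2 : x < (y + 1) * q) : x / q = y :=
  le_antisymm (Int.lt_add_one_iff.1 ((Int.ediv_lt_iff_lt_mul hq).2 h2)) ((Int.le_ediv_iff_mul_le hq).2 h1)

private theorem GP2_per {p q : ℕ} (hq : 0 < q) (i k : ℤ) : ang p q (i + k * q) = ang p q i := by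
  have hq' : (q : ℤ) ≠ 0 := by omega
  rw [ang_eq, ang_eq]
  refine tsum_congr fun n => ?_
  congr 2
  unfold dig
  have e1 : i + k * q + (n + 1) * p = i + (n + 1) * p + k * q := by ring
  have e2 : i + k * q + n * p = i + n * p + k * q := by ring
  rw [e1, e2, Int.add_mul_ediv_right _ _ hq', Int.add_mul_ediv_right _ _ hq']
  ring

private theorem GP2_split {p q : ℕ} (hq : 0 < q) (hpq : p ≤ q) (i : ℤ) (m : ℕ) :
    ang p q i = ∑ n ∈ Finset.range m, (dig p q i n : ℝ) / 2 ^ (n + 1) + ang p q (i + m * p) / 2 ^ m := by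
  induction m with
  | zero => simp
  | succ m ih =>
    rw [Finset.sum_range_succ]
    have h := two_ang hq hpq (i + m * p)
    have e1 : i + m * p + p = i + ((m + 1 : ℕ) : ℤ) * p := by push_cast; ring
    have e2 : (i + m * p + p) / q - (i + m * p) / q = dig p q i m := by
      unfold dig
      have : i + m * p + p = i + (m + 1) * p := by ring
      rw [this]
    rw [e2, e1] at h
    rw [ih]
    have h2 : ang p q (i + m * p) = ang p q (i + ((m + 1 : ℕ) : ℤ) * p) / 2 + (dig p q i m : ℝ) / 2 := by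
      linarith
    rw [h2, pow_succ]
    field_simp
    ring

/-- the shift of the angles at level `N` -/
noncomputable def xN (p q s e N : ℕ) : ℝ := 1 + ang (pN p s N) (qN q e N) 0 - ang p q (-1)

private theorem GP2_e (hp : 0 < p) (hpq : p < q) (hs : q * s = p * e + 1) : 0 < e := by
  rcases Nat.eq_zero_or_pos e with h | h
  · subst h
    have : q = 1 := Nat.eq_one_of_mul_eq_one_right (by simpa using hs)
    omega
  · exact h

theorem pN_le (hp : 0 < p) (hpq : p < q) (hs : q * s = p * e + 1) (N : ℕ) : pN p s N ≤ qN q e N ∧ 0 < qN q e N := by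
  have he := GP2_e hp hpq hs
  have hse : s ≤ e := by
    by_contra h
    push Not at h
    have h1 : q * (e + 1) ≤ q * s := Nat.mul_le_mul_left _ h
    nlinarith
  unfold pN qN
  exact ⟨by nlinarith, by omega⟩

theorem xN_mem (hp : 0 < p) (hpq : p < q) (hs : q * s = p * e + 1) (N : ℕ) : 0 ≤ xN p q s e N ∧ xN p q s e N ≤ 2 := by
  have h1 := pN_le hp hpq hs N
  have h2 := ang_mem h1.2 h1.1 0
  have h3 := ang_mem (p := p) (q := q) (by omega) hpq.le (-1)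
  unfold xN
  constructor <;> linarith [h2.1, h2.2, h3.1, h3.2]

theorem gap_mem (hp : 0 < p) (hpq : p < q) : 0 ≤ gap p q ∧ gap p q ≤ 2 := by
  have h2 := ang_mem (p := p) (q := q) (by omega) hpq.le 0
  have h3 := ang_mem (p := p) (q := q) (by omega) hpq.le (-1)
  unfold gap
  constructor <;> linarith [h2.1, h2.2, h3.1, h3.2]

private theorem GP2_he (hs : q * s = p * e + 1) : (q : ℤ) * s - p * e = 1 := by
  have : ((q * s : ℕ) : ℤ) = ((p * e + 1 : ℕ) : ℤ) := by rw [hs]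
  push_cast at this
  linarith

theorem xN_tendsto (hp : 0 < p) (hpq : p < q) (hs : q * s = p * e + 1) :
    Tendsto (fun N => xN p q s e N) atTop (𝓝 (gap p q)) := by
  have h := ang_tendsto_zero hp hpq (GP2_he hs)
  unfold xN gap
  exact (h.const_add 1).sub_const _

private theorem GP2_F (hp : 0 < p) (hpq : p < q) (hs : q * s = p * e + 1) (N : ℕ) {k : ℕ} (h1 : 1 ≤ k)
    (hk : k ≤ qN q e N) : (-(k * pN p s N : ℤ)) / (qN q e N : ℤ) = (-1 - k * p) / (q : ℤ) := by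
  have hq : (0 : ℤ) < q := by omega
  have hQ : (0 : ℤ) < qN q e N := by exact_mod_cast (pN_le hp hpq hs N).2
  have hm : (q : ℤ) * pN p s N = p * qN q e N + 1 := by exact_mod_cast qN_mul hs N
  have hk' : (k : ℤ) ≤ qN q e N := by exact_mod_cast hk
  have hk1 : (1 : ℤ) ≤ k := by exact_mod_cast h1
  set a : ℤ := (-1 - k * p) / (q : ℤ) with ha
  have ha1 : a * q ≤ -1 - k * p := Int.ediv_mul_le _ hq.ne'
  have ha2 : -1 - k * p < (a + 1) * q := Int.lt_ediv_add_one_mul_self _ hq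
  set P : ℤ := (pN p s N : ℤ)
  set Q : ℤ := (qN q e N : ℤ)
  refine GP2_div hQ ?_ ?_
  · refine le_of_mul_le_mul_left ?_ hq
    have e1 : (q : ℤ) * -(k * P) = -k * (p * Q + 1) := by rw [← hm]; ring
    rw [e1]
    nlinarith [mul_le_mul_of_nonneg_right ha1 hQ.le]
  · refine lt_of_mul_lt_mul_left ?_ hq.le
    have e1 : (q : ℤ) * -(k * P) = -k * (p * Q + 1) := by rw [← hm]; ring
    rw [e1]
    have ha3 : -(k * p : ℤ) ≤ (a + 1) * q := by linarith
    nlinarith [mul_le_mul_of_nonneg_right ha3 hQ.le]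

/-- **The exact identity of the angles.** -/
theorem angN_eq (hp : 0 < p) (hpq : p < q) (hs : q * s = p * e + 1) (N : ℕ) {m : ℕ} (h1 : 1 ≤ m) (hm : m ≤ qN q e N) :
    angN p q s e N m = ang p q (-1 - m * p) + xN p q s e N / 2 ^ m := by
  have hq : 0 < q := by omega
  have hPQ := pN_le hp hpq hs N
  obtain ⟨m, rfl⟩ : ∃ m', m = m' + 1 := ⟨m - 1, by omega⟩
  have hF := fun (k : ℕ) (h1 : 1 ≤ k) (hk : k ≤ qN q e N) => GP2_F hp hpq hs N h1 hk
  have hqz : (0 : ℤ) < q := by omega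
  have hQz : (0 : ℤ) < qN q e N := by exact_mod_cast hPQ.2
  have s1 := GP2_split hPQ.2 hPQ.1 (-(((m + 1 : ℕ) : ℤ) * pN p s N)) (m + 1)
  have s2 := GP2_split hq hpq.le (-1 - ((m + 1 : ℕ) : ℤ) * p) (m + 1)
  rw [neg_add_cancel] at s1
  have e2 : (-1 : ℤ) - ((m + 1 : ℕ) : ℤ) * p + ((m + 1 : ℕ) : ℤ) * p = -1 := by ring
  rw [e2] at s2
  -- digits
  have hd : ∀ n < m, dig (pN p s N) (qN q e N) (-(((m + 1 : ℕ) : ℤ) * pN p s N)) n =
      dig p q (-1 - ((m + 1 : ℕ) : ℤ) * p) n := by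
    intro n hn
    have hA := hF (m - n) (by omega) (by omega)
    have hB := hF (m + 1 - n) (by omega) (by omega)
    unfold dig
    have c1 : ((m - n : ℕ) : ℤ) = m - n := by omega
    have c2 : ((m + 1 - n : ℕ) : ℤ) = m + 1 - n := by omega
    rw [c1] at hA
    rw [c2] at hB
    have g1 : -(((m + 1 : ℕ) : ℤ) * pN p s N) + (n + 1) * pN p s N = -(((m : ℤ) - n) * pN p s N) := by
      push_cast; ring
    have g2 : -(((m + 1 : ℕ) : ℤ) * pN p s N) + n * pN p s N = -(((m : ℤ) + 1 - n) * pN p s N) := by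
      push_cast; ring
    have g3 : (-1 : ℤ) - ((m + 1 : ℕ) : ℤ) * p + (n + 1) * p = -1 - ((m : ℤ) - n) * p := by push_cast; ring
    have g4 : (-1 : ℤ) - ((m + 1 : ℕ) : ℤ) * p + n * p = -1 - ((m : ℤ) + 1 - n) * p := by push_cast; ring
    rw [g1, g2, g3, g4, hA, hB]
  have hl : dig (pN p s N) (qN q e N) (-(((m + 1 : ℕ) : ℤ) * pN p s N)) m =
      dig p q (-1 - ((m + 1 : ℕ) : ℤ) * p) m + 1 := by
    have hB := hF 1 le_rfl (by omega)
    unfold dig
    have g1 : -(((m + 1 : ℕ) : ℤ) * pN p s N) + (m + 1) * pN p s N = 0 := by push_cast; ring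
    have g2 : -(((m + 1 : ℕ) : ℤ) * pN p s N) + m * pN p s N = -((1 : ℕ) * pN p s N : ℤ) := by
      push_cast; ring
    have g3 : (-1 : ℤ) - ((m + 1 : ℕ) : ℤ) * p + (m + 1) * p = -1 := by push_cast; ring
    have g4 : (-1 : ℤ) - ((m + 1 : ℕ) : ℤ) * p + m * p = -1 - ((1 : ℕ) : ℤ) * p := by push_cast; ring
    rw [g1, g2, g3, g4, hB, Int.zero_ediv]
    have h5 : (-1 : ℤ) / (q : ℤ) = -1 := GP2_div hqz (by linarith) (by linarith)
    rw [h5]
    ring
  have hsum : ∑ n ∈ Finset.range m, (dig (pN p s N) (qN q e N) (-(((m + 1 : ℕ) : ℤ) * pN p s N)) n : ℝ) /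
      2 ^ (n + 1) = ∑ n ∈ Finset.range m, (dig p q (-1 - ((m + 1 : ℕ) : ℤ) * p) n : ℝ) / 2 ^ (n + 1) :=
    Finset.sum_congr rfl fun n hn => by rw [hd n (Finset.mem_range.1 hn)]
  rw [Finset.sum_range_succ, hsum, hl] at s1
  rw [Finset.sum_range_succ] at s2
  have e3 : angN p q s e N (m + 1) = ang (pN p s N) (qN q e N) (-(((m + 1 : ℕ) : ℤ) * pN p s N)) := rfl
  rw [e3, s1, s2]
  unfold xN
  push_cast
  ring

theorem angN_zero (hp : 0 < p) (hpq : p < q) (hs : q * s = p * e + 1) (N : ℕ) :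
    angN p q s e N 0 = angN p q s e N (qN q e N) := by
  have hPQ := pN_le hp hpq hs N
  have h := GP2_per (p := pN p s N) hPQ.2 0 (-(pN p s N : ℤ))
  unfold angN
  have e1 : (-(((0 : ℕ) : ℤ) * pN p s N) : ℤ) = 0 := by simp
  have e2 : (-((qN q e N : ℤ) * pN p s N) : ℤ) = 0 + -(pN p s N : ℤ) * qN q e N := by ring
  rw [e1, e2, h]

theorem ray_angN (hp : 0 < p) (hpq : p < q) (hs : q * s = p * e + 1) (N : ℕ) {m : ℕ} (h1 : 1 ≤ m) (hm : m ≤ qN q e N)
    (T : ℝ) : ray (lN p q s e N) (angN p q s e N m) (T / 2 ^ m) =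
      sec p q (lN p q s e N) (-1 - m * p) ((T + 2 * Real.pi * xN p q s e N * Complex.I) / 2 ^ m) := by
  rw [angN_eq hp hpq hs N h1 hm, ray_eq_sec]
  congr 1
  push_cast
  ring

theorem ray_angN_zero (hp : 0 < p) (hpq : p < q) (hs : q * s = p * e + 1) (N : ℕ) (T : ℝ) :
    ray (lN p q s e N) (angN p q s e N 0) (T / 2 ^ qN q e N) =
      sec p q (lN p q s e N) (-1 - qN q e N * p)
        ((T + 2 * Real.pi * xN p q s e N * Complex.I) / 2 ^ qN q e N) := by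
  rw [angN_zero hp hpq hs N]
  exact ray_angN hp hpq hs N (pN_le hp hpq hs N).2 le_rfl T

theorem ray_th (p q m : ℕ) (l : ℂ) (T : ℝ) : ray l (th p q m) (T / 2 ^ m) =
    sec p q l (-1 - m * p) ((T + 2 * Real.pi * gap p q * Complex.I) / 2 ^ m) := by
  unfold th
  rw [ray_eq_sec]
  congr 1
  push_cast
  ring

theorem iter_rayN (hp : 0 < p) (hpq : p < q) (hs : q * s = p * e + 1) (N : ℕ) {m : ℕ} (hm : m ≤ qN q e N) {T : ℝ}
    (hT : 0 < T) : (f (lN p q s e N))^[qN q e N - m] (ray (lN p q s e N) (angN p q s e N 0) (T / 2 ^ qN q e N)) =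
      ray (lN p q s e N) (angN p q s e N m) (T / 2 ^ m) := by
  have hPQ := pN_le hp hpq hs N
  rw [ray_iter (lN_norm p q s e N).le _ (by positivity), angN_zero hp hpq hs N]
  obtain ⟨r, hr⟩ := two_pow_ang hPQ.2 hPQ.1 (-((qN q e N : ℤ) * pN p s N)) (qN q e N - m)
  have e0 : angN p q s e N (qN q e N) = ang (pN p s N) (qN q e N) (-((qN q e N : ℤ) * pN p s N)) := rfl
  have e1 : -((qN q e N : ℤ) * pN p s N) + ((qN q e N - m : ℕ) : ℤ) * pN p s N = -((m : ℤ) * pN p s N) := by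
    push_cast [Nat.cast_sub hm]
    ring
  have e2 : angN p q s e N m = ang (pN p s N) (qN q e N) (-((m : ℤ) * pN p s N)) := rfl
  rw [e0, hr, e1, ray_add_int, e2]
  congr 1
  have h3 : (2 : ℝ) ^ qN q e N = 2 ^ (qN q e N - m) * 2 ^ m := by
    rw [← pow_add]; congr 1; omega
  rw [h3]
  field_simp

/-- convergence of the points of the rays -/
theorem ray_angN_tendsto (hp : 0 < p) (hpq : p < q) (hs : q * s = p * e + 1) (m : ℕ) {T : ℝ} (hT : 0 < T) :
    Tendsto (fun x : ℕ × ℝ => ray (lN p q s e x.1) (angN p q s e x.1 m) (x.2 / 2 ^ m)) (atTop ×ˢ 𝓝 T)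
      (𝓝 (ray (mu ((p : ℝ) / q)) (th p q m) (T / 2 ^ m))) := by
  have hq : 0 < q := by omega
  have key : ∀ θ : ℝ, Tendsto (fun N => angN p q s e N m) atTop (𝓝 θ) →
      Tendsto (fun x : ℕ × ℝ => ray (lN p q s e x.1) (angN p q s e x.1 m) (x.2 / 2 ^ m)) (atTop ×ˢ 𝓝 T)
      (𝓝 (ray (mu ((p : ℝ) / q)) θ (T / 2 ^ m))) := by
    intro θ hθ
    have hmem : ((mu ((p : ℝ) / q), θ, T / 2 ^ m) : ℂ × ℝ × ℝ) ∈ {x : ℂ × ℝ × ℝ | ‖x.1‖ ≤ 1 ∧ 0 < x.2.2} :=
      ⟨(norm_mu _).le, by simp only []; positivity⟩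
    have hc := ray_continuousOn _ hmem
    refine Tendsto.comp (g := fun x : ℂ × ℝ × ℝ => ray x.1 x.2.1 x.2.2) hc
      (f := fun x : ℕ × ℝ => (lN p q s e x.1, angN p q s e x.1 m, x.2 / 2 ^ m)) ?_
    refine tendsto_nhdsWithin_iff.2 ⟨?_, ?_⟩
    · refine ((GP_lN_tendsto hq hs).comp tendsto_fst).prodMk_nhds ((hθ.comp tendsto_fst).prodMk_nhds ?_)
      exact (tendsto_snd : Tendsto Prod.snd (atTop ×ˢ 𝓝 T) (𝓝 T)).div_const _
    · have h1 : ∀ᶠ x : ℕ × ℝ in atTop ×ˢ 𝓝 T, 0 < x.2 :=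
        (tendsto_snd : Tendsto Prod.snd (atTop ×ˢ 𝓝 T) (𝓝 T)).eventually (lt_mem_nhds hT)
      filter_upwards [h1] with x hx
      exact ⟨(lN_norm p q s e x.1).le, div_pos hx (by positivity)⟩
  rcases Nat.eq_zero_or_pos m with h0 | h0
  · subst h0
    have e0 : th p q 0 = ang p q 0 + ((1 : ℤ) : ℝ) := by
      unfold th gap
      norm_num
      ring
    rw [e0, ray_add_int]
    refine key _ ?_
    have h := ang_tendsto_zero hp hpq (GP2_he hs)
    refine h.congr fun N => ?_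
    unfold angN
    simp [pN, qN]
  · refine key _ ?_
    have h := ((xN_tendsto hp hpq hs).div_const (2 ^ m : ℝ)).const_add (ang p q (-1 - m * p))
    have h2 : ang p q (-1 - m * p) + gap p q / 2 ^ m = th p q m := rfl
    rw [h2] at h
    refine h.congr' ?_
    filter_upwards [eventually_ge_atTop m] with N hN
    exact (angN_eq hp hpq hs N h0 (hN.trans (qN_ge q e N hq))).symm

private theorem GP2_c {p q : ℕ} (hq : 0 < q) (x : ℤ) :
    ((q : ℤ) ∣ x → (-1 + x) / (q : ℤ) = x / q - 1) ∧ (¬ (q : ℤ) ∣ x → (-1 + x) / (q : ℤ) = x / q) := by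
  have hqz : (0 : ℤ) < q := by omega
  have h1 := Int.mul_ediv_add_emod x q
  have h2 := Int.emod_nonneg x hqz.ne'
  have h3 := Int.emod_lt_of_pos x hqz
  constructor
  · intro h
    have h4 := Int.emod_eq_zero_of_dvd h
    refine GP2_div hqz ?_ ?_ <;> nlinarith
  · intro h
    have h4 : x % q ≠ 0 := fun h5 => h (Int.dvd_of_emod_eq_zero h5)
    have h5 : 1 ≤ x % q := by omega
    refine GP2_div hqz ?_ ?_ <;> nlinarith

theorem th_q (hp : 0 < p) (hpq : p < q) (hc : Nat.Coprime p q) : th p q q = ang p q 0 + 1 / 2 := by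
  have hq : 0 < q := by omega
  obtain ⟨r, rfl⟩ : ∃ r, q = r + 2 := ⟨q - 2, by omega⟩
  have s1 := GP2_split hq hpq.le (-1) (r + 2)
  have s0 := GP2_split hq hpq.le 0 (r + 2)
  have e1 : (-1 : ℤ) + ((r + 2 : ℕ) : ℤ) * p = -1 + p * ((r + 2 : ℕ) : ℤ) := by ring
  have e0 : (0 : ℤ) + ((r + 2 : ℕ) : ℤ) * p = 0 + p * ((r + 2 : ℕ) : ℤ) := by ring
  rw [e1, GP2_per hq] at s1
  rw [e0, GP2_per hq] at s0
  have hco : ∀ k : ℕ, 0 < k → k < r + 2 → ¬ (((r + 2 : ℕ) : ℤ) ∣ (k : ℤ) * p) := by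
    intro k h0 hk h
    have h' : (r + 2) ∣ k * p := by exact_mod_cast h
    have h2 : (r + 2) ∣ k := (Nat.Coprime.dvd_mul_right hc.symm).1 h'
    exact absurd (Nat.le_of_dvd h0 h2) (by omega)
  have hc0 : ((-1 : ℤ) + ((0 : ℕ) : ℤ) * p) / ((r + 2 : ℕ) : ℤ) = (0 + ((0 : ℕ) : ℤ) * p) / ((r + 2 : ℕ) : ℤ) - 1 := by
    have h := (GP2_c (p := p) hq (((0 : ℕ) : ℤ) * p)).1 (by simp)
    rw [h, zero_add]
  have hcq : ((-1 : ℤ) + ((r + 2 : ℕ) : ℤ) * p) / ((r + 2 : ℕ) : ℤ) =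
      (0 + ((r + 2 : ℕ) : ℤ) * p) / ((r + 2 : ℕ) : ℤ) - 1 := by
    have h := (GP2_c (p := p) hq (((r + 2 : ℕ) : ℤ) * p)).1 (Dvd.intro _ rfl)
    rw [h, zero_add]
  have hck : ∀ k : ℕ, 0 < k → k < r + 2 → ((-1 : ℤ) + (k : ℤ) * p) / ((r + 2 : ℕ) : ℤ) =
      (0 + (k : ℤ) * p) / ((r + 2 : ℕ) : ℤ) := by
    intro k h0 hk
    have h := (GP2_c (p := p) hq ((k : ℤ) * p)).2 (hco k h0 hk)
    rw [h, zero_add]
  have d0 : dig p (r + 2) (-1) 0 = dig p (r + 2) 0 0 + 1 := by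
    have h1 := hck 1 one_pos (by omega)
    unfold dig
    have g1 : (((0 : ℕ) : ℤ) + 1) = ((1 : ℕ) : ℤ) := by norm_num
    rw [g1, h1, hc0]
    ring
  have dm : ∀ n, n < r → dig p (r + 2) (-1) (n + 1) = dig p (r + 2) 0 (n + 1) := by
    intro n hn
    have h1 := hck (n + 1) (by omega) (by omega)
    have h2 := hck (n + 1 + 1) (by omega) (by omega)
    unfold dig
    have g1 : (((n + 1 : ℕ) : ℤ) + 1) = ((n + 1 + 1 : ℕ) : ℤ) := by push_cast; ring
    rw [g1, h1, h2]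
  have dl : dig p (r + 2) (-1) (r + 1) = dig p (r + 2) 0 (r + 1) - 1 := by
    have h1 := hck (r + 1) (by omega) (by omega)
    unfold dig
    have g1 : (((r + 1 : ℕ) : ℤ) + 1) = ((r + 2 : ℕ) : ℤ) := by push_cast; ring
    rw [g1, h1, hcq]
    ring
  rw [Finset.sum_range_succ, Finset.sum_range_succ', d0, dl,
    Finset.sum_congr rfl (fun n hn => by rw [dm n (Finset.mem_range.1 hn)])] at s1
  rw [Finset.sum_range_succ, Finset.sum_range_succ'] at s0
  unfold th gap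
  have e3 : (-1 : ℤ) - ((r + 2 : ℕ) : ℤ) * p = -1 + (-(p : ℤ)) * ((r + 2 : ℕ) : ℤ) := by ring
  rw [e3, GP2_per hq]
  set S := ∑ n ∈ Finset.range r, (dig p (r + 2) 0 (n + 1) : ℝ) / 2 ^ (n + 1 + 1)
  set A := ang p (r + 2) (-1)
  set B := ang p (r + 2) 0
  push_cast at s1 s0
  have hpow : (2 : ℝ) ^ (r + 1 + 1) = 2 ^ (r + 2) := rfl
  rw [hpow] at s1 s0
  have h2 : (2 : ℝ) ^ (r + 2) ≠ 0 := by positivity
  have h3 : A - B = 1 / 2 - 1 / 2 ^ (r + 2) + (A - B) / 2 ^ (r + 2) := by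
    linear_combination s1 - s0
  have h4 : A + (1 + B - A) / 2 ^ (r + 2) = B + 1 / 2 := by
    have h5 : A = B + (1 / 2 - 1 / 2 ^ (r + 2) + (A - B) / 2 ^ (r + 2)) := by linarith
    calc A + (1 + B - A) / 2 ^ (r + 2) = (B + (1 / 2 - 1 / 2 ^ (r + 2) + (A - B) / 2 ^ (r + 2))) +
        (1 + B - A) / 2 ^ (r + 2) := by rw [← h5]
      _ = B + 1 / 2 := by ring
  exact h4

theorem ray_th_q (hp : 0 < p) (hpq : p < q) (hc : Nat.Coprime p q) {l : ℂ} (hl : ‖l‖ ≤ 1) {t : ℝ} (ht : 0 < t) :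
    ray l (th p q q) t = - l - ray l (ang p q 0) t := by
  rw [th_q hp hpq hc]
  unfold ray
  set w := Complex.exp ((t : ℂ) + 2 * Real.pi * (ang p q 0 : ℂ) * Complex.I) with hw
  have h1 : Complex.exp ((t : ℂ) + 2 * Real.pi * ((ang p q 0 + 1 / 2 : ℝ) : ℂ) * Complex.I) = -w := by
    have e1 : (t : ℂ) + 2 * Real.pi * ((ang p q 0 + 1 / 2 : ℝ) : ℂ) * Complex.I =
        ((t : ℂ) + 2 * Real.pi * (ang p q 0 : ℂ) * Complex.I) + Real.pi * Complex.I := by
      push_cast; ring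
    rw [e1, Complex.exp_add, Complex.exp_pi_mul_I, hw]
    ring
  have h2 : 1 < ‖w‖ := by
    rw [hw, Complex.norm_exp]
    have : ((t : ℂ) + 2 * Real.pi * (ang p q 0 : ℂ) * Complex.I).re = t := by simp
    rw [this]
    exact Real.one_lt_exp_iff.2 ht
  rw [h1, ← psi_neg hl h2]
  ring

end Pool.Agent.CR
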