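import Pool.Agent.H48.CR.Chart
import Pool.Agent.H33.CR.Inj
import Pool.Agent.H33.CR.GC

/-!
# CR GP3: backward orbits over a compact connected set enter one repelling sheet

`Lf r`: the left part of a sheet.

Proof of `bk`. Put `l0 = mu (p/q)`, `R1 = max R' (c.R + 10)` (`Lf` is decreasing). Take `r > 0` with (for `0 < ‖z‖ < r`): `Y0 z = I / X z ^ q`, `X z ≠ 0` (`Y0_eq`), `‖Y0 (f z) - Y0 z - 1‖ ≤ 1/64` (`Y0_map`), `X` continuous on `ball 0 r` (`X_an`), and `Y0_surj (R2)` holds,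
where `R2 ≥ 2 R1 + 2` is so large that `‖Y0 (W0 j w) - w‖ ≤ ‖w‖/100` for `‖w‖ > R2` (`Y0_W0`). Let `k1` with `‖z k x‖ < r` for `k ≥ k1`, `x ∈ S`. `Y0 ∘ z k1` is continuous on the compact set `S` (`z ≠ 0`), so `‖Y0 (z k1 x)‖ ≤ B`. By induction `‖Y0 (z (k1 + i) x) - Y0 (z k1 x) + i‖ ≤ i/64`.
So for `i ≥ i0`, `i0 ≥ 64 (B + 1 + R2)`: `y = Y0 (z (k1 + i) x)` has `y.re ≤ -31 i/32`, `|y.im| ≤ i/32 ≤ -y.re/31`. `Y0_surj R2`: `z = W0 j w`, `w ∈ Wd0`, `‖w‖ > R2`, `‖y - w‖ ≤ ‖w‖/100`, so `‖w‖ ≤ 1.02 ‖y‖ ≤ 1.07 (-y.re)`, `‖y - w‖ ≤ 0.0107 (-y.re)`. Hence `w.re ≤ 0.98 y.re < -R1`, `|w.im| ≤ 0.044 (-y.re) < -w.re/8`: `w ∈ Lf R1`.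
For each `k ≥ k2 = k1 + i0` the sets `{x ∈ S | z k x ∈ W0 j '' (Wd0 R ∩ Lf R1)}` (`0 ≤ j < q` by `per0`) cover `S`, are relatively open (`isOpen_image_of_injOn`-type: the image is open because `W0 j` is injective and holomorphic: `GB`, or the open mapping theorem) and disjoint for different `j` in `[0,q)` (`inj0`);
`S` is preconnected and nonempty: one `j k ∈ [0,q)` works for all `x ∈ S`. Step: `z (k+1) x = W0 (j (k+1)) w'`, `w' ∈ Lf R1`, so `w' + 1 ∈ Wi0 R` and `map0`: `z k x = f (z (k+1) x) = W0 (j (k+1) + p) (w' + 1 + δ)`, where `w' + 1 + δ ∈ Wd0` (`‖δ‖ ≤ 1/8`); `inj0`: `j (k+1) + p ≡ j k (mod q)`. So `j k + k p` is constant mod `q` for `k ≥ k2`: `j := j k2 + k2 p`,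
and `W0 (j k) w = W0 (j - k p) w` by periodicity (`GH_per`-like: `per0` iterated for integers, proved here as `W0_per`).
The index `j` does not depend on `R'` modulo `q` (compare two of them for a large `k` at one point of `S`, `inj0`): fix the `j` obtained for `R' = 0` and use `W0_per`.
`isOpen_Lf`, `Lf_mono`, `Lf_sub`: elementary.
-/

set_option autoImplicit false

open Set Filter Topology Metric

namespace Pool.Agent.CR

variable {p q s e : ℕ}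

/-- the left part of a sheet -/
def Lf (r : ℝ) : Set ℂ := {w | w.re < -r ∧ |w.im| < -w.re / 8}

theorem isOpen_Lf (r : ℝ) : IsOpen (Lf r) := by
  have h1 : IsOpen {w : ℂ | w.re < -r} := isOpen_lt Complex.continuous_re continuous_const
  have h2 : IsOpen {w : ℂ | |w.im| < -w.re / 8} :=
    isOpen_lt (continuous_abs.comp Complex.continuous_im) (Complex.continuous_re.neg.div_const 8)
  exact h1.inter h2

theorem Lf_mono {r r' : ℝ} (h : r ≤ r') : Lf r' ⊆ Lf r := by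
  intro w hw
  exact ⟨by linarith [hw.1], hw.2⟩

theorem Lf_sub {R r : ℝ} (hR : 4 ≤ R) (hr : R + 2 ≤ r) {w : ℂ} (hw : w ∈ Lf r) :
    w ∈ Wd0 R ∧ w ∈ Wi0 R ∧ w + 1 ∈ Wi0 R := by
  obtain ⟨h1, h2⟩ := hw
  have h3 : -w.re ≤ ‖w‖ := (neg_le_abs w.re).trans (Complex.abs_re_le_norm w)
  have h4 : -w.im ≤ |w.im| := neg_le_abs w.im
  have h5 : -w.re ≤ |w.re| := neg_le_abs w.re
  have h6 : -(w + 1).re ≤ ‖w + 1‖ := (neg_le_abs (w + 1).re).trans (Complex.abs_re_le_norm (w + 1))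
  have h7 : -(w + 1).re ≤ |(w + 1).re| := neg_le_abs (w + 1).re
  have e1 : (w + 1).re = w.re + 1 := by simp
  have e2 : (w + 1).im = w.im := by simp
  rw [e1] at h6 h7
  refine ⟨⟨by linarith, by linarith⟩, ⟨by linarith, by linarith⟩, ⟨by linarith, ?_⟩⟩
  rw [e1, e2]
  linarith

theorem W0_per (c : Chart p q s e) (j k : ℤ) (w : ℂ) : c.W0 (j + k * q) w = c.W0 j w := by
  induction k using Int.induction_on with
  | zero => simp
  | succ i ih =>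
    have e : j + ((i : ℤ) + 1) * q = j + (i : ℤ) * q + q := by ring
    rw [e, c.per0, ih]
  | pred i ih =>
    have e : j + (-(i : ℤ)) * q = j + (-(i : ℤ) - 1) * q + q := by ring
    rw [e, c.per0] at ih
    exact ih

theorem isOpen_W0_image (c : Chart p q s e) (j : ℤ) {U : Set ℂ} (hU : IsOpen U) (h : U ⊆ Wd0 c.R) :
    IsOpen (c.W0 j '' U) := by
  rw [isOpen_iff_mem_nhds]
  rintro _ ⟨x, hx, rfl⟩
  have hxd : x ∈ Wd0 c.R := h hx
  have hinj : InjOn (c.W0 j) (Wd0 c.R) := fun a ha b hb hab => (c.inj0 j j a ha b hb hab).1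
  have hne := deriv_ne_of_injOn (isOpen_Wd0 c.R) (c.diff0 j) hinj hxd
  have han : AnalyticAt ℂ (c.W0 j) x := (c.diff0 j).analyticAt ((isOpen_Wd0 c.R).mem_nhds hxd)
  have hmap := han.hasStrictDerivAt.map_nhds_eq hne
  rw [← hmap]
  exact image_mem_map (hU.mem_nhds hx)

private theorem GP3_Lf_of {a r : ℝ} (ha : 0 < a) (hr : 2 * r ≤ a) {y w : ℂ} (h1 : ‖y + a‖ ≤ a / 32)
    (h2 : ‖y - w‖ ≤ ‖w‖ / 100) : w ∈ Lf r := by
  have h3 : |y.re + a| ≤ a / 32 := by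
    have h := (Complex.abs_re_le_norm (y + a)).trans h1
    have e : (y + a).re = y.re + a := by simp
    rwa [e] at h
  have h4 : |y.im| ≤ a / 32 := by
    have h := (Complex.abs_im_le_norm (y + a)).trans h1
    have e : (y + a).im = y.im := by simp
    rwa [e] at h
  have h5 : ‖y‖ ≤ a + a / 32 := by
    have e : y = (y + a) - a := by ring
    have h := norm_sub_le (y + a) (a : ℂ)
    rw [← e, Complex.norm_of_nonneg ha.le] at h
    linarith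
  have h6 : ‖w‖ ≤ ‖y‖ + ‖y - w‖ := by
    have e : w = y - (y - w) := by ring
    have h := norm_sub_le y (y - w)
    rwa [← e] at h
  have h7 : |y.re - w.re| ≤ ‖w‖ / 100 := by
    have h := (Complex.abs_re_le_norm (y - w)).trans h2
    rwa [Complex.sub_re] at h
  have h8 : |y.im - w.im| ≤ ‖w‖ / 100 := by
    have h := (Complex.abs_im_le_norm (y - w)).trans h2
    rwa [Complex.sub_im] at h
  have h9 := abs_le.1 h3
  have h10 := abs_le.1 h4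
  have h11 := abs_le.1 h7
  have h12 := abs_le.1 h8
  refine ⟨by linarith [h9.2, h11.1], ?_⟩
  rw [abs_lt]
  constructor
  · linarith [h9.2, h11.1, h10.1, h12.2]
  · linarith [h9.2, h11.1, h10.2, h12.1]

private theorem GP3_near {R : ℝ} (hR : 4 ≤ R) {w d : ℂ} (hw : w ∈ Lf (R + 10)) (hd : ‖d‖ ≤ 1 / 8) :
    w + 1 + d ∈ Wd0 R := by
  obtain ⟨h1, h2⟩ := hw
  have h3 := abs_le.1 ((Complex.abs_re_le_norm d).trans hd)
  have h4 := abs_le.1 ((Complex.abs_im_le_norm d).trans hd)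
  have h5 := (neg_le_abs (w + 1 + d).re).trans (Complex.abs_re_le_norm (w + 1 + d))
  have h6 := neg_le_abs (w + 1 + d).re
  have e1 : (w + 1 + d).re = w.re + 1 + d.re := by simp
  have e2 : (w + 1 + d).im = w.im + d.im := by simp
  have h7 := neg_le_abs w.im
  rw [e1] at h5 h6
  refine ⟨by linarith [h3.2], ?_⟩
  rw [e1, e2]
  linarith [h3.2, h4.1]

private theorem GP3_sheet (c : Chart p q s e) {Z : Type*} [TopologicalSpace Z] {S : Set Z}
    (hSc : IsCompact S) (z : ℕ → Z → ℂ) (hc : ∀ k, ContinuousOn (z k) S)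
    (h0 : ∀ k, ∀ x ∈ S, z k x ≠ 0) (hf : ∀ k, ∀ x ∈ S, f (mu ((p : ℝ) / q)) (z (k + 1) x) = z k x)
    (hz : ∀ ε : ℝ, 0 < ε → ∃ k0 : ℕ, ∀ k ≥ k0, ∀ x ∈ S, ‖z k x‖ < ε) (R' : ℝ) :
    ∃ k0 : ℕ, ∀ k ≥ k0, ∀ x ∈ S, ∃ (j : ℤ) (w : ℂ), w ∈ Wd0 c.R ∧ w ∈ Lf R' ∧ z k x = c.W0 j w := by
  obtain ⟨R2, hR2⟩ := c.Y0_W0 (1 / 100) (by norm_num)
  obtain ⟨r1, hr1, hY1⟩ := c.Y0_eq
  obtain ⟨r2, hr2, hY2⟩ := c.Y0_map (1 / 64) (by norm_num)
  obtain ⟨r3, hr3, hY3⟩ := c.Y0_surj R2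
  obtain ⟨r4, hr4, hX4⟩ : ∃ r4 : ℝ, 0 < r4 ∧ ∀ y ∈ ball (0 : ℂ) r4, ContinuousAt c.X y := by
    have h := c.X_an.eventually_analyticAt
    obtain ⟨r4, hr4, h⟩ := Metric.eventually_nhds_iff_ball.1 h
    exact ⟨r4, hr4, fun y hy => (h y hy).continuousAt⟩
  obtain ⟨k1, hk1⟩ := hz (min (min r1 r2) (min r3 r4)) (lt_min (lt_min hr1 hr2) (lt_min hr3 hr4))
  have hl1 : ∀ k ≥ k1, ∀ x ∈ S, ‖z k x‖ < r1 := fun k hk x hx =>
    lt_of_lt_of_le (hk1 k hk x hx) ((min_le_left _ _).trans (min_le_left _ _))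
  have hl2 : ∀ k ≥ k1, ∀ x ∈ S, ‖z k x‖ < r2 := fun k hk x hx =>
    lt_of_lt_of_le (hk1 k hk x hx) ((min_le_left _ _).trans (min_le_right _ _))
  have hl3 : ∀ k ≥ k1, ∀ x ∈ S, ‖z k x‖ < r3 := fun k hk x hx =>
    lt_of_lt_of_le (hk1 k hk x hx) ((min_le_right _ _).trans (min_le_left _ _))
  have hl4 : ∀ k ≥ k1, ∀ x ∈ S, ‖z k x‖ < r4 := fun k hk x hx =>
    lt_of_lt_of_le (hk1 k hk x hx) ((min_le_right _ _).trans (min_le_right _ _))
  have hcY : ContinuousOn (fun x => c.Y0 (z k1 x)) S := by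
    have h1 : ContinuousOn (fun x => Complex.I / c.X (z k1 x) ^ q) S := by
      intro x hx
      have hX : ContinuousAt c.X (z k1 x) := hX4 _ (by
        rw [mem_ball_zero_iff]
        exact hl4 k1 le_rfl x hx)
      have h2 : ContinuousWithinAt (fun x => c.X (z k1 x)) S x :=
        ContinuousAt.comp_continuousWithinAt (f := z k1) (g := c.X) hX (hc k1 x hx)
      have h3 := (hY1 _ (h0 k1 x hx) (hl1 k1 le_rfl x hx)).1
      exact continuousWithinAt_const.div (h2.pow q) (pow_ne_zero _ h3)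
    exact h1.congr fun x hx => (hY1 _ (h0 k1 x hx) (hl1 k1 le_rfl x hx)).2
  obtain ⟨B, hB⟩ := hSc.exists_bound_of_continuousOn hcY
  obtain ⟨i0, hi0⟩ := exists_nat_ge (64 * |B| + 2 * |R'| + 1)
  refine ⟨k1 + i0, fun k hk x hx => ?_⟩
  obtain ⟨i, rfl⟩ : ∃ i, k = k1 + i := ⟨k - k1, by omega⟩
  have hi : i0 ≤ i := by omega
  have hi' : (i0 : ℝ) ≤ i := by exact_mod_cast hi
  have hind : ∀ i : ℕ, ‖c.Y0 (z (k1 + i) x) - c.Y0 (z k1 x) + i‖ ≤ (i : ℝ) / 64 := by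
    intro i
    induction i with
    | zero => simp
    | succ i ih =>
      have h1 := hY2 _ (h0 (k1 + i + 1) x hx) (hl2 (k1 + i + 1) (by omega) x hx)
      rw [hf (k1 + i) x hx] at h1
      have e : c.Y0 (z (k1 + (i + 1)) x) - c.Y0 (z k1 x) + ((i + 1 : ℕ) : ℂ) =
          (c.Y0 (z (k1 + i) x) - c.Y0 (z k1 x) + i) -
            (c.Y0 (z (k1 + i) x) - c.Y0 (z (k1 + i + 1) x) - 1) := by
        rw [← add_assoc k1 i 1]
        push_cast
        ring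
      rw [e]
      refine (norm_sub_le _ _).trans ?_
      push_cast
      linarith
  have hBx := hB x hx
  have hB1 := le_abs_self B
  have hR1 := le_abs_self R'
  have hB0 := abs_nonneg B
  have hR0 := abs_nonneg R'
  have hipos : (0 : ℝ) < i := by linarith
  have hy : ‖c.Y0 (z (k1 + i) x) + ((i : ℝ) : ℂ)‖ ≤ (i : ℝ) / 32 := by
    have e : c.Y0 (z (k1 + i) x) + ((i : ℝ) : ℂ) =
        (c.Y0 (z (k1 + i) x) - c.Y0 (z k1 x) + i) + c.Y0 (z k1 x) := by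
      push_cast
      ring
    rw [e]
    refine (norm_add_le _ _).trans ?_
    have h1 := hind i
    linarith
  have h3 : |(c.Y0 (z (k1 + i) x)).re + i| ≤ (i : ℝ) / 32 := by
    have h := (Complex.abs_re_le_norm (c.Y0 (z (k1 + i) x) + ((i : ℝ) : ℂ))).trans hy
    have e : (c.Y0 (z (k1 + i) x) + ((i : ℝ) : ℂ)).re = (c.Y0 (z (k1 + i) x)).re + i := by
      rw [Complex.add_re, Complex.ofReal_re]
    rwa [e] at h
  have h4 : |(c.Y0 (z (k1 + i) x)).im| ≤ (i : ℝ) / 32 := by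
    have h := (Complex.abs_im_le_norm (c.Y0 (z (k1 + i) x) + ((i : ℝ) : ℂ))).trans hy
    have e : (c.Y0 (z (k1 + i) x) + ((i : ℝ) : ℂ)).im = (c.Y0 (z (k1 + i) x)).im := by
      rw [Complex.add_im, Complex.ofReal_im, add_zero]
    rwa [e] at h
  have hcond : -(c.Y0 (z (k1 + i) x)).im < |(c.Y0 (z (k1 + i) x)).re| / 2 := by
    have h5 := abs_le.1 h3
    have h6 := neg_le_abs (c.Y0 (z (k1 + i) x)).im
    have h7 := neg_le_abs (c.Y0 (z (k1 + i) x)).re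
    linarith [h5.2]
  obtain ⟨j, w, hw1, hw2, hw3⟩ := hY3 _ (h0 (k1 + i) x hx) (hl3 (k1 + i) (by omega) x hx) hcond
  have h8 := hR2 j w hw1 hw2
  rw [hw3] at h8
  refine ⟨j, w, hw1, ?_, hw3.symm⟩
  refine GP3_Lf_of hipos (by linarith) hy ?_
  linarith

/-- **Backward orbits over a compact connected set enter one repelling sheet.** -/
theorem bk (hq : 0 < q) (c : Chart p q s e) {Z : Type*} [TopologicalSpace Z] {S : Set Z} (hS : IsPreconnected S)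
    (hSc : IsCompact S) (hne : S.Nonempty) (z : ℕ → Z → ℂ) (hc : ∀ k, ContinuousOn (z k) S)
    (h0 : ∀ k, ∀ x ∈ S, z k x ≠ 0) (hf : ∀ k, ∀ x ∈ S, f (mu ((p : ℝ) / q)) (z (k + 1) x) = z k x)
    (hz : ∀ ε : ℝ, 0 < ε → ∃ k0 : ℕ, ∀ k ≥ k0, ∀ x ∈ S, ‖z k x‖ < ε) :
    ∃ j : ℤ, ∀ R' : ℝ, ∃ k0 : ℕ, ∀ k ≥ k0, ∀ x ∈ S, ∃ w : ℂ, w ∈ Wd0 c.R ∧ w ∈ Lf R' ∧ z k x = c.W0 (j - k * p) w := by
  have hR := c.R_ge
  have hsh := GP3_sheet c hSc z hc h0 hf hz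
  obtain ⟨k2, hk2⟩ := hsh (c.R + 10)
  have hLW : Lf (c.R + 10) ⊆ Wd0 c.R := fun w hw => (Lf_sub hR (by linarith) hw).1
  have hone : ∀ k ≥ k2, ∃ j : ℤ, ∀ x ∈ S, ∃ w, w ∈ Wd0 c.R ∧ w ∈ Lf (c.R + 10) ∧ z k x = c.W0 j w := by
    intro k hk
    obtain ⟨x0, hx0⟩ := hne
    obtain ⟨j0, w0, hw0, hw0', e0⟩ := hk2 k hk x0 hx0
    refine ⟨j0, ?_⟩
    have hu : IsOpen (c.W0 j0 '' Lf (c.R + 10)) := isOpen_W0_image c j0 (isOpen_Lf _) hLW
    have hv : IsOpen (⋃ (j : ℤ) (_ : ¬ (q : ℤ) ∣ j - j0), c.W0 j '' Lf (c.R + 10)) :=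
      isOpen_iUnion fun j => isOpen_iUnion fun _ => isOpen_W0_image c j (isOpen_Lf _) hLW
    have hdisj : Disjoint (c.W0 j0 '' Lf (c.R + 10))
        (⋃ (j : ℤ) (_ : ¬ (q : ℤ) ∣ j - j0), c.W0 j '' Lf (c.R + 10)) := by
      rw [Set.disjoint_left]
      rintro _ ⟨w, hw, rfl⟩ hv'
      simp only [Set.mem_iUnion] at hv'
      obtain ⟨j, hj, w', hw', e⟩ := hv'
      obtain ⟨_, m, hm⟩ := c.inj0 j0 j w (hLW hw) w' (hLW hw') e.symm
      exact hj ⟨m, by rw [hm]; ring⟩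
    have hcov : z k '' S ⊆ (c.W0 j0 '' Lf (c.R + 10)) ∪
        (⋃ (j : ℤ) (_ : ¬ (q : ℤ) ∣ j - j0), c.W0 j '' Lf (c.R + 10)) := by
      rintro _ ⟨x, hx, rfl⟩
      obtain ⟨j, w, hw, hw', e⟩ := hk2 k hk x hx
      by_cases hj : (q : ℤ) ∣ j - j0
      · left
        obtain ⟨m, hm⟩ := hj
        refine ⟨w, hw', ?_⟩
        rw [e]
        have e1 : j = j0 + m * q := by
          have e2 : j = j0 + (j - j0) := by ring
          rw [e2, hm]
          ring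
        rw [e1, W0_per]
      · right
        simp only [Set.mem_iUnion]
        exact ⟨j, hj, w, hw', e.symm⟩
    have hsub := IsPreconnected.subset_left_of_subset_union hu hv hdisj hcov
      ⟨z k x0, ⟨x0, hx0, rfl⟩, w0, hw0', e0.symm⟩ (hS.image _ (hc k))
    intro x hx
    obtain ⟨w, hw, e⟩ := hsub ⟨x, hx, rfl⟩
    exact ⟨w, hLW hw, hw, e.symm⟩
  obtain ⟨j2, hj2⟩ := hone k2 le_rfl
  have hall : ∀ i : ℕ, ∀ x ∈ S, ∃ w, w ∈ Wd0 c.R ∧ w ∈ Lf (c.R + 10) ∧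
      z (k2 + i) x = c.W0 (j2 - i * p) w := by
    intro i
    induction i with
    | zero =>
      intro x hx
      obtain ⟨w, h1, h2, h3⟩ := hj2 x hx
      refine ⟨w, h1, h2, ?_⟩
      simpa using h3
    | succ i ih =>
      obtain ⟨j', hj'⟩ := hone (k2 + (i + 1)) (by omega)
      obtain ⟨x0, hx0⟩ := hne
      obtain ⟨w, hw1, hw2, hw3⟩ := ih x0 hx0
      obtain ⟨w', hw1', hw2', hw3'⟩ := hj' x0 hx0
      have hL := Lf_sub hR (by linarith) hw2'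
      have hδ := (c.δ0_small j' w' hw1' hL.2.2).1
      have hm := c.map0 j' w' hw1' hL.2.2
      have hmem : w' + 1 + c.δ0 j' w' ∈ Wd0 c.R := GP3_near hR hw2' hδ
      have e : c.W0 (j' + p) (w' + 1 + c.δ0 j' w') = c.W0 (j2 - i * p) w := by
        rw [← hm, ← hw3', ← hw3]
        exact hf (k2 + i) x0 hx0
      obtain ⟨_, m, hm'⟩ := c.inj0 _ _ _ hmem _ hw1 e
      intro x hx
      obtain ⟨w'', a1, a2, a3⟩ := hj' x hx
      refine ⟨w'', a1, a2, ?_⟩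
      rw [a3]
      have e2 : j' = (j2 - ((i + 1 : ℕ) : ℤ) * p) + (-m) * q := by
        push_cast
        linarith
      rw [e2, W0_per]
  refine ⟨j2 + k2 * p, fun R' => ?_⟩
  obtain ⟨k3, hk3⟩ := hsh R'
  refine ⟨max k2 k3, fun k hk x hx => ?_⟩
  have hk2' : k2 ≤ k := (le_max_left _ _).trans hk
  have hk3' : k3 ≤ k := (le_max_right _ _).trans hk
  obtain ⟨i, rfl⟩ : ∃ i, k = k2 + i := ⟨k - k2, by omega⟩
  obtain ⟨w, hw1, hw2, hw3⟩ := hall i x hx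
  obtain ⟨j', w', b1, b2, b3⟩ := hk3 (k2 + i) hk3' x hx
  have e : c.W0 (j2 - i * p) w = c.W0 j' w' := hw3.symm.trans b3
  have hww := (c.inj0 _ _ w hw1 w' b1 e).1
  refine ⟨w, hw1, ?_, ?_⟩
  · rw [hww]
    exact b2
  · rw [hw3]
    congr 1
    push_cast
    ring

end Pool.Agent.CR
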