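import Pool.Agent.H48.CR.Chart

/-!
# CR GP4: relabelling the sheets of a chart

`c.shift j0`: `W N w := c.W N (w + j0 n)`, `n = qN q e N`, `δ N w := c.δ N (w + j0 n)`, `W0 j := c.W0 (j + j0)`, `δ0 j := c.δ0 (j + j0)`, `X z := exp (-2 π i j0 / q) * c.X z`, `Y0 := c.Y0`, the same `R`, `C`, `N0`.
All fields are immediate from the fields of `c`: `Wd n R`, `Wi n R` are invariant under `w ↦ w + j0 n` (shift `k` by `j0`), `w + q n + j0 n = (w + j0 n) + q n`, `w + p n + 1 + δ + j0 n`, `w + j n + j0 n = w + (j + j0) n`.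
`topc`: `c.W N (w + j0 n) = g (exp (2 π i (w + j0 n)/(q n))) = g (ω exp (2 π i w/(q n)))`, `ω = exp (2 π i j0/q)`: the new function is `z ↦ g (ω z)`, the same `M`.
`lim`, `δ_lim`: `c.lim (j + j0)` (the functions are equal: `w + j n + j0 n = w + (j + j0 : ℤ) n`). `X_W0`: `exp (-2 π i j0/q) exp (2 π i (j + j0)/q) = exp (2 π i j/q)` and `‖exp (-2 π i j0/q)‖ = 1`. `Y0_eq`: `(exp (-2 π i j0/q))^q = exp (-2 π i j0) = 1`.

-/

set_option autoImplicit false

open Set Filter Topology Metric

namespace Pool.Agent.CR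

variable {p q s e : ℕ}

theorem exists_shift (hq : 0 < q) (c : Chart p q s e) (j0 : ℤ) :
    ∃ c' : Chart p q s e, c'.R = c.R ∧ ∀ (j : ℤ) (w : ℂ), c'.W0 j w = c.W0 (j + j0) w := by
  have hqC : (q : ℂ) ≠ 0 := by exact_mod_cast hq.ne'
  set ω : ℂ := Complex.exp (-(2 * Real.pi * Complex.I * j0 / q)) with hω
  have hω1 : ‖ω‖ = 1 := by
    have e1 : -(2 * Real.pi * Complex.I * j0 / q) = ((-(2 * Real.pi * j0 / q) : ℝ) : ℂ) * Complex.I := by
      push_cast
      ring
    rw [hω, e1, Complex.norm_exp_ofReal_mul_I]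
  have hω0 : ω ≠ 0 := Complex.exp_ne_zero _
  have hωq : ω ^ q = 1 := by
    rw [hω, ← Complex.exp_nat_mul, Complex.exp_eq_one_iff]
    refine ⟨-j0, ?_⟩
    push_cast
    field_simp
  have hsh : ∀ (n : ℝ) (w : ℂ) (k : ℤ), w + j0 * n - k * n = w - ((k - j0 : ℤ) : ℂ) * n := by
    intro n w k
    push_cast
    ring
  have hre : ∀ (n : ℝ) (w : ℂ) (k : ℤ), (w + j0 * n).re - k * n = w.re - ((k - j0 : ℤ) : ℝ) * n := by
    intro n w k
    rw [Complex.add_re, ← Complex.ofReal_intCast, ← Complex.ofReal_mul, Complex.ofReal_re]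
    push_cast
    ring
  have him : ∀ (n : ℝ) (w : ℂ), (w + j0 * n).im = w.im := by
    intro n w
    rw [Complex.add_im, ← Complex.ofReal_intCast, ← Complex.ofReal_mul, Complex.ofReal_im, add_zero]
  have hWd : ∀ (n R : ℝ) (w : ℂ), w ∈ Wd n R → w + j0 * n ∈ Wd n R := by
    intro n R w hw k
    have h := hw (k - j0)
    rw [hsh, hre, him]
    exact h
  have hWi : ∀ (n R : ℝ) (w : ℂ), w ∈ Wi n R → w + j0 * n ∈ Wi n R := by
    intro n R w hw k
    have h := hw (k - j0)
    rw [hsh, hre, him]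
    exact h
  have hWd' : ∀ (N : ℕ) (w : ℂ), w ∈ Wd (qN q e N) c.R → w + j0 * (qN q e N : ℂ) ∈ Wd (qN q e N) c.R := by
    intro N w hw
    have h := hWd (qN q e N) c.R w hw
    rwa [Complex.ofReal_natCast] at h
  have hWi' : ∀ (N : ℕ) (w : ℂ), w + 1 ∈ Wi (qN q e N) c.R →
      w + j0 * (qN q e N : ℂ) + 1 ∈ Wi (qN q e N) c.R := by
    intro N w hw
    have h := hWi (qN q e N) c.R (w + 1) hw
    rw [Complex.ofReal_natCast] at h
    have e1 : w + j0 * (qN q e N : ℂ) + 1 = w + 1 + j0 * (qN q e N : ℂ) := by ring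
    rwa [e1]
  have hdist : ∀ (N : ℕ) (w : ℂ) (r : ℝ), (∀ k : ℤ, r ≤ ‖w - k * qN q e N‖) →
      ∀ k : ℤ, r ≤ ‖w + j0 * (qN q e N : ℂ) - k * qN q e N‖ := by
    intro N w r h k
    have h1 := h (k - j0)
    have e1 : w + j0 * (qN q e N : ℂ) - k * qN q e N = w - ((k - j0 : ℤ) : ℂ) * qN q e N := by
      push_cast
      ring
    rwa [e1]
  have hsd : ∀ (N : ℕ), Differentiable ℂ (fun w : ℂ => w + j0 * (qN q e N : ℂ)) := by
    intro N
    fun_prop
  refine ⟨{ R := c.R
            C := c.C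
            N0 := c.N0
            W := fun N w => c.W N (w + j0 * qN q e N)
            δ := fun N w => c.δ N (w + j0 * qN q e N)
            W0 := fun j w => c.W0 (j + j0) w
            δ0 := fun j w => c.δ0 (j + j0) w
            R_ge := c.R_ge
            C_pos := c.C_pos
            n_ge := c.n_ge
            diff := ?_
            per := ?_
            inj := ?_
            ne_zero := ?_
            small := ?_
            δ_diff := ?_
            δ_small := ?_
            map := ?_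
            topc := ?_
            lim := ?_
            δ_lim := ?_
            diff0 := fun j => c.diff0 (j + j0)
            per0 := ?_
            inj0 := ?_
            ne_zero0 := fun j => c.ne_zero0 (j + j0)
            small0 := fun j => c.small0 (j + j0)
            δ0_diff := fun j => c.δ0_diff (j + j0)
            δ0_small := fun j => c.δ0_small (j + j0)
            map0 := ?_
            X := fun z => ω * c.X z
            X_an := analyticAt_const.mul c.X_an
            X_zero := by rw [c.X_zero, mul_zero]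
            X_deriv := ?_
            X_W0 := ?_
            Y0 := c.Y0
            Y0_eq := ?_
            Y0_map := c.Y0_map
            Y0_large := c.Y0_large
            Y0_surj := ?_
            Y0_W0 := ?_ }, rfl, fun j w => rfl⟩
  · intro N hN
    exact (c.diff N hN).comp (hsd N).differentiableOn fun w hw => hWd' N w hw
  · intro N hN w hw
    have h := c.per N hN _ (hWd' N w hw)
    have e1 : w + (q : ℂ) * qN q e N + j0 * qN q e N = w + j0 * qN q e N + (q : ℂ) * qN q e N := by ring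
    show c.W N (w + (q : ℂ) * qN q e N + j0 * qN q e N) = c.W N (w + j0 * qN q e N)
    rw [e1, h]
  · intro N hN w hw w' hw' h
    obtain ⟨k, hk⟩ := c.inj N hN _ (hWd' N w hw) _ (hWd' N w' hw') h
    exact ⟨k, by linear_combination hk⟩
  · intro N hN w hw
    exact c.ne_zero N hN _ (hWd' N w hw)
  · intro N hN w hw r hr h
    exact c.small N hN _ (hWd' N w hw) r hr (hdist N w r h)
  · intro N hN
    exact (c.δ_diff N hN).comp (hsd N).differentiableOn fun w hw => ⟨hWd' N w hw.1, hWi' N w hw.2⟩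
  · intro N hN w hw hw1
    have h := c.δ_small N hN _ (hWd' N w hw) (hWi' N w hw1)
    exact ⟨h.1, fun r hr h' => h.2 r hr (hdist N w r h')⟩
  · intro N hN w hw hw1
    have h := c.map N hN _ (hWd' N w hw) (hWi' N w hw1)
    show f (lN p q s e N) (c.W N (w + j0 * qN q e N)) = _
    rw [h]
    congr 1
    ring
  · intro N hN
    obtain ⟨g, hg1, hg2, hg3, M, hM⟩ := c.topc N hN
    have hn0 : (qN q e N : ℂ) ≠ 0 := by
      have h1 := c.n_ge N hN
      have h2 := c.R_ge
      have h3 : (0 : ℝ) < qN q e N := by linarith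
      exact_mod_cast h3.ne'
    have hlin : HasDerivAt (fun z : ℂ => ω⁻¹ * z) ω⁻¹ 0 := by
      simpa using (hasDerivAt_id (0 : ℂ)).const_mul ω⁻¹
    have hg1' : AnalyticAt ℂ g (ω⁻¹ * 0) := by rwa [mul_zero]
    refine ⟨fun z => g (ω⁻¹ * z), ?_, ?_, ?_, M, ?_⟩
    · exact AnalyticAt.comp (g := g) (f := fun z : ℂ => ω⁻¹ * z) hg1'
        (analyticAt_const.mul analyticAt_id)
    · show g (ω⁻¹ * 0) = 0
      rw [mul_zero, hg2]
    · have h1 : HasDerivAt (fun z : ℂ => g (ω⁻¹ * z)) (deriv g 0 * ω⁻¹) 0 := by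
        have h2 : HasDerivAt g (deriv g 0) (ω⁻¹ * 0) := by
          rw [mul_zero]
          exact hg1.differentiableAt.hasDerivAt
        exact h2.comp (0 : ℂ) hlin
      rw [h1.deriv]
      exact mul_ne_zero hg3 (inv_ne_zero hω0)
    · intro w hw
      have h1 := hM (w + j0 * qN q e N) (by
        have := him (qN q e N) w
        rw [Complex.ofReal_natCast] at this
        rw [this]
        exact hw)
      show c.W N (w + j0 * qN q e N) = g (ω⁻¹ * _)
      rw [h1]
      congr 1
      rw [hω, ← Complex.exp_neg, ← Complex.exp_add]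
      congr 1
      field_simp
      ring
  · intro j
    have h := c.lim (j + j0)
    have e1 : (fun (N : ℕ) (w : ℂ) => c.W N (w + ((j + j0 : ℤ) : ℂ) * qN q e N)) =
        fun (N : ℕ) (w : ℂ) => c.W N (w + j * qN q e N + j0 * qN q e N) := by
      funext N w
      congr 1
      push_cast
      ring
    rw [e1] at h
    exact h
  · intro j
    have h := c.δ_lim (j + j0)
    have e1 : (fun (N : ℕ) (w : ℂ) => c.δ N (w + ((j + j0 : ℤ) : ℂ) * qN q e N)) =
        fun (N : ℕ) (w : ℂ) => c.δ N (w + j * qN q e N + j0 * qN q e N) := by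
      funext N w
      congr 1
      push_cast
      ring
    rw [e1] at h
    exact h
  · intro j w
    have e1 : j + (q : ℤ) + j0 = j + j0 + q := by ring
    show c.W0 (j + q + j0) w = c.W0 (j + j0) w
    rw [e1, c.per0]
  · intro j j' w hw w' hw' h
    obtain ⟨h1, k, hk⟩ := c.inj0 _ _ w hw w' hw' h
    exact ⟨h1, k, by linarith⟩
  · intro j w hw hw1
    have h := c.map0 (j + j0) w hw hw1
    have e1 : j + (p : ℤ) + j0 = j + j0 + p := by ring
    show f (mu ((p : ℝ) / q)) (c.W0 (j + j0) w) = c.W0 (j + p + j0) _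
    rw [e1]
    exact h
  · have h1 : HasDerivAt (fun z : ℂ => ω * c.X z) (ω * deriv c.X 0) 0 :=
      c.X_an.differentiableAt.hasDerivAt.const_mul ω
    rw [h1.deriv]
    exact mul_ne_zero hω0 c.X_deriv
  · intro ε hε
    obtain ⟨R', hR'⟩ := c.X_W0 ε hε
    refine ⟨R', fun j w hw hw1 => ?_⟩
    have h := hR' (j + j0) w hw hw1
    have e1 : Complex.exp (2 * Real.pi * Complex.I * j / q) =
        ω * Complex.exp (2 * Real.pi * Complex.I * ((j + j0 : ℤ) : ℂ) / q) := by
      rw [hω, ← Complex.exp_add]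
      congr 1
      push_cast
      ring
    have e2 : ω * c.X (c.W0 (j + j0) w) -
        Complex.exp (2 * Real.pi * Complex.I * j / q) * (-Complex.I * w) ^ (-(1 / (q : ℂ))) =
        ω * (c.X (c.W0 (j + j0) w) - Complex.exp (2 * Real.pi * Complex.I * ((j + j0 : ℤ) : ℂ) / q) *
          (-Complex.I * w) ^ (-(1 / (q : ℂ)))) := by
      rw [e1]
      ring
    show ‖ω * c.X (c.W0 (j + j0) w) - _‖ ≤ _
    rw [e2, norm_mul, hω1, one_mul]
    exact h
  · obtain ⟨r, hr, h⟩ := c.Y0_eq
    refine ⟨r, hr, fun z hz hz1 => ⟨mul_ne_zero hω0 (h z hz hz1).1, ?_⟩⟩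
    rw [(h z hz hz1).2, mul_pow, hωq, one_mul]
  · intro R'
    obtain ⟨r, hr, h⟩ := c.Y0_surj R'
    refine ⟨r, hr, fun z hz hz1 hz2 => ?_⟩
    obtain ⟨j, w, h1, h2, h3⟩ := h z hz hz1 hz2
    refine ⟨j - j0, w, h1, h2, ?_⟩
    show c.W0 (j - j0 + j0) w = z
    rw [sub_add_cancel, h3]
  · intro ε hε
    obtain ⟨R', hR'⟩ := c.Y0_W0 ε hε
    exact ⟨R', fun j w hw hw1 => hR' (j + j0) w hw hw1⟩

end Pool.Agent.CR
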