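import Pool.Agent.H73.CR.GP1
import Pool.Agent.H73.CR.GP3
import Pool.Agent.H73.CR.GP4

/-!
# CR GP5: normalised charts: the ray `ang p q j` lies in the sheet `j`

Proof of `ray_sheet_aux`. Fix `C` (we may assume `C ≥ 1`) and `a : ℤ`. `S = {τ | 1 ≤ Re τ ≤ 2, |Im τ| ≤ C Re τ}` is compact, convex, nonempty. `z k τ = sec p q l0 (a - k p) (τ / 2^k)`: continuous (`sec_diff`), nonzero (`sec_ne_zero`), `f (z (k+1) τ) = z k τ` (`sec_f`), uniformly small (`sec_small` with this `C`; `(τ/2^k).re ≤ 2/2^k`).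
`bk` gives `J = J(C, a)` with: for all `R'` there is `k0` with `z k τ = W0 (J - k p) w`, `w ∈ Lf R'`, for `k ≥ k0`, `τ ∈ S`.
(1) `J(C,a) ≡ J(C',a) (mod q)` (compare at `τ = 1`, a large `k`: `inj0`). So let `J a = J(1, a)`; by `W0_per` `J(C,a)` can be replaced by `J a`.
(2) `J (a + q) ≡ J a` (`sec_per`, `inj0`). (3) `J (a + p) ≡ J a + p`: `z` for `a + p`, index `k + 1`, at `τ = 2`: `sec l0 (a + p - (k+1) p) (2/2^(k+1)) = sec l0 (a - k p) (1/2^k)`: it is `W0 (J (a+p) - (k+1) p) w = W0 (J a - k p) w'`; `inj0`: `J (a+p) - p ≡ J a`.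
So `D a = J a - a` satisfies `D (a + p) ≡ D a`, `D (a + q) ≡ D a (mod q)`; `p`, `q` are coprime, so `1 = x p + y q` with integers `x, y` and `D (a + 1) ≡ D a`: `D a ≡ D 0 =: j0` for all `a`.
Conclusion. Given `C`, `R'`: let `k0` be the maximum of the `k0`'s for `a = 0, ..., q - 1` (hence for all `a`, by `sec_per`, `W0_per`) and `t1 = 1/2^k0`. Let `j`, `τ` be given, `0 < Re τ ≤ t1`, `|Im τ| ≤ C Re τ`. There is `k` with `1 ≤ 2^k Re τ ≤ 2` (`k ≥ k0`: `exists_nat_pow_near` for `1/Re τ`), `τ' = 2^k τ ∈ S`, `a = j + k p`: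
`sec l0 j τ = sec l0 (a - k p) (τ'/2^k) = W0 (J a - k p) w = W0 (D a + j) w = W0 (j + j0) w`.
`exists_raySheet`: take `c'` from `exists_shift c j0`.
-/

set_option autoImplicit false

open Set Filter Topology Metric

namespace Pool.Agent.CR

variable {p q s e : ℕ}

/-- The rays `ang p q j` (and sectors around them) lie in the left parts of the sheets `j`. -/
def RaySheet (c : Chart p q s e) : Prop :=
  ∀ C R' : ℝ, ∃ t1 : ℝ, 0 < t1 ∧ ∀ (j : ℤ) (τ : ℂ), 0 < τ.re → τ.re ≤ t1 → |τ.im| ≤ C * τ.re →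
    ∃ w : ℂ, w ∈ Wd0 c.R ∧ w ∈ Lf R' ∧ sec p q (mu ((p : ℝ) / q)) j τ = c.W0 j w

private def GP5_S (C : ℝ) : Set ℂ := {τ | 1 ≤ τ.re ∧ τ.re ≤ 2 ∧ |τ.im| ≤ C * τ.re}

private theorem GP5_div_re (τ : ℂ) (k : ℕ) : (τ / 2 ^ k).re = τ.re / 2 ^ k := by
  have h : (2 : ℂ) ^ k = ((2 ^ k : ℝ) : ℂ) := by push_cast; rfl
  rw [h, Complex.div_ofReal_re]

private theorem GP5_div_im (τ : ℂ) (k : ℕ) : (τ / 2 ^ k).im = τ.im / 2 ^ k := by
  have h : (2 : ℂ) ^ k = ((2 ^ k : ℝ) : ℂ) := by push_cast; rfl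
  rw [h, Complex.div_ofReal_im]

private theorem GP5_convex (C : ℝ) : Convex ℝ (GP5_S C) := by
  intro x hx y hy a b ha hb hab
  obtain ⟨hx1, hx2, hx3⟩ := hx
  obtain ⟨hy1, hy2, hy3⟩ := hy
  have hx4 := abs_le.1 hx3
  have hy4 := abs_le.1 hy3
  have hre : (a • x + b • y).re = a * x.re + b * y.re := by simp
  have him : (a • x + b • y).im = a * x.im + b * y.im := by simp
  have e1 := mul_le_mul_of_nonneg_left hx1 ha
  have e2 := mul_le_mul_of_nonneg_left hy1 hb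
  have e3 := mul_le_mul_of_nonneg_left hx2 ha
  have e4 := mul_le_mul_of_nonneg_left hy2 hb
  have e5 := mul_le_mul_of_nonneg_left hx4.1 ha
  have e6 := mul_le_mul_of_nonneg_left hy4.1 hb
  have e7 := mul_le_mul_of_nonneg_left hx4.2 ha
  have e8 := mul_le_mul_of_nonneg_left hy4.2 hb
  refine ⟨?_, ?_, ?_⟩
  · rw [hre]; linarith
  · rw [hre]; linarith
  · rw [hre, him, abs_le]
    constructor <;> linarith

private theorem GP5_compact (C : ℝ) : IsCompact (GP5_S C) := by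
  refine Metric.isCompact_of_isClosed_isBounded ?_ ?_
  · have h : GP5_S C = {τ : ℂ | 1 ≤ τ.re} ∩ ({τ : ℂ | τ.re ≤ 2} ∩ {τ : ℂ | |τ.im| ≤ C * τ.re}) := rfl
    rw [h]
    refine (isClosed_le continuous_const Complex.continuous_re).inter
      ((isClosed_le Complex.continuous_re continuous_const).inter
        (isClosed_le Complex.continuous_im.abs (continuous_const.mul Complex.continuous_re)))
  · refine (Metric.isBounded_closedBall (x := (0 : ℂ)) (r := 2 + 2 * |C|)).subset ?_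
    intro x hx
    obtain ⟨hx1, hx2, hx3⟩ := hx
    rw [mem_closedBall, dist_zero_right]
    refine (Complex.norm_le_abs_re_add_abs_im x).trans ?_
    rw [abs_of_nonneg (by linarith : (0 : ℝ) ≤ x.re)]
    have h1 : C * x.re ≤ |C| * 2 := by
      have h2 : C * x.re ≤ |C| * x.re := mul_le_mul_of_nonneg_right (le_abs_self C) (by linarith)
      have h3 : |C| * x.re ≤ |C| * 2 := mul_le_mul_of_nonneg_left hx2 (abs_nonneg C)
      linarith
    linarith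

/-- the sectors of the ray `a` are in the sheets `J - k p` -/
private def GP5_P (c : Chart p q s e) (C : ℝ) (a J : ℤ) : Prop :=
  ∀ R' : ℝ, ∃ k0 : ℕ, ∀ k ≥ k0, ∀ τ ∈ GP5_S C, ∃ w : ℂ, w ∈ Wd0 c.R ∧ w ∈ Lf R' ∧
    sec p q (mu ((p : ℝ) / q)) (a - k * p) (τ / 2 ^ k) = c.W0 (J - k * p) w

private theorem GP5_exists (hp : 0 < p) (hpq : p < q) (hs : q * s = p * e + 1) (c : Chart p q s e) {C : ℝ} (hC : 0 ≤ C)
    (a : ℤ) : ∃ J : ℤ, GP5_P c C a J := by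
  have hq : 0 < q := hp.trans hpq
  have hl : ‖mu ((p : ℝ) / q)‖ ≤ 1 := by
    have h : mu ((p : ℝ) / q) = Complex.exp ((2 * Real.pi * ((p : ℝ) / q) : ℝ) * Complex.I) := by
      unfold mu; push_cast; rfl
    rw [h, Complex.norm_exp_ofReal_mul_I]
  have hpos : ∀ (k : ℕ) (τ : ℂ), τ ∈ GP5_S C → 0 < (τ / 2 ^ k).re := by
    intro k τ hτ
    rw [GP5_div_re]
    exact div_pos (lt_of_lt_of_le one_pos hτ.1) (by positivity)
  refine bk hq c (GP5_convex C).isPreconnected (GP5_compact C) ⟨1, ?_⟩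
    (fun k τ => sec p q (mu ((p : ℝ) / q)) (a - k * p) (τ / 2 ^ k)) ?_ ?_ ?_ ?_
  · refine ⟨by simp, by simp, by simpa using hC⟩
  · intro k
    exact (sec_diff p q hl (a - k * p)).continuousOn.comp (by fun_prop) (fun τ hτ => hpos k τ hτ)
  · intro k τ hτ
    exact sec_ne_zero p q hl _ (hpos k τ hτ)
  · intro k τ hτ
    show f (mu ((p : ℝ) / q)) (sec p q (mu ((p : ℝ) / q)) (a - (k + 1 : ℕ) * p) (τ / 2 ^ (k + 1))) = _
    rw [sec_f hq hpq.le hl _ (hpos (k + 1) τ hτ)]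
    congr 1
    · push_cast; ring
    · rw [pow_succ]
      have h2k : (2 : ℂ) ^ k ≠ 0 := pow_ne_zero _ two_ne_zero
      field_simp
  · intro ε hε
    obtain ⟨δ, hδ, h1⟩ := sec_small hp hpq (coprime_of hs) C hε
    obtain ⟨k0, hk0⟩ := exists_nat_gt (2 / δ)
    refine ⟨k0, fun k hk τ hτ => h1 _ _ (hpos k τ hτ) ?_ ?_⟩
    · rw [GP5_div_re]
      have h2 : (k0 : ℝ) ≤ 2 ^ k := by
        have h3 : (k0 : ℝ) ≤ k := by exact_mod_cast hk
        have h4 : (k : ℝ) < 2 ^ k := by exact_mod_cast Nat.lt_two_pow_self (n := k)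
        linarith
      rw [div_lt_iff₀ hδ] at hk0
      rw [div_lt_iff₀ (by positivity)]
      have h5 := hτ.2.1
      nlinarith
    · rw [GP5_div_re, GP5_div_im, abs_div, abs_of_pos (by positivity : (0 : ℝ) < 2 ^ k), ← mul_div_assoc]
      exact div_le_div_of_nonneg_right hτ.2.2 (by positivity)

private theorem GP5_one {C : ℝ} (hC : 0 ≤ C) : (1 : ℂ) ∈ GP5_S C := ⟨by simp, by simp, by simpa using hC⟩

private theorem GP5_two {C : ℝ} (hC : 0 ≤ C) : (2 : ℂ) ∈ GP5_S C :=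
  ⟨by simp, by simp, by simpa using hC⟩

private theorem GP5_uniq {c : Chart p q s e} {C C' : ℝ} (hC : 0 ≤ C) (hC' : 0 ≤ C') {a J J' : ℤ}
    (h : GP5_P c C a J) (h' : GP5_P c C' a J') : ∃ i : ℤ, J' = J + i * q := by
  obtain ⟨k0, h1⟩ := h 0
  obtain ⟨k1, h2⟩ := h' 0
  obtain ⟨w, hw1, -, hw2⟩ := h1 (max k0 k1) (le_max_left _ _) 1 (GP5_one hC)
  obtain ⟨w', hw1', -, hw2'⟩ := h2 (max k0 k1) (le_max_right _ _) 1 (GP5_one hC')
  rw [hw2] at hw2'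
  obtain ⟨-, i, hi⟩ := c.inj0 _ _ w hw1 w' hw1' hw2'
  exact ⟨i, by linarith⟩

private theorem GP5_add {c : Chart p q s e} {C : ℝ} {a J : ℤ} (h : GP5_P c C a J) (i : ℤ) :
    GP5_P c C a (J + i * q) := by
  intro R'
  obtain ⟨k0, h1⟩ := h R'
  refine ⟨k0, fun k hk τ hτ => ?_⟩
  obtain ⟨w, hw1, hw2, hw3⟩ := h1 k hk τ hτ
  refine ⟨w, hw1, hw2, ?_⟩
  rw [hw3, ← W0_per c (J - k * p) i w]
  congr 1
  ring

private theorem GP5_per (hq : 0 < q) {c : Chart p q s e} {C : ℝ} {a J : ℤ} (h : GP5_P c C a J) (i : ℤ) :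
    GP5_P c C (a + i * q) J := by
  intro R'
  obtain ⟨k0, h1⟩ := h R'
  refine ⟨k0, fun k hk τ hτ => ?_⟩
  obtain ⟨w, hw1, hw2, hw3⟩ := h1 k hk τ hτ
  refine ⟨w, hw1, hw2, ?_⟩
  rw [← hw3, ← sec_per hq _ (a - k * p) i]
  congr 1
  ring

private theorem GP5_step {c : Chart p q s e} {C : ℝ} (hC : 0 ≤ C) {a J J' : ℤ}
    (h : GP5_P c C a J) (h' : GP5_P c C (a + p) J') : ∃ i : ℤ, J' = J + p + i * q := by
  obtain ⟨k0, h1⟩ := h 0
  obtain ⟨k1, h2⟩ := h' 0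
  obtain ⟨w, hw1, -, hw2⟩ := h1 (max k0 k1) (le_max_left _ _) 1 (GP5_one hC)
  obtain ⟨w', hw1', -, hw2'⟩ := h2 (max k0 k1 + 1) ((le_max_right _ _).trans (Nat.le_succ _)) 2 (GP5_two hC)
  have h3 : sec p q (mu ((p : ℝ) / q)) (a + p - (max k0 k1 + 1 : ℕ) * p) (2 / 2 ^ (max k0 k1 + 1)) =
      sec p q (mu ((p : ℝ) / q)) (a - (max k0 k1 : ℕ) * p) (1 / 2 ^ (max k0 k1)) := by
    congr 1
    · push_cast; ring
    · rw [pow_succ]
      have h2k : (2 : ℂ) ^ (max k0 k1) ≠ 0 := pow_ne_zero _ two_ne_zero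
      field_simp
  rw [h3, hw2] at hw2'
  obtain ⟨-, i, hi⟩ := c.inj0 _ _ w hw1 w' hw1' hw2'
  refine ⟨i, ?_⟩
  push_cast at hi
  linear_combination hi

theorem ray_sheet_aux (hp : 0 < p) (hpq : p < q) (hs : q * s = p * e + 1) (c : Chart p q s e) :
    ∃ j0 : ℤ, ∀ C R' : ℝ, ∃ t1 : ℝ, 0 < t1 ∧ ∀ (j : ℤ) (τ : ℂ), 0 < τ.re → τ.re ≤ t1 → |τ.im| ≤ C * τ.re →
      ∃ w : ℂ, w ∈ Wd0 c.R ∧ w ∈ Lf R' ∧ sec p q (mu ((p : ℝ) / q)) j τ = c.W0 (j + j0) w := by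
  have hq : 0 < q := hp.trans hpq
  choose J hJ using GP5_exists hp hpq hs c (zero_le_one (α := ℝ))
  have hstep : ∀ a : ℤ, ∃ i : ℤ, J (a + p) = J a + p + i * q := fun a => GP5_step zero_le_one (hJ a) (hJ (a + p))
  have hperq : ∀ a i : ℤ, ∃ i' : ℤ, J (a + i * q) = J a + i' * q := fun a i =>
    GP5_uniq zero_le_one zero_le_one (GP5_per hq (hJ a) i) (hJ (a + i * q))
  -- the difference modulo `q`
  have hperp : ∀ (a : ℤ) (m : ℕ), ∃ i : ℤ, J (a + m * p) = J a + m * p + i * q := by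
    intro a m
    induction m with
    | zero => exact ⟨0, by simp⟩
    | succ m ih =>
      obtain ⟨i, hi⟩ := ih
      obtain ⟨i', hi'⟩ := hstep (a + m * p)
      refine ⟨i + i', ?_⟩
      have h1 : a + ((m + 1 : ℕ) : ℤ) * p = a + m * p + p := by push_cast; ring
      rw [h1, hi', hi]
      push_cast
      ring
  have hcop := coprime_of hs
  -- every `a` is `m p + i q` with a natural number `m`
  have hall : ∀ a : ℤ, ∃ i : ℤ, J a = a + J 0 + i * q := by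
    intro a
    obtain ⟨x, y, hxy⟩ : ∃ x y : ℤ, x * p + y * q = 1 := by
      have h1 : IsCoprime (p : ℤ) (q : ℤ) := Nat.isCoprime_iff_coprime.2 hcop
      obtain ⟨x, y, h⟩ := h1
      exact ⟨x, y, h⟩
    have hq' : (q : ℤ) ≠ 0 := by exact_mod_cast hq.ne'
    obtain ⟨m, hm⟩ : ∃ m : ℕ, (m : ℤ) = (a * x) % q :=
      ⟨((a * x) % q).toNat, Int.toNat_of_nonneg (Int.emod_nonneg _ hq')⟩
    have hdiv := Int.emod_add_mul_ediv (a * x) q
    rw [← hm] at hdiv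
    obtain ⟨t, ht⟩ : ∃ t : ℤ, t = (a * x) / q := ⟨_, rfl⟩
    rw [← ht] at hdiv
    obtain ⟨i, hi⟩ := hperp 0 m
    obtain ⟨i', hi'⟩ := hperq (0 + m * p) (t * p + a * y)
    have h2 : 0 + (m : ℤ) * p + (t * p + a * y) * q = a := by
      linear_combination (p : ℤ) * hdiv + a * hxy
    rw [h2, hi] at hi'
    refine ⟨i + i' - (t * p + a * y), ?_⟩
    rw [hi']
    linear_combination h2
  refine ⟨J 0, fun C R' => ?_⟩
  obtain ⟨C', hC'⟩ : ∃ C' : ℝ, C' = max C 0 := ⟨_, rfl⟩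
  have hC0 : 0 ≤ C' := hC' ▸ le_max_right _ _
  have hCC : C ≤ C' := hC' ▸ le_max_left _ _
  have hP : ∀ a : ℤ, GP5_P c C' a (a + J 0) := by
    intro a
    obtain ⟨J', hJ'⟩ := GP5_exists hp hpq hs c hC0 a
    obtain ⟨i, hi⟩ := GP5_uniq hC0 zero_le_one hJ' (hJ a)
    obtain ⟨i', hi'⟩ := hall a
    have h1 := GP5_add hJ' (i - i')
    have h2 : J' + (i - i') * q = a + J 0 := by linear_combination hi' - hi
    rwa [h2] at h1
  choose k0 hk0 using fun a : ℤ => hP a R'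
  obtain ⟨K0, hK0⟩ : ∃ K0 : ℕ, K0 = (Finset.range q).sup (fun i : ℕ => k0 (i : ℤ)) := ⟨_, rfl⟩
  have hk : ∀ (a : ℤ), ∀ k ≥ K0, ∀ τ ∈ GP5_S C', ∃ w : ℂ, w ∈ Wd0 c.R ∧ w ∈ Lf R' ∧
      sec p q (mu ((p : ℝ) / q)) (a - k * p) (τ / 2 ^ k) = c.W0 (a + J 0 - k * p) w := by
    intro a k hk τ hτ
    have hq' : (q : ℤ) ≠ 0 := by exact_mod_cast hq.ne'
    have hq'' : (0 : ℤ) < q := by exact_mod_cast hq
    obtain ⟨m, hm⟩ : ∃ m : ℕ, (m : ℤ) = a % q := ⟨(a % q).toNat, Int.toNat_of_nonneg (Int.emod_nonneg _ hq')⟩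
    have hmq : m < q := by
      have := Int.emod_lt_of_pos a hq''
      rw [← hm] at this
      exact_mod_cast this
    have hdiv := Int.emod_add_mul_ediv a q
    rw [← hm] at hdiv
    obtain ⟨t, ht⟩ : ∃ t : ℤ, t = a / q := ⟨_, rfl⟩
    rw [← ht] at hdiv
    have hmK : k0 (m : ℤ) ≤ K0 := by
      rw [hK0]
      exact Finset.le_sup (f := fun i : ℕ => k0 (i : ℤ)) (Finset.mem_range.2 hmq)
    obtain ⟨w, hw1, hw2, hw3⟩ := hk0 (m : ℤ) k (hmK.trans hk) τ hτ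
    refine ⟨w, hw1, hw2, ?_⟩
    have h1 : a - (k : ℤ) * p = (m - k * p) + t * q := by linear_combination -hdiv
    have h2 : a + J 0 - (k : ℤ) * p = (m + J 0 - k * p) + t * q := by linear_combination -hdiv
    rw [h1, h2, sec_per hq, W0_per, hw3]
  refine ⟨1 / 2 ^ K0, by positivity, fun j τ hτ0 hτ1 hτ2 => ?_⟩
  obtain ⟨k, hk1, hk2⟩ := exists_nat_pow_near (x := 2 / τ.re) (y := (2 : ℝ))
    (by
      rw [le_div_iff₀ hτ0, one_mul]
      refine hτ1.trans ?_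
      have : (1 : ℝ) ≤ 2 ^ K0 := one_le_pow₀ one_le_two
      rw [div_le_iff₀ (by positivity)]
      linarith) one_lt_two
  rw [le_div_iff₀ hτ0] at hk1
  rw [div_lt_iff₀ hτ0] at hk2
  have hkK : K0 ≤ k := by
    by_contra hcon
    have h1 : k + 1 ≤ K0 := by omega
    have h2 : (2 : ℝ) ^ (k + 1) ≤ 2 ^ K0 := pow_le_pow_right₀ one_le_two h1
    rw [le_div_iff₀ (by positivity)] at hτ1
    nlinarith
  have h2k : (2 : ℂ) ^ k ≠ 0 := pow_ne_zero _ two_ne_zero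
  have hcast : (2 : ℂ) ^ k * τ = ((2 ^ k : ℝ) : ℂ) * τ := by push_cast; rfl
  have hmemS : (2 : ℂ) ^ k * τ ∈ GP5_S C' := by
    rw [hcast]
    refine ⟨?_, ?_, ?_⟩
    · rw [Complex.re_ofReal_mul]
      rw [pow_succ] at hk2
      linarith
    · rw [Complex.re_ofReal_mul]; exact hk1
    · rw [Complex.re_ofReal_mul, Complex.im_ofReal_mul, abs_mul, abs_of_pos (by positivity : (0 : ℝ) < 2 ^ k)]
      have h1 : |τ.im| ≤ C' * τ.re := hτ2.trans (mul_le_mul_of_nonneg_right hCC hτ0.le)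
      have h2 := mul_le_mul_of_nonneg_left h1 (by positivity : (0 : ℝ) ≤ 2 ^ k)
      linarith
  obtain ⟨w, hw1, hw2, hw3⟩ := hk (j + k * p) k hkK _ hmemS
  refine ⟨w, hw1, hw2, ?_⟩
  have h1 : j + (k : ℤ) * p - k * p = j := by ring
  have h2 : j + (k : ℤ) * p + J 0 - k * p = j + J 0 := by ring
  rw [h1, h2, mul_div_cancel_left₀ τ h2k] at hw3
  exact hw3

theorem exists_raySheet (hp : 0 < p) (hpq : p < q) (hs : q * s = p * e + 1) (c : Chart p q s e) :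
    ∃ c' : Chart p q s e, RaySheet c' := by
  obtain ⟨j0, h0⟩ := ray_sheet_aux hp hpq hs c
  obtain ⟨c', hR, hW⟩ := exists_shift (hp.trans hpq) c j0
  refine ⟨c', fun C R' => ?_⟩
  obtain ⟨t1, ht1, h1⟩ := h0 C R'
  refine ⟨t1, ht1, fun j τ hτ0 hτ1 hτ2 => ?_⟩
  obtain ⟨w, hw1, hw2, hw3⟩ := h1 j τ hτ0 hτ1 hτ2
  exact ⟨w, by rw [hR]; exact hw1, hw2, by rw [hW, hw3]⟩

end Pool.Agent.CR
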