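import Pool.Agent.H73.CR.Horn

/-!
# CR: the interface between Parts G, T (gate) and Part S (stage)

`p / q` in lowest terms, `q s = p e + 1`; `p_N = p N + s`, `q_N = q N + e`, so `q p_N - p q_N = 1`;
`l_N = exp (2 π i p_N / q_N)`, `h_N = (f l_N)^[q_N]`.
`B`: the part of the parabolic basin of `f l0` with index `-1`, `phi` its Fatou coordinate;
`pr m w = psi_r^{(-1 - m p)} (w - m)`: repelling Fatou parametrisations, `f (pr (m+1) w) = pr m w`.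
`Γ`: the lift of the ray `ang p q 0` by `pr 0` which continues to the rays `th p q m` under `pr m`;
`Γ 0` is its landing point, a zero of `pr 0`.
-/

set_option autoImplicit false

open Set Filter Topology

namespace Pool.Agent.CR

/-- numerators of the approximating sequence -/
def pN (p s N : ℕ) : ℕ := p * N + s

/-- denominators of the approximating sequence -/
def qN (q e N : ℕ) : ℕ := q * N + e

/-- multipliers of the approximating sequence -/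
noncomputable def lN (p q s e N : ℕ) : ℂ := mu ((pN p s N : ℝ) / (qN q e N : ℝ))

/-- the return map -/
noncomputable def hN (p q s e N : ℕ) (z : ℂ) : ℂ := (f (lN p q s e N))^[qN q e N] z

/-- the gap between the rays `-1` and `0` -/
noncomputable def gap (p q : ℕ) : ℝ := 1 + ang p q 0 - ang p q (-1)

/-- the limit of the angles `ang p_N q_N (-m p_N)` (modulo 1) -/
noncomputable def th (p q m : ℕ) : ℝ := ang p q (-1 - m * p) + gap p q / 2 ^ m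

/-- the angles `ang p_N q_N (-m p_N)` -/
noncomputable def angN (p q s e N m : ℕ) : ℝ := ang (pN p s N) (qN q e N) (-(m * pN p s N : ℤ))

structure Gate (p q s e : ℕ) where
  H : Horn
  B : Set ℂ
  phi : ℂ → ℂ
  pr : ℕ → ℂ → ℂ
  Γ : ℝ → ℂ
  y : ℝ → ℂ
  T0 : ℝ
  Hq : H.q = q
  isOpen_B : IsOpen B
  B_sub : B ⊆ K (mu ((p : ℝ) / q))
  zero_notMem : (0 : ℂ) ∉ B
  diff_phi : DifferentiableOn ℂ phi B
  diff_pr : ∀ m, Differentiable ℂ (pr m)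
  pr_f : ∀ m w, f (mu ((p : ℝ) / q)) (pr (m + 1) w) = pr m w
  pr_small : ∀ C r : ℝ, 0 < r → ∃ m0 : ℕ, ∀ m ≥ m0, ∀ w : ℂ, w.re ≤ C → -C ≤ w.im → ‖pr m w‖ ≤ r
  mem_D : ∀ w, w ∈ H.D ↔ pr 0 w ∈ B
  E_eq : ∀ w ∈ H.D, H.E w = phi (pr 0 w)
  lav : TendstoLocallyUniformlyOn (fun N z => hN p q s e N z) (fun z => pr 0 (phi z)) atTop B
  cont_Γ : ContinuousOn Γ (Ici 0)
  Γ_zero : pr 0 (Γ 0) = 0
  Γ_ray : ∀ m : ℕ, ∀ T : ℝ, 0 < T → pr m (Γ T) = ray (mu ((p : ℝ) / q)) (th p q m) (T / 2 ^ m)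
  Γ_deriv : ∀ T : ℝ, 0 ≤ T → deriv (pr 0) (Γ T) ≠ 0
  T0_pos : 0 < T0
  cont_y : ContinuousOn y (Ici T0)
  y_mem : ∀ T ≥ T0, y T ∈ B
  phi_y : ∀ T ≥ T0, phi (y T) = Γ T
  y_lim : Tendsto y atTop (𝓝 0)
  gate1 : ∀ ρ : ℝ, 0 < ρ → ∃ Ts Tl : ℝ, 0 < Ts ∧ 0 < Tl ∧ ∀ᶠ N in atTop, ∀ T : ℝ,
    Tl / 2 ^ qN q e N ≤ T → T ≤ Ts → ‖ray (lN p q s e N) (angN p q s e N 0) T‖ ≤ ρ
  gate2 : ∀ a b : ℝ, T0 ≤ a → TendstoUniformlyOn
    (fun N T => ray (lN p q s e N) (angN p q s e N 0) (T / 2 ^ qN q e N)) y atTop (Icc a b)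
  top_final : ∀ a : ℂ, a ≠ 0 → H.IsCoeff a → ∃ M1 : ℝ, ∀ (n0 : ℝ) (σ : ℝ → ℂ),
    ContinuousOn σ (Icc n0 (n0 + 1)) →
    (∀ t ∈ Icc n0 (n0 + 1), M1 < (σ t).im ∧ |(H.u a (σ t)).im| ≤ -(H.u a (σ t)).re) →
    ∀ r : ℝ, 0 < r → ∃ m0 : ℕ, ∀ m ≥ m0, ∃ ε : ℝ, 0 < ε ∧ ∀ᶠ N in atTop, ∀ z : ℝ → ℂ,
      ContinuousOn z (Ici n0) → (∀ t ≥ n0, hN p q s e N (z (t + 1)) = z t) →
      (∀ t ≥ n0, z t ≠ 0) → (∀ t ∈ Icc n0 (n0 + 1), ‖z t - pr m (σ t)‖ ≤ ε) →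
      ∀ t ≥ n0, ‖z t‖ ≤ r

end Pool.Agent.CR
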