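import Pool.Agent.H73.CR.Horn
import Pool.Agent.H73.CR.KB

/-!
# CR HA: basic facts about horn maps

`P` is the post-singular set. `deriv_ne_zero`: take `Ω` a ball around `E w` which does not meet the closed discrete set
`v + q ℤ`, `β = id`, `η0 = w` in `lift`: `E (η x) = x` near `E w`, chain rule.
`lift_unique`: `{x ∈ Ω | A x = B x}` is closed in `Ω` and open: `E` is injective near `B x` (`deriv E (B x) ≠ 0`).
`lift_unique_iter`: induction on `n`: first `E^[n-1] ∘ A`, `E^[n-1] ∘ B` agree by `lift_unique`.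
`lift_iter`: induction on `n`. For `n + 1`: `E^[n] η0 ∈ D`, `E (E^[n] η0) = β x0`; lift `β` to `η1` with `η1 x0 = E^[n] η0`
(`v + k q ∈ P`, with `n = 0`); `η1 x ∉ P`: if `η1 x = E^[m] v + k q` with `Def m v`, then `E^[m] v ∈ D` (as `η1 x ∈ D`, `mem_add_int`),
`β x = E (η1 x) = E^[m+1] v + k q ∈ P`; induction hypothesis for `η1`.
`koebe_translate`: by `koebe` the image contains `ball (G x) (κ r ‖G' x‖)`; if `κ r ‖G' x‖ > q / 2` it contains `G x ± q/2`.
-/

set_option autoImplicit false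

open Set Filter Topology Metric

namespace Pool.Agent.CR.Horn

/-- The post-singular set. -/
def P (H : Horn) : Set ℂ := {w | ∃ (n : ℕ) (k : ℤ), H.Def n H.v ∧ w = H.E^[n] H.v + k * H.q}

variable (H : Horn)

theorem mem_add_int (w : ℂ) (k : ℤ) : w + k * H.q ∈ H.D ↔ w ∈ H.D := by
  induction k using Int.induction_on with
  | zero => simp
  | succ i ih =>
    have e : w + (((i : ℤ) + 1 : ℤ) : ℂ) * H.q = (w + ((i : ℤ) : ℂ) * H.q) + H.q := by
      push_cast; ring
    rw [e, H.mem_add]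
    exact ih
  | pred i ih =>
    have e : (w + ((-(i : ℤ) - 1 : ℤ) : ℂ) * H.q) + H.q = w + ((-(i : ℤ) : ℤ) : ℂ) * H.q := by
      push_cast; ring
    rw [← H.mem_add, e]
    exact ih

theorem map_add_int {w : ℂ} (hw : w ∈ H.D) (k : ℤ) : H.E (w + k * H.q) = H.E w + k * H.q := by
  induction k using Int.induction_on with
  | zero => simp
  | succ i ih =>
    have e : w + (((i : ℤ) + 1 : ℤ) : ℂ) * H.q = (w + ((i : ℤ) : ℂ) * H.q) + H.q := by
      push_cast; ring
    rw [e, H.map_add _ ((H.mem_add_int w i).mpr hw), ih]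
    push_cast; ring
  | pred i ih =>
    have e : (w + ((-(i : ℤ) - 1 : ℤ) : ℂ) * H.q) + H.q = w + ((-(i : ℤ) : ℤ) : ℂ) * H.q := by
      push_cast; ring
    have h1 := H.map_add (w + ((-(i : ℤ) - 1 : ℤ) : ℂ) * H.q)
      ((H.mem_add_int w (-(i : ℤ) - 1)).mpr hw)
    rw [e, ih] at h1
    push_cast at h1 ⊢
    linear_combination -h1

private theorem HA_iter (k : ℤ) (n : ℕ) : ∀ w : ℂ, H.Def n w →
    H.E^[n] (w + k * H.q) = H.E^[n] w + k * H.q := by
  induction n with
  | zero => intro w _; rfl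
  | succ n ih =>
    intro w hw
    rw [Function.iterate_succ_apply', Function.iterate_succ_apply',
      ih w (fun j hj => hw j (by omega)), H.map_add_int (hw n (by omega))]

private theorem HA_def (k : ℤ) (n : ℕ) (w : ℂ) (hw : H.Def n w) : H.Def n (w + k * H.q) := by
  intro j hj
  rw [HA_iter H k j w (fun i hi => hw i (by omega)), H.mem_add_int]
  exact hw j hj

theorem def_add_int (n : ℕ) (w : ℂ) (k : ℤ) : H.Def n (w + k * H.q) ↔ H.Def n w := by
  refine ⟨fun h => ?_, HA_def H k n w⟩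
  have h1 := HA_def H (-k) n _ h
  have e : w + (k : ℂ) * H.q + ((-k : ℤ) : ℂ) * H.q = w := by push_cast; ring
  rwa [e] at h1

theorem iter_add_int {n : ℕ} {w : ℂ} (hw : H.Def n w) (k : ℤ) :
    H.E^[n] (w + k * H.q) = H.E^[n] w + k * H.q :=
  HA_iter H k n w hw

theorem def_succ (n : ℕ) (w : ℂ) : H.Def (n + 1) w ↔ w ∈ H.D ∧ H.Def n (H.E w) := by
  constructor
  · intro h
    refine ⟨h 0 (by omega), fun k hk => ?_⟩
    have := h (k + 1) (by omega)
    rwa [Function.iterate_succ_apply] at this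
  · rintro ⟨h1, h2⟩ k hk
    cases k with
    | zero => exact h1
    | succ k =>
      rw [Function.iterate_succ_apply]
      exact h2 k (by omega)

theorem def_succ' (n : ℕ) (w : ℂ) : H.Def (n + 1) w ↔ H.Def n w ∧ H.E^[n] w ∈ H.D := by
  constructor
  · intro h
    exact ⟨fun k hk => h k (by omega), h n (by omega)⟩
  · rintro ⟨h1, h2⟩ k hk
    rcases Nat.lt_succ_iff_lt_or_eq.mp hk with h | h
    · exact h1 k h
    · rw [h]; exact h2

theorem def_add (m n : ℕ) (w : ℂ) : H.Def (m + n) w ↔ H.Def m w ∧ H.Def n (H.E^[m] w) := by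
  constructor
  · intro h
    refine ⟨fun k hk => h k (by omega), fun k hk => ?_⟩
    rw [← Function.iterate_add_apply]
    exact h (k + m) (by omega)
  · rintro ⟨h1, h2⟩ k hk
    rcases lt_or_ge k m with h | h
    · exact h1 k h
    · have h3 := h2 (k - m) (by omega)
      rw [← Function.iterate_add_apply, Nat.sub_add_cancel h] at h3
      exact h3

theorem isOpen_def (n : ℕ) : IsOpen {w | H.Def n w} := by
  induction n with
  | zero =>
    have : {w | H.Def 0 w} = univ := by
      ext w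
      simp only [mem_setOf_eq, mem_univ, iff_true]
      intro k hk
      omega
    rw [this]
    exact isOpen_univ
  | succ n ih =>
    have : {w | H.Def (n + 1) w} = H.D ∩ H.E ⁻¹' {w | H.Def n w} := by
      ext w
      simp only [mem_setOf_eq, mem_inter_iff, mem_preimage]
      exact H.def_succ n w
    rw [this]
    exact H.diff.continuousOn.isOpen_inter_preimage H.isOpen ih

theorem diff_iter (n : ℕ) : DifferentiableOn ℂ (H.E^[n]) {w | H.Def n w} := by
  induction n with
  | zero => exact differentiableOn_id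
  | succ n ih =>
    rw [Function.iterate_succ']
    refine H.diff.comp (ih.mono fun w hw => ?_) fun w hw => ?_
    · exact ((H.def_succ' n w).mp hw).1
    · exact ((H.def_succ' n w).mp hw).2

theorem P_add_int (w : ℂ) (k : ℤ) : w + k * H.q ∈ H.P ↔ w ∈ H.P := by
  constructor
  · rintro ⟨n, j, h1, h2⟩
    refine ⟨n, j - k, h1, ?_⟩
    push_cast
    linear_combination h2
  · rintro ⟨n, j, h1, h2⟩
    refine ⟨n, j + k, h1, ?_⟩
    push_cast
    linear_combination h2

/-- points of `P` in `D` are mapped to `P` -/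
theorem P_map {w : ℂ} (hw : w ∈ H.P) (hD : w ∈ H.D) : H.E w ∈ H.P := by
  obtain ⟨n, j, h1, h2⟩ := hw
  have h3 : H.E^[n] H.v ∈ H.D := by
    rw [h2, H.mem_add_int] at hD
    exact hD
  refine ⟨n + 1, j, (H.def_succ' n H.v).mpr ⟨h1, h3⟩, ?_⟩
  rw [h2, H.map_add_int h3, Function.iterate_succ_apply']

theorem deriv_ne_zero {w : ℂ} (hw : w ∈ H.D) (h : ∀ k : ℤ, H.E w ≠ H.v + k * H.q) :
    deriv H.E w ≠ 0 := by
  have hq := H.q_pos
  set t : ℝ := ((H.E w).re - H.v.re) / H.q with ht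
  set m : ℤ := round t with hm
  have htm : |t - m| ≤ 1 / 2 := abs_sub_round t
  have hpos : 0 < ‖H.E w - (H.v + m * H.q)‖ := norm_pos_iff.mpr (sub_ne_zero.mpr (h m))
  set r : ℝ := min (H.q / 4) ‖H.E w - (H.v + m * H.q)‖ with hr
  have hrpos : 0 < r := by positivity
  have hv : ∀ x ∈ ball (H.E w) r, ∀ k : ℤ, (fun z : ℂ => z) x ≠ H.v + k * H.q := by
    intro x hx k hk
    have hk' : x = H.v + k * H.q := hk
    rw [mem_ball, dist_comm, dist_eq_norm, hk'] at hx
    by_cases hkm : k = m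
    · rw [hkm] at hx
      exact absurd hx (not_lt.mpr (min_le_right _ _))
    · have h1 : (1 : ℝ) ≤ |(k : ℝ) - m| := by
        have h2 : 1 ≤ |k - m| := Int.one_le_abs (sub_ne_zero.mpr hkm)
        exact_mod_cast h2
      have h3 : 1 / 2 ≤ |t - k| := by
        have h4 : |(k : ℝ) - m| ≤ |t - k| + |t - m| := by
          have := abs_sub_le (k : ℝ) t m
          rw [abs_sub_comm (k : ℝ) t] at this
          exact this
        linarith
      have h5 : |(H.E w).re - (H.v.re + k * H.q)| ≤ ‖H.E w - (H.v + k * H.q)‖ := by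
        have := Complex.abs_re_le_norm (H.E w - (H.v + k * H.q))
        simpa using this
      have h6 : (H.E w).re - (H.v.re + k * H.q) = (t - k) * H.q := by
        rw [ht]; field_simp; ring
      rw [h6, abs_mul, abs_of_pos hq] at h5
      have h7 : r ≤ H.q / 4 := min_le_left _ _
      nlinarith
  obtain ⟨η, hη, hηE, hη0⟩ := H.lift (ball (H.E w) r) (fun z => z) isOpen_ball
    (convex_ball _ _) differentiableOn_id hv (H.E w) (mem_ball_self hrpos) w hw rfl
  have hd1 : HasDerivAt η (deriv η (H.E w)) (H.E w) :=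
    (hη.differentiableAt (isOpen_ball.mem_nhds (mem_ball_self hrpos))).hasDerivAt
  have hd2 : HasDerivAt H.E (deriv H.E w) (η (H.E w)) := by
    rw [hη0]
    exact (H.diff.differentiableAt (H.isOpen.mem_nhds hw)).hasDerivAt
  have hd3 := hd2.comp (H.E w) hd1
  have hev : (H.E ∘ η) =ᶠ[𝓝 (H.E w)] id := by
    filter_upwards [isOpen_ball.mem_nhds (mem_ball_self hrpos)] with z hz
    exact (hηE z hz).2
  have hd4 : HasDerivAt (H.E ∘ η) 1 (H.E w) := (hasDerivAt_id _).congr_of_eventuallyEq hev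
  have h1 := hd3.unique hd4
  intro h0
  rw [h0, zero_mul] at h1
  exact zero_ne_one h1

/-- local injectivity where the derivative does not vanish -/
private theorem HA_inj {y : ℂ} (hy : y ∈ H.D) (hd : deriv H.E y ≠ 0) :
    ∃ U ∈ 𝓝 y, ∀ a ∈ U, ∀ b ∈ U, H.E a = H.E b → a = b := by
  have han : AnalyticAt ℂ H.E y := H.diff.analyticAt (H.isOpen.mem_nhds hy)
  have hs : HasStrictDerivAt H.E (deriv H.E y) y := han.hasStrictDerivAt
  have h1 := (hs.hasStrictFDerivAt_equiv hd).eventually_left_inverse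
  refine ⟨_, h1, fun a ha b hb hab => ?_⟩
  have ha' := ha
  have hb' := hb
  simp only [mem_setOf_eq] at ha' hb'
  rw [← ha', ← hb', hab]

theorem lift_unique {X : Type*} [TopologicalSpace X] {Ω : Set X} (hc : IsPreconnected Ω)
    {A B : X → ℂ} (hA : ContinuousOn A Ω) (hB : ContinuousOn B Ω) (hAD : ∀ x ∈ Ω, A x ∈ H.D)
    (hBD : ∀ x ∈ Ω, B x ∈ H.D) (hE : ∀ x ∈ Ω, H.E (A x) = H.E (B x))
    (hd : ∀ x ∈ Ω, deriv H.E (B x) ≠ 0) {x0 : X} (hx0 : x0 ∈ Ω) (h0 : A x0 = B x0) :
    ∀ x ∈ Ω, A x = B x := by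
  have hps : PreconnectedSpace Ω := isPreconnected_iff_preconnectedSpace.mp hc
  have hA' : Continuous (fun x : Ω => A x) := continuousOn_iff_continuous_restrict.mp hA
  have hB' : Continuous (fun x : Ω => B x) := continuousOn_iff_continuous_restrict.mp hB
  set S : Set Ω := {x : Ω | A x = B x} with hS
  have hclosed : IsClosed S := isClosed_eq hA' hB'
  have hopen : IsOpen S := by
    rw [isOpen_iff_mem_nhds]
    intro x hx
    obtain ⟨U, hU, hinj⟩ := HA_inj H (hBD x x.2) (hd x x.2)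
    have hx' : A x = B x := hx
    have h1 : ∀ᶠ y : Ω in 𝓝 x, A y ∈ U := hA'.continuousAt.eventually_mem (by rw [hx']; exact hU)
    have h2 : ∀ᶠ y : Ω in 𝓝 x, B y ∈ U := hB'.continuousAt.eventually_mem hU
    filter_upwards [h1, h2] with y hy1 hy2
    exact hinj _ hy1 _ hy2 (hE y y.2)
  have huniv : S = univ := IsClopen.eq_univ ⟨hclosed, hopen⟩ ⟨⟨x0, hx0⟩, h0⟩
  intro x hx
  have : (⟨x, hx⟩ : Ω) ∈ S := by rw [huniv]; exact mem_univ _
  exact this

theorem lift_unique_iter {X : Type*} [TopologicalSpace X] {Ω : Set X} (hc : IsPreconnected Ω)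
    {A B : X → ℂ} {n : ℕ} (hA : ContinuousOn A Ω) (hB : ContinuousOn B Ω)
    (hAD : ∀ x ∈ Ω, H.Def n (A x)) (hBD : ∀ x ∈ Ω, H.Def n (B x))
    (hE : ∀ x ∈ Ω, H.E^[n] (A x) = H.E^[n] (B x))
    (hd : ∀ x ∈ Ω, ∀ k < n, deriv H.E (H.E^[k] (B x)) ≠ 0) {x0 : X} (hx0 : x0 ∈ Ω)
    (h0 : A x0 = B x0) : ∀ x ∈ Ω, A x = B x := by
  induction n with
  | zero =>
    intro x hx
    exact hE x hx
  | succ n ih =>
    have h1 : ∀ x ∈ Ω, H.E^[n] (A x) = H.E^[n] (B x) := by
      refine H.lift_unique (A := fun x => H.E^[n] (A x)) (B := fun x => H.E^[n] (B x)) hc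
        ((H.diff_iter n).continuousOn.comp hA fun x hx => ((H.def_succ' n _).mp (hAD x hx)).1)
        ((H.diff_iter n).continuousOn.comp hB fun x hx => ((H.def_succ' n _).mp (hBD x hx)).1)
        (fun x hx => ((H.def_succ' n _).mp (hAD x hx)).2)
        (fun x hx => ((H.def_succ' n _).mp (hBD x hx)).2) (fun x hx => ?_)
        (fun x hx => hd x hx n (by omega)) hx0 (by simp only [h0])
      have := hE x hx
      rwa [Function.iterate_succ_apply', Function.iterate_succ_apply'] at this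
    exact ih (fun x hx => ((H.def_succ' n _).mp (hAD x hx)).1)
      (fun x hx => ((H.def_succ' n _).mp (hBD x hx)).1) h1
      (fun x hx k hk => hd x hx k (by omega))

theorem lift_iter {Ω : Set ℂ} (ho : IsOpen Ω) (hc : Convex ℝ Ω) {β : ℂ → ℂ}
    (hβ : DifferentiableOn ℂ β Ω) (hP : ∀ x ∈ Ω, β x ∉ H.P) (n : ℕ) {x0 η0 : ℂ} (hx : x0 ∈ Ω)
    (hη : H.Def n η0) (h0 : H.E^[n] η0 = β x0) :
    ∃ η : ℂ → ℂ, DifferentiableOn ℂ η Ω ∧ (∀ x ∈ Ω, H.Def n (η x) ∧ H.E^[n] (η x) = β x) ∧
      η x0 = η0 := by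
  induction n generalizing β with
  | zero =>
    refine ⟨β, hβ, fun x _ => ⟨fun k hk => by omega, rfl⟩, ?_⟩
    exact h0.symm
  | succ n ih =>
    obtain ⟨hn1, hn2⟩ := (H.def_succ' n η0).mp hη
    rw [Function.iterate_succ_apply'] at h0
    obtain ⟨η1, hd1, hE1, h01⟩ := H.lift Ω β ho hc hβ (fun x hx k hk => by
      refine hP x hx ?_
      rw [hk]
      exact ⟨0, k, fun j hj => by omega, rfl⟩) x0 hx (H.E^[n] η0) hn2 h0
    obtain ⟨η, hd2, hE2, h02⟩ := ih hd1 (fun x hx hmem => by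
      refine hP x hx ?_
      rw [← (hE1 x hx).2]
      exact H.P_map hmem (hE1 x hx).1) hn1 h01.symm
    refine ⟨η, hd2, fun x hx => ⟨(H.def_succ' n _).mpr ⟨(hE2 x hx).1, ?_⟩, ?_⟩, h02⟩
    · rw [(hE2 x hx).2]
      exact (hE1 x hx).1
    · rw [Function.iterate_succ_apply', (hE2 x hx).2]
      exact (hE1 x hx).2

/-- a univalent function whose image is disjoint from its translates by `k q` has small derivative,
and small oscillation on the half ball -/
theorem koebe_translate : ∃ C : ℝ, 0 < C ∧ ∀ (H : Horn) (G : ℂ → ℂ) (x : ℂ) (r : ℝ), 0 < r →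
    DifferentiableOn ℂ G (ball x r) → InjOn G (ball x r) →
    (∀ x1 ∈ ball x r, ∀ x2 ∈ ball x r, G x1 ≠ G x2 + H.q) →
    r * ‖deriv G x‖ ≤ C * H.q ∧
      ∀ z1 ∈ ball x (r / 2), ∀ z2 ∈ ball x (r / 2), ‖G z1 - G z2‖ ≤ C * ‖deriv G x‖ * ‖z1 - z2‖ := by
  obtain ⟨κ, hκ, hk⟩ := koebe
  obtain ⟨C, hC, hdist⟩ := distortion
  refine ⟨max (1 / (2 * κ)) C, by positivity, ?_⟩
  intro H G x r hr hG hinj htr
  have hq := H.q_pos
  constructor
  · have h1 : κ * r * ‖deriv G x‖ ≤ H.q / 2 := by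
      by_contra hcon
      push Not at hcon
      have hsub := hk G x r hr hG hinj
      have ha : G x + (H.q / 2 : ℝ) ∈ ball (G x) (κ * r * ‖deriv G x‖) := by
        rw [mem_ball, dist_eq_norm, add_sub_cancel_left, Complex.norm_real, Real.norm_eq_abs,
          abs_of_pos (by positivity)]
        exact hcon
      have hb : G x - (H.q / 2 : ℝ) ∈ ball (G x) (κ * r * ‖deriv G x‖) := by
        rw [mem_ball, dist_eq_norm, sub_sub_cancel_left, norm_neg, Complex.norm_real,
          Real.norm_eq_abs, abs_of_pos (by positivity)]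
        exact hcon
      obtain ⟨x1, hx1, e1⟩ := hsub ha
      obtain ⟨x2, hx2, e2⟩ := hsub hb
      refine htr x1 hx1 x2 hx2 ?_
      rw [e1, e2]
      push_cast
      ring
    have h2 : r * ‖deriv G x‖ ≤ 1 / (2 * κ) * H.q := by
      rw [div_mul_eq_mul_div, le_div_iff₀ (by positivity)]
      nlinarith
    exact h2.trans (mul_le_mul_of_nonneg_right (le_max_left _ _) hq.le)
  · intro z1 hz1 z2 hz2
    have hsub : ball x (r / 2) ⊆ ball x r := ball_subset_ball (by linarith)
    have h1 := Convex.norm_image_sub_le_of_norm_deriv_le (f := G) (C := C * ‖deriv G x‖)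
      (s := ball x (r / 2)) (x := z2) (y := z1)
      (fun z hz => hG.differentiableAt (isOpen_ball.mem_nhds (hsub hz)))
      (fun z hz => (hdist G x r hr hG hinj z hz).1) (convex_ball _ _) hz2 hz1
    refine h1.trans ?_
    have : C ≤ max (1 / (2 * κ)) C := le_max_right _ _
    gcongr

end Pool.Agent.CR.Horn
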