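import Pool.Agent.H73.CR.HA

/-!
# CR HB: the expansion of a horn map at the top; a horn map is not the identity near the top

`top_expansion`: let `δ w = E w - w` for `w ∈ D` and `δ w = 0` for `w ∉ D`: a `q`-periodic function on `ℂ` (`mem_add`, `map_add`),
holomorphic on `Im w > M`, `δ w → 0` at the top. So `δ w = g (exp (2 π i w / q))` with `g` holomorphic in a disc
`‖X‖ < r`, `g 0 = 0` (Mathlib: `Function.Periodic.cuspFunction`, `qParam`, `differentiableAt_cuspFunction_zero`, ...).
Either `g = 0` near `0` (and then `E w = w` for large `Im w`), or `g X = X^K g1 X` near `0`, `g1` holomorphic, `g1 0 = a ≠ 0`, `K ≥ 1`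
(`AnalyticAt.exists_eventuallyEq_pow_smul_nonzero_iff` or similar), `‖g1 X - a‖ ≤ C ‖X‖` for small `X`.
`not_id`: suppose `E w = w` for `Im w > M'`. `Ω = {w | Re v + q/4 < Re w < Re v + 3q/4}` is convex and open and does not contain `v + k q`;
`x0 = η0 = Re v + q/2 + i (max M M' + 1)`; `lift` with `β = id`: `η : Ω → D`, `E (η x) = x`, `η x0 = x0`. Near `x0`: `Im (η x) > M'`,
so `x = E (η x) = η x`. By the identity theorem `η x = x` on `Ω`, so `x ∈ D` for all `x ∈ Ω`, a contradiction to `bot`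
for `Im x = - M - 1`.
-/

set_option autoImplicit false

open Set Filter Topology Metric

namespace Pool.Agent.CR.Horn

/-- The expansion `E w = w + a exp (2 π i K w / q) + ...` at the top. -/
def Exp (H : Horn) (K : ℕ) (a : ℂ) (C M' : ℝ) : Prop :=
  1 ≤ K ∧ a ≠ 0 ∧ 0 < C ∧ H.M ≤ M' ∧ ∀ w : ℂ, M' < w.im →
    ‖(H.E w - w) * Complex.exp (-(2 * Real.pi * Complex.I * K * w / H.q)) - a‖ ≤
      C * Real.exp (-(2 * Real.pi * w.im / H.q))

variable (H : Horn)

theorem not_id (M' : ℝ) : ¬ ∀ w : ℂ, M' < w.im → H.E w = w := by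
  intro hid
  have hq := H.q_pos
  set Ω : Set ℂ := {w : ℂ | H.v.re + H.q / 4 < w.re ∧ w.re < H.v.re + 3 * H.q / 4} with hΩ
  have hΩo : IsOpen Ω :=
    (isOpen_lt continuous_const Complex.continuous_re).inter
      (isOpen_lt Complex.continuous_re continuous_const)
  have hΩc : Convex ℝ Ω :=
    (convex_halfSpace_re_gt _).inter (convex_halfSpace_re_lt _)
  have hv : ∀ x ∈ Ω, ∀ k : ℤ, (fun z : ℂ => z) x ≠ H.v + k * H.q := by
    intro x hx k hk
    obtain ⟨h1, h2⟩ := hx
    have h3 : x.re = H.v.re + k * H.q := by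
      have := congrArg Complex.re hk
      simpa using this
    have h4 : (0 : ℝ) < k := by
      by_contra h5
      push Not at h5
      nlinarith
    have h6 : (k : ℝ) < 1 := by
      by_contra h5
      push Not at h5
      nlinarith
    have h7 : 0 < k := by exact_mod_cast h4
    have h8 : k < 1 := by exact_mod_cast h6
    omega
  set x0 : ℂ := ⟨H.v.re + H.q / 2, max H.M M' + 1⟩ with hx0
  have hx0Ω : x0 ∈ Ω := ⟨by simp only [hx0]; linarith, by simp only [hx0]; linarith⟩
  have hx0M : H.M < x0.im := by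
    have := le_max_left H.M M'
    simp only [hx0]; linarith
  have hx0M' : M' < x0.im := by
    have := le_max_right H.M M'
    simp only [hx0]; linarith
  obtain ⟨η, hη, hηE, hη0⟩ := H.lift Ω (fun z => z) hΩo hΩc differentiableOn_id hv x0 hx0Ω x0
    (H.top x0 hx0M) (hid x0 hx0M')
  have hηan : AnalyticOnNhd ℂ η Ω := hη.analyticOnNhd hΩo
  have hidan : AnalyticOnNhd ℂ (fun z : ℂ => z) Ω := fun z _ => analyticAt_id
  have hcont : ContinuousAt η x0 := (hη.differentiableAt (hΩo.mem_nhds hx0Ω)).continuousAt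
  have hev : η =ᶠ[𝓝 x0] fun z => z := by
    have h1 : ∀ᶠ z in 𝓝 x0, M' < (η z).im := by
      have h2 : Tendsto (fun z => (η z).im) (𝓝 x0) (𝓝 (η x0).im) :=
        (Complex.continuous_im.tendsto _).comp hcont
      rw [hη0] at h2
      exact h2.eventually_const_lt hx0M'
    filter_upwards [h1, hΩo.mem_nhds hx0Ω] with z hz hzΩ
    have h3 := (hηE z hzΩ).2
    rw [hid (η z) hz] at h3
    exact h3
  have heq := hηan.eqOn_of_preconnected_of_eventuallyEq hidan hΩc.isPreconnected hx0Ω hev
  set y : ℂ := ⟨H.v.re + H.q / 2, -H.M - 1⟩ with hy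
  have hyΩ : y ∈ Ω := ⟨by simp only [hy]; linarith, by simp only [hy]; linarith⟩
  have h1 := (hηE y hyΩ).1
  rw [heq hyΩ] at h1
  have h2 := H.bot y h1
  simp only [hy] at h2
  linarith

open Classical in
theorem top_expansion : ∃ (K : ℕ) (a : ℂ) (C M' : ℝ), H.Exp K a C M' := by
  have hq := H.q_pos
  set δ : ℂ → ℂ := fun w => if w ∈ H.D then H.E w - w else 0 with hδ
  have hper : Function.Periodic δ (H.q : ℂ) := by
    intro w
    simp only [hδ]
    by_cases h : w ∈ H.D
    · rw [if_pos h, if_pos ((H.mem_add w).mpr h), H.map_add w h]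
      ring
    · rw [if_neg h, if_neg (fun h' => h ((H.mem_add w).mp h'))]
  have hdiff : ∀ w : ℂ, H.M < w.im → DifferentiableAt ℂ δ w := by
    intro w hw
    have h1 : DifferentiableAt ℂ (fun w => H.E w - w) w :=
      (H.diff.differentiableAt (H.isOpen.mem_nhds (H.top w hw))).sub differentiableAt_id
    refine h1.congr_of_eventuallyEq ?_
    filter_upwards [H.isOpen.mem_nhds (H.top w hw)] with z hz
    simp only [hδ, if_pos hz]
  have hI : ∀ A : ℝ, ∀ᶠ z in comap Complex.im atTop, A < z.im := by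
    intro A
    exact (tendsto_comap.eventually (eventually_gt_atTop A))
  have hhol : ∀ᶠ z in comap Complex.im atTop, DifferentiableAt ℂ δ z :=
    (hI H.M).mono fun z hz => hdiff z hz
  have hzero : Filter.ZeroAtFilter (comap Complex.im atTop) δ := by
    rw [Filter.ZeroAtFilter, tendsto_zero_iff_norm_tendsto_zero]
    rw [Metric.tendsto_nhds]
    intro ε hε
    obtain ⟨M1, hM1⟩ := H.top_lim (ε / 2) (by positivity)
    filter_upwards [hI M1] with z hz
    rw [dist_zero_right, norm_norm]
    have h1 := hM1 z hz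
    simp only [hδ]
    split_ifs with h
    · linarith
    · rw [norm_zero]; exact hε
  set g : ℂ → ℂ := Function.Periodic.cuspFunction H.q δ with hg
  have hgd0 : DifferentiableAt ℂ g 0 :=
    Function.Periodic.differentiableAt_cuspFunction_zero hq hper hhol hzero.boundedAtFilter
  have hg0 : g 0 = 0 := Function.Periodic.cuspFunction_zero_of_zero_at_inf hq hzero
  have hgd : ∀ᶠ X in 𝓝 (0 : ℂ), DifferentiableAt ℂ g X := by
    have h1 := Function.Periodic.eventually_differentiableAt_cuspFunction_nhds_ne_zero hq hper hhol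
    rw [eventually_nhdsWithin_iff] at h1
    filter_upwards [h1] with X hX
    by_cases h0 : X = 0
    · rw [h0]; exact hgd0
    · exact hX h0
  have hgan : AnalyticAt ℂ g 0 := by
    rw [Complex.analyticAt_iff_eventually_differentiableAt]
    exact hgd
  have heq : ∀ w : ℂ, H.M < w.im → g (Function.Periodic.qParam H.q w) = H.E w - w := by
    intro w hw
    rw [hg, Function.Periodic.eq_cuspFunction hq.ne' hper w]
    simp only [hδ, if_pos (H.top w hw)]
  -- a lower bound on `Im w` makes the parameter small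
  have hsmall : ∀ ε : ℝ, 0 < ε → ∃ M1 : ℝ, H.M ≤ M1 ∧ ∀ w : ℂ, M1 < w.im →
      ‖Function.Periodic.qParam H.q w‖ < ε := by
    intro ε hε
    refine ⟨max H.M (-H.q / (2 * Real.pi) * Real.log ε), le_max_left _ _, fun w hw => ?_⟩
    have h1 : -H.q / (2 * Real.pi) * Real.log ε < w.im := lt_of_le_of_lt (le_max_right _ _) hw
    rw [Function.Periodic.norm_qParam]
    have hpi := Real.pi_pos
    rw [← Real.lt_log_iff_exp_lt hε, div_lt_iff₀ hq]
    have e : -H.q / (2 * Real.pi) * Real.log ε = (-(H.q * Real.log ε)) / (2 * Real.pi) := by ring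
    rw [e, div_lt_iff₀ (by positivity)] at h1
    nlinarith
  have hne : ¬ ∀ᶠ X in 𝓝 (0 : ℂ), g X = 0 := by
    intro hz
    rw [Metric.eventually_nhds_iff] at hz
    obtain ⟨ε, hε, hz⟩ := hz
    obtain ⟨M1, hM1, hs⟩ := hsmall ε hε
    refine H.not_id M1 fun w hw => ?_
    have h1 := hz (y := Function.Periodic.qParam H.q w) (by rw [dist_zero_right]; exact hs w hw)
    rw [heq w (lt_of_le_of_lt hM1 hw)] at h1
    exact sub_eq_zero.mp h1
  obtain ⟨K, g1, hg1an, hg1ne, hg1⟩ := hgan.exists_eventuallyEq_pow_smul_nonzero_iff.mpr hne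
  have hK : 1 ≤ K := by
    rcases Nat.eq_zero_or_pos K with h0 | h0
    · exfalso
      have h1 := hg1.self_of_nhds
      rw [hg0, h0, pow_zero, one_smul] at h1
      exact hg1ne h1.symm
    · exact h0
  have hb := hg1an.differentiableAt.hasDerivAt.isBigO_sub
  obtain ⟨C, hC, hb1⟩ := hb.exists_pos
  have hb2 := hb1.bound.and hg1
  rw [Metric.eventually_nhds_iff] at hb2
  obtain ⟨ε, hε, hb3⟩ := hb2
  obtain ⟨M1, hM1, hs⟩ := hsmall ε hε
  refine ⟨K, g1 0, C, M1, hK, hg1ne, hC, hM1, fun w hw => ?_⟩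
  set X : ℂ := Function.Periodic.qParam H.q w with hX
  obtain ⟨h1, h2⟩ := hb3 (y := X) (by rw [dist_zero_right]; exact hs w hw)
  rw [sub_zero] at h1 h2
  have hXK : X ^ K * Complex.exp (-(2 * Real.pi * Complex.I * K * w / H.q)) = 1 := by
    rw [hX, Function.Periodic.qParam, ← Complex.exp_nat_mul, ← Complex.exp_add]
    have e : (K : ℂ) * (2 * Real.pi * Complex.I * w / H.q) +
        -(2 * Real.pi * Complex.I * K * w / H.q) = 0 := by ring
    rw [e, Complex.exp_zero]
  have e1 : (H.E w - w) * Complex.exp (-(2 * Real.pi * Complex.I * K * w / H.q)) = g1 X := by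
    rw [← heq w (lt_of_le_of_lt hM1 hw), h2, smul_eq_mul]
    calc X ^ K * g1 X * Complex.exp (-(2 * Real.pi * Complex.I * K * w / H.q))
        = (X ^ K * Complex.exp (-(2 * Real.pi * Complex.I * K * w / H.q))) * g1 X := by ring
      _ = g1 X := by rw [hXK, one_mul]
  rw [e1]
  have e2 : ‖X‖ = Real.exp (-(2 * Real.pi * w.im / H.q)) := by
    rw [hX, Function.Periodic.norm_qParam]
    congr 1
    ring
  rw [← e2]
  exact h1

end Pool.Agent.CR.Horn
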