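import Pool.Agent.H73.CR.HB

/-!
# CR HD: the petal coordinate

`uK w = i q / (2 π K a) * exp (- 2 π i K w / q)`, `beta c U = i q / (2 π K) * (log U + log (- 2 π i K a / q)) + c q / K`
(principal logarithms), so `uK (beta c U) = U` for `U ≠ 0`: `- 2 π i K / q * (i q / (2 π K)) = 1`.
`Im (beta c U) = q / (2 π K) * (log ‖U‖ + log (2 π K ‖a‖ / q))`.
`petal_coord`: let `w = beta c U`, `Re U > R0` large. Then `Im w` is large. With `δ = E w - w = exp (2 π i K w / q) (a + O(exp (- 2 π Im w / q)))`: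
`uK (w + δ) = U exp (- 2 π i K δ / q)`, `‖exp x - 1 - x‖ ≤ ‖x‖^2` for `‖x‖ ≤ 1`, and
`- 2 π i K / q * a * exp (2 π i K w / q) = 1 / U`. So `V = uK (E w) = U + 1 + O(‖U‖^(-1/K))`, since
`exp (- 2 π Im w / q) = (‖U‖ 2 π K ‖a‖ / q)^(-1/K)`. For `R0` large: `‖V - U - 1‖ ≤ 1/4`. `beta c V = E w`: both `w + δ` and `beta c V` have the same
`uK`, so they differ by `j q / K`, `j ∈ ℤ`; but `‖beta c V - beta c U‖` and `‖δ‖` are small (`< q / (2 K)`), so `j = 0`
(`‖log V - log U‖ = ‖log (V / U)‖` is small as `V / U → 1` and `Re U, Re V > 0`).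
`beta_inj`: apply `uK` and compare real parts: `beta c U = beta c' U' + k q` implies `U = U'`, `c / K = c' / K + k` (the arguments of `U`, `U'` lie in
`(-π/2, π/2)`).
-/

set_option autoImplicit false

open Set Filter Topology Metric

namespace Pool.Agent.CR.Horn

/-- the coordinate at the top -/
noncomputable def uK (H : Horn) (K : ℕ) (a w : ℂ) : ℂ :=
  Complex.I * H.q / (2 * Real.pi * K * a) * Complex.exp (-(2 * Real.pi * Complex.I * K * w / H.q))

/-- the inverse branches of `uK` on the right half plane -/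
noncomputable def beta (H : Horn) (K : ℕ) (a : ℂ) (c : ℤ) (U : ℂ) : ℂ :=
  Complex.I * H.q / (2 * Real.pi * K) *
    (Complex.log U + Complex.log (-(2 * Real.pi * Complex.I * K * a / H.q))) + c * H.q / K

variable (H : Horn)

theorem uK_one (a w : ℂ) : H.uK 1 a w = H.u a w := by
  unfold uK u
  push_cast
  rw [mul_one, mul_one]

private theorem HD_q : (H.q : ℂ) ≠ 0 := by
  exact_mod_cast H.q_pos.ne'

private theorem HD_K {K : ℕ} (hK : 1 ≤ K) : (K : ℂ) ≠ 0 := by
  have : K ≠ 0 := by omega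
  exact_mod_cast this

private theorem HD_pi : (Real.pi : ℂ) ≠ 0 := by
  exact_mod_cast Real.pi_ne_zero

theorem uK_add_int {K : ℕ} (hK : 1 ≤ K) (a w : ℂ) (k : ℤ) : H.uK K a (w + k * H.q) = H.uK K a w := by
  have hq := HD_q H
  unfold uK
  congr 1
  have e1 : -(2 * Real.pi * Complex.I * K * (w + k * H.q) / H.q)
      = -(2 * Real.pi * Complex.I * K * w / H.q) + ((-(K * k) : ℤ) : ℂ) * (2 * Real.pi * Complex.I) := by
    push_cast
    field_simp
    ring
  rw [e1, Complex.exp_add, Complex.exp_int_mul_two_pi_mul_I, mul_one]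

/-- the constant inside the logarithm -/
private noncomputable def HDg (K : ℕ) (a : ℂ) : ℂ := -(2 * Real.pi * Complex.I * K * a / H.q)

private theorem HDg_ne {K : ℕ} (hK : 1 ≤ K) {a : ℂ} (ha : a ≠ 0) : HDg H K a ≠ 0 := by
  unfold HDg
  have h1 := HD_q H
  have h2 := HD_K hK
  have h3 := HD_pi
  have h4 := Complex.I_ne_zero
  rw [neg_ne_zero]
  exact div_ne_zero (mul_ne_zero (mul_ne_zero (mul_ne_zero (mul_ne_zero two_ne_zero h3) h4) h2) ha) h1

private theorem HDg_norm (K : ℕ) (a : ℂ) : ‖HDg H K a‖ = 2 * Real.pi * K * ‖a‖ / H.q := by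
  unfold HDg
  rw [norm_neg, norm_div, norm_mul, norm_mul, norm_mul, norm_mul, Complex.norm_I, Complex.norm_real,
    Complex.norm_real, Real.norm_eq_abs, Real.norm_eq_abs, abs_of_pos Real.pi_pos,
    abs_of_pos H.q_pos, Complex.norm_natCast]
  simp

theorem uK_beta {K : ℕ} (hK : 1 ≤ K) {a : ℂ} (ha : a ≠ 0) (c : ℤ) {U : ℂ} (hU : U ≠ 0) :
    H.uK K a (H.beta K a c U) = U := by
  have hq := HD_q H
  have hk := HD_K hK
  have hp := HD_pi
  have hg := HDg_ne H hK ha
  unfold uK beta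
  have e1 : -(2 * Real.pi * Complex.I * K * (Complex.I * H.q / (2 * Real.pi * K) *
      (Complex.log U + Complex.log (-(2 * Real.pi * Complex.I * K * a / H.q))) + c * H.q / K) / H.q)
      = (Complex.log U + Complex.log (-(2 * Real.pi * Complex.I * K * a / H.q)))
        + ((-c : ℤ) : ℂ) * (2 * Real.pi * Complex.I) := by
    push_cast
    field_simp
    ring_nf
    rw [Complex.I_sq]
    ring
  rw [e1, Complex.exp_add, Complex.exp_int_mul_two_pi_mul_I, mul_one, Complex.exp_add,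
    Complex.exp_log hU]
  have hg' : (-(2 * Real.pi * Complex.I * K * a / H.q) : ℂ) ≠ 0 := hg
  rw [Complex.exp_log hg']
  field_simp
  rw [Complex.I_sq]
  ring

theorem im_beta {K : ℕ} (hK : 1 ≤ K) {a : ℂ} (ha : a ≠ 0) (c : ℤ) {U : ℂ} (hU : U ≠ 0) :
    (H.beta K a c U).im =
      H.q / (2 * Real.pi * K) * (Real.log ‖U‖ + Real.log (2 * Real.pi * K * ‖a‖ / H.q)) := by
  have h1 : H.beta K a c U = (((H.q / (2 * Real.pi * K) : ℝ)) : ℂ) *
      (Complex.I * (Complex.log U + Complex.log (HDg H K a))) + ((c * H.q / K : ℝ) : ℂ) := by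
    unfold beta HDg
    push_cast
    ring
  rw [h1, Complex.add_im, Complex.ofReal_im, add_zero, Complex.im_ofReal_mul, Complex.I_mul_im,
    Complex.add_re, Complex.log_re, Complex.log_re, HDg_norm]

theorem diff_beta {K : ℕ} (hK : 1 ≤ K) {a : ℂ} (ha : a ≠ 0) (c : ℤ) :
    DifferentiableOn ℂ (H.beta K a c) {U | 0 < U.re} := by
  intro U hU
  have h1 : U ∈ Complex.slitPlane := Or.inl hU
  have h2 : DifferentiableAt ℂ Complex.log U := (Complex.differentiableAt_log h1)
  have h3 : DifferentiableAt ℂ (H.beta K a c) U := by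
    unfold beta
    exact ((h2.add_const _).const_mul _).add_const _
  exact h3.differentiableWithinAt

private theorem HD_ne_zero {U : ℂ} (hU : 0 < U.re) : U ≠ 0 := by
  rintro rfl
  simp at hU

theorem beta_inj {K : ℕ} (hK : 1 ≤ K) {a : ℂ} (ha : a ≠ 0) {c c' k : ℤ} {U U' : ℂ} (hU : 0 < U.re)
    (hU' : 0 < U'.re) (h : H.beta K a c U = H.beta K a c' U' + k * H.q) :
    U = U' ∧ c = c' + k * K := by
  have hq := HD_q H
  have hk := HD_K hK
  have h1 : H.uK K a (H.beta K a c U) = H.uK K a (H.beta K a c' U' + k * H.q) := by rw [h]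
  rw [uK_add_int H hK, uK_beta H hK ha c (HD_ne_zero hU), uK_beta H hK ha c' (HD_ne_zero hU')] at h1
  refine ⟨h1, ?_⟩
  subst h1
  unfold beta at h
  have h2 : (c : ℂ) * H.q / K = c' * H.q / K + k * H.q := by linear_combination h
  have h3 : (c : ℂ) = c' + k * K := by
    field_simp at h2
    linear_combination h2
  exact_mod_cast h3

theorem petal_coord {K : ℕ} {a : ℂ} {C M' : ℝ} (hE : H.Exp K a C M') :
    ∃ R0 : ℝ, 0 < R0 ∧ ∀ (c : ℤ) (U : ℂ), R0 < U.re → H.beta K a c U ∈ H.D ∧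
      ∃ V : ℂ, ‖V - U - 1‖ ≤ 1 / 4 ∧ H.E (H.beta K a c U) = H.beta K a c V := by
  obtain ⟨hK, ha, hC, hM, hE⟩ := hE
  have hq0 := H.q_pos
  have hq := HD_q H
  have hk := HD_K hK
  have hp := HD_pi
  have hKr : (0 : ℝ) < K := by exact_mod_cast hK
  have hpi := Real.pi_pos
  have han : 0 < ‖a‖ := norm_pos_iff.2 ha
  set G : ℝ := Real.log (2 * Real.pi * K * ‖a‖ / H.q) with hG
  set Y0 : ℝ := max M' (-(H.q / (2 * Real.pi)) * Real.log (‖a‖ / (8 * C))) with hY0
  set R0 : ℝ := max 32 (Real.exp (2 * Real.pi * K * Y0 / H.q - G)) with hR0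
  refine ⟨R0, lt_of_lt_of_le (by norm_num) (le_max_left _ _), ?_⟩
  intro c U hU
  have hU32 : 32 < U.re := lt_of_le_of_lt (le_max_left _ _) hU
  have hUexp : Real.exp (2 * Real.pi * K * Y0 / H.q - G) < U.re := lt_of_le_of_lt (le_max_right _ _) hU
  have hU0 : U ≠ 0 := HD_ne_zero (by linarith)
  have hUn : U.re ≤ ‖U‖ := (le_abs_self _).trans (Complex.abs_re_le_norm U)
  have hUn0 : 0 < ‖U‖ := by linarith
  set w := H.beta K a c U with hw
  have him : w.im = H.q / (2 * Real.pi * K) * (Real.log ‖U‖ + G) := im_beta H hK ha c hU0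
  have hlog : 2 * Real.pi * K * Y0 / H.q - G < Real.log ‖U‖ := by
    rw [Real.lt_log_iff_exp_lt hUn0]
    linarith
  have hwY : Y0 < w.im := by
    rw [him]
    have h1 : Y0 = H.q / (2 * Real.pi * K) * (2 * Real.pi * K * Y0 / H.q) := by field_simp
    rw [h1]
    apply mul_lt_mul_of_pos_left _ (by positivity)
    linarith
  have hwM' : M' < w.im := lt_of_le_of_lt (le_max_left _ _) hwY
  have hwD : w ∈ H.D := H.top w (by linarith)
  refine ⟨hwD, ?_⟩
  -- the error term
  have hth : Real.exp (-(2 * Real.pi * w.im / H.q)) ≤ ‖a‖ / (8 * C) := by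
    have h1 : -(H.q / (2 * Real.pi)) * Real.log (‖a‖ / (8 * C)) < w.im :=
      lt_of_le_of_lt (le_max_right _ _) hwY
    have h2 : -(2 * Real.pi * w.im / H.q) ≤ Real.log (‖a‖ / (8 * C)) := by
      have h3 : -(2 * Real.pi * w.im / H.q) = -(2 * Real.pi / H.q) * w.im := by ring
      have h4 : Real.log (‖a‖ / (8 * C)) = -(2 * Real.pi / H.q) * (-(H.q / (2 * Real.pi)) * Real.log (‖a‖ / (8 * C))) := by
        field_simp
      rw [h3, h4]
      apply mul_le_mul_of_nonpos_left h1.le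
      have : 0 < 2 * Real.pi / H.q := by positivity
      linarith
    calc Real.exp (-(2 * Real.pi * w.im / H.q)) ≤ Real.exp (Real.log (‖a‖ / (8 * C))) := Real.exp_le_exp.2 h2
      _ = ‖a‖ / (8 * C) := Real.exp_log (by positivity)
  have hEw := hE w hwM'
  set δ : ℂ := H.E w - w with hδ
  set e1 : ℂ := Complex.exp (-(2 * Real.pi * Complex.I * K * w / H.q)) with he1
  set ε1 : ℂ := δ * e1 - a with hε1
  have hε1n : ‖ε1‖ ≤ ‖a‖ / 8 := by
    refine hEw.trans ?_
    calc C * Real.exp (-(2 * Real.pi * w.im / H.q)) ≤ C * (‖a‖ / (8 * C)) :=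
          mul_le_mul_of_nonneg_left hth hC.le
      _ = ‖a‖ / 8 := by field_simp
  have hUe : Complex.I * H.q / (2 * Real.pi * K * a) * e1 = U := by
    have h1 := uK_beta H hK ha c hU0
    rw [← hw] at h1
    exact h1
  set x : ℂ := -(2 * Real.pi * Complex.I * K / H.q) * δ with hx
  have hxU : x * U = 1 + ε1 / a := by
    have h1 : δ * e1 = a + ε1 := by rw [hε1]; ring
    have h2 : x * U = (δ * e1) / a := by
      rw [hx]
      nth_rewrite 1 [← hUe]
      field_simp
      rw [Complex.I_sq]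
      ring
    rw [h2, h1]
    field_simp
  have hεa : ‖ε1 / a‖ ≤ 1 / 8 := by
    rw [norm_div, div_le_iff₀ han]
    linarith
  have hxn : ‖x‖ * ‖U‖ ≤ 2 := by
    rw [← norm_mul, hxU]
    have h1 : ‖(1 : ℂ) + ε1 / a‖ ≤ ‖(1 : ℂ)‖ + ‖ε1 / a‖ := norm_add_le _ _
    rw [norm_one] at h1
    linarith
  have hx16 : ‖x‖ ≤ 1 / 16 := by
    have h1 : ‖x‖ * 32 ≤ ‖x‖ * ‖U‖ := mul_le_mul_of_nonneg_left (by linarith) (norm_nonneg _)
    linarith
  refine ⟨U * Complex.exp x, ?_, ?_⟩
  · have h1 : U * Complex.exp x - U - 1 = U * (Complex.exp x - 1 - x) + ε1 / a := by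
      have : U * x = 1 + ε1 / a := by rw [mul_comm]; exact hxU
      linear_combination (-1 : ℂ) * this + (1 : ℂ) * this + this
    rw [h1]
    have h2 : ‖Complex.exp x - 1 - x‖ ≤ ‖x‖ ^ 2 := Complex.norm_exp_sub_one_sub_id_le (by linarith)
    have h3 : ‖U * (Complex.exp x - 1 - x)‖ ≤ 1 / 8 := by
      rw [norm_mul]
      calc ‖U‖ * ‖Complex.exp x - 1 - x‖ ≤ ‖U‖ * ‖x‖ ^ 2 := mul_le_mul_of_nonneg_left h2 (norm_nonneg _)
        _ = (‖x‖ * ‖U‖) * ‖x‖ := by ring
        _ ≤ 2 * (1 / 16) := mul_le_mul hxn hx16 (norm_nonneg _) (by norm_num)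
        _ = 1 / 8 := by norm_num
    have h4 := norm_add_le (U * (Complex.exp x - 1 - x)) (ε1 / a)
    linarith
  · have harg := Complex.abs_arg_lt_pi_div_two_iff.2 (Or.inl (by linarith : 0 < U.re))
    have hlogV : Complex.log (U * Complex.exp x) = Complex.log U + x := by
      have h1 : U * Complex.exp x = Complex.exp (Complex.log U + x) := by
        rw [Complex.exp_add, Complex.exp_log hU0]
      rw [h1]
      have h2 : |x.im| ≤ 1 / 16 := (Complex.abs_im_le_norm x).trans hx16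
      have h3 : (Complex.log U + x).im = U.arg + x.im := by rw [Complex.add_im, Complex.log_im]
      have h4 := abs_lt.1 harg
      have h5 := abs_le.1 h2
      have h6 := Real.pi_gt_three
      apply Complex.log_exp
      · rw [h3]; linarith
      · rw [h3]; linarith
    have h7 : H.beta K a c (U * Complex.exp x) = w + δ := by
      rw [hw]
      unfold beta
      rw [hlogV]
      have h8 : Complex.I * H.q / (2 * Real.pi * K) * x = δ := by
        rw [hx]
        field_simp
        rw [Complex.I_sq]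
        ring
      linear_combination h8
    rw [h7, hδ]
    ring

end Pool.Agent.CR.Horn
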