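import Pool.Agent.H73.CR.HD

/-!
# CR HE: every petal at the top meets the post-singular set

Let `Ω = {U | R < Re U}`, `b = beta c`, and suppose `b U ∉ P` for all `U ∈ Ω`. By the hypothesis `hR` there is `F : Ω → Ω` with
`‖F U - U - 1‖ ≤ 1/4`, `E (b U) = b (F U)`; `F U = uK (E (b U))`, so `F` is continuous on `Ω`.
Let `U_0 = R + 1`, `U_n = F^n U_0`, `Re U_n ≥ R + 1 + 3 n / 4`, `x_n = b U_n`. By `lift_iter` (`β = b`, point `U_n`, `η0 = x_0`) there is `G` on
`Ω` with `Def n (G U)`, `E^n (G U) = b U`, `G U_n = x_0`. Then `G (F^n U) = b U` for `U ∈ Ω`: both are lifts of `b (F^n U) = E^n (b U)`, they agree at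
`U_0`, and `deriv E ≠ 0` at `E^k (b U) = b (F^k U)` (by `deriv_ne_zero`, as `E (b (F^k U)) = b (F^(k+1) U) ∉ P`); `lift_unique_iter`.
In particular `G U_(n+1) = x_1`. `G` is injective on `Ω` (`E^n (G U) = b U`, `beta_inj` with `c = c'`, `k = 0`) and `G U ≠ G U' + q`
(otherwise `b U = b U' + q`, contradiction to `beta_inj`: `c = c + K`). By `koebe_translate` on `ball U_n ρ`, `ρ = Re U_n - R ≥ 3n/4`:
`ρ ‖G' U_n‖ ≤ C q` and (if `ρ > 4`) `‖x_1 - x_0‖ = ‖G U_(n+1) - G U_n‖ ≤ C ‖G' U_n‖ · 5/4 → 0` as `n → ∞`. But `x_1 ≠ x_0` (`beta_inj`).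
-/

set_option autoImplicit false

open Set Filter Topology Metric

namespace Pool.Agent.CR.Horn

variable (H : Horn)

theorem petal_meets {K : ℕ} {a : ℂ} (hK : 1 ≤ K) (ha : a ≠ 0) {R : ℝ} (hR0 : 0 < R) (c : ℤ)
    (hR : ∀ U : ℂ, R < U.re → H.beta K a c U ∈ H.D ∧
      ∃ V : ℂ, ‖V - U - 1‖ ≤ 1 / 4 ∧ H.E (H.beta K a c U) = H.beta K a c V) :
    ∃ U : ℂ, R < U.re ∧ H.beta K a c U ∈ H.P := by
  by_contra hcon
  push Not at hcon
  set b : ℂ → ℂ := H.beta K a c with hb
  set Ω : Set ℂ := {U | R < U.re} with hΩ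
  have ho : IsOpen Ω := isOpen_lt continuous_const Complex.continuous_re
  have hcx : Convex ℝ Ω := convex_halfSpace_re_gt R
  have hbd : DifferentiableOn ℂ b Ω := (H.diff_beta hK ha c).mono fun U hU => hR0.trans hU
  have hbinj : ∀ U ∈ Ω, ∀ U' ∈ Ω, ∀ k : ℤ, b U = b U' + k * H.q → U = U' ∧ k = 0 := by
    intro U hU U' hU' k h
    obtain ⟨h1, h2⟩ := H.beta_inj hK ha (hR0.trans hU) (hR0.trans hU') h
    refine ⟨h1, ?_⟩
    have h3 : k * (K : ℤ) = 0 := by omega
    rcases mul_eq_zero.1 h3 with h4 | h4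
    · exact h4
    · omega
  -- the map F
  set F : ℂ → ℂ := fun U => H.uK K a (H.E (b U)) with hF
  have hFp : ∀ U ∈ Ω, ‖F U - U - 1‖ ≤ 1 / 4 ∧ H.E (b U) = b (F U) := by
    intro U hU
    obtain ⟨-, V, hV1, hV2⟩ := hR U hU
    have hre : |(V - U - 1).re| ≤ 1 / 4 := (Complex.abs_re_le_norm _).trans hV1
    rw [Complex.sub_re, Complex.sub_re, Complex.one_re, abs_le] at hre
    have hU' : R < U.re := hU
    have hV0 : V ≠ 0 := by
      intro h
      rw [h, Complex.zero_re] at hre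
      linarith [hre.1]
    have e : F U = V := by
      show H.uK K a (H.E (b U)) = V
      rw [hV2]
      exact H.uK_beta hK ha c hV0
    rw [e]
    exact ⟨hV1, hV2⟩
  have hFre : ∀ U ∈ Ω, U.re + 3 / 4 ≤ (F U).re := by
    intro U hU
    have h1 := (Complex.abs_re_le_norm _).trans (hFp U hU).1
    rw [Complex.sub_re, Complex.sub_re, Complex.one_re, abs_le] at h1
    linarith [h1.1]
  have hFΩ : ∀ U ∈ Ω, F U ∈ Ω := by
    intro U hU
    have h1 := hFre U hU
    have h2 : R < U.re := hU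
    show R < (F U).re
    linarith
  have hFc : ContinuousOn F Ω := by
    have h1 : ContinuousOn (fun U => H.E (b U)) Ω :=
      H.diff.continuousOn.comp hbd.continuousOn fun U hU => (hR U hU).1
    have h2 : Continuous (H.uK K a) := by
      unfold uK
      fun_prop
    exact h2.comp_continuousOn h1
  have hFn : ∀ n : ℕ, ∀ U ∈ Ω, F^[n] U ∈ Ω := by
    intro n
    induction n with
    | zero => intro U hU; exact hU
    | succ n ih =>
      intro U hU
      rw [Function.iterate_succ_apply']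
      exact hFΩ _ (ih U hU)
  have hFnc : ∀ n : ℕ, ContinuousOn (F^[n]) Ω := by
    intro n
    induction n with
    | zero => exact continuousOn_id
    | succ n ih =>
      rw [Function.iterate_succ']
      exact hFc.comp ih fun U hU => hFn n U hU
  have hit : ∀ n : ℕ, ∀ U ∈ Ω, H.Def n (b U) ∧ H.E^[n] (b U) = b (F^[n] U) := by
    intro n
    induction n with
    | zero => intro U hU; exact ⟨fun k hk => absurd hk (Nat.not_lt_zero k), rfl⟩
    | succ n ih =>
      intro U hU
      obtain ⟨h1, h2⟩ := ih U hU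
      have h3 := hFn n U hU
      refine ⟨(H.def_succ' n _).2 ⟨h1, ?_⟩, ?_⟩
      · rw [h2]
        exact (hR _ h3).1
      · rw [Function.iterate_succ_apply', h2, (hFp _ h3).2, Function.iterate_succ_apply']
  have hsing : ∀ U ∈ Ω, ∀ k : ℤ, H.E (b U) ≠ H.v + k * H.q := by
    intro U hU k h
    apply hcon (F U) (hFΩ U hU)
    show b (F U) ∈ H.P
    rw [← (hFp U hU).2, h]
    exact ⟨0, k, fun j hj => absurd hj (Nat.not_lt_zero j), rfl⟩
  -- the orbit
  set U0 : ℂ := ((R + 1 : ℝ) : ℂ) with hU0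
  have hU0Ω : U0 ∈ Ω := by
    show R < U0.re
    rw [hU0, Complex.ofReal_re]
    linarith
  have hUre : ∀ n : ℕ, R + 1 + 3 * n / 4 ≤ (F^[n] U0).re := by
    intro n
    induction n with
    | zero => simp [hU0]
    | succ n ih =>
      rw [Function.iterate_succ_apply']
      have h1 := hFre _ (hFn n U0 hU0Ω)
      push_cast
      linarith
  obtain ⟨C, hC0, hC⟩ := koebe_translate
  -- the estimate
  have hest : ∀ n : ℕ, 4 ≤ n → ‖b (F U0) - b U0‖ * (3 * n / 4) ≤ C * (C * H.q) * (5 / 4) := by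
    intro n hn
    have hUn := hFn n U0 hU0Ω
    obtain ⟨G, hG1, hG2, hG3⟩ := H.lift_iter ho hcx hbd (fun U hU => hcon U hU) n hUn
      (hit n U0 hU0Ω).1 (hit n U0 hU0Ω).2
    have hGF : ∀ U ∈ Ω, G (F^[n] U) = b U := by
      refine H.lift_unique_iter (n := n) hcx.isPreconnected
        (hG1.continuousOn.comp (hFnc n) fun U hU => hFn n U hU) hbd.continuousOn
        (fun U hU => (hG2 _ (hFn n U hU)).1) (fun U hU => (hit n U hU).1)
        (fun U hU => ?_) (fun U hU k hk => ?_) hU0Ω hG3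
      · show H.E^[n] (G (F^[n] U)) = H.E^[n] (b U)
        rw [(hG2 _ (hFn n U hU)).2, (hit n U hU).2]
      · rw [(hit k U hU).2]
        exact H.deriv_ne_zero (hR _ (hFn k U hU)).1 (hsing _ (hFn k U hU))
    have hGn : G (F^[n] U0) = b U0 := hG3
    have hGn1 : G (F (F^[n] U0)) = b (F U0) := by
      rw [← Function.iterate_succ_apply' F n U0, Function.iterate_succ_apply]
      exact hGF _ (hFΩ _ hU0Ω)
    set ρ : ℝ := (F^[n] U0).re - R with hρ
    have hρn : 1 + 3 * n / 4 ≤ ρ := by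
      have := hUre n
      rw [hρ]
      linarith
    have hn4 : (4 : ℝ) ≤ n := by exact_mod_cast hn
    have hρ0 : 0 < ρ := by linarith
    have hball : ball (F^[n] U0) ρ ⊆ Ω := by
      intro z hz
      rw [mem_ball_iff_norm] at hz
      have h1 := (Complex.abs_re_le_norm (z - F^[n] U0)).trans_lt hz
      rw [Complex.sub_re, abs_lt] at h1
      show R < z.re
      linarith [h1.1]
    obtain ⟨k1, k2⟩ := hC H G (F^[n] U0) ρ hρ0 (hG1.mono hball)
      (fun x hx y hy hxy => by
        have h1 := (hG2 x (hball hx)).2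
        have h2 := (hG2 y (hball hy)).2
        rw [hxy, h2] at h1
        have h3 : b x = b y + ((0 : ℤ) : ℂ) * H.q := by
          rw [Int.cast_zero, zero_mul, add_zero, h1]
        exact (hbinj x (hball hx) y (hball hy) 0 h3).1)
      (fun x hx y hy hxy => by
        have h1 := (hG2 x (hball hx)).2
        have h2 := (hG2 y (hball hy))
        have h4 := H.iter_add_int h2.1 1
        rw [Int.cast_one, one_mul] at h4
        rw [hxy, h4, h2.2] at h1
        have h3 : b x = b y + ((1 : ℤ) : ℂ) * H.q := by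
          rw [Int.cast_one, one_mul, h1]
        have h5 := (hbinj x (hball hx) y (hball hy) 1 h3).2
        omega)
    have hd : ‖F (F^[n] U0) - F^[n] U0‖ ≤ 5 / 4 := by
      have h1 := (hFp _ hUn).1
      have h2 : F (F^[n] U0) - F^[n] U0 = (F (F^[n] U0) - F^[n] U0 - 1) + 1 := by ring
      rw [h2]
      refine (norm_add_le _ _).trans ?_
      rw [norm_one]
      linarith
    have k3 := k2 (F (F^[n] U0)) (by rw [mem_ball_iff_norm]; linarith) (F^[n] U0)
      (mem_ball_self (by linarith))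
    rw [hGn, hGn1] at k3
    set δ : ℝ := ‖deriv G (F^[n] U0)‖ with hδ
    have hδ0 : 0 ≤ δ := norm_nonneg _
    have k4 : ‖b (F U0) - b U0‖ ≤ C * δ * (5 / 4) :=
      k3.trans (mul_le_mul_of_nonneg_left hd (by positivity))
    have k5 : δ * (3 * n / 4) ≤ C * H.q := by
      refine le_trans ?_ k1
      rw [mul_comm ρ δ]
      exact mul_le_mul_of_nonneg_left (by linarith) hδ0
    calc ‖b (F U0) - b U0‖ * (3 * n / 4) ≤ C * δ * (5 / 4) * (3 * n / 4) :=
          mul_le_mul_of_nonneg_right k4 (by positivity)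
      _ = C * (δ * (3 * n / 4)) * (5 / 4) := by ring
      _ ≤ C * (C * H.q) * (5 / 4) := by
          refine mul_le_mul_of_nonneg_right (mul_le_mul_of_nonneg_left k5 hC0.le) (by norm_num)
  have hzero : ‖b (F U0) - b U0‖ = 0 := by
    by_contra hne
    have hpos : 0 < ‖b (F U0) - b U0‖ := lt_of_le_of_ne (norm_nonneg _) (Ne.symm hne)
    obtain ⟨n, hn⟩ := exists_nat_gt (C * (C * H.q) * (5 / 4) / (‖b (F U0) - b U0‖ * (3 / 4)))
    rw [div_lt_iff₀ (by positivity)] at hn
    have h1 := hest (n + 4) (by omega)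
    push_cast at h1
    nlinarith
  have heq : b (F U0) = b U0 := sub_eq_zero.1 (norm_eq_zero.1 hzero)
  have h1 := (hbinj _ (hFΩ _ hU0Ω) _ hU0Ω 0 (by rw [heq, Int.cast_zero, zero_mul, add_zero])).1
  have h2 := hFre _ hU0Ω
  rw [h1] at h2
  linarith

end Pool.Agent.CR.Horn
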