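import Pool.Agent.H73.CR.HE

/-!
# CR HF: the first coefficient is nonzero, the singular orbit tends to the top

`top_expansion`, `petal_coord` give `K, a, C, M', R0`. By `petal_meets` (`c = 0`, `R = R0`): `beta 0 U = E^n v + k q`, `Def n v`, `Re U > R0`. By induction
`E^m (beta 0 U) = beta 0 V_m` with `Re V_m ≥ Re U + 3 m / 4`, all in `D`; hence `Def (n + m) v` for all `m` (`def_add`, `def_add_int`) and
`E^(n+m) v = beta 0 V_m - k q`. Suppose `K ≥ 2`. In the same way for `c = 1`: `E^(n'+m') v = beta 1 V'_m' - k' q`. Take `n + m = n' + m'`: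
`beta 0 V = beta 1 V' + (k - k') q`, so by `beta_inj` `0 = 1 + (k - k') K`, impossible for `K ≥ 2`. So `K = 1`. Finally
`u (E^(n+m) v) = V_m` (`uK_one`, `uK_add_int`, `uK_beta`), `Re V_m → ∞`, and `Im (E^(n+m) v) = Im (beta 0 V_m) → ∞` by `im_beta`.
`IsCoeff` is immediate from `Exp` with `K = 1`.
-/

set_option autoImplicit false

open Set Filter Topology Metric

namespace Pool.Agent.CR.Horn

variable (H : Horn)

/-- The orbit of a point of a petal. -/
private theorem HF_petal {K : ℕ} {a : ℂ} {R0 : ℝ} {c : ℤ}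
    (hpet : ∀ U : ℂ, R0 < U.re → H.beta K a c U ∈ H.D ∧
      ∃ V : ℂ, ‖V - U - 1‖ ≤ 1 / 4 ∧ H.E (H.beta K a c U) = H.beta K a c V)
    {U : ℂ} (hU : R0 < U.re) (m : ℕ) :
    ∃ V : ℂ, U.re + 3 / 4 * m ≤ V.re ∧ H.Def m (H.beta K a c U) ∧
      H.E^[m] (H.beta K a c U) = H.beta K a c V := by
  induction m with
  | zero =>
    refine ⟨U, by simp, ?_, rfl⟩
    intro k hk
    exact absurd hk (Nat.not_lt_zero k)
  | succ m ih =>
    obtain ⟨V, hV1, hV2, hV3⟩ := ih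
    have hm : (0 : ℝ) ≤ m := Nat.cast_nonneg m
    obtain ⟨hD, W, hW1, hW2⟩ := hpet V (by linarith)
    refine ⟨W, ?_, ?_, ?_⟩
    · have h1 : |(W - V - 1).re| ≤ 1 / 4 := (Complex.abs_re_le_norm _).trans hW1
      rw [Complex.sub_re, Complex.sub_re, Complex.one_re, abs_le] at h1
      push_cast
      linarith [h1.1]
    · rw [H.def_succ']
      refine ⟨hV2, ?_⟩
      rw [hV3]
      exact hD
    · rw [Function.iterate_succ_apply', hV3, hW2]

/-- The singular orbit in the petal `c`. -/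
private theorem HF_orbit {K : ℕ} {a : ℂ} (hK : 1 ≤ K) (ha : a ≠ 0) {R0 : ℝ} (hR0 : 0 < R0) (c : ℤ)
    (hpet : ∀ U : ℂ, R0 < U.re → H.beta K a c U ∈ H.D ∧
      ∃ V : ℂ, ‖V - U - 1‖ ≤ 1 / 4 ∧ H.E (H.beta K a c U) = H.beta K a c V) :
    ∃ (n : ℕ) (k : ℤ), ∀ m : ℕ, H.Def (n + m) H.v ∧ ∃ V : ℂ, R0 + 3 / 4 * m ≤ V.re ∧
      H.E^[n + m] H.v = H.beta K a c V + k * H.q := by
  obtain ⟨U, hU, n, k, hn, hUk⟩ := H.petal_meets hK ha hR0 c hpet
  refine ⟨n, -k, ?_⟩
  intro m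
  obtain ⟨V, hV1, hV2, hV3⟩ := H.HF_petal hpet hU m
  have e1 : H.E^[n] H.v = H.beta K a c U + ((-k : ℤ) : ℂ) * H.q := by
    rw [hUk]
    push_cast
    ring
  have h1 : H.Def m (H.E^[n] H.v) := by
    rw [e1, H.def_add_int]
    exact hV2
  refine ⟨?_, V, by linarith, ?_⟩
  · rw [H.def_add]
    exact ⟨hn, h1⟩
  · rw [Nat.add_comm n m, Function.iterate_add_apply, e1, H.iter_add_int hV2, hV3]

theorem singular_orbit : ∃ (a : ℂ) (C M' : ℝ), H.Exp 1 a C M' ∧ (∀ n, H.Def n H.v) ∧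
    ∀ R : ℝ, ∃ n0 : ℕ, ∀ n ≥ n0, R < (H.u a (H.E^[n] H.v)).re ∧ R < (H.E^[n] H.v).im := by
  obtain ⟨K, a, C, M', hE⟩ := H.top_expansion
  obtain ⟨R0, hR0, hpet⟩ := H.petal_coord hE
  have hK : 1 ≤ K := hE.1
  have ha : a ≠ 0 := hE.2.1
  obtain ⟨n, k, hn⟩ := H.HF_orbit hK ha hR0 0 (hpet 0)
  obtain ⟨n', k', hn'⟩ := H.HF_orbit hK ha hR0 1 (hpet 1)
  have hK1 : K = 1 := by
    obtain ⟨-, V, hV, hV2⟩ := hn n'
    obtain ⟨-, V', hV', hV2'⟩ := hn' n
    have h0 : (0 : ℝ) ≤ n := Nat.cast_nonneg n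
    have h0' : (0 : ℝ) ≤ n' := Nat.cast_nonneg n'
    have e1 : H.beta K a 1 V' = H.beta K a 0 V + ((k - k' : ℤ) : ℂ) * H.q := by
      have e2 : H.beta K a 0 V + k * H.q = H.beta K a 1 V' + k' * H.q := by
        rw [← hV2, ← hV2', Nat.add_comm]
      push_cast
      linear_combination -e2
    have h1 := (H.beta_inj hK ha (by linarith) (by linarith) e1).2
    rw [zero_add] at h1
    have h2 : (K : ℤ) ∣ 1 := ⟨k - k', by rw [h1]; ring⟩
    have h3 : K ∣ 1 := by exact_mod_cast h2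
    exact Nat.dvd_one.1 h3
  subst hK1
  have hq := H.q_pos
  have hpi := Real.pi_pos
  refine ⟨a, C, M', hE, ?_, ?_⟩
  · intro m j hj
    exact (hn m).1 j (by omega)
  · intro R
    have hc : 0 < H.q / (2 * Real.pi * (1 : ℕ)) := by
      push_cast
      positivity
    have htend : Tendsto (fun x : ℝ => H.q / (2 * Real.pi * (1 : ℕ)) *
        (Real.log x + Real.log (2 * Real.pi * (1 : ℕ) * ‖a‖ / H.q))) atTop atTop :=
      (tendsto_atTop_add_const_right _ _ Real.tendsto_log_atTop).const_mul_atTop hc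
    obtain ⟨X, hX⟩ := Filter.eventually_atTop.1 (htend.eventually_gt_atTop R)
    obtain ⟨m0, hm0⟩ := exists_nat_ge (4 / 3 * (max X (R + 1)))
    refine ⟨n + m0, ?_⟩
    intro N hN
    obtain ⟨m, rfl⟩ : ∃ m, N = n + m := ⟨N - n, by omega⟩
    have hm : m0 ≤ m := by omega
    have hm' : (m0 : ℝ) ≤ m := by exact_mod_cast hm
    obtain ⟨-, V, hV, hV2⟩ := hn m
    have hmpos : (0 : ℝ) ≤ m := Nat.cast_nonneg m
    have hVre : max X (R + 1) < V.re := by linarith
    have hV0 : V ≠ 0 := by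
      rintro rfl
      rw [Complex.zero_re] at hV
      linarith
    constructor
    · rw [hV2, ← H.uK_one, H.uK_add_int le_rfl, H.uK_beta le_rfl ha 0 hV0]
      linarith [le_max_right X (R + 1)]
    · rw [hV2]
      have e1 : (H.beta 1 a 0 V + k * H.q).im = (H.beta 1 a 0 V).im := by simp
      rw [e1, H.im_beta le_rfl ha 0 hV0]
      apply hX
      have h1 : V.re ≤ ‖V‖ := (le_abs_self _).trans (Complex.abs_re_le_norm V)
      linarith [le_max_left X (R + 1)]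

theorem Exp.isCoeff {H : Horn} {a : ℂ} {C M' : ℝ} (h : H.Exp 1 a C M') : H.IsCoeff a := by
  obtain ⟨-, -, hC, -, hE⟩ := h
  have hq := H.q_pos
  have hpi := Real.pi_pos
  intro ε hε
  have h1 : Tendsto (fun x : ℝ => 2 * Real.pi * x / H.q) atTop atTop := by
    have h2 : Tendsto (fun x : ℝ => (2 * Real.pi / H.q) * x) atTop atTop :=
      tendsto_id.const_mul_atTop (by positivity)
    refine h2.congr ?_
    intro x
    ring
  have h3 : Tendsto (fun x : ℝ => C * Real.exp (-(2 * Real.pi * x / H.q))) atTop (𝓝 (C * 0)) :=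
    (Real.tendsto_exp_neg_atTop_nhds_zero.comp h1).const_mul C
  rw [mul_zero] at h3
  obtain ⟨X, hX⟩ := Filter.eventually_atTop.1 (h3.eventually (ge_mem_nhds hε))
  refine ⟨max M' X, ?_⟩
  intro w hw
  have h4 := hE w (lt_of_le_of_lt (le_max_left _ _) hw)
  have h5 := hX w.im (le_of_lt (lt_of_le_of_lt (le_max_right _ _) hw))
  rw [Nat.cast_one, mul_one] at h4
  exact h4.trans h5

end Pool.Agent.CR.Horn
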