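import Pool.Agent.H73.CR.Defs

/-!
# CR: horn maps (abstract)

`D` is an open set invariant under `w ↦ w + q`, containing the upper half plane `Im w > M` and disjoint from
`Im w < -M`; `E : D → ℂ` is holomorphic, commutes with `w ↦ w + q`, `E w - w → 0` at the top, and is a
covering over the complement of `v + q ℤ` (field `lift`).
-/

set_option autoImplicit false

open Set Filter Topology

namespace Pool.Agent.CR

/-- A horn map with one singular value modulo `q`. -/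
structure Horn where
  q : ℝ
  D : Set ℂ
  E : ℂ → ℂ
  v : ℂ
  M : ℝ
  q_pos : 0 < q
  isOpen : IsOpen D
  diff : DifferentiableOn ℂ E D
  mem_add : ∀ w : ℂ, w + q ∈ D ↔ w ∈ D
  map_add : ∀ w ∈ D, E (w + q) = E w + q
  top : ∀ w : ℂ, M < w.im → w ∈ D
  top_lim : ∀ ε : ℝ, 0 < ε → ∃ M' : ℝ, ∀ w : ℂ, M' < w.im → ‖E w - w‖ ≤ ε
  bot : ∀ w ∈ D, -M ≤ w.im
  lift : ∀ (Ω : Set ℂ) (β : ℂ → ℂ), IsOpen Ω → Convex ℝ Ω → DifferentiableOn ℂ β Ω →
    (∀ x ∈ Ω, ∀ k : ℤ, β x ≠ v + k * q) → ∀ x0 ∈ Ω, ∀ η0 ∈ D, E η0 = β x0 →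
      ∃ η : ℂ → ℂ, DifferentiableOn ℂ η Ω ∧ (∀ x ∈ Ω, η x ∈ D ∧ E (η x) = β x) ∧ η x0 = η0

namespace Horn

/-- `E^n` is defined at `w`. -/
def Def (H : Horn) (n : ℕ) (w : ℂ) : Prop := ∀ k < n, H.E^[k] w ∈ H.D

/-- `a` is the first Fourier coefficient of `E w - w` at the top. -/
def IsCoeff (H : Horn) (a : ℂ) : Prop :=
  ∀ ε : ℝ, 0 < ε → ∃ M' : ℝ, ∀ w : ℂ, M' < w.im →
    ‖(H.E w - w) * Complex.exp (-(2 * Real.pi * Complex.I * w / H.q)) - a‖ ≤ ε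

/-- The coordinate in which `E` is nearly `u ↦ u + 1` at the top. -/
noncomputable def u (H : Horn) (a w : ℂ) : ℂ :=
  Complex.I * H.q / (2 * Real.pi * a) * Complex.exp (-(2 * Real.pi * Complex.I * w / H.q))

end Horn

end Pool.Agent.CR
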