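import Pool.Agent.H73.CR.RI
import Pool.Agent.H73.CR.B5

/-!
# CR NA: lifts of converging paths converge; convergence of rays

`lift_conv`: let `ε > 0`. There is `ε' ∈ (0, ε)` such that for all `t ∈ [a,b]` the closed ball of radius `ε'` around `τ t` is contained in `U` and `g` is
injective on it (`deriv g (τ t) ≠ 0`, local injectivity, Lebesgue number on the compact set `τ [a,b]`). `m = min ‖g x - g (τ t)‖` over the compact set
`{(t,x) | t ∈ [a,b], ‖x - τ t‖ = ε'}` is positive. For large `N`: `‖gN x - g x‖ < m/3` on the compact `ε'`-neighbourhood of `τ [a,b]`,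
`‖gN (τN t) - g (τ t)‖ < m/3`, `‖τN a - τ a‖ < ε'`. If `‖τN t - τ t‖ ≥ ε'` for some `t`, take the smallest one: equality holds, and `x = τN t` gives
`m ≤ ‖g x - g (τ t)‖ ≤ ‖g x - gN x‖ + ‖gN (τN t) - g (τ t)‖ < 2m/3`, a contradiction.
`ray_conv`: the joint continuity of `ray` (B5) and compactness of `Icc a b`.
`norm_mu`, `mu_continuous`: immediate. `lN_tendsto`: `p_N / q_N → p / q`.
-/

set_option autoImplicit false

open Set Filter Topology Metric

namespace Pool.Agent.CR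

theorem lift_conv {U : Set ℂ} (hU : IsOpen U) {g : ℂ → ℂ} {gN : ℕ → ℂ → ℂ}
    (hg : DifferentiableOn ℂ g U) (hgN : TendstoLocallyUniformlyOn gN g atTop U) {a b : ℝ}
    (hab : a ≤ b) {τ : ℝ → ℂ} {τN : ℕ → ℝ → ℂ} (hτ : ContinuousOn τ (Icc a b))
    (hτU : ∀ t ∈ Icc a b, τ t ∈ U) (hd : ∀ t ∈ Icc a b, deriv g (τ t) ≠ 0)
    (hτN : ∀ᶠ N in atTop, ContinuousOn (τN N) (Icc a b))
    (hconv : TendstoUniformlyOn (fun N t => gN N (τN N t)) (fun t => g (τ t)) atTop (Icc a b))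
    (h0 : Tendsto (fun N => τN N a) atTop (𝓝 (τ a))) :
    TendstoUniformlyOn τN τ atTop (Icc a b) := by
  rw [Metric.tendstoUniformlyOn_iff]
  intro ε hε
  have hK0 : IsCompact (τ '' Icc a b) := isCompact_Icc.image_of_continuousOn hτ
  -- local injectivity
  have hloc : ∀ t : Icc a b, ∃ r : ℝ, 0 < r ∧ InjOn g (ball (τ t) r) ∧ ball (τ t) r ⊆ U := by
    intro t
    have hUn : U ∈ 𝓝 (τ t) := hU.mem_nhds (hτU t t.2)
    have han : AnalyticAt ℂ g (τ t) := hg.analyticAt hUn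
    have hsd : HasStrictDerivAt g (deriv g (τ t)) (τ t) := han.hasStrictDerivAt
    have hinj : ∃ V ∈ 𝓝 (τ t), InjOn g V := by
      have h1 := hsd.hasStrictFDerivAt_equiv (hd t t.2)
      refine ⟨(h1.toOpenPartialHomeomorph g).source, (h1.toOpenPartialHomeomorph g).open_source.mem_nhds
        h1.mem_toOpenPartialHomeomorph_source, ?_⟩
      have h2 := (h1.toOpenPartialHomeomorph g).injOn
      simpa using h2
    obtain ⟨V, hV, hVi⟩ := hinj
    obtain ⟨r, hr, hrV⟩ := Metric.mem_nhds_iff.1 (Filter.inter_mem hV hUn)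
    exact ⟨r, hr, hVi.mono (fun x hx => (hrV hx).1), fun x hx => (hrV hx).2⟩
  choose r hr0 hri hrU using hloc
  obtain ⟨δ, hδ, hδc⟩ := lebesgue_number_lemma_of_metric (s := τ '' Icc a b)
    (c := fun t : Icc a b => ball (τ t) (r t)) hK0 (fun t => isOpen_ball) (by
      rintro _ ⟨t, ht, rfl⟩
      exact mem_iUnion.2 ⟨⟨t, ht⟩, mem_ball_self (hr0 _)⟩)
  set ε' : ℝ := min ε δ / 2 with hε'
  have hε'0 : 0 < ε' := by positivity
  have hε'ε : ε' < ε := by
    have := min_le_left ε δ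
    linarith
  have hε'δ : ε' < δ := by
    have := min_le_right ε δ
    linarith
  have htube : ∀ x ∈ τ '' Icc a b, ∀ u : ℂ, ‖u‖ ≤ ε' → x + u ∈ ball x δ := by
    intro x hx u hu
    rw [mem_ball, dist_eq_norm, add_sub_cancel_left]
    linarith
  have hballU : ∀ x ∈ τ '' Icc a b, ball x δ ⊆ U := by
    intro x hx
    obtain ⟨t, ht⟩ := hδc x hx
    exact ht.trans (hrU t)
  have hballI : ∀ x ∈ τ '' Icc a b, InjOn g (ball x δ) := by
    intro x hx
    obtain ⟨t, ht⟩ := hδc x hx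
    exact (hri t).mono ht
  -- the minimum
  have hS : IsCompact ((τ '' Icc a b) ×ˢ (sphere (0 : ℂ) ε')) := hK0.prod (isCompact_sphere _ _)
  have hcg : ContinuousOn g U := hg.continuousOn
  have hcont : ContinuousOn (fun p : ℂ × ℂ => ‖g (p.1 + p.2) - g p.1‖)
      ((τ '' Icc a b) ×ˢ (sphere (0 : ℂ) ε')) := by
    refine ContinuousOn.norm (ContinuousOn.sub ?_ ?_)
    · refine hcg.comp (by fun_prop) ?_
      rintro ⟨x, u⟩ ⟨hx, hu⟩
      have : ‖u‖ = ε' := by simpa using hu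
      exact hballU x hx (htube x hx u this.le)
    · refine hcg.comp (by fun_prop) ?_
      rintro ⟨x, u⟩ ⟨hx, hu⟩
      exact hballU x hx (mem_ball_self hδ)
  obtain ⟨m, hm0, hm⟩ := hS.exists_forall_le' (a := 0) hcont (by
    rintro ⟨x, u⟩ ⟨hx, hu⟩
    have hu' : ‖u‖ = ε' := by simpa using hu
    rw [norm_pos_iff, sub_ne_zero]
    intro h
    have h1 := hballI x hx (htube x hx u hu'.le) (mem_ball_self hδ) h
    have h2 : u = 0 := by simpa using h1
    rw [h2, norm_zero] at hu'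
    linarith)
  -- the compact tube
  have hT : IsCompact ((fun p : ℂ × ℂ => p.1 + p.2) '' ((τ '' Icc a b) ×ˢ (closedBall (0 : ℂ) ε'))) :=
    (hK0.prod (isCompact_closedBall _ _)).image (by fun_prop)
  have hTU : ((fun p : ℂ × ℂ => p.1 + p.2) '' ((τ '' Icc a b) ×ˢ (closedBall (0 : ℂ) ε'))) ⊆ U := by
    rintro _ ⟨⟨x, u⟩, ⟨hx, hu⟩, rfl⟩
    exact hballU x hx (htube x hx u (by simpa using hu))
  have hun := (tendstoLocallyUniformlyOn_iff_forall_isCompact hU).1 hgN _ hTU hT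
  rw [Metric.tendstoUniformlyOn_iff] at hun hconv
  have hm3 : 0 < m / 3 := by positivity
  filter_upwards [hun (m / 3) hm3, hconv (m / 3) hm3, hτN,
    (Metric.tendsto_nhds.1 h0) ε' hε'0] with N hN1 hN2 hN3 hN4
  intro t ht
  have key : dist (τN N t) (τ t) < ε' := by
    by_contra hcon
    rw [not_lt] at hcon
    have hdc : ContinuousOn (fun s => dist (τN N s) (τ s)) (Icc a t) :=
      (continuous_dist.comp_continuousOn (ContinuousOn.prodMk hN3 hτ)).mono (Icc_subset_Icc_right ht.2)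
    have hiv := intermediate_value_Icc ht.1 hdc
    obtain ⟨t2, ht2, heq⟩ := hiv (show ε' ∈ Icc (dist (τN N a) (τ a)) (dist (τN N t) (τ t)) from
      ⟨hN4.le, hcon⟩)
    have heq' : dist (τN N t2) (τ t2) = ε' := heq
    have ht2' : t2 ∈ Icc a b := ⟨ht2.1, ht2.2.trans ht.2⟩
    have hu : ‖τN N t2 - τ t2‖ = ε' := by rw [← dist_eq_norm]; exact heq'
    have hx : τ t2 ∈ τ '' Icc a b := mem_image_of_mem _ ht2'
    have h1 : m ≤ ‖g (τ t2 + (τN N t2 - τ t2)) - g (τ t2)‖ :=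
      hm (τ t2, τN N t2 - τ t2) ⟨hx, by simpa using hu⟩
    rw [add_sub_cancel] at h1
    have h2 : dist (g (τN N t2)) (gN N (τN N t2)) < m / 3 := by
      refine hN1 (τN N t2) ⟨(τ t2, τN N t2 - τ t2), ⟨hx, ?_⟩, by simp⟩
      simp [hu]
    have h3 : dist (g (τ t2)) (gN N (τN N t2)) < m / 3 := hN2 t2 ht2'
    have h4 : dist (g (τN N t2)) (g (τ t2)) ≤
        dist (g (τN N t2)) (gN N (τN N t2)) + dist (g (τ t2)) (gN N (τN N t2)) :=
      dist_triangle_right _ _ _
    rw [dist_eq_norm] at h4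
    linarith
  rw [dist_comm]
  exact key.trans hε'ε

theorem lN_tendsto {p q : ℕ} (s e : ℕ) (hq : 0 < q) :
    Tendsto (fun N => lN p q s e N) atTop (𝓝 (mu ((p : ℝ) / q))) := by
  have hmu : Continuous mu := by
    unfold mu
    fun_prop
  refine (hmu.tendsto _).comp ?_
  have h1 : Tendsto (fun N : ℕ => ((p : ℝ) + s / N) / ((q : ℝ) + e / N)) atTop
      (𝓝 (((p : ℝ) + 0) / ((q : ℝ) + 0))) := by
    refine Tendsto.div ?_ ?_ (by positivity)
    · exact tendsto_const_nhds.add (tendsto_const_div_atTop_nhds_zero_nat (s : ℝ))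
    · exact tendsto_const_nhds.add (tendsto_const_div_atTop_nhds_zero_nat (e : ℝ))
  rw [add_zero, add_zero] at h1
  refine h1.congr' ?_
  filter_upwards [eventually_gt_atTop 0] with N hN
  have hN' : (0 : ℝ) < N := by exact_mod_cast hN
  have hq' : (0 : ℝ) < q := by exact_mod_cast hq
  have e0 : (0 : ℝ) ≤ e := by positivity
  have h2 : (0 : ℝ) < (q : ℝ) * N + e := by positivity
  simp only [pN, qN]
  push_cast
  have h3 : (0 : ℝ) < (q : ℝ) + e / N := by positivity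
  rw [div_eq_div_iff h3.ne' h2.ne']
  field_simp

theorem ray_conv {l : ℕ → ℂ} {θ : ℕ → ℝ} {l0 : ℂ} {θ0 a b : ℝ} (hl : ∀ N, ‖l N‖ ≤ 1)
    (h0 : ‖l0‖ ≤ 1) (hl' : Tendsto l atTop (𝓝 l0)) (hθ : Tendsto θ atTop (𝓝 θ0)) (ha : 0 < a) :
    TendstoUniformlyOn (fun N s => ray (l N) (θ N) s) (ray l0 θ0) atTop (Icc a b) := by
  rw [Metric.tendstoUniformlyOn_iff]
  intro ε hε
  have hQ : IsCompact ((closedBall (0 : ℂ) 1) ×ˢ ((Icc (θ0 - 1) (θ0 + 1)) ×ˢ (Icc a b))) :=
    (isCompact_closedBall _ _).prod (isCompact_Icc.prod isCompact_Icc)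
  have hc : ContinuousOn (fun p : ℂ × ℝ × ℝ => ray p.1 p.2.1 p.2.2)
      ((closedBall (0 : ℂ) 1) ×ˢ ((Icc (θ0 - 1) (θ0 + 1)) ×ˢ (Icc a b))) := by
    refine ray_continuousOn.mono ?_
    rintro ⟨x, y, t⟩ ⟨hx, hy, ht⟩
    exact ⟨by simpa using hx, lt_of_lt_of_le ha ht.1⟩
  have huc := hQ.uniformContinuousOn_of_continuous hc
  rw [Metric.uniformContinuousOn_iff] at huc
  obtain ⟨δ, hδ, hu⟩ := huc ε hε
  filter_upwards [(Metric.tendsto_nhds.1 hl') δ hδ, (Metric.tendsto_nhds.1 hθ) (min δ 1)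
    (by positivity)] with N h1 h2 t ht
  have h3 : dist (θ N) θ0 < δ := h2.trans_le (min_le_left _ _)
  have h4 : dist (θ N) θ0 < 1 := h2.trans_le (min_le_right _ _)
  rw [Real.dist_eq, abs_lt] at h4
  refine hu (l0, θ0, t) ⟨by simpa using h0, ⟨by simp, ht⟩⟩ (l N, θ N, t)
    ⟨by simpa using hl N, ⟨⟨by linarith [h4.1], by linarith [h4.2]⟩, ht⟩⟩ ?_
  rw [Prod.dist_eq, Prod.dist_eq]
  simp only [dist_self, dist_comm l0, dist_comm θ0]
  exact max_lt h1 (max_lt h3 hδ)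

theorem iterate_conv {l : ℕ → ℂ} {l0 : ℂ} (hl' : Tendsto l atTop (𝓝 l0)) (m : ℕ) :
    TendstoLocallyUniformlyOn (fun N z => (f (l N))^[m] z) ((f l0)^[m]) atTop univ := by
  rw [tendstoLocallyUniformlyOn_iff_forall_isCompact isOpen_univ]
  intro Kc _ hKc
  rw [Metric.tendstoUniformlyOn_iff]
  intro ε hε
  have hcont : Continuous (fun p : ℂ × ℂ => (f p.1)^[m] p.2) := by
    induction m with
    | zero => simpa using continuous_snd
    | succ k ih =>
      have : (fun p : ℂ × ℂ => (f p.1)^[k + 1] p.2) = fun p : ℂ × ℂ => f p.1 ((f p.1)^[k] p.2) := by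
        funext p
        rw [Function.iterate_succ_apply']
      rw [this]
      unfold f at ih ⊢
      exact (ih.pow 2).add (continuous_fst.mul ih)
  have hQ : IsCompact ((closedBall l0 1) ×ˢ Kc) := (isCompact_closedBall _ _).prod hKc
  have huc := hQ.uniformContinuousOn_of_continuous hcont.continuousOn
  rw [Metric.uniformContinuousOn_iff] at huc
  obtain ⟨δ, hδ, hu⟩ := huc ε hε
  filter_upwards [(Metric.tendsto_nhds.1 hl') (min δ 1) (by positivity)] with N h1 z hz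
  refine hu (l0, z) ⟨by simp, hz⟩ (l N, z)
    ⟨by simpa using (h1.trans_le (min_le_right _ _)).le, hz⟩ ?_
  rw [Prod.dist_eq]
  simp only [dist_self, dist_comm l0]
  exact max_lt (h1.trans_le (min_le_left _ _)) hδ

end Pool.Agent.CR
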