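import Pool.Agent.H73.CR.RD
import Pool.Agent.H68.CR.R16
import Pool.Agent.H68.CR.R17

/-!
# CR: the results of Part R (helper68) and the digit formulas which are used in Parts S and Z

`R_land`, `R_sector`: Part R.

-/

set_option autoImplicit false

open Set Filter Topology

namespace Pool.Agent.CR

/-- Part R: all rays of the rotation cycle land at `0`. -/
theorem R_land {p q : ℕ} (h : Nat.Coprime p q) (hp : 0 < p) (hpq : p < q) (i : ℤ) :
    Tendsto (ray (mu ((p : ℝ) / q)) (ang p q i)) (𝓝[>] 0) (𝓝 0) := by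
  obtain ⟨A, φ0, -, -, h1⟩ := R_main hp hpq h
  exact (h1 i).1

/-- Part R: landing in sectors. -/
theorem R_sector {p q : ℕ} (h : Nat.Coprime p q) (hp : 0 < p) (hpq : p < q) (i : ℤ) (C r : ℝ)
    (hr : 0 < r) : ∃ s0 : ℝ, 0 < s0 ∧ ∀ s θ : ℝ, 0 < s → s ≤ s0 → |θ| ≤ C * s →
      ‖ray (mu ((p : ℝ) / q)) (ang p q i + θ) s‖ ≤ r := by
  have hl : ‖mu ((p : ℝ) / q)‖ ≤ 1 := (norm_mu _).le
  obtain ⟨δ, hδ, h1⟩ := sector_tendsto hl (R_land h hp hpq i) (2 * Real.pi * C) hr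
  refine ⟨δ / 2, by positivity, fun s θ hs hs0 hθ => ?_⟩
  have hπ : 0 < 2 * Real.pi := by positivity
  have h2 : |2 * Real.pi * θ / s| ≤ 2 * Real.pi * C := by
    rw [abs_div, abs_mul, abs_of_pos hπ, abs_of_pos hs, div_le_iff₀ hs]
    calc 2 * Real.pi * |θ| ≤ 2 * Real.pi * (C * s) := by gcongr
      _ = 2 * Real.pi * C * s := by ring
  have h3 := h1 s (2 * Real.pi * θ / s) hs (by linarith) h2
  have hs' : (s : ℂ) ≠ 0 := by exact_mod_cast hs.ne'
  have h4 : (s * (1 + ((2 * Real.pi * θ / s : ℝ) : ℂ) * Complex.I) +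
      2 * Real.pi * (ang p q i : ℝ) * Complex.I : ℂ) =
      (s : ℂ) + 2 * Real.pi * ((ang p q i + θ : ℝ) : ℂ) * Complex.I := by
    push_cast
    field_simp
    ring
  rw [h4] at h3
  exact h3.le

end Pool.Agent.CR
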