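import Pool.Agent.H73.CR.SA
import Pool.Agent.H73.CR.RI
import Pool.Agent.H73.CR.B5

/-!
# CR NB: path lifting for horn maps

`path_lift`: `β [a,b]` is compact and disjoint from the closed set `v + q ℤ`, so there is `ε > 0` such that the balls `ball (β t) ε` do not meet `v + q ℤ`. Divide
`[a,b]` into small intervals `[t_i, t_(i+1)]` on which `β t ∈ ball (β t_i) ε`; on each of them use `lift` with `Ω = ball (β t_i) ε`, `β = id`, starting at the value
already found at `t_i`.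
`extend`: define `σ_0`, and `σ_(n+1)` by `path_lift` applied to `σ_n` on `[0,1]`, `σ_(n+1) 0 = σ_n 1` (`E (σ_n 1) = σ_n 0`). `σ_n t ≠ v + k q`: otherwise `Def m (σ_n t)` for all
`m` (`all_def`), but `Def (n + 2) (σ_n t)` is false: `E^n (σ_n t) = σ_0 t`, `def_add`. `σ t = σ_⌊t⌋ (t - ⌊t⌋)` is continuous.
-/

set_option autoImplicit false

open Set Filter Topology Metric

namespace Pool.Agent.CR

private lemma NB_open (H : Horn) : IsOpen {w : ℂ | ∀ k : ℤ, w ≠ H.v + k * H.q} := by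
  have hq : (H.q : ℂ) ≠ 0 := by exact_mod_cast H.q_pos.ne'
  have hc : Continuous (fun w : ℂ => Complex.exp (2 * Real.pi * Complex.I * ((w - H.v) / H.q))) := by
    fun_prop
  have he : {w : ℂ | ∀ k : ℤ, w ≠ H.v + k * H.q} =
      (fun w : ℂ => Complex.exp (2 * Real.pi * Complex.I * ((w - H.v) / H.q))) ⁻¹' {1}ᶜ := by
    ext w
    rw [mem_preimage, mem_compl_iff, mem_singleton_iff, Complex.exp_eq_one_iff]
    show (∀ k : ℤ, w ≠ H.v + k * H.q) ↔ _
    rw [not_exists]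
    refine forall_congr' fun k => not_congr ?_
    have hpi : (2 * Real.pi * Complex.I : ℂ) ≠ 0 := Complex.two_pi_I_ne_zero
    constructor
    · intro h
      rw [h, add_sub_cancel_left, mul_div_cancel_right₀ _ hq]
      ring
    · intro h
      have h1 : (w - H.v) / H.q = k := mul_left_cancel₀ hpi (by rw [h]; ring)
      rw [div_eq_iff hq] at h1
      rw [← h1]
      ring
  rw [he]
  exact isOpen_compl_singleton.preimage hc

private lemma NB_glue {a b c : ℝ} (hab : a ≤ b) (hbc : b ≤ c) {g : ℝ → ℂ}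
    (h1 : ContinuousOn g (Icc a b)) (h2 : ContinuousOn g (Icc b c)) : ContinuousOn g (Icc a c) := by
  rw [← Icc_union_Icc_eq_Icc hab hbc]
  exact h1.union_of_isClosed h2 isClosed_Icc isClosed_Icc

theorem Horn.path_lift (H : Horn) {a b : ℝ} (hab : a ≤ b) {β : ℝ → ℂ} (hβ : ContinuousOn β (Icc a b))
    (hv : ∀ t ∈ Icc a b, ∀ k : ℤ, β t ≠ H.v + k * H.q) {η0 : ℂ} (h0 : η0 ∈ H.D)
    (h1 : H.E η0 = β a) :
    ∃ η : ℝ → ℂ, ContinuousOn η (Icc a b) ∧ (∀ t ∈ Icc a b, η t ∈ H.D ∧ H.E (η t) = β t) ∧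
      η a = η0 := by
  obtain ⟨δ, hδ, hδ2⟩ := (isCompact_Icc.image_of_continuousOn hβ).exists_thickening_subset_open
    (NB_open H) (by
      rintro w ⟨t, ht, rfl⟩
      exact hv t ht)
  have huc : UniformContinuousOn β (Icc a b) := isCompact_Icc.uniformContinuousOn_of_continuous hβ
  obtain ⟨r, hr, hr2⟩ := Metric.uniformContinuousOn_iff.1 huc δ hδ
  obtain ⟨N, hN⟩ := exists_nat_gt ((b - a) / r)
  rw [div_lt_iff₀ hr] at hN
  set T : ℕ → ℝ := fun i => min b (a + i * r / 2) with hT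
  -- use steps of length r / 2
  have hTa : ∀ i, a ≤ T i := fun i => le_min hab (by
    have : 0 ≤ (i : ℝ) * r / 2 := by positivity
    linarith)
  have hTb : ∀ i, T i ≤ b := fun i => min_le_left _ _
  have hTm : ∀ i, T i ≤ T (i + 1) := fun i => min_le_min le_rfl (by
    push_cast
    nlinarith)
  have hTs : ∀ i, T (i + 1) ≤ T i + r / 2 := by
    intro i
    have e : a + ((i + 1 : ℕ) : ℝ) * r / 2 = a + i * r / 2 + r / 2 := by push_cast; ring
    rw [hT]
    simp only []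
    rw [e]
    rcases le_total b (a + i * r / 2) with h | h
    · rw [min_eq_left h]
      exact (min_le_left _ _).trans (by linarith)
    · rw [min_eq_right h]
      exact min_le_right _ _
  have hind : ∀ i : ℕ, ∃ η : ℝ → ℂ, ContinuousOn η (Icc a (T i)) ∧
      (∀ t ∈ Icc a (T i), η t ∈ H.D ∧ H.E (η t) = β t) ∧ η a = η0 := by
    intro i
    induction i with
    | zero =>
      have e : T 0 = a := by
        rw [hT]
        simp only [Nat.cast_zero, zero_mul, zero_div, add_zero]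
        exact min_eq_right hab
      rw [e, Icc_self]
      refine ⟨fun _ => η0, continuousOn_const, fun t ht => ?_, rfl⟩
      rw [mem_singleton_iff] at ht
      rw [ht]
      exact ⟨h0, h1⟩
    | succ i ih =>
      obtain ⟨η, hη1, hη2, hη3⟩ := ih
      have hTi : T i ∈ Icc a b := ⟨hTa i, hTb i⟩
      obtain ⟨hD, hE⟩ := hη2 (T i) ⟨hTa i, le_rfl⟩
      obtain ⟨ξ, hξ1, hξ2, hξ3⟩ := H.lift (ball (β (T i)) δ) (fun x => x) isOpen_ball
        (convex_ball _ _) differentiableOn_id (fun x hx =>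
          hδ2 (Metric.ball_subset_thickening (mem_image_of_mem β hTi) δ hx))
        (β (T i)) (mem_ball_self hδ) (η (T i)) hD hE
      have hnear : ∀ t ∈ Icc (T i) (T (i + 1)), β t ∈ ball (β (T i)) δ := by
        intro t ht
        have h2 := hTs i
        refine hr2 t ⟨(hTa i).trans ht.1, ht.2.trans (hTb _)⟩ (T i) hTi ?_
        rw [Real.dist_eq, abs_of_nonneg (by linarith [ht.1])]
        linarith [ht.2]
      refine ⟨fun t => if t ≤ T i then η t else ξ (β t), ?_, ?_, ?_⟩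
      · refine NB_glue (hTa i) (hTm i) ?_ ?_
        · refine hη1.congr fun t ht => ?_
          show (if t ≤ T i then η t else ξ (β t)) = η t
          rw [if_pos ht.2]
        · have h2 : ContinuousOn (fun t => ξ (β t)) (Icc (T i) (T (i + 1))) :=
            hξ1.continuousOn.comp (hβ.mono (Icc_subset_Icc (hTa i) (hTb _))) hnear
          refine h2.congr fun t ht => ?_
          show (if t ≤ T i then η t else ξ (β t)) = ξ (β t)
          split_ifs with h3
          · have h4 : t = T i := le_antisymm h3 ht.1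
            rw [h4, hξ3]
          · rfl
      · intro t ht
        simp only []
        split_ifs with h3
        · exact hη2 t ⟨ht.1, h3⟩
        · exact hξ2 _ (hnear t ⟨(not_le.1 h3).le, ht.2⟩)
      · simp only []
        rw [if_pos (hTa i)]
        exact hη3
  obtain ⟨η, hη1, hη2, hη3⟩ := hind (2 * N)
  have e : T (2 * N) = b := by
    rw [hT]
    simp only []
    refine min_eq_left ?_
    push_cast
    linarith
  rw [e] at hη1 hη2
  exact ⟨η, hη1, hη2, hη3⟩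

theorem Horn.extend (H : Horn) {a : ℂ} {R1 : ℝ} (hT : H.Top a R1) {σ0 : ℝ → ℂ}
    (hc : ContinuousOn σ0 (Icc 0 1)) (h1 : σ0 1 ∈ H.D) (h2 : H.E (σ0 1) = σ0 0)
    (hu : ∀ t ∈ Icc (0 : ℝ) 1, ¬ H.Def 2 (σ0 t)) :
    ∃ σ : ℝ → ℂ, H.BPath σ ∧ ∀ t ∈ Icc (0 : ℝ) 1, σ t = σ0 t := by
  have step : ∀ (n : ℕ) (τ : ℝ → ℂ), (ContinuousOn τ (Icc 0 1) ∧ τ 1 ∈ H.D ∧ H.E (τ 1) = τ 0 ∧
      ∀ t ∈ Icc (0 : ℝ) 1, ¬ H.Def (n + 2) (τ t)) → ∃ η : ℝ → ℂ,
      (ContinuousOn η (Icc 0 1) ∧ η 1 ∈ H.D ∧ H.E (η 1) = η 0 ∧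
        ∀ t ∈ Icc (0 : ℝ) 1, ¬ H.Def (n + 1 + 2) (η t)) ∧
      (∀ t ∈ Icc (0 : ℝ) 1, η t ∈ H.D ∧ H.E (η t) = τ t) ∧ η 0 = τ 1 := by
    rintro n τ ⟨g1, g2, g3, g4⟩
    obtain ⟨η, k1, k2, k3⟩ := H.path_lift zero_le_one g1 (fun t ht k h => by
      apply g4 t ht
      rw [h, H.def_add_int]
      exact hT.all_def _) g2 g3
    have hm1 : (1 : ℝ) ∈ Icc (0 : ℝ) 1 := ⟨zero_le_one, le_rfl⟩
    refine ⟨η, ⟨k1, (k2 1 hm1).1, ?_, fun t ht h => ?_⟩, k2, k3⟩
    · rw [(k2 1 hm1).2, k3]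
    · have e : n + 1 + 2 = (n + 2) + 1 := by ring
      rw [e, H.def_succ, (k2 t ht).2] at h
      exact g4 t ht h.2
  choose! g hg using step
  obtain ⟨τ, hτ0, hτs⟩ : ∃ τ : ℕ → ℝ → ℂ, τ 0 = σ0 ∧ ∀ n, τ (n + 1) = g n (τ n) :=
    ⟨fun n => Nat.rec σ0 (fun n x => g n x) n, rfl, fun n => rfl⟩
  have hI : ∀ n : ℕ, ContinuousOn (τ n) (Icc 0 1) ∧ τ n 1 ∈ H.D ∧ H.E (τ n 1) = τ n 0 ∧
      ∀ t ∈ Icc (0 : ℝ) 1, ¬ H.Def (n + 2) (τ n t) := by
    intro n
    induction n with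
    | zero => rw [hτ0]; exact ⟨hc, h1, h2, hu⟩
    | succ n ih =>
      rw [hτs]
      exact (hg n (τ n) ih).1
  have hL : ∀ n : ℕ, (∀ t ∈ Icc (0 : ℝ) 1, τ (n + 1) t ∈ H.D ∧ H.E (τ (n + 1) t) = τ n t) ∧
      τ (n + 1) 0 = τ n 1 := by
    intro n
    rw [hτs]
    exact (hg n (τ n) (hI n)).2
  set σ : ℝ → ℂ := fun t => τ ⌊t⌋₊ (t - ⌊t⌋₊) with hσ
  have hseg : ∀ (n : ℕ), ∀ t ∈ Icc (n : ℝ) (n + 1), σ t = τ n (t - n) := by
    intro n t ht
    have ht0 : 0 ≤ t := (Nat.cast_nonneg n).trans ht.1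
    rcases lt_or_ge t (n + 1) with h | h
    · have e : ⌊t⌋₊ = n := by
        rw [Nat.floor_eq_iff ht0]
        exact ⟨ht.1, h⟩
      rw [hσ]
      simp only []
      rw [e]
    · have e : t = n + 1 := le_antisymm ht.2 h
      have e2 : ⌊t⌋₊ = n + 1 := by
        rw [Nat.floor_eq_iff ht0, e]
        push_cast
        constructor <;> linarith
      rw [hσ]
      simp only []
      rw [e2, e]
      push_cast
      rw [sub_self, (hL n).2, add_sub_cancel_left]
  have hcs : ∀ n : ℕ, ContinuousOn σ (Icc (n : ℝ) (n + 1)) := by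
    intro n
    have h3 : ContinuousOn (fun t : ℝ => τ n (t - n)) (Icc (n : ℝ) (n + 1)) := by
      refine (hI n).1.comp (by fun_prop) fun t ht => ?_
      exact ⟨by linarith [ht.1], by linarith [ht.2]⟩
    exact h3.congr (hseg n)
  have hcn : ∀ n : ℕ, ContinuousOn σ (Icc 0 (n : ℝ)) := by
    intro n
    induction n with
    | zero => rw [Nat.cast_zero, Icc_self]; exact continuousOn_singleton _ _
    | succ n ih =>
      push_cast
      exact NB_glue (Nat.cast_nonneg n) (by linarith) ih (hcs n)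
  refine ⟨σ, ⟨?_, ?_, ?_, ?_⟩, ?_⟩
  · intro t ht
    obtain ⟨n, hn⟩ := exists_nat_gt t
    refine (hcn n t ⟨ht, hn.le⟩).mono_of_mem_nhdsWithin ?_
    have h3 : Iio (n : ℝ) ∈ 𝓝[Ici 0] t := mem_nhdsWithin_of_mem_nhds (Iio_mem_nhds hn)
    filter_upwards [self_mem_nhdsWithin, h3] with x hx hx2
    exact ⟨hx, (mem_Iio.1 hx2).le⟩
  · intro t ht
    have f1 := Nat.floor_le ht
    have f2 := Nat.lt_floor_add_one t
    have e : σ (t + 1) = τ (⌊t⌋₊ + 1) (t - ⌊t⌋₊) := by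
      rw [hseg (⌊t⌋₊ + 1) (t + 1) ⟨by push_cast; linarith, by push_cast; linarith⟩]
      congr 1
      push_cast
      ring
    rw [e]
    exact ((hL _).1 _ ⟨by linarith, by linarith⟩).1
  · intro t ht
    have f1 := Nat.floor_le ht
    have f2 := Nat.lt_floor_add_one t
    have e : σ (t + 1) = τ (⌊t⌋₊ + 1) (t - ⌊t⌋₊) := by
      rw [hseg (⌊t⌋₊ + 1) (t + 1) ⟨by push_cast; linarith, by push_cast; linarith⟩]
      congr 1
      push_cast
      ring
    rw [e]
    exact ((hL _).1 _ ⟨by linarith, by linarith⟩).2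
  · intro t ht
    have e := hseg 0 t ⟨by rw [Nat.cast_zero]; exact ht.1, by rw [Nat.cast_zero, zero_add]; exact ht.2⟩
    rw [e, hτ0, Nat.cast_zero, sub_zero]
    exact hu t ht
  · intro t ht
    have e := hseg 0 t ⟨by rw [Nat.cast_zero]; exact ht.1, by rw [Nat.cast_zero, zero_add]; exact ht.2⟩
    rw [e, hτ0, Nat.cast_zero, sub_zero]

end Pool.Agent.CR
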