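import Pool.Agent.H73.CR.NB

/-!
# CR NB2: the backward path of a gate

`exists_omega`: by `Γ_deriv` (`T = 0`) and `Γ_zero`, `pr 0` has a local inverse `κ` at `Γ 0`: continuous on `ball 0 ρ`, `κ 0 = Γ 0`, `pr 0 (κ x) = x`. Choose
`Ts ≥ T0` with `y T ∈ ball 0 ρ` for `T ≥ Ts` (`y_lim`); `ω T = κ (y T)`; `mem_D`, `E_eq`, `phi_y`.
`exists_path`: `σ0 t = Γ (Ts (1 - 2t))` for `t ≤ 1/2`, `σ0 t = ω (Ts / (2t - 1))` for `1/2 < t ≤ 1`: continuous, `σ0 1 = ω Ts ∈ D`, `E (σ0 1) = Γ Ts = σ0 0`. `Def 2 (σ0 t)` is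
false: `Γ T ∉ D` for all `T ≥ 0` (`mem_D`; `pr 0 (Γ T)` is `0 ∉ B`, or, by `Γ_ray` with `m = 0`, a point of a ray, not in `K ⊇ B` (`ray_notMem`)), and for `t > 1/2`
`E (σ0 t) = Γ (..) ∉ D`. Then `extend`.
-/

set_option autoImplicit false

open Set Filter Topology Metric

namespace Pool.Agent.CR

variable {p q s e : ℕ}

theorem Gate.exists_omega (G : Gate p q s e) : ∃ (Ts : ℝ) (ω : ℝ → ℂ), G.T0 ≤ Ts ∧
    ContinuousOn ω (Ici Ts) ∧ Tendsto ω atTop (𝓝 (G.Γ 0)) ∧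
    ∀ T ≥ Ts, ω T ∈ G.H.D ∧ G.pr 0 (ω T) = G.y T ∧ G.H.E (ω T) = G.Γ T := by
  have hne : deriv (G.pr 0) (G.Γ 0) ≠ 0 := G.Γ_deriv 0 le_rfl
  have hs : HasStrictDerivAt (G.pr 0) (deriv (G.pr 0) (G.Γ 0)) (G.Γ 0) :=
    ((G.diff_pr 0).analyticAt (G.Γ 0)).hasStrictDerivAt
  have hsf := hs.hasStrictFDerivAt_equiv hne
  obtain ⟨φ, hφ1, hφ2, hφ3⟩ : ∃ φ : OpenPartialHomeomorph ℂ ℂ, (∀ w, φ w = G.pr 0 w) ∧
      G.Γ 0 ∈ φ.source ∧ G.pr 0 (G.Γ 0) ∈ φ.target :=
    ⟨hsf.toOpenPartialHomeomorph (G.pr 0), fun w => rfl,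
      hsf.mem_toOpenPartialHomeomorph_source, hsf.image_mem_toOpenPartialHomeomorph_target⟩
  rw [G.Γ_zero] at hφ3
  have hsymm0 : φ.symm 0 = G.Γ 0 := by
    have h := φ.left_inv hφ2
    rw [hφ1, G.Γ_zero] at h
    exact h
  have hev : ∀ᶠ T in atTop, G.y T ∈ φ.target :=
    G.y_lim (φ.open_target.mem_nhds hφ3)
  obtain ⟨T1, hT1⟩ := eventually_atTop.1 hev
  refine ⟨max G.T0 T1, fun T => φ.symm (G.y T), le_max_left _ _, ?_, ?_, ?_⟩
  · refine φ.continuousOn_symm.comp (G.cont_y.mono ?_) ?_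
    · intro T hT
      exact (le_max_left G.T0 T1).trans (mem_Ici.1 hT)
    · intro T hT
      exact hT1 T ((le_max_right G.T0 T1).trans (mem_Ici.1 hT))
  · have hc : ContinuousAt φ.symm 0 := φ.symm.continuousAt (by simpa using hφ3)
    have h := hc.tendsto.comp G.y_lim
    rw [hsymm0] at h
    exact h
  · intro T hT
    have hT0 : G.T0 ≤ T := le_trans (le_max_left _ _) hT
    have ht : G.y T ∈ φ.target := hT1 T (le_trans (le_max_right _ _) hT)
    have h1 : G.pr 0 (φ.symm (G.y T)) = G.y T := by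
      have h := φ.right_inv ht
      rw [hφ1] at h
      exact h
    have h2 : φ.symm (G.y T) ∈ G.H.D := by
      rw [G.mem_D, h1]
      exact G.y_mem T hT0
    refine ⟨h2, h1, ?_⟩
    rw [G.E_eq _ h2, h1]
    exact G.phi_y T hT0

/-- The backward path of a gate: `σ` follows `Γ` to `Γ 0` on `[0, 1/2]`, then the curve `y`. -/
structure Gate.Path (G : Gate p q s e) (Ts : ℝ) (σ : ℝ → ℂ) : Prop where
  Ts_ge : G.T0 ≤ Ts
  bpath : G.H.BPath σ
  left : ∀ t ∈ Icc (0 : ℝ) (1 / 2), σ t = G.Γ (Ts * (1 - 2 * t))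
  right : ∀ t ∈ Ioc (1 / 2 : ℝ) 1, σ t ∈ G.H.D ∧ G.pr 0 (σ t) = G.y (Ts / (2 * t - 1)) ∧
    G.H.E (σ t) = G.Γ (Ts / (2 * t - 1))

private lemma NB2_norm_mu (x : ℝ) : ‖mu x‖ ≤ 1 := by
  unfold mu
  rw [Complex.norm_exp]
  simp

private lemma NB2_notMem (G : Gate p q s e) {T : ℝ} (hT : 0 ≤ T) : G.Γ T ∉ G.H.D := by
  rw [G.mem_D]
  rcases hT.eq_or_lt with h | h
  · rw [← h, G.Γ_zero]
    exact G.zero_notMem
  · rw [G.Γ_ray 0 T h]
    intro hB
    exact ray_notMem (NB2_norm_mu _) _ (by positivity) (G.B_sub hB)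

private lemma NB2_cont {Γ ω : ℝ → ℂ} {Ts : ℝ} (hTs : 0 < Ts) (hΓ : ContinuousOn Γ (Ici 0))
    (hω : ContinuousOn ω (Ici Ts)) (hl : Tendsto ω atTop (𝓝 (Γ 0))) :
    ContinuousOn (fun t : ℝ => if t ≤ 1 / 2 then Γ (Ts * (1 - 2 * t)) else ω (Ts / (2 * t - 1)))
      (Icc 0 1) := by
  set σ0 : ℝ → ℂ := fun t : ℝ => if t ≤ 1 / 2 then Γ (Ts * (1 - 2 * t)) else ω (Ts / (2 * t - 1))
    with hσ0
  have hL : ContinuousOn σ0 (Icc 0 (1 / 2)) := by
    have h : ContinuousOn (fun t : ℝ => Γ (Ts * (1 - 2 * t))) (Icc 0 (1 / 2)) := by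
      refine hΓ.comp (by fun_prop) ?_
      intro t ht
      have h1 : 0 ≤ 1 - 2 * t := by linarith [ht.2]
      exact mul_nonneg hTs.le h1
    refine h.congr ?_
    intro t ht
    simp only [hσ0]
    rw [if_pos ht.2]
  have hR : ContinuousOn σ0 (Icc (1 / 2) 1) := by
    intro t ht
    rcases ht.1.eq_or_lt with h | h
    · -- `t = 1/2`
      subst h
      have h1 : Tendsto (fun t : ℝ => Ts / (2 * t - 1)) (𝓝[>] (1 / 2)) atTop := by
        have h2 : Tendsto (fun t : ℝ => 2 * t - 1) (𝓝[>] (1 / 2)) (𝓝[>] 0) := by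
          refine tendsto_nhdsWithin_iff.2 ⟨?_, ?_⟩
          · have hc : Continuous (fun t : ℝ => 2 * t - 1) := by fun_prop
            have h3 := hc.tendsto (1 / 2)
            norm_num at h3
            have h4 : Tendsto (fun t : ℝ => 2 * t - 1) (𝓝 (1 / 2)) (𝓝 0) := by
              simpa using h3
            exact h4.mono_left nhdsWithin_le_nhds
          · filter_upwards [self_mem_nhdsWithin] with t ht2
            have : (1 / 2 : ℝ) < t := ht2
            show (0 : ℝ) < 2 * t - 1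
            linarith
        have h5 := (tendsto_inv_nhdsGT_zero.comp h2).const_mul_atTop hTs
        refine h5.congr ?_
        intro t
        simp only [Function.comp_apply, div_eq_mul_inv]
      have h6 : Tendsto σ0 (𝓝[>] (1 / 2)) (𝓝 (σ0 (1 / 2))) := by
        have h7 : σ0 (1 / 2) = Γ 0 := by
          simp only [hσ0]
          rw [if_pos le_rfl]
          norm_num
        rw [h7]
        refine (hl.comp h1).congr' ?_
        filter_upwards [self_mem_nhdsWithin] with t ht2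
        have : ¬ t ≤ 1 / 2 := not_le.2 ht2
        simp only [hσ0, Function.comp_apply]
        rw [if_neg this]
      have h8 : ContinuousWithinAt σ0 (Ioi (1 / 2)) (1 / 2) := h6
      have h9 : ContinuousWithinAt σ0 (Ici (1 / 2)) (1 / 2) :=
        continuousWithinAt_Ioi_iff_Ici.1 h8
      exact h9.mono Icc_subset_Ici_self
    · have h1 : ContinuousOn (fun t : ℝ => ω (Ts / (2 * t - 1))) (Ioc (1 / 2) 1) := by
        refine hω.comp ?_ ?_
        · refine continuousOn_const.div (by fun_prop) ?_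
          intro t ht
          have : (1 / 2 : ℝ) < t := ht.1
          have h2 : 0 < 2 * t - 1 := by linarith
          exact h2.ne'
        · intro t ht
          have : (1 / 2 : ℝ) < t := ht.1
          have h2 : 0 < 2 * t - 1 := by linarith
          have h3 : 2 * t - 1 ≤ 1 := by linarith [ht.2]
          show Ts ≤ Ts / (2 * t - 1)
          rw [le_div_iff₀ h2]
          nlinarith
      have h2 : ContinuousOn σ0 (Ioc (1 / 2) 1) := by
        refine h1.congr ?_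
        intro t ht
        have : ¬ t ≤ 1 / 2 := not_le.2 ht.1
        simp only [hσ0]
        rw [if_neg this]
      have h3 : ContinuousWithinAt σ0 (Ioc (1 / 2) 1) t := h2 t ⟨h, ht.2⟩
      refine h3.mono_of_mem_nhdsWithin ?_
      have h4 : Ioi (1 / 2 : ℝ) ∈ 𝓝[Icc (1 / 2) 1] t :=
        mem_nhdsWithin_of_mem_nhds (Ioi_mem_nhds h)
      filter_upwards [h4, self_mem_nhdsWithin] with x hx hx2
      exact ⟨hx, hx2.2⟩
  have hU : Icc (0 : ℝ) 1 = Icc 0 (1 / 2) ∪ Icc (1 / 2) 1 := by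
    rw [Icc_union_Icc_eq_Icc] <;> norm_num
  rw [hU]
  exact hL.union_of_isClosed hR isClosed_Icc isClosed_Icc

theorem Gate.exists_path (G : Gate p q s e) : ∃ (Ts : ℝ) (σ : ℝ → ℂ), G.Path Ts σ := by
  obtain ⟨Ts, ω, hTs, hω, hl, hall⟩ := G.exists_omega
  have hT0 : 0 < Ts := lt_of_lt_of_le G.T0_pos hTs
  obtain ⟨a, R1, hTop⟩ := G.H.exists_top
  have hc := NB2_cont hT0 G.cont_Γ hω hl
  set σ0 : ℝ → ℂ := fun t : ℝ => if t ≤ 1 / 2 then G.Γ (Ts * (1 - 2 * t)) else ω (Ts / (2 * t - 1))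
    with hσ0
  have hleft : ∀ t : ℝ, t ≤ 1 / 2 → σ0 t = G.Γ (Ts * (1 - 2 * t)) := by
    intro t ht
    simp only [hσ0]
    rw [if_pos ht]
  have hright : ∀ t : ℝ, 1 / 2 < t → σ0 t = ω (Ts / (2 * t - 1)) := by
    intro t ht
    simp only [hσ0]
    rw [if_neg (not_le.2 ht)]
  have hge : ∀ t ∈ Ioc (1 / 2 : ℝ) 1, Ts ≤ Ts / (2 * t - 1) := by
    intro t ht
    have : (1 / 2 : ℝ) < t := ht.1
    have h2 : 0 < 2 * t - 1 := by linarith
    have h3 : 2 * t - 1 ≤ 1 := by linarith [ht.2]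
    rw [le_div_iff₀ h2]
    nlinarith
  have hr : ∀ t ∈ Ioc (1 / 2 : ℝ) 1, σ0 t ∈ G.H.D ∧ G.pr 0 (σ0 t) = G.y (Ts / (2 * t - 1)) ∧
      G.H.E (σ0 t) = G.Γ (Ts / (2 * t - 1)) := by
    intro t ht
    rw [hright t ht.1]
    exact hall _ (hge t ht)
  have h11 : (1 : ℝ) ∈ Ioc (1 / 2 : ℝ) 1 := by
    constructor <;> norm_num
  have h1 := hr 1 h11
  have h2 : G.H.E (σ0 1) = σ0 0 := by
    rw [h1.2.2, hleft 0 (by norm_num)]
    congr 1
    norm_num
  have hu : ∀ t ∈ Icc (0 : ℝ) 1, ¬ G.H.Def 2 (σ0 t) := by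
    intro t ht hdef
    rcases le_or_gt t (1 / 2) with h | h
    · have h3 := hdef 0 (by norm_num)
      rw [Function.iterate_zero, id, hleft t h] at h3
      refine NB2_notMem G ?_ h3
      have h4 : 0 ≤ 1 - 2 * t := by linarith
      exact mul_nonneg hT0.le h4
    · have h3 := hdef 1 (by norm_num)
      have h4 := hr t ⟨h, ht.2⟩
      rw [Function.iterate_one, h4.2.2] at h3
      refine NB2_notMem G ?_ h3
      exact le_trans hT0.le (hge t ⟨h, ht.2⟩)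
  obtain ⟨σ, hσ, hσe⟩ := G.H.extend hTop hc h1.1 h2 hu
  refine ⟨Ts, σ, hTs, hσ, ?_, ?_⟩
  · intro t ht
    rw [hσe t ⟨ht.1, by linarith [ht.2]⟩]
    exact hleft t ht.2
  · intro t ht
    rw [hσe t ⟨by linarith [ht.1], ht.2⟩]
    exact hr t ht

end Pool.Agent.CR
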