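import Pool.Agent.H73.CR.NC0

/-!
# CR NC: the rays of level `N`, parametrised by `t ≥ 0`

`zN m N t = ray l_N (angN m) (2^(-m) Ts pot q_N t)`. `zN_map`: `ray_iter` with `n = q_N`, `angN_period`, `ray_add_int`, `pot_add_one`. `zN_pow`: `ray_iter` with `n = m`,
`angN_double`. `zN_lim`: `R_land` for `p_N / q_N` (coprime, `0 < p_N < q_N` for `N ≥ 1`: `q p_N = p q_N + 1`), `pot → 0`.
-/

set_option autoImplicit false

open Set Filter Topology Metric

namespace Pool.Agent.CR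

/-- the rays of level `N`, parametrised by `t ≥ 0` -/
noncomputable def zN (p q s e : ℕ) (Ts : ℝ) (m N : ℕ) (t : ℝ) : ℂ :=
  ray (lN p q s e N) (angN p q s e N m) (Ts * pot (qN q e N) t / 2 ^ m)

variable {p q s e : ℕ} {Ts : ℝ}

private theorem NC_norm (p q s e N : ℕ) : ‖lN p q s e N‖ ≤ 1 := (norm_mu _).le

private theorem NC_pos (hTs : 0 < Ts) (m N : ℕ) {t : ℝ} (ht : 0 ≤ t) :
    0 < Ts * pot (qN q e N) t / 2 ^ m := by
  have := pot_pos (qN q e N) ht
  positivity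

theorem zN_continuousOn (hTs : 0 < Ts) (m N : ℕ) : ContinuousOn (zN p q s e Ts m N) (Ici 0) := by
  have h1 : ContinuousOn (fun t : ℝ => ((lN p q s e N, angN p q s e N m,
      Ts * pot (qN q e N) t / 2 ^ m) : ℂ × ℝ × ℝ)) (Ici 0) := by
    refine continuousOn_const.prodMk (continuousOn_const.prodMk ?_)
    exact ((continuousOn_const.mul (pot_continuousOn _)).div_const _)
  have h2 := ray_continuousOn.comp h1 (fun t ht => ⟨(norm_mu _).le, NC_pos hTs m N ht⟩)
  exact h2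

theorem zN_map (hp : 0 < p) (hpq : p < q) (hs : q * s = p * e + 1) (hTs : 0 < Ts) (m N : ℕ) {t : ℝ}
    (ht : 0 ≤ t) : hN p q s e N (zN p q s e Ts m N (t + 1)) = zN p q s e Ts m N t := by
  unfold hN zN
  rw [ray_iter (NC_norm p q s e N) _ (NC_pos hTs m N (by linarith : (0 : ℝ) ≤ t + 1))]
  obtain ⟨k, hk⟩ := angN_period hp hpq hs N m
  rw [hk, ray_add_int]
  congr 1
  rw [pot_add_one (qN q e N) ht]
  ring

theorem zN_pow (hp : 0 < p) (hpq : p < q) (hs : q * s = p * e + 1) (hTs : 0 < Ts) (m N : ℕ) {t : ℝ}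
    (ht : 0 ≤ t) : (f (lN p q s e N))^[m] (zN p q s e Ts m N t) = zN p q s e Ts 0 N t := by
  unfold zN
  rw [ray_iter (NC_norm p q s e N) _ (NC_pos hTs m N ht)]
  obtain ⟨k, hk⟩ := angN_double hp hpq hs N m
  rw [hk, ray_add_int]
  congr 1
  rw [pow_zero, div_one, mul_div_cancel₀ _ (by positivity)]

theorem zN_ne_zero (hTs : 0 < Ts) (m N : ℕ) {t : ℝ} (ht : 0 ≤ t) : zN p q s e Ts m N t ≠ 0 :=
  ray_ne_zero (norm_mu _).le _ (NC_pos hTs m N ht)

theorem zN_lim (hp : 0 < p) (hpq : p < q) (hs : q * s = p * e + 1) (hTs : 0 < Ts) {N : ℕ}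
    (hN : 1 ≤ N) : Tendsto (zN p q s e Ts 0 N) atTop (𝓝 0) := by
  obtain ⟨h1, h2, h3⟩ := pN_lt hp hpq hs hN
  have hl := R_land (coprime_N hs N) h1 h2 (-((0 : ℕ) * pN p s N : ℤ))
  have hpot := pot_lim (Q := qN q e N) (hN.trans h3)
  have hpot' : Tendsto (fun t => Ts * pot (qN q e N) t / 2 ^ 0) atTop (𝓝[>] 0) := by
    rw [tendsto_nhdsWithin_iff] at hpot ⊢
    refine ⟨?_, ?_⟩
    · have h4 := (hpot.1.const_mul Ts).div_const (2 ^ 0)
      rw [mul_zero, zero_div] at h4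
      exact h4
    · filter_upwards [hpot.2] with t ht
      have h5 : 0 < pot (qN q e N) t := ht
      show 0 < Ts * pot (qN q e N) t / 2 ^ 0
      positivity
  exact hl.comp hpot'

end Pool.Agent.CR
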