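import Pool.Agent.H73.CR.NA
import Pool.Agent.H73.CR.NB2

/-!
# CR NC0: the parametrisation of the potentials; arithmetic of `p_N`, `q_N`

`pot Q t` (`t ≥ 0`): continuous, positive, `pot Q (t+1) = 2^(-Q) pot Q t`, `pot Q 0 = 1`; on `[0,1/2]` it is `max (1 - 2t) (2^(-Q/2))`, on `(1/2,1]` it is
`min (2^(-Q) / (2t - 1)) (2^(-Q/2))` (which is constant `2^(-Q/2)` near `1/2`); at `t = 1` both formulas for `pot Q 1` give `2^(-Q)`.
`pot_surj`: intermediate value theorem and `pot Q n = 2^(-nQ)` (`Q ≥ 1`).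
-/

set_option autoImplicit false

open Set Filter Topology Metric

namespace Pool.Agent.CR

noncomputable def pot0 (Q : ℕ) (t : ℝ) : ℝ :=
  if t ≤ 1 / 2 then max (1 - 2 * t) ((2 : ℝ) ^ (-(Q : ℝ) / 2))
  else min ((2 : ℝ) ^ (-(Q : ℝ)) / (2 * t - 1)) ((2 : ℝ) ^ (-(Q : ℝ) / 2))

noncomputable def pot (Q : ℕ) (t : ℝ) : ℝ :=
  (2 : ℝ) ^ (-((Q : ℝ) * ⌊t⌋₊)) * pot0 Q (t - ⌊t⌋₊)

private theorem NC0_c (Q : ℕ) : (2 : ℝ) ^ (-(Q : ℝ)) =
    (2 : ℝ) ^ (-(Q : ℝ) / 2) * (2 : ℝ) ^ (-(Q : ℝ) / 2) := by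
  rw [← Real.rpow_add (by norm_num)]
  congr 1
  ring

private theorem NC0_c_pos (Q : ℕ) : (0 : ℝ) < (2 : ℝ) ^ (-(Q : ℝ) / 2) :=
  Real.rpow_pos_of_pos (by norm_num) _

private theorem NC0_c_le (Q : ℕ) : (2 : ℝ) ^ (-(Q : ℝ) / 2) ≤ 1 := by
  apply Real.rpow_le_one_of_one_le_of_nonpos (by norm_num)
  have : (0 : ℝ) ≤ Q := Nat.cast_nonneg _
  linarith

/-- Closed form. -/
private theorem NC0_pot0 (Q : ℕ) (t : ℝ) : pot0 Q t =
    max (1 - 2 * t) ((2 : ℝ) ^ (-(Q : ℝ)) / max (2 * t - 1) ((2 : ℝ) ^ (-(Q : ℝ) / 2))) := by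
  have hc := NC0_c_pos Q
  unfold pot0
  rw [NC0_c]
  set c : ℝ := (2 : ℝ) ^ (-(Q : ℝ) / 2) with hcdef
  split_ifs with h
  · rw [max_eq_right (by linarith : 2 * t - 1 ≤ c), mul_div_assoc, div_self hc.ne', mul_one]
  · push Not at h
    have hx : 0 < 2 * t - 1 := by linarith
    rcases le_total (2 * t - 1) c with h1 | h1
    · have e1 : c * c / c = c := by field_simp
      rw [max_eq_right h1, e1, min_eq_right, max_eq_right (by linarith)]
      rw [le_div_iff₀ hx]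
      exact mul_le_mul_of_nonneg_left h1 hc.le
    · rw [max_eq_left h1, min_eq_left, max_eq_right]
      · have : 0 ≤ c * c / (2 * t - 1) := by positivity
        linarith
      · rw [div_le_iff₀ hx]
        exact mul_le_mul_of_nonneg_left h1 hc.le

private theorem NC0_pot0_cont (Q : ℕ) : Continuous (pot0 Q) := by
  have hc := NC0_c_pos Q
  have h : pot0 Q = fun t => max (1 - 2 * t)
      ((2 : ℝ) ^ (-(Q : ℝ)) / max (2 * t - 1) ((2 : ℝ) ^ (-(Q : ℝ) / 2))) := by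
    ext t
    exact NC0_pot0 Q t
  rw [h]
  refine Continuous.max (by fun_prop) (Continuous.div continuous_const (by fun_prop) ?_)
  intro t
  exact (lt_of_lt_of_le hc (le_max_right _ _)).ne'

private theorem NC0_pot0_pos (Q : ℕ) (t : ℝ) : 0 < pot0 Q t := by
  have hc := NC0_c_pos Q
  rw [NC0_pot0]
  refine lt_of_lt_of_le ?_ (le_max_right _ _)
  have : 0 < max (2 * t - 1) ((2 : ℝ) ^ (-(Q : ℝ) / 2)) := lt_of_lt_of_le hc (le_max_right _ _)
  positivity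

private theorem NC0_pot0_zero (Q : ℕ) : pot0 Q 0 = 1 := by
  unfold pot0
  rw [if_pos (by norm_num), mul_zero, sub_zero, max_eq_left (NC0_c_le Q)]

private theorem NC0_pot0_one (Q : ℕ) : pot0 Q 1 = (2 : ℝ) ^ (-(Q : ℝ)) := by
  unfold pot0
  rw [if_neg (by norm_num)]
  have h1 : (2 : ℝ) * 1 - 1 = 1 := by norm_num
  rw [h1, div_one, min_eq_left]
  rw [NC0_c]
  exact mul_le_of_le_one_right (NC0_c_pos Q).le (NC0_c_le Q)

private theorem NC0_pot0_le (Q : ℕ) {t : ℝ} (ht : 0 ≤ t) : pot0 Q t ≤ 1 := by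
  have hc := NC0_c_pos Q
  rw [NC0_pot0]
  refine max_le (by linarith) ?_
  have h1 : 0 < max (2 * t - 1) ((2 : ℝ) ^ (-(Q : ℝ) / 2)) := lt_of_lt_of_le hc (le_max_right _ _)
  rw [div_le_one h1]
  refine le_trans ?_ (le_max_right _ _)
  rw [NC0_c]
  exact mul_le_of_le_one_right hc.le (NC0_c_le Q)

private theorem NC0_pow (Q n : ℕ) : (2 : ℝ) ^ (-((Q : ℝ) * ((n : ℕ) : ℝ))) = (((2 : ℝ) ^ Q) ^ n)⁻¹ := by
  rw [Real.rpow_neg (by norm_num), ← Nat.cast_mul, Real.rpow_natCast, pow_mul]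

/-- The formula on `[n, n+1]`. -/
private theorem NC0_pot_Icc (Q n : ℕ) {t : ℝ} (ht : t ∈ Icc (n : ℝ) (n + 1)) :
    pot Q t = (((2 : ℝ) ^ Q) ^ n)⁻¹ * pot0 Q (t - n) := by
  unfold pot
  rcases ht.2.lt_or_eq with h | h
  · have hf : ⌊t⌋₊ = n := by
      rw [Nat.floor_eq_iff (le_trans (Nat.cast_nonneg _) ht.1)]
      exact ⟨ht.1, h⟩
    rw [hf, NC0_pow]
  · have hf : ⌊t⌋₊ = n + 1 := by
      rw [h]
      have : (n : ℝ) + 1 = ((n + 1 : ℕ) : ℝ) := by push_cast; ring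
      rw [this, Nat.floor_natCast]
    rw [hf, NC0_pow, h]
    have e1 : (n : ℝ) + 1 - ((n + 1 : ℕ) : ℝ) = 0 := by push_cast; ring
    have e2 : (n : ℝ) + 1 - (n : ℝ) = 1 := by ring
    rw [e1, e2, NC0_pot0_zero, NC0_pot0_one, Real.rpow_neg (by norm_num), Real.rpow_natCast,
      pow_succ, mul_inv, mul_one]

theorem pot_continuousOn (Q : ℕ) : ContinuousOn (pot Q) (Ici 0) := by
  have h1 : ∀ n : ℕ, ContinuousOn (pot Q) (Icc (n : ℝ) (n + 1)) := by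
    intro n
    have : ContinuousOn (fun t : ℝ => (((2 : ℝ) ^ Q) ^ n)⁻¹ * pot0 Q (t - n))
        (Icc (n : ℝ) (n + 1)) := by
      apply Continuous.continuousOn
      exact continuous_const.mul ((NC0_pot0_cont Q).comp (continuous_id.sub continuous_const))
    exact this.congr fun t ht => NC0_pot_Icc Q n ht
  have h2 : ∀ n : ℕ, ContinuousOn (pot Q) (Icc (0 : ℝ) n) := by
    intro n
    induction n with
    | zero =>
      intro t ht
      have : t = 0 := by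
        have h3 := ht.1
        have h4 := ht.2
        simp only [Nat.cast_zero] at h4
        linarith
      subst this
      have h5 : Icc (0 : ℝ) ((0 : ℕ) : ℝ) = {0} := by simp
      rw [h5]
      exact continuousWithinAt_singleton
    | succ n ih =>
      have h3 : Icc (0 : ℝ) ((n + 1 : ℕ) : ℝ) = Icc (0 : ℝ) n ∪ Icc (n : ℝ) (n + 1) := by
        push_cast
        rw [Icc_union_Icc_eq_Icc (Nat.cast_nonneg n) (by linarith)]
      rw [h3]
      exact ih.union_of_isClosed (h1 n) isClosed_Icc isClosed_Icc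
  intro t ht
  obtain ⟨n, hn⟩ := exists_nat_gt t
  have h3 := h2 n t ⟨ht, hn.le⟩
  refine h3.mono_of_mem_nhdsWithin ?_
  rw [mem_nhdsWithin]
  exact ⟨Iio n, isOpen_Iio, hn, fun x hx => ⟨hx.2, le_of_lt hx.1⟩⟩

theorem pot_pos (Q : ℕ) {t : ℝ} (ht : 0 ≤ t) : 0 < pot Q t := by
  unfold pot
  exact mul_pos (Real.rpow_pos_of_pos (by norm_num) _) (NC0_pot0_pos Q _)

theorem pot_add_one (Q : ℕ) {t : ℝ} (ht : 0 ≤ t) : pot Q t = 2 ^ Q * pot Q (t + 1) := by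
  unfold pot
  rw [Nat.floor_add_one ht, NC0_pow, NC0_pow]
  have e1 : t + 1 - ((⌊t⌋₊ + 1 : ℕ) : ℝ) = t - ⌊t⌋₊ := by push_cast; ring
  rw [e1, pow_succ, mul_inv]
  field_simp

theorem pot_zero (Q : ℕ) : pot Q 0 = 1 := by
  have h := NC0_pot_Icc Q 0 (t := 0) ⟨by simp, by simp⟩
  rw [h]
  simp [NC0_pot0_zero]

theorem pot_left (Q : ℕ) {t : ℝ} (ht : t ∈ Icc (0 : ℝ) (1 / 2)) :
    pot Q t = max (1 - 2 * t) ((2 : ℝ) ^ (-(Q : ℝ) / 2)) := by
  have h := NC0_pot_Icc Q 0 (t := t) ⟨by simpa using ht.1, by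
    have := ht.2
    push_cast
    linarith⟩
  rw [h]
  simp only [pow_zero, inv_one, one_mul, Nat.cast_zero, sub_zero]
  unfold pot0
  rw [if_pos ht.2]

theorem pot_right (Q : ℕ) {t : ℝ} (ht : t ∈ Ioc (1 / 2 : ℝ) 1) :
    pot Q t = min (1 / (2 * t - 1) / 2 ^ Q) ((2 : ℝ) ^ (-(Q : ℝ) / 2)) := by
  have h := NC0_pot_Icc Q 0 (t := t) ⟨by
    have := ht.1
    push_cast
    linarith, by
    have := ht.2
    push_cast
    linarith⟩
  rw [h]
  simp only [pow_zero, inv_one, one_mul, Nat.cast_zero, sub_zero]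
  unfold pot0
  rw [if_neg (not_le.2 ht.1), Real.rpow_neg (by norm_num) (Q : ℝ), Real.rpow_natCast]
  congr 1
  field_simp

private theorem NC0_pot_nat (Q n : ℕ) : pot Q n = (((2 : ℝ) ^ Q) ^ n)⁻¹ := by
  rw [NC0_pot_Icc Q n (t := n) ⟨le_rfl, by linarith⟩, sub_self, NC0_pot0_zero, mul_one]

private theorem NC0_base {Q : ℕ} (hQ : 1 ≤ Q) : (2 : ℝ) ≤ (2 : ℝ) ^ Q := by
  calc (2 : ℝ) = 2 ^ 1 := (pow_one _).symm
    _ ≤ 2 ^ Q := pow_le_pow_right₀ (by norm_num) hQ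

theorem pot_surj {Q : ℕ} (hQ : 1 ≤ Q) {x : ℝ} (hx : 0 < x) (hx1 : x ≤ 1) :
    ∃ t : ℝ, 0 ≤ t ∧ pot Q t = x := by
  obtain ⟨n, hn⟩ := exists_pow_lt_of_lt_one hx (show (1 / 2 : ℝ) < 1 by norm_num)
  have h1 : pot Q n ≤ x := by
    rw [NC0_pot_nat]
    refine le_trans ?_ hn.le
    rw [one_div, inv_pow]
    apply inv_anti₀ (by positivity)
    exact pow_le_pow_left₀ (by norm_num) (NC0_base hQ) n
  have h2 : ContinuousOn (pot Q) (Icc 0 n) :=
    (pot_continuousOn Q).mono fun t ht => ht.1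
  have h3 := intermediate_value_Icc' (Nat.cast_nonneg n) h2
  obtain ⟨t, ht, ht2⟩ := h3 (show x ∈ Icc (pot Q n) (pot Q 0) from ⟨h1, by rw [pot_zero]; exact hx1⟩)
  exact ⟨t, ht.1, ht2⟩

theorem pot_lim {Q : ℕ} (hQ : 1 ≤ Q) : Tendsto (pot Q) atTop (𝓝[>] 0) := by
  rw [tendsto_nhdsWithin_iff]
  constructor
  · have h1 : Tendsto (fun t : ℝ => ((1 / 2 : ℝ)) ^ ⌊t⌋₊) atTop (𝓝 0) :=
      (tendsto_pow_atTop_nhds_zero_of_lt_one (by norm_num) (by norm_num)).comp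
        (tendsto_nat_floor_atTop)
    refine tendsto_of_tendsto_of_tendsto_of_le_of_le' tendsto_const_nhds h1 ?_ ?_
    · filter_upwards [eventually_ge_atTop (0 : ℝ)] with t ht
      exact (pot_pos Q ht).le
    · filter_upwards [eventually_ge_atTop (0 : ℝ)] with t ht
      unfold pot
      rw [NC0_pow]
      have h2 : (0 : ℝ) ≤ t - ⌊t⌋₊ := by
        have := Nat.floor_le ht
        linarith
      have h3 : (((2 : ℝ) ^ Q) ^ ⌊t⌋₊)⁻¹ ≤ (1 / 2) ^ ⌊t⌋₊ := by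
        rw [one_div, inv_pow]
        apply inv_anti₀ (by positivity)
        exact pow_le_pow_left₀ (by norm_num) (NC0_base hQ) _
      calc (((2 : ℝ) ^ Q) ^ ⌊t⌋₊)⁻¹ * pot0 Q (t - ⌊t⌋₊)
          ≤ (1 / 2) ^ ⌊t⌋₊ * 1 :=
            mul_le_mul h3 (NC0_pot0_le Q h2) (NC0_pot0_pos Q _).le (by positivity)
        _ = (1 / 2) ^ ⌊t⌋₊ := mul_one _
  · filter_upwards [eventually_ge_atTop (0 : ℝ)] with t ht
    exact pot_pos Q ht

theorem coprime_pq {p q s e : ℕ} (hs : q * s = p * e + 1) : Nat.Coprime p q := by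
  have h1 : Nat.gcd p q ∣ q * s := dvd_mul_of_dvd_left (Nat.gcd_dvd_right p q) s
  have h2 : Nat.gcd p q ∣ p * e := dvd_mul_of_dvd_left (Nat.gcd_dvd_left p q) e
  rw [hs] at h1
  exact Nat.dvd_one.1 ((Nat.dvd_add_right h2).1 h1)

theorem q_mul_pN {p q s e : ℕ} (hs : q * s = p * e + 1) (N : ℕ) :
    q * pN p s N = p * qN q e N + 1 := by
  unfold pN qN
  rw [mul_add, hs]
  ring

theorem coprime_N {p q s e : ℕ} (hs : q * s = p * e + 1) (N : ℕ) :
    Nat.Coprime (pN p s N) (qN q e N) := by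
  have h := q_mul_pN hs N
  have h1 : Nat.gcd (pN p s N) (qN q e N) ∣ q * pN p s N :=
    dvd_mul_of_dvd_right (Nat.gcd_dvd_left _ _) q
  have h2 : Nat.gcd (pN p s N) (qN q e N) ∣ p * qN q e N :=
    dvd_mul_of_dvd_right (Nat.gcd_dvd_right _ _) p
  rw [h] at h1
  exact Nat.dvd_one.1 ((Nat.dvd_add_right h2).1 h1)

theorem pN_lt {p q s e : ℕ} (hp : 0 < p) (hpq : p < q) (hs : q * s = p * e + 1) {N : ℕ}
    (hN : 1 ≤ N) : 0 < pN p s N ∧ pN p s N < qN q e N ∧ N ≤ qN q e N := by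
  have h := q_mul_pN hs N
  have hQ : 2 ≤ qN q e N := by
    unfold qN
    nlinarith
  refine ⟨?_, ?_, ?_⟩
  · unfold pN
    have : 0 < p * N := Nat.mul_pos hp hN
    omega
  · by_contra hcon
    push Not at hcon
    have h1 : (p + 1) * qN q e N ≤ q * pN p s N := Nat.mul_le_mul hpq hcon
    rw [h] at h1
    have h2 : (p + 1) * qN q e N = p * qN q e N + qN q e N := by ring
    omega
  · unfold qN
    nlinarith

end Pool.Agent.CR
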