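import Pool.Agent.H73.CR.NC

/-!
# CR ND: convergence of the rays on `[0,1]` (the gate)

`deriv_pr_ne`: `t ≤ 1/2`: `left`, `Γ_deriv`. `t > 1/2`: `σ t ∈ D`, and `deriv E (σ t) ≠ 0`: for `t ≥ 1` this is `deriv_ne`; for `1/2 < t < 1`: `E (σ t) = Γ T ∉ D` (see NB), but
`v + k q ∈ D` (`all_def`, `mem_add_int`), so `deriv_ne_zero` applies. Near `σ t`: `E = phi ∘ pr 0` (`D` is open, `E_eq`), chain rule.
`deriv_phi_ne`: the same chain rule.
`base_conv`: let `ρ > 0`. Take `Ts1, Tl` from `gate1`; make `Ts1` smaller and `Tl` larger: `‖pr 0 (Γ T)‖ ≤ ρ` for `0 ≤ T ≤ Ts1` (`cont_Γ`, `Γ_zero`), `‖y T‖ ≤ ρ` for `T ≥ Tl` (`y_lim`),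
`Tl ≥ Ts ≥ Ts1`. For large `N` (`Q = q_N → ∞`): `Ts 2^(-Q/2) ≤ Ts1`, `Tl 2^(-Q) ≤ Ts 2^(-Q/2)`. (i) `t ≤ 1/2`, `Ts (1 - 2t) ≥ Ts1`: `pot = 1 - 2t`, the potential lies in the compact `[Ts1, Ts]`;
`ray_conv` with angles `angN 0 + 1 → th 0` (`angN_lim_zero`, `ray_add_int`), and `pr 0 (σ t) = ray l0 (th 0) (Ts (1-2t))` (`left`, `Γ_ray` with `m = 0`). (ii) `t ≤ 1/2`, `Ts (1-2t) ≤ Ts1`, or `t > 1/2`,
`Ts / (2t-1) ≥ Tl`: the potential is in `[Tl 2^(-Q), Ts1]`, so `‖zN‖ ≤ ρ` (`gate1`), and `‖pr 0 (σ t)‖ ≤ ρ`. (iii) `t > 1/2`, `T = Ts / (2t - 1) ≤ Tl`: the potential is `T 2^(-Q)`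
(as `T 2^(-Q) ≤ Tl 2^(-Q) ≤ Ts 2^(-Q/2)`), `gate2` on `[Ts, Tl]`, `pr 0 (σ t) = y T`.
-/

set_option autoImplicit false

open Set Filter Topology Metric

namespace Pool.Agent.CR

variable {p q s e : ℕ} {Ts : ℝ} {σ : ℝ → ℂ}

private theorem ND_notMem (G : Gate p q s e) {T : ℝ} (hT : 0 ≤ T) : G.Γ T ∉ G.H.D := by
  rw [G.mem_D]
  intro h
  rcases hT.eq_or_lt with h0 | h0
  · rw [← h0, G.Γ_zero] at h
    exact G.zero_notMem h
  · rw [G.Γ_ray 0 T h0] at h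
    have h1 : 0 < T / 2 ^ 0 := by positivity
    exact ray_notMem (norm_mu _).le _ h1 (G.B_sub h)

private theorem ND_chain (G : Gate p q s e) {w : ℂ} (hw : w ∈ G.H.D) :
    deriv G.H.E w = deriv G.phi (G.pr 0 w) * deriv (G.pr 0) w := by
  have h1 : G.H.E =ᶠ[𝓝 w] (G.phi ∘ G.pr 0) := by
    filter_upwards [G.H.isOpen.mem_nhds hw] with z hz
    exact G.E_eq z hz
  have h2 : G.pr 0 w ∈ G.B := (G.mem_D w).1 hw
  have h3 : DifferentiableAt ℂ G.phi (G.pr 0 w) :=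
    (G.diff_phi _ h2).differentiableAt (G.isOpen_B.mem_nhds h2)
  rw [h1.deriv_eq, deriv_comp w h3 (G.diff_pr 0 w)]

private theorem ND_Ts_pos {G : Gate p q s e} (hP : G.Path Ts σ) : 0 < Ts :=
  lt_of_lt_of_le G.T0_pos hP.Ts_ge

theorem Gate.Path.deriv_pr_ne {G : Gate p q s e} (hP : G.Path Ts σ) {a : ℂ} {R1 : ℝ}
    (hT : G.H.Top a R1) {t : ℝ} (ht : 0 ≤ t) : deriv (G.pr 0) (σ t) ≠ 0 := by
  have hTs := ND_Ts_pos hP
  rcases le_or_gt t (1 / 2) with h | h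
  · rw [hP.left t ⟨ht, h⟩]
    apply G.Γ_deriv
    apply mul_nonneg hTs.le
    linarith
  · have hD : σ t ∈ G.H.D ∧ deriv G.H.E (σ t) ≠ 0 := by
      rcases le_or_gt 1 t with h1 | h1
      · have h2 := hP.bpath.mem (t - 1) (by linarith)
        have h3 := hP.bpath.deriv_ne hT (t := t - 1) (by linarith)
        rw [sub_add_cancel] at h2 h3
        exact ⟨h2, h3⟩
      · obtain ⟨h2, _, h4⟩ := hP.right t ⟨h, h1.le⟩
        refine ⟨h2, G.H.deriv_ne_zero h2 ?_⟩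
        intro k hk
        have h5 : G.H.v ∈ G.H.D := hT.all_def 1 0 (by norm_num)
        have h6 : G.H.v + k * G.H.q ∈ G.H.D := (G.H.mem_add_int _ k).2 h5
        rw [← hk, h4] at h6
        have h7 : 0 ≤ Ts / (2 * t - 1) := div_nonneg hTs.le (by linarith)
        exact ND_notMem G h7 h6
    have h8 := ND_chain G hD.1
    intro h0
    rw [h0, mul_zero] at h8
    exact hD.2 h8

theorem Gate.Path.deriv_phi_ne {G : Gate p q s e} (hP : G.Path Ts σ) {a : ℂ} {R1 : ℝ}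
    (hT : G.H.Top a R1) {t : ℝ} (ht : 0 ≤ t) : deriv G.phi (G.pr 0 (σ (t + 1))) ≠ 0 := by
  have h1 := ND_chain G (hP.bpath.mem t ht)
  have h2 := hP.bpath.deriv_ne hT ht
  intro h0
  rw [h0, zero_mul] at h1
  exact h2 h1

private theorem ND_qN_tendsto (hp : 0 < p) (hpq : p < q) (hs : q * s = p * e + 1) :
    Tendsto (fun N => qN q e N) atTop atTop := by
  refine tendsto_atTop_mono' atTop ?_ tendsto_id
  filter_upwards [eventually_ge_atTop 1] with N hN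
  exact (pN_lt hp hpq hs hN).2.2

theorem Gate.Path.base_conv {G : Gate p q s e} (hP : G.Path Ts σ) (hp : 0 < p) (hpq : p < q)
    (hs : q * s = p * e + 1) :
    TendstoUniformlyOn (fun N t => zN p q s e Ts 0 N t) (fun t => G.pr 0 (σ t)) atTop (Icc 0 1) := by
  have hTs := ND_Ts_pos hP
  rw [Metric.tendstoUniformlyOn_iff]
  intro ε hε
  set ρ : ℝ := ε / 3 with hρ
  have hρ0 : 0 < ρ := by positivity
  obtain ⟨Ts1, Tl1, hTs1, hTl1, E1⟩ := G.gate1 ρ hρ0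
  -- small potentials on `Γ`
  have hex2 : ∃ Ts2 : ℝ, 0 < Ts2 ∧ ∀ T : ℝ, 0 ≤ T → T ≤ Ts2 → ‖G.pr 0 (G.Γ T)‖ ≤ ρ := by
    have h1 : Tendsto (fun T => ‖G.pr 0 (G.Γ T)‖) (𝓝[≥] 0) (𝓝 0) := by
      have h2 : Tendsto G.Γ (𝓝[≥] 0) (𝓝 (G.Γ 0)) := G.cont_Γ 0 (mem_Ici.2 le_rfl)
      have h3 := ((G.diff_pr 0).continuous.tendsto (G.Γ 0)).comp h2
      rw [G.Γ_zero] at h3
      have h4 := h3.norm
      rw [norm_zero] at h4
      exact h4
    have h5 : ∀ᶠ T in 𝓝[≥] (0 : ℝ), ‖G.pr 0 (G.Γ T)‖ < ρ := h1.eventually (gt_mem_nhds hρ0)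
    rw [eventually_nhdsWithin_iff, Metric.eventually_nhds_iff] at h5
    obtain ⟨δ, hδ, h5⟩ := h5
    refine ⟨δ / 2, by linarith, fun T hT0 hT1 => (h5 ?_ hT0).le⟩
    rw [Real.dist_eq, sub_zero, abs_of_nonneg hT0]
    linarith
  obtain ⟨Ts2, hTs2, hΓ⟩ := hex2
  have hex3 : ∃ Tl2 : ℝ, ∀ T : ℝ, Tl2 ≤ T → ‖G.y T‖ ≤ ρ := by
    have h1 := G.y_lim.norm
    rw [norm_zero] at h1
    obtain ⟨Tl2, h2⟩ := eventually_atTop.1 (h1.eventually (gt_mem_nhds hρ0))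
    exact ⟨Tl2, fun T hT => (h2 T hT).le⟩
  obtain ⟨Tl2, hy⟩ := hex3
  set A : ℝ := min (min Ts1 Ts2) Ts with hA
  set L : ℝ := max (max Tl1 Tl2) Ts with hL
  have hA0 : 0 < A := lt_min (lt_min hTs1 hTs2) hTs
  have hA1 : A ≤ Ts1 := (min_le_left _ _).trans (min_le_left _ _)
  have hA2 : A ≤ Ts2 := (min_le_left _ _).trans (min_le_right _ _)
  have hA3 : A ≤ Ts := min_le_right _ _
  have hL1 : Tl1 ≤ L := (le_max_left _ _).trans (le_max_left _ _)
  have hL2 : Tl2 ≤ L := (le_max_right _ _).trans (le_max_left _ _)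
  have hL3 : Ts ≤ L := le_max_right _ _
  have hL0 : 0 < L := hTs.trans_le hL3
  have hqt := ND_qN_tendsto hp hpq hs
  -- the size of `2 ^ (-Q/2)`
  have hpow : Tendsto (fun N => (2 : ℝ) ^ (-((qN q e N : ℕ) : ℝ) / 2)) atTop (𝓝 0) := by
    have h1 : Tendsto (fun N => ((qN q e N : ℕ) : ℝ) / 2) atTop atTop :=
      (tendsto_natCast_atTop_atTop.comp hqt).atTop_div_const (by norm_num)
    have h2 : Tendsto (fun x : ℝ => (2 : ℝ) ^ (-x)) atTop (𝓝 0) := by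
      have := tendsto_rpow_atTop_of_base_lt_one (1 / 2 : ℝ) (by norm_num) (by norm_num)
      refine this.congr ?_
      intro x
      rw [one_div, Real.inv_rpow (by norm_num), Real.rpow_neg (by norm_num)]
    refine (h2.comp h1).congr ?_
    intro N
    show (2 : ℝ) ^ (-(((qN q e N : ℕ) : ℝ) / 2)) = _
    rw [neg_div]
  have hev1 : ∀ᶠ N in atTop, Ts * (2 : ℝ) ^ (-((qN q e N : ℕ) : ℝ) / 2) < A := by
    have h1 := hpow.const_mul Ts
    rw [mul_zero] at h1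
    exact h1.eventually (gt_mem_nhds hA0)
  have hev2 : ∀ᶠ N in atTop, L * (2 : ℝ) ^ (-((qN q e N : ℕ) : ℝ) / 2) < Ts := by
    have h1 := hpow.const_mul L
    rw [mul_zero] at h1
    exact h1.eventually (gt_mem_nhds hTs)
  have hsq : ∀ N, (2 : ℝ) ^ (-((qN q e N : ℕ) : ℝ) / 2) * (2 : ℝ) ^ (-((qN q e N : ℕ) : ℝ) / 2) =
      1 / 2 ^ qN q e N := by
    intro N
    rw [← Real.rpow_add (by norm_num), show -((qN q e N : ℕ) : ℝ) / 2 + -((qN q e N : ℕ) : ℝ) / 2 =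
      -((qN q e N : ℕ) : ℝ) by ring, Real.rpow_neg (by norm_num), Real.rpow_natCast, one_div]
  have E2 : ∀ᶠ N in atTop, ∀ x ∈ Icc A Ts, dist (ray (mu ((p : ℝ) / q)) (th p q 0) x)
      (ray (lN p q s e N) (angN p q s e N 0 + 1) x) < ε := by
    have h1 := ray_conv (a := A) (b := Ts) (l := fun N => lN p q s e N)
      (θ := fun N => angN p q s e N 0 + 1) (fun N => (norm_mu _).le) (norm_mu _).le
      (lN_tendsto s e (by omega)) (angN_lim_zero hp hpq hs) hA0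
    rw [Metric.tendstoUniformlyOn_iff] at h1
    exact h1 ε hε
  have E3 := G.gate2 Ts L hP.Ts_ge
  rw [Metric.tendstoUniformlyOn_iff] at E3
  filter_upwards [E1, E2, E3 ε hε, hev1, hev2] with N h1 h2 h3 h4 h5 t ht
  set c : ℝ := (2 : ℝ) ^ (-((qN q e N : ℕ) : ℝ) / 2) with hc
  have hc0 : 0 < c := Real.rpow_pos_of_pos (by norm_num) _
  have hcc : c * c = 1 / 2 ^ qN q e N := hsq N
  have hLQ : L / 2 ^ qN q e N ≤ Ts * c := by
    calc L / 2 ^ qN q e N = (L * c) * c := by rw [mul_assoc, hcc, mul_one_div]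
      _ ≤ Ts * c := mul_le_mul_of_nonneg_right h5.le hc0.le
  have hTlQ : Tl1 / 2 ^ qN q e N ≤ L / 2 ^ qN q e N := div_le_div_of_nonneg_right hL1 (by positivity)
  have hz : zN p q s e Ts 0 N t = ray (lN p q s e N) (angN p q s e N 0) (Ts * pot (qN q e N) t) := by
    unfold zN
    rw [pow_zero, div_one]
  rw [hz]
  rcases le_or_gt t (1 / 2) with ht2 | ht2
  · -- the left half
    rw [hP.left t ⟨ht.1, ht2⟩, pot_left _ ⟨ht.1, ht2⟩]
    rcases le_or_gt A (Ts * (1 - 2 * t)) with hcase | hcase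
    · have hmax : max (1 - 2 * t) c = 1 - 2 * t := by
        apply max_eq_left
        have h6 : Ts * c ≤ Ts * (1 - 2 * t) := h4.le.trans hcase
        exact le_of_mul_le_mul_left h6 hTs
      rw [hmax]
      have hx : Ts * (1 - 2 * t) ∈ Icc A Ts := by
        refine ⟨hcase, ?_⟩
        have := ht.1
        nlinarith
      have h7 := h2 _ hx
      have h8 : ray (lN p q s e N) (angN p q s e N 0 + 1) (Ts * (1 - 2 * t)) =
          ray (lN p q s e N) (angN p q s e N 0) (Ts * (1 - 2 * t)) := by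
        have := ray_add_int (lN p q s e N) (angN p q s e N 0) (Ts * (1 - 2 * t)) 1
        rw [Int.cast_one] at this
        exact this
      rw [h8] at h7
      have h9 := G.Γ_ray 0 (Ts * (1 - 2 * t)) (hA0.trans_le hcase)
      rw [pow_zero, div_one] at h9
      rw [h9]
      exact h7
    · have hx1 : Ts * max (1 - 2 * t) c ≤ Ts1 := by
        rw [mul_max_of_nonneg _ _ hTs.le]
        exact (max_le hcase.le h4.le).trans hA1
      have hx2 : Tl1 / 2 ^ qN q e N ≤ Ts * max (1 - 2 * t) c := by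
        refine (hTlQ.trans hLQ).trans ?_
        exact mul_le_mul_of_nonneg_left (le_max_right _ _) hTs.le
      have h6 := h1 _ hx2 hx1
      have h7 : ‖G.pr 0 (G.Γ (Ts * (1 - 2 * t)))‖ ≤ ρ := by
        apply hΓ _ (mul_nonneg hTs.le (by linarith)) (hcase.le.trans hA2)
      rw [dist_eq_norm]
      refine lt_of_le_of_lt (norm_sub_le _ _) ?_
      rw [hρ] at h6 h7
      linarith
  · -- the right half
    have ht1 : 0 < 2 * t - 1 := by linarith
    obtain ⟨_, h6, _⟩ := hP.right t ⟨ht2, ht.2⟩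
    rw [h6, pot_right _ ⟨ht2, ht.2⟩]
    set T : ℝ := Ts / (2 * t - 1) with hTdef
    have hTT : Ts ≤ T := by
      rw [hTdef, le_div_iff₀ ht1]
      have := ht.2
      nlinarith
    have hpt : Ts * min (1 / (2 * t - 1) / 2 ^ qN q e N) c = min (T / 2 ^ qN q e N) (Ts * c) := by
      rw [mul_min_of_nonneg _ _ hTs.le]
      congr 1
      rw [hTdef]
      ring
    have hpt' : Ts * min (1 / (2 * t - 1) / 2 ^ qN q e N) ((2 : ℝ) ^ (-((qN q e N : ℕ) : ℝ) / 2)) =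
        min (T / 2 ^ qN q e N) (Ts * c) := hpt
    rw [hpt']
    rcases le_or_gt T L with hcase | hcase
    · have h7 : T / 2 ^ qN q e N ≤ Ts * c :=
        (div_le_div_of_nonneg_right hcase (by positivity)).trans hLQ
      rw [min_eq_left h7]
      exact h3 T ⟨hTT, hcase⟩
    · have h7 : ‖G.y T‖ ≤ ρ := hy T (hL2.trans hcase.le)
      have h8 : L / 2 ^ qN q e N ≤ min (T / 2 ^ qN q e N) (Ts * c) :=
        le_min (div_le_div_of_nonneg_right hcase.le (by positivity)) hLQ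
      have h9 := h1 (min (T / 2 ^ qN q e N) (Ts * c)) (hTlQ.trans h8)
        ((min_le_right _ _).trans (h4.le.trans hA1))
      rw [dist_eq_norm]
      refine lt_of_le_of_lt (norm_sub_le _ _) ?_
      rw [hρ] at h7 h9
      linarith

end Pool.Agent.CR
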