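import Pool.Agent.H73.CR.ND

/-!
# CR NE: convergence of the rays on `[0,n]`

`conv_zero`: induction on `n ≥ 1`, `n = 1` is `base_conv`. Step: `lift_conv` on `[n, n+1]` with `U = B`, `g = pr 0 ∘ phi`, `gN = hN` (`lav`), `τ t = pr 0 (σ t)` (`t ≥ 1`, so `σ t ∈ D`, `τ t ∈ B`),
`g (τ t) = pr 0 (E (σ t)) = pr 0 (σ (t-1))`, `gN (zN t) = zN (t - 1)` (`zN_map`), which converges uniformly by the induction hypothesis; `deriv g (τ t) = deriv (pr 0) (σ (t-1)) * deriv phi (τ t) ≠ 0`.
Glue `[0,n]` and `[n,n+1]`.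
`conv`: `lift_conv` on `[0,n]` with `U = univ`, `g = (f l0)^[m]`, `gN = (f l_N)^[m]` (`iterate_conv`), `τ = pr m ∘ σ`, `g (τ t) = pr 0 (σ t)` (`pr_f` iterated), `gN (zN m N t) = zN 0 N t`
(`zN_pow`), `deriv g (τ t) * deriv (pr m) (σ t) = deriv (pr 0) (σ t) ≠ 0`; at `t = 0`: `zN m N 0 = ray l_N (angN m) (Ts / 2^m) → ray l0 (th m) (Ts / 2^m) = pr m (Γ Ts)`
(`ray_conv`, `angN_lim` / `angN_lim_zero`, `Γ_ray`).
-/

set_option autoImplicit false

open Set Filter Topology Metric

namespace Pool.Agent.CR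

variable {p q s e : ℕ} {Ts : ℝ} {σ : ℝ → ℂ}

theorem Gate.Path.conv_zero {G : Gate p q s e} (hP : G.Path Ts σ) {a : ℂ} {R1 : ℝ}
    (hT : G.H.Top a R1) (hp : 0 < p) (hpq : p < q) (hs : q * s = p * e + 1) (n : ℕ) :
    TendstoUniformlyOn (fun N t => zN p q s e Ts 0 N t) (fun t => G.pr 0 (σ t)) atTop
      (Icc 0 (n : ℝ)) := by
  induction n with
  | zero =>
    refine (hP.base_conv hp hpq hs).mono ?_
    intro t ht
    exact ⟨ht.1, ht.2.trans (by norm_num)⟩
  | succ k ih =>
    rcases Nat.eq_zero_or_pos k with hk | hk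
    · subst hk
      refine (hP.base_conv hp hpq hs).mono ?_
      intro t ht
      exact ⟨ht.1, ht.2.trans (by norm_num)⟩
    · have hk1 : (1 : ℝ) ≤ k := by exact_mod_cast hk
      have hTs : 0 < Ts := G.T0_pos.trans_le hP.Ts_ge
      have hstep : TendstoUniformlyOn (fun N t => zN p q s e Ts 0 N t) (fun t => G.pr 0 (σ t)) atTop
          (Icc (k : ℝ) ((k : ℝ) + 1)) := by
        have hmem : ∀ t ∈ Icc (k : ℝ) ((k : ℝ) + 1), σ t ∈ G.H.D ∧ G.H.E (σ t) = σ (t - 1) := by
          intro t ht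
          have h1 := hP.bpath.mem (t - 1) (by linarith [ht.1])
          have h2 := hP.bpath.map (t - 1) (by linarith [ht.1])
          rw [sub_add_cancel] at h1 h2
          exact ⟨h1, h2⟩
        have hphi : ∀ t ∈ Icc (k : ℝ) ((k : ℝ) + 1), G.phi (G.pr 0 (σ t)) = σ (t - 1) := by
          intro t ht
          rw [← G.E_eq _ (hmem t ht).1]
          exact (hmem t ht).2
        have hB : ∀ t ∈ Icc (k : ℝ) ((k : ℝ) + 1), G.pr 0 (σ t) ∈ G.B := fun t ht =>
          (G.mem_D _).1 (hmem t ht).1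
        refine lift_conv (U := G.B) (g := fun z => G.pr 0 (G.phi z))
          (gN := fun N z => hN p q s e N z) G.isOpen_B
          ((G.diff_pr 0).comp_differentiableOn G.diff_phi) G.lav (by linarith) ?_ hB ?_ ?_ ?_ ?_
        · exact (G.diff_pr 0).continuous.comp_continuousOn
            (hP.bpath.cont.mono (fun x hx => (by linarith [hx.1] : (0 : ℝ) ≤ x)))
        · intro t ht
          have hdphi : DifferentiableAt ℂ G.phi (G.pr 0 (σ t)) :=
            G.diff_phi.differentiableAt (G.isOpen_B.mem_nhds (hB t ht))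
          have h1 : deriv (fun z => G.pr 0 (G.phi z)) (G.pr 0 (σ t)) =
              deriv (G.pr 0) (G.phi (G.pr 0 (σ t))) * deriv G.phi (G.pr 0 (σ t)) :=
            deriv_comp (G.pr 0 (σ t)) ((G.diff_pr 0) _) hdphi
          rw [h1, hphi t ht]
          refine mul_ne_zero (hP.deriv_pr_ne hT (by linarith [ht.1])) ?_
          have h2 := hP.deriv_phi_ne hT (t := t - 1) (by linarith [ht.1])
          rwa [sub_add_cancel] at h2
        · refine Eventually.of_forall (fun N => ?_)
          exact (zN_continuousOn hTs 0 N).mono (fun x hx => (by linarith [hx.1] : (0 : ℝ) ≤ x))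
        · rw [Metric.tendstoUniformlyOn_iff] at ih ⊢
          intro ε hε
          filter_upwards [ih ε hε] with N hN1 t ht
          have h1 := hN1 (t - 1) ⟨by linarith [ht.1], by linarith [ht.2]⟩
          have h2 := zN_map hp hpq hs hTs 0 N (t := t - 1) (by linarith [ht.1])
          rw [sub_add_cancel] at h2
          rw [hphi t ht, h2]
          exact h1
        · exact ih.tendsto_at ⟨by linarith, le_refl _⟩
      rw [Metric.tendstoUniformlyOn_iff] at ih hstep ⊢
      intro ε hε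
      filter_upwards [ih ε hε, hstep ε hε] with N h1 h2 t ht
      rcases le_total t k with h | h
      · exact h1 t ⟨ht.1, h⟩
      · exact h2 t ⟨h, by have := ht.2; push_cast at this; exact this⟩

theorem Gate.Path.conv {G : Gate p q s e} (hP : G.Path Ts σ) {a : ℂ} {R1 : ℝ}
    (hT : G.H.Top a R1) (hp : 0 < p) (hpq : p < q) (hs : q * s = p * e + 1) (m n : ℕ) :
    TendstoUniformlyOn (fun N t => zN p q s e Ts m N t) (fun t => G.pr m (σ t)) atTop
      (Icc 0 (n : ℝ)) := by
  have hTs : 0 < Ts := G.T0_pos.trans_le hP.Ts_ge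
  have hq0 : 0 < q := by omega
  have hcz := hP.conv_zero hT hp hpq hs n
  have hiter : ∀ (k : ℕ) (w : ℂ), (f (mu ((p : ℝ) / q)))^[k] (G.pr k w) = G.pr 0 w := by
    intro k
    induction k with
    | zero => intro w; rfl
    | succ j ih => intro w; rw [Function.iterate_succ_apply, G.pr_f, ih]
  have hdf : ∀ (l : ℂ) (k : ℕ), Differentiable ℂ ((f l)^[k]) := by
    intro l k
    have h1 : Differentiable ℂ (f l) := by unfold f; fun_prop
    exact h1.iterate k
  refine lift_conv (U := univ) (g := (f (mu ((p : ℝ) / q)))^[m])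
    (gN := fun N z => (f (lN p q s e N))^[m] z) isOpen_univ
    (hdf _ _).differentiableOn (iterate_conv (lN_tendsto s e hq0) m) (by positivity) ?_
    (fun _ _ => mem_univ _) ?_ ?_ ?_ ?_
  · exact (G.diff_pr m).continuous.comp_continuousOn (hP.bpath.cont.mono (fun x hx => hx.1))
  · intro t ht h0
    have h1 : (fun w => (f (mu ((p : ℝ) / q)))^[m] (G.pr m w)) = G.pr 0 := by
      funext w; exact hiter m w
    have h2 : deriv (fun w => (f (mu ((p : ℝ) / q)))^[m] (G.pr m w)) (σ t) =
        deriv ((f (mu ((p : ℝ) / q)))^[m]) (G.pr m (σ t)) * deriv (G.pr m) (σ t) :=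
      deriv_comp (σ t) ((hdf _ _) _) ((G.diff_pr m) _)
    rw [h1, h0, zero_mul] at h2
    exact hP.deriv_pr_ne hT ht.1 h2
  · refine Eventually.of_forall (fun N => ?_)
    exact (zN_continuousOn hTs m N).mono (fun x hx => hx.1)
  · rw [Metric.tendstoUniformlyOn_iff] at hcz ⊢
    intro ε hε
    filter_upwards [hcz ε hε] with N h1 t ht
    rw [hiter m, zN_pow hp hpq hs hTs m N ht.1]
    exact h1 t ht
  · have hσ0 : σ 0 = G.Γ Ts := by
      have := hP.left 0 ⟨le_refl _, by norm_num⟩
      simpa using this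
    have hz : ∀ N, zN p q s e Ts m N 0 = ray (lN p q s e N) (angN p q s e N m) (Ts / 2 ^ m) := by
      intro N
      rw [zN, pot_zero, mul_one]
    simp only [hz, hσ0]
    rw [G.Γ_ray m Ts hTs]
    have hpos : (0 : ℝ) < Ts / 2 ^ m := by positivity
    have hl0 : ‖mu ((p : ℝ) / q)‖ ≤ 1 := (norm_mu _).le
    have hlN : Tendsto (fun N => lN p q s e N) atTop (𝓝 (mu ((p : ℝ) / q))) := lN_tendsto s e hq0
    rcases Nat.eq_zero_or_pos m with hm | hm
    · subst hm
      have h1 := (ray_conv (l := fun N => lN p q s e N) (b := Ts / 2 ^ 0)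
        (fun N => (norm_mu _).le) hl0 hlN (angN_lim_zero hp hpq hs) hpos).tendsto_at
        (x := Ts / 2 ^ 0) ⟨le_refl _, le_refl _⟩
      refine h1.congr (fun N => ?_)
      have := ray_add_int (lN p q s e N) (angN p q s e N 0) (Ts / 2 ^ 0) 1
      push_cast at this
      exact this
    · exact (ray_conv (l := fun N => lN p q s e N) (b := Ts / 2 ^ m)
        (fun N => (norm_mu _).le) hl0 hlN (angN_lim hp hpq hs hm) hpos).tendsto_at
        (x := Ts / 2 ^ m) ⟨le_refl _, le_refl _⟩

end Pool.Agent.CR
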