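import Pool.Agent.H73.CR.NE

/-!
# CR NE2: the low case is impossible

`not_low`: suppose `y ∈ D`, `E y = y`, `‖deriv E y‖ > 1`, `σ → y`. Let `x = pr 0 y ∈ B`, `g = pr 0 ∘ phi`: `g x = x`, `deriv g x = deriv E y` (`E = phi ∘ pr 0` near `y`, and
`phi x = y`). `x ≠ 0` (`zero_notMem`). So there are `κ > 1` and `ε < ‖x‖` with `closedBall x ε ⊆ B`, `‖g z - x‖ ≥ κ ε` for `‖z - x‖ = ε`; for large `N`: `‖hN z - x‖ > ε` there. Choose
`n ∈ ℕ` with `‖pr 0 (σ t) - x‖ < ε/2` for `t ≥ n`. By `conv_zero`, for large `N`, `‖zN 0 N t - x‖ < ε` on `[n, n+1]`. Then this holds for all `t ≥ n`: otherwise take the smallest `t > n + 1` with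
`‖zN 0 N t - x‖ ≥ ε`, so `= ε`, hence `‖zN 0 N (t-1) - x‖ = ‖hN (zN 0 N t) - x‖ > ε`, a contradiction. But `zN 0 N t → 0` (`zN_lim`), so `‖x‖ ≤ ε`, a contradiction.
-/

set_option autoImplicit false

open Set Filter Topology Metric

namespace Pool.Agent.CR

variable {p q s e : ℕ} {Ts : ℝ} {σ : ℝ → ℂ}

/-- The derivative of `pr 0 ∘ phi` at the fixed point `pr 0 y` is `deriv E y`. -/
private theorem ne2_hasDerivAt (G : Gate p q s e) {y : ℂ} (hy : y ∈ G.H.D) (hE : G.H.E y = y) :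
    G.pr 0 y ∈ G.B ∧ G.phi (G.pr 0 y) = y ∧
      HasDerivAt (fun z => G.pr 0 (G.phi z)) (deriv G.H.E y) (G.pr 0 y) := by
  have hx : G.pr 0 y ∈ G.B := (G.mem_D y).1 hy
  have hphi : G.phi (G.pr 0 y) = y := by rw [← G.E_eq y hy, hE]
  refine ⟨hx, hphi, ?_⟩
  have h1 : HasDerivAt G.phi (deriv G.phi (G.pr 0 y)) (G.pr 0 y) :=
    (G.diff_phi.differentiableAt (G.isOpen_B.mem_nhds hx)).hasDerivAt
  have h2 : HasDerivAt (G.pr 0) (deriv (G.pr 0) y) y := (G.diff_pr 0 y).hasDerivAt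
  have h2' : HasDerivAt (G.pr 0) (deriv (G.pr 0) y) (G.phi (G.pr 0 y)) := by
    rw [hphi]; exact h2
  have h3 : HasDerivAt (fun z => G.pr 0 (G.phi z)) (deriv (G.pr 0) y * deriv G.phi (G.pr 0 y))
      (G.pr 0 y) := h2'.comp (G.pr 0 y) h1
  have h4 : HasDerivAt (fun w => G.phi (G.pr 0 w)) (deriv G.phi (G.pr 0 y) * deriv (G.pr 0) y) y :=
    h1.comp y h2
  have h5 : G.H.E =ᶠ[𝓝 y] fun w => G.phi (G.pr 0 w) := by
    filter_upwards [G.H.isOpen.mem_nhds hy] with w hw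
    exact G.E_eq w hw
  have h6 : deriv G.H.E y = deriv G.phi (G.pr 0 y) * deriv (G.pr 0) y :=
    (h4.congr_of_eventuallyEq h5).deriv
  rw [h6, mul_comm]
  exact h3

/-- A map with a derivative of modulus larger than one at a fixed point expands distances to it. -/
private theorem ne2_expand {g : ℂ → ℂ} {x g' : ℂ} (hg : HasDerivAt g g' x) (hx : g x = x)
    {κ : ℝ} (hκ : κ < ‖g'‖) : ∀ᶠ z in 𝓝 x, κ * ‖z - x‖ ≤ ‖g z - x‖ := by
  have h1 := (hasDerivAt_iff_isLittleO.1 hg).bound (sub_pos.2 hκ)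
  filter_upwards [h1] with z hz
  have h2 : ‖(z - x) • g'‖ ≤ ‖g z - g x - (z - x) • g'‖ + ‖g z - g x‖ := by
    have h3 : (z - x) • g' = -(g z - g x - (z - x) • g') + (g z - g x) := by ring
    calc ‖(z - x) • g'‖ = ‖-(g z - g x - (z - x) • g') + (g z - g x)‖ := by rw [← h3]
      _ ≤ ‖-(g z - g x - (z - x) • g')‖ + ‖g z - g x‖ := norm_add_le _ _
      _ = _ := by rw [norm_neg]
  rw [norm_smul] at h2
  rw [hx] at h2 hz
  nlinarith [norm_nonneg (z - x)]

theorem Gate.Path.not_low {G : Gate p q s e} (hP : G.Path Ts σ) {a : ℂ} {R1 : ℝ}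
    (hT : G.H.Top a R1) (hp : 0 < p) (hpq : p < q) (hs : q * s = p * e + 1) :
    ¬ ∃ y ∈ G.H.D, G.H.E y = y ∧ 1 < ‖deriv G.H.E y‖ ∧ Tendsto σ atTop (𝓝 y) := by
  rintro ⟨y, hy, hE, hd, hσ⟩
  have hTs : 0 < Ts := lt_of_lt_of_le G.T0_pos hP.Ts_ge
  obtain ⟨hx, hphi, hg⟩ := ne2_hasDerivAt G hy hE
  set x : ℂ := G.pr 0 y with hxdef
  have hx0 : x ≠ 0 := by
    intro h
    rw [h] at hx
    exact G.zero_notMem hx
  have hxpos : 0 < ‖x‖ := norm_pos_iff.2 hx0
  obtain ⟨κ, hκ1, hκ2⟩ := exists_between hd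
  have hgx : (fun z => G.pr 0 (G.phi z)) x = x := by
    show G.pr 0 (G.phi x) = x
    rw [hphi]
  have hev := (ne2_expand hg hgx hκ2).and (G.isOpen_B.mem_nhds hx)
  obtain ⟨ε0, hε0, hball⟩ := Metric.eventually_nhds_iff.1 hev
  set ε : ℝ := min (ε0 / 2) (‖x‖ / 2) with hεdef
  have hε : 0 < ε := lt_min (by linarith) (by linarith)
  have hε1 : ε < ε0 := lt_of_le_of_lt (min_le_left _ _) (by linarith)
  have hε2 : ε ≤ ‖x‖ / 2 := min_le_right _ _
  have hcb : closedBall x ε ⊆ G.B := by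
    intro z hz
    exact (hball (lt_of_le_of_lt (mem_closedBall.1 hz) hε1)).2
  have hexp : ∀ z ∈ closedBall x ε, κ * ‖z - x‖ ≤ ‖G.pr 0 (G.phi z) - x‖ := by
    intro z hz
    exact (hball (lt_of_le_of_lt (mem_closedBall.1 hz) hε1)).1
  -- uniform convergence on the closed ball
  have hunif : TendstoUniformlyOn (fun N z => hN p q s e N z) (fun z => G.pr 0 (G.phi z)) atTop
      (closedBall x ε) :=
    (tendstoLocallyUniformlyOn_iff_forall_isCompact G.isOpen_B).1 G.lav _ hcb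
      (isCompact_closedBall x ε)
  have hδ : 0 < (κ - 1) * ε := mul_pos (by linarith) hε
  have hN1 := Metric.tendstoUniformlyOn_iff.1 hunif _ hδ
  -- the time `n`
  have hpr : Tendsto (fun t => G.pr 0 (σ t)) atTop (𝓝 x) :=
    ((G.diff_pr 0).continuous.tendsto y).comp hσ
  obtain ⟨T1, hT1⟩ := Filter.eventually_atTop.1 (Metric.tendsto_nhds.1 hpr (ε / 2) (by linarith))
  obtain ⟨n, hn⟩ := exists_nat_ge T1
  have hconv := Metric.tendstoUniformlyOn_iff.1 (hP.conv_zero hT hp hpq hs (n + 1)) (ε / 2)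
    (by linarith)
  obtain ⟨N, hNa, hNb, hNc⟩ := (hN1.and (hconv.and (eventually_ge_atTop 1))).exists
  set z : ℝ → ℂ := zN p q s e Ts 0 N with hzdef
  have hzc : ContinuousOn z (Ici 0) := zN_continuousOn hTs 0 N
  have hbase : ∀ t ∈ Icc (n : ℝ) (n + 1), ‖z t - x‖ < ε := by
    intro t ht
    have h0 : (0 : ℝ) ≤ n := Nat.cast_nonneg n
    have h1 := hNb t ⟨le_trans h0 ht.1, by push_cast; exact ht.2⟩
    have h2 := hT1 t (le_trans hn ht.1)
    calc ‖z t - x‖ = dist (z t) x := (dist_eq_norm _ _).symm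
      _ ≤ dist (z t) (G.pr 0 (σ t)) + dist (G.pr 0 (σ t)) x := dist_triangle _ _ _
      _ < ε / 2 + ε / 2 := by
        rw [dist_comm (z t)]
        exact add_lt_add h1 h2
      _ = ε := by ring
  have hsphere : ∀ w : ℂ, ‖w - x‖ = ε → ε < ‖hN p q s e N w - x‖ := by
    intro w hw
    have hwm : w ∈ closedBall x ε := by
      rw [mem_closedBall, dist_eq_norm, hw]
    have h1 := hNa w hwm
    have h2 := hexp w hwm
    rw [hw] at h2
    rw [dist_eq_norm] at h1
    have h3 : ‖G.pr 0 (G.phi w) - x‖ ≤ ‖G.pr 0 (G.phi w) - hN p q s e N w‖ +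
        ‖hN p q s e N w - x‖ := norm_sub_le_norm_sub_add_norm_sub _ _ _
    have h4 : κ * ε ≤ ‖G.pr 0 (G.phi w) - hN p q s e N w‖ + ‖hN p q s e N w - x‖ := le_trans h2 h3
    have h5 : κ * ε < (κ - 1) * ε + ‖hN p q s e N w - x‖ := by linarith
    nlinarith
  have hall : ∀ k : ℕ, ∀ t ∈ Icc ((n : ℝ) + k) (n + k + 1), ‖z t - x‖ < ε := by
    intro k
    induction k with
    | zero =>
      intro t ht
      apply hbase t
      simpa using ht
    | succ k ih =>
      intro t ht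
      have hn0 : (0 : ℝ) ≤ n := Nat.cast_nonneg n
      have hk0 : (0 : ℝ) ≤ k := Nat.cast_nonneg k
      push_cast at ht
      by_contra hcon
      push Not at hcon
      have hle : (n : ℝ) + k + 1 ≤ t := by linarith [ht.1]
      have hcont : ContinuousOn (fun r => ‖z r - x‖) (Icc ((n : ℝ) + k + 1) t) := by
        apply ContinuousOn.norm
        apply ContinuousOn.sub _ continuousOn_const
        apply hzc.mono
        intro r hr
        have := hr.1
        show (0 : ℝ) ≤ r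
        linarith
      have hleft : ‖z ((n : ℝ) + k + 1) - x‖ < ε := ih _ ⟨by linarith, le_refl _⟩
      obtain ⟨c, hc, hc2⟩ := intermediate_value_Icc hle hcont ⟨hleft.le, hcon⟩
      have hc2' : ‖z c - x‖ = ε := hc2
      have h1 := hsphere (z c) hc2'
      have h2 : hN p q s e N (z c) = z (c - 1) := by
        have h3 := zN_map hp hpq hs hTs 0 N (t := c - 1) (by linarith [hc.1])
        have h4 : c - 1 + 1 = c := by ring
        rw [h4] at h3
        exact h3
      rw [h2] at h1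
      have h5 := ih (c - 1) ⟨by linarith [hc.1], by linarith [hc.2, ht.2]⟩
      linarith
  have hall' : ∀ t : ℝ, (n : ℝ) ≤ t → ‖z t - x‖ < ε := by
    intro t ht
    have h0 : 0 ≤ t - n := by linarith
    apply hall ⌊t - n⌋₊ t
    constructor
    · linarith [Nat.floor_le h0]
    · linarith [Nat.lt_floor_add_one (t - n)]
  have hlim : Tendsto z atTop (𝓝 0) := zN_lim hp hpq hs hTs hNc
  have hlim2 : Tendsto (fun t => ‖z t - x‖) atTop (𝓝 ‖(0 : ℂ) - x‖) := (hlim.sub_const x).norm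
  have hfin : ‖(0 : ℂ) - x‖ ≤ ε := by
    apply le_of_tendsto hlim2
    filter_upwards [eventually_ge_atTop (n : ℝ)] with t ht
    exact (hall' t ht).le
  rw [zero_sub, norm_neg] at hfin
  linarith

end Pool.Agent.CR
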