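import Pool.Agent.H73.CR.Gate
import Pool.Agent.H68.CR.R13

/-!
# CR RD: digit formulas for the angles of the rotation cycles

`ang_double`: with `d_n = ⌊(i+(n+1)p)/q⌋ - ⌊(i+np)/q⌋`: `2 ∑ d_n 2^(-n-1) = d_0 + ∑ d_{n+1} 2^(-n-1)`, and `d_{n+1}` is the
digit `n` of `ang p q (i+p)`. (The series converge absolutely: `0 ≤ d_n ≤ 1` since `0 ≤ p ≤ q`.) `ang_period`: the digits are the same.
`angN_double`: `m` times `ang_double`; `-m p' + m p' = 0`. `angN_period`: `q_N` times `ang_double`, then `ang_period`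
(`0 < p_N < q_N` follows from `q p_N = p q_N + 1` unless `q_N ≤ 1`; for `q_N = 0` the statement is trivial: `2^0 x = x`; for `q_N = 1` note
`p_N = s`, `q s = p e + 1` with `e = 1`, so `q s = p + 1 ≤ q`, hence `s = 1`, `p = q - 1`, `p_N = 1 = q_N`; all digits are `1`; or use that the
proof of `ang_double` only needs bounded digits: state a private version for all `p ≤ q`).
`angN_lim`: the digits of `angN` are `D_n = ⌊(-m p' + (n+1) p')/q'⌋ - ⌊(-m p' + n p')/q'⌋`, where
`(n-m) p'/q' = (n-m) p/q + (n-m)/(q q')`; for fixed `n` and large `N`: `⌊(n-m)p'/q'⌋ = ⌊(n-m)p/q⌋` if `n ≥ m`, and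
`= ⌊((n-m)p - 1)/q⌋` if `n < m`. So for `m ≥ 1` the limit digits are: `n ≥ m`: the digit `n - m` of `ang p q 0`; `n < m - 1`: the digit `n`
of `ang p q (-1-mp)`; `n = m - 1`: `1`, while the digit `m - 1` of `ang p q (-1-mp)` is `0` (`⌊-1/q⌋ - ⌊(-1-p)/q⌋ = 0`), and its
digits `n ≥ m` are those of `ang p q (-1)`. Hence the limit is `ang p q (-1-mp) + 2^(-m) (1 + ang p q 0 - ang p q (-1))`.
(Tannery: `tendsto_tsum_of_dominated_convergence`.)
-/

set_option autoImplicit false

open Set Filter Topology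

namespace Pool.Agent.CR

theorem ang_double {p q : ℕ} (hpq : p < q) (i : ℤ) :
    ∃ k : ℤ, 2 * ang p q i = ang p q (i + p) + k :=
  ⟨_, two_ang (by omega) hpq.le i⟩

theorem ang_period {p q : ℕ} (hpq : p < q) (i k : ℤ) : ang p q (i + k * q) = ang p q i := by
  have hq : 0 < q := by omega
  induction k using Int.induction_on with
  | zero => rw [zero_mul, add_zero]
  | succ k ih =>
    have e : i + ((k : ℤ) + 1) * q = i + k * q + q := by ring
    rw [e, ang_add_q hq, ih]
  | pred k ih =>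
    have h := ang_add_q (p := p) hq (i + (-(k : ℤ) - 1) * q)
    have e : i + (-(k : ℤ) - 1) * q + q = i + -(k : ℤ) * q := by ring
    rw [e, ih] at h
    exact h.symm

private lemma RD_q {p q s e : ℕ} (hp : 0 < p) (hpq : p < q) (hs : q * s = p * e + 1) (N : ℕ) :
    0 < qN q e N ∧ pN p s N ≤ qN q e N := by
  have he : 0 < e := by
    rcases Nat.eq_zero_or_pos e with h | h
    · rw [h, mul_zero, zero_add] at hs
      have := Nat.eq_one_of_mul_eq_one_right hs
      omega
    · exact h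
  have h1 : 0 < qN q e N := by
    unfold qN
    omega
  refine ⟨h1, ?_⟩
  have hrel : q * pN p s N = p * qN q e N + 1 := by
    unfold pN qN
    have : q * (p * N + s) = p * (q * N) + q * s := by ring
    rw [this, hs]
    ring
  generalize pN p s N = p' at *
  generalize qN q e N = q' at *
  have h2 : q * p' ≤ q * q' := by
    rw [hrel]
    nlinarith
  exact Nat.le_of_mul_le_mul_left h2 (by omega)

private lemma RD_zero (p q s e N : ℕ) : angN p q s e N 0 = ang (pN p s N) (qN q e N) 0 := by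
  unfold angN
  congr 1
  simp

theorem angN_double {p q s e : ℕ} (hp : 0 < p) (hpq : p < q) (hs : q * s = p * e + 1) (N m : ℕ) :
    ∃ k : ℤ, 2 ^ m * angN p q s e N m = angN p q s e N 0 + k := by
  obtain ⟨h1, h2⟩ := RD_q hp hpq hs N
  obtain ⟨k, hk⟩ := two_pow_ang h1 h2 (-((m : ℤ) * (pN p s N : ℤ))) m
  rw [neg_add_cancel] at hk
  refine ⟨k, ?_⟩
  rw [RD_zero]
  exact hk

theorem angN_period {p q s e : ℕ} (hp : 0 < p) (hpq : p < q) (hs : q * s = p * e + 1) (N m : ℕ) :
    ∃ k : ℤ, 2 ^ qN q e N * angN p q s e N m = angN p q s e N m + k := by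
  obtain ⟨h1, h2⟩ := RD_q hp hpq hs N
  obtain ⟨k, hk⟩ := ang_per h1 h2 (-((m : ℤ) * (pN p s N : ℤ)))
  refine ⟨k, ?_⟩
  unfold angN
  linarith

private lemma RD_rel {p q s e : ℕ} (hs : q * s = p * e + 1) : (q : ℤ) * s - p * e = 1 := by
  have : (q : ℤ) * s = p * e + 1 := by exact_mod_cast hs
  omega

theorem angN_lim {p q s e : ℕ} (hp : 0 < p) (hpq : p < q) (hs : q * s = p * e + 1) {m : ℕ}
    (hm : 1 ≤ m) : Tendsto (fun N => angN p q s e N m) atTop (𝓝 (th p q m)) := by
  have h := ang_tendsto hp hpq (RD_rel hs) hm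
  have e1 : th p q m = thm p q m := rfl
  rw [e1]
  refine h.congr fun N => ?_
  unfold angN pN qN
  push_cast
  rfl

theorem angN_lim_zero {p q s e : ℕ} (hp : 0 < p) (hpq : p < q) (hs : q * s = p * e + 1) :
    Tendsto (fun N => angN p q s e N 0 + 1) atTop (𝓝 (th p q 0)) := by
  have h := (ang_tendsto_zero hp hpq (RD_rel hs)).add_const 1
  have e1 : th p q 0 = ang p q 0 + 1 := by
    unfold th gap
    have e2 : (-1 : ℤ) - ((0 : ℕ) : ℤ) * p = -1 := by simp
    rw [e2, pow_zero, div_one]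
    ring
  rw [e1]
  refine h.congr fun N => ?_
  rw [RD_zero]
  rfl

end Pool.Agent.CR
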