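import Pool.Agent.H73.CR.SA0

/-!
# CR SA: backward paths of a horn map

`iter`: induction. `not_def`: `E^⌊t⌋ (σ t) = σ (t - ⌊t⌋)`, `def_add`, `undef`. `notMem_P`: a point of `P` has `Def n` for all `n`
(`all_def`, `def_add`, `def_add_int`). `deriv_ne`: `deriv_ne_zero`; `E (σ (t+1)) = σ t ∉ P`.
`repel`: let `b = max ‖u (σ s)‖` for `s ∈ [0,1]`, `R4 = max (2 R1) (2 b) + 1`. If `‖u (σ t)‖ > R4`, `Re ≥ 0`, then by `absorb` with
`n = ⌊t⌋`: `‖u (σ (t - n))‖ ≥ ‖u (σ t)‖ / 2 > b`, a contradiction.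
`low_dist`: suppose `t_j ≥ 0`, `z_j = E^(n_j) v + k_j q`, `‖σ t_j - z_j‖ → 0`, `‖u (σ t_j)‖ ≤ R3`. Then `‖u z_j‖ ≤ 2 R3` for large `j` (`norm_u`), so by
`orbit` the `n_j` are bounded; pass to a subsequence with `n_j = n`; `w_j = σ t_j - k_j q → z = E^n v`. By `orbit` choose `l` with
`Re (u (E^(n+l) v)) > R4 + 1` (`R4` from `repel`). `Def (l+2) z` and the set of such points is open (`isOpen_def`), `E^l` is continuous there: for large `j`:
`Def (l+2) w_j`, `Re (u (E^l w_j)) > R4`. By `def_add_int`, `iter_add_int` the same for `σ t_j`. If `⌊t_j⌋ ≤ l`, this contradicts `not_def`. If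
`⌊t_j⌋ > l` then `E^l (σ t_j) = σ (t_j - l)`, which contradicts `repel`.
-/

set_option autoImplicit false

open Set Filter Topology Metric

namespace Pool.Agent.CR.Horn

/-- A backward path: `E (σ (t+1)) = σ t`; `E^2` is not defined on `σ [0,1]`. -/
structure BPath (H : Horn) (σ : ℝ → ℂ) : Prop where
  cont : ContinuousOn σ (Ici 0)
  mem : ∀ t : ℝ, 0 ≤ t → σ (t + 1) ∈ H.D
  map : ∀ t : ℝ, 0 ≤ t → H.E (σ (t + 1)) = σ t
  undef : ∀ t ∈ Icc (0 : ℝ) 1, ¬ H.Def 2 (σ t)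

variable {H : Horn}

variable {σ : ℝ → ℂ}

theorem BPath.iter (hσ : H.BPath σ) {t : ℝ} (ht : 0 ≤ t) (n : ℕ) :
    H.Def n (σ (t + n)) ∧ H.E^[n] (σ (t + n)) = σ t := by
  induction n with
  | zero =>
    rw [Nat.cast_zero, add_zero]
    exact ⟨fun k hk => absurd hk (Nat.not_lt_zero k), rfl⟩
  | succ n ih =>
    have e : t + ((n + 1 : ℕ) : ℝ) = t + n + 1 := by push_cast; ring
    have ht' : 0 ≤ t + n := by positivity
    rw [e]
    refine ⟨(H.def_succ n _).2 ⟨hσ.mem _ ht', ?_⟩, ?_⟩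
    · rw [hσ.map _ ht']
      exact ih.1
    · rw [Function.iterate_succ_apply, hσ.map _ ht']
      exact ih.2

private lemma SA_floor (hσ : H.BPath σ) {t : ℝ} {n : ℕ} (hn : (n : ℝ) ≤ t) :
    H.Def n (σ t) ∧ H.E^[n] (σ t) = σ (t - n) := by
  have h := hσ.iter (t := t - n) (by linarith) n
  rwa [sub_add_cancel] at h

theorem BPath.not_def (hσ : H.BPath σ) {t : ℝ} (ht : 0 ≤ t) : ¬ H.Def (⌊t⌋₊ + 2) (σ t) := by
  intro h
  have h1 := Nat.floor_le ht
  have h2 := Nat.lt_floor_add_one t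
  obtain ⟨h3, h4⟩ := SA_floor hσ h1
  have h5 := ((H.def_add _ 2 _).1 h).2
  rw [h4] at h5
  exact hσ.undef (t - ⌊t⌋₊) ⟨by linarith, by linarith⟩ h5

private lemma SA_mono {m n : ℕ} (hmn : m ≤ n) {w : ℂ} (h : H.Def n w) : H.Def m w :=
  fun k hk => h k (lt_of_lt_of_le hk hmn)

theorem BPath.notMem_P (hσ : H.BPath σ) {a : ℂ} {R1 : ℝ} (hT : H.Top a R1) {t : ℝ} (ht : 0 ≤ t) :
    σ t ∉ H.P := by
  rintro ⟨n, k, hn, he⟩
  apply hσ.not_def ht
  rw [he, H.def_add_int]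
  exact ((H.def_add n _ H.v).1 (hT.all_def _)).2

theorem BPath.deriv_ne (hσ : H.BPath σ) {a : ℂ} {R1 : ℝ} (hT : H.Top a R1) {t : ℝ} (ht : 0 ≤ t) :
    deriv H.E (σ (t + 1)) ≠ 0 := by
  refine H.deriv_ne_zero (hσ.mem t ht) fun k h => ?_
  rw [hσ.map t ht] at h
  exact hσ.notMem_P hT ht ⟨0, k, fun j hj => absurd hj (Nat.not_lt_zero j), h⟩

theorem BPath.repel (hσ : H.BPath σ) {a : ℂ} {R1 : ℝ} (hT : H.Top a R1) :
    ∃ R4 : ℝ, ∀ t : ℝ, 0 ≤ t → R4 < ‖H.u a (σ t)‖ → (H.u a (σ t)).re < 0 := by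
  have hc : ContinuousOn (fun s => H.u a (σ s)) (Icc 0 1) :=
    (continuous_u a).comp_continuousOn (hσ.cont.mono fun s hs => hs.1)
  obtain ⟨b, hb⟩ := isCompact_Icc.exists_bound_of_continuousOn hc
  refine ⟨max (2 * R1) (2 * b), fun t ht h => ?_⟩
  by_contra hre
  rw [not_lt] at hre
  have h1 := Nat.floor_le ht
  have h2 := Nat.lt_floor_add_one t
  have h3 := (hT.absorb (lt_of_le_of_lt (le_max_left _ _) h) hre ⌊t⌋₊).2
  rw [(SA_floor hσ h1).2] at h3
  have h4 := hb (t - ⌊t⌋₊) ⟨by linarith, by linarith⟩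
  have h5 := lt_of_le_of_lt (le_max_right _ _) h
  linarith

/-- positive distance to one orbit point and its translates -/
private lemma SA_dist (hσ : H.BPath σ) {a : ℂ} {R1 : ℝ} (hT : H.Top a R1) (n : ℕ) :
    ∃ ε : ℝ, 0 < ε ∧ ∀ t : ℝ, 0 ≤ t → ∀ k : ℤ, ε ≤ ‖σ t - (H.E^[n] H.v + k * H.q)‖ := by
  obtain ⟨R4, hR4⟩ := hσ.repel hT
  obtain ⟨l, hl⟩ := hT.orbit (max R4 0)
  set z : ℂ := H.E^[n] H.v with hz
  have hzdef : ∀ m, H.Def m z := fun m => ((H.def_add n m H.v).1 (hT.all_def _)).2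
  have hzre : max R4 0 < (H.u a (H.E^[l] z)).re := by
    have h := hl (l + n) (by omega)
    rw [Function.iterate_add_apply] at h
    exact h
  have hcont : ContinuousAt (H.E^[l]) z :=
    ((H.diff_iter l).differentiableAt ((H.isOpen_def l).mem_nhds (hzdef l))).continuousAt
  have hev : ∀ᶠ w in 𝓝 z, H.Def (l + 2) w ∧ max R4 0 < (H.u a (H.E^[l] w)).re := by
    have h0 : ∀ᶠ w in 𝓝 z, H.Def (l + 2) w := (H.isOpen_def (l + 2)).mem_nhds (hzdef (l + 2))
    refine h0.and ?_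
    have h1 : ContinuousAt (fun w => (H.u a (H.E^[l] w)).re) z :=
      (Complex.continuous_re.comp (continuous_u a)).continuousAt.comp hcont
    exact h1.eventually (lt_mem_nhds hzre)
  obtain ⟨ε, hε, hball⟩ := Metric.eventually_nhds_iff_ball.1 hev
  refine ⟨ε, hε, fun t ht k => ?_⟩
  by_contra hcon
  rw [not_le] at hcon
  have hw : σ t - k * H.q ∈ ball z ε := by
    rw [mem_ball_iff_norm]
    have e : σ t - k * H.q - z = σ t - (z + k * H.q) := by ring
    rw [e]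
    exact hcon
  obtain ⟨h1, h2⟩ := hball _ hw
  have e1 : σ t = σ t - k * H.q + k * H.q := by ring
  have h3 : H.Def (l + 2) (σ t) := by
    rw [e1, H.def_add_int]
    exact h1
  have h4 : H.E^[l] (σ t) = H.E^[l] (σ t - k * H.q) + k * H.q := by
    have := H.iter_add_int (SA_mono (by omega : l ≤ l + 2) h1) k
    rwa [← e1] at this
  rcases le_or_gt ⌊t⌋₊ l with h5 | h5
  · exact hσ.not_def ht (SA_mono (by omega) h3)
  · have h6 : (l : ℝ) ≤ t := (Nat.cast_le.2 h5.le).trans (Nat.floor_le ht)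
    have h7 := (SA_floor hσ h6).2
    rw [h4] at h7
    have h8 : H.u a (σ (t - l)) = H.u a (H.E^[l] (σ t - k * H.q)) := by
      rw [← h7, u_add_int]
    have h9 : R4 < ‖H.u a (σ (t - l))‖ := by
      rw [h8]
      exact (le_max_left _ _).trans_lt (h2.trans_le (Complex.re_le_norm _))
    have h10 := hR4 (t - l) (by linarith) h9
    rw [h8] at h10
    have h11 := (le_max_right R4 0).trans_lt h2
    linarith

theorem BPath.low_dist (hσ : H.BPath σ) {a : ℂ} {R1 : ℝ} (hT : H.Top a R1) (R3 : ℝ) :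
    ∃ ε : ℝ, 0 < ε ∧ ∀ t : ℝ, 0 ≤ t → ‖H.u a (σ t)‖ ≤ R3 → ∀ z ∈ H.P, ε ≤ ‖σ t - z‖ := by
  obtain ⟨n0, hn0⟩ := hT.orbit (R3 * Real.exp (2 * Real.pi / H.q))
  choose ε hε0 hε using fun n => SA_dist hσ hT n
  -- a common lower bound for n < n0
  obtain ⟨δ, hδ0, hδ⟩ : ∃ δ : ℝ, 0 < δ ∧ ∀ n < n0, δ ≤ ε n := by
    clear hn0
    induction n0 with
    | zero => exact ⟨1, one_pos, fun n hn => absurd hn (Nat.not_lt_zero n)⟩
    | succ m ih =>
      obtain ⟨δ, h1, h2⟩ := ih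
      refine ⟨min δ (ε m), lt_min h1 (hε0 m), fun n hn => ?_⟩
      rcases Nat.lt_succ_iff_lt_or_eq.1 hn with h3 | h3
      · exact (min_le_left _ _).trans (h2 n h3)
      · rw [h3]
        exact min_le_right _ _
  refine ⟨min δ 1, lt_min hδ0 one_pos, fun t ht hu z hz => ?_⟩
  obtain ⟨n, k, hn, rfl⟩ := hz
  rcases lt_or_ge n n0 with h | h
  · exact (min_le_left _ _).trans ((hδ n h).trans (hε n t ht k))
  · by_contra hcon
    rw [not_le] at hcon
    have h1 : ‖σ t - (H.E^[n] H.v + k * H.q)‖ < 1 := hcon.trans_le (min_le_right _ _)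
    have h2 := hn0 n h
    have h3 : ‖H.u a (H.E^[n] H.v)‖ ≤ R3 * Real.exp (2 * Real.pi / H.q) := by
      rw [← u_add_int a _ k]
      set z := H.E^[n] H.v + k * H.q with hz
      have h4 : z.im ≤ (σ t).im + 1 := by
        have h5 := (Complex.abs_im_le_norm (σ t - z)).trans h1.le
        rw [Complex.sub_im, abs_le] at h5
        linarith [h5.1]
      rw [norm_u] at hu ⊢
      have hq := H.q_pos
      have h6 : Real.exp (2 * Real.pi * z.im / H.q) ≤
          Real.exp (2 * Real.pi * (σ t).im / H.q) * Real.exp (2 * Real.pi / H.q) := by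
        rw [← Real.exp_add, Real.exp_le_exp, ← add_div]
        refine div_le_div_of_nonneg_right ?_ hq.le
        have hpi := Real.pi_pos
        nlinarith
      have h7 : 0 ≤ H.q / (2 * Real.pi * ‖a‖) := by positivity
      calc H.q / (2 * Real.pi * ‖a‖) * Real.exp (2 * Real.pi * z.im / H.q)
          ≤ H.q / (2 * Real.pi * ‖a‖) *
            (Real.exp (2 * Real.pi * (σ t).im / H.q) * Real.exp (2 * Real.pi / H.q)) :=
            mul_le_mul_of_nonneg_left h6 h7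
        _ = (H.q / (2 * Real.pi * ‖a‖) * Real.exp (2 * Real.pi * (σ t).im / H.q)) *
            Real.exp (2 * Real.pi / H.q) := by ring
        _ ≤ R3 * Real.exp (2 * Real.pi / H.q) :=
            mul_le_mul_of_nonneg_right hu (Real.exp_pos _).le
    have h8 := Complex.re_le_norm (H.u a (H.E^[n] H.v))
    linarith

end Pool.Agent.CR.Horn
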