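import Pool.Agent.H73.CR.HF

/-!
# CR SA0: the top end of a horn map

`norm_u`: immediate. `exists_top`: from `singular_orbit` (`Exp 1 a C M'`): with `δ = E w - w`: `u (E w) = u w * exp (- 2 π i δ / q)`,
`- 2 π i / q * a * exp (2 π i w / q) * u w = 1`, so `u (E w) = u w + 1 + O(1/‖u w‖)` (compare the proof of `petal_coord`), for `‖u w‖ > R1`;
`‖u w‖ > R1` with `R1` large implies `Im w > M'` (`norm_u`).
`absorb`: `u_n = u (E^n w)`; by induction `‖u_n - u_0 - n‖ ≤ n / 4`; as `Re u_0 ≥ 0`: `‖u_0 + n‖ ≥ sqrt (‖u_0‖^2 + n^2)`,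
`‖u_n‖ ≥ sqrt (‖u_0‖^2 + n^2) - n/4 ≥ ‖u_0‖/2 > R1`, so `near` applies again.
-/

set_option autoImplicit false

open Set Filter Topology Metric

namespace Pool.Agent.CR.Horn

/-- The properties of the top end which are used for paths. -/
structure Top (H : Horn) (a : ℂ) (R1 : ℝ) : Prop where
  a_ne : a ≠ 0
  coeff : H.IsCoeff a
  R1_pos : 0 < R1
  near : ∀ w : ℂ, R1 < ‖H.u a w‖ → w ∈ H.D ∧ ‖H.u a (H.E w) - H.u a w - 1‖ ≤ 1 / 4
  all_def : ∀ n, H.Def n H.v
  orbit : ∀ R : ℝ, ∃ n0 : ℕ, ∀ n ≥ n0, R < (H.u a (H.E^[n] H.v)).re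

variable {H : Horn}

theorem norm_u (a w : ℂ) :
    ‖H.u a w‖ = H.q / (2 * Real.pi * ‖a‖) * Real.exp (2 * Real.pi * w.im / H.q) := by
  have hq := H.q_pos
  have hpi := Real.pi_pos
  unfold Horn.u
  rw [norm_mul, norm_div, norm_mul, norm_mul, norm_mul, Complex.norm_I, one_mul,
    Complex.norm_exp, Complex.norm_ofNat, Complex.norm_real, Complex.norm_real,
    Real.norm_of_nonneg hq.le, Real.norm_of_nonneg hpi.le]
  congr 2
  have e : -(2 * Real.pi * Complex.I * w / H.q) =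
      ((-(2 * Real.pi) / H.q : ℝ) : ℂ) * (Complex.I * w) := by
    push_cast; ring
  rw [e, Complex.re_ofReal_mul]
  simp only [Complex.mul_re, Complex.I_re, Complex.I_im, zero_mul, one_mul, zero_sub]
  ring

theorem u_add_int (a w : ℂ) (k : ℤ) : H.u a (w + k * H.q) = H.u a w := by
  have hq : (H.q : ℂ) ≠ 0 := by
    have := H.q_pos.ne'
    exact_mod_cast this
  unfold Horn.u
  congr 1
  have e : -(2 * Real.pi * Complex.I * (w + k * H.q) / H.q) =
      -(2 * Real.pi * Complex.I * w / H.q) + ((-k : ℤ) : ℂ) * (2 * Real.pi * Complex.I) := by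
    push_cast
    field_simp
    ring
  rw [e, Complex.exp_add, Complex.exp_int_mul_two_pi_mul_I, mul_one]

theorem continuous_u (a : ℂ) : Continuous (H.u a) := by
  unfold Horn.u
  fun_prop

/-- the main computation for `near` -/
private theorem SA0_near {a w : ℂ} {C M' : ℝ} (hE : H.Exp 1 a C M') (hw : M' < w.im)
    (ht : 16 + 4 * (C * H.q / (2 * Real.pi * ‖a‖ ^ 2)) ≤ ‖H.u a w‖) :
    ‖H.u a (H.E w) - H.u a w - 1‖ ≤ 1 / 4 := by
  obtain ⟨_, ha, hC, hM, hexp⟩ := hE
  have hq := H.q_pos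
  have hpi := Real.pi_pos
  have hapos : 0 < ‖a‖ := norm_pos_iff.mpr ha
  have hqC : (H.q : ℂ) ≠ 0 := by exact_mod_cast hq.ne'
  have hpiC : (Real.pi : ℂ) ≠ 0 := by exact_mod_cast hpi.ne'
  have h1 := hexp w hw
  simp only [Nat.cast_one, mul_one] at h1
  set δ : ℂ := H.E w - w with hδ
  set c1 : ℝ := C * H.q / (2 * Real.pi * ‖a‖ ^ 2) with hc1
  have hc1pos : 0 < c1 := by positivity
  set t : ℝ := ‖H.u a w‖ with ht'
  have htpos : 0 < t := by linarith
  -- the size of the exponential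
  have hε : C * Real.exp (-(2 * Real.pi * w.im / H.q)) / ‖a‖ = c1 / t := by
    rw [ht', norm_u, Real.exp_neg, hc1]
    have h2 := Real.exp_pos (2 * Real.pi * w.im / H.q)
    field_simp
  set s : ℂ := -(2 * Real.pi * Complex.I * δ / H.q) with hs
  have e1 : H.u a (H.E w) = H.u a w * Complex.exp s := by
    unfold Horn.u
    have e0 : Complex.exp (-(2 * Real.pi * Complex.I * H.E w / H.q)) =
        Complex.exp (-(2 * Real.pi * Complex.I * w / H.q)) * Complex.exp s := by
      rw [← Complex.exp_add]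
      congr 1
      rw [hs, hδ]
      ring
    rw [e0]
    ring
  have e2 : H.u a w * s - 1 =
      (δ * Complex.exp (-(2 * Real.pi * Complex.I * w / H.q)) - a) / a := by
    unfold Horn.u
    rw [hs]
    generalize Complex.exp (-(2 * Real.pi * Complex.I * w / H.q)) = X
    have e0 : Complex.I * H.q / (2 * Real.pi * a) * X * (-(2 * Real.pi * Complex.I * δ / H.q)) =
        -(Complex.I * Complex.I) * (δ * X) / a := by
      field_simp
    rw [e0, Complex.I_mul_I]
    field_simp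
  have h2 : ‖H.u a w * s - 1‖ ≤ c1 / t := by
    rw [e2, norm_div, ← hε]
    gcongr
  have ht16 : 16 ≤ t := by linarith
  have hct : c1 / t ≤ 1 := by
    rw [div_le_one htpos]
    linarith
  have h3 : t * ‖s‖ ≤ 1 + c1 / t := by
    rw [ht', ← norm_mul]
    have := norm_add_le (H.u a w * s - 1) 1
    rw [sub_add_cancel, norm_one] at this
    linarith
  have hs1 : ‖s‖ ≤ 2 / t := by
    rw [le_div_iff₀ htpos]
    linarith
  have hs1' : ‖s‖ ≤ 1 := by
    refine hs1.trans ?_
    rw [div_le_one htpos]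
    linarith
  have h4 := Complex.norm_exp_sub_one_sub_id_le hs1'
  have e3 : H.u a (H.E w) - H.u a w - 1 =
      H.u a w * (Complex.exp s - 1 - s) + (H.u a w * s - 1) := by
    rw [e1]; ring
  rw [e3]
  calc ‖H.u a w * (Complex.exp s - 1 - s) + (H.u a w * s - 1)‖
      ≤ t * ‖s‖ ^ 2 + c1 / t := by
        refine (norm_add_le _ _).trans ?_
        rw [norm_mul]
        gcongr
    _ ≤ t * (2 / t) ^ 2 + c1 / t := by gcongr
    _ = (4 + c1) / t := by field_simp; ring
    _ ≤ 1 / 4 := by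
        rw [div_le_div_iff₀ htpos (by norm_num)]
        linarith

theorem exists_top (H : Horn) : ∃ (a : ℂ) (R1 : ℝ), H.Top a R1 := by
  obtain ⟨a, C, M', hE, hdef, horb⟩ := H.singular_orbit
  have hE' := hE
  obtain ⟨_, ha, hC, hM, _⟩ := hE'
  have hq := H.q_pos
  have hpi := Real.pi_pos
  have hapos : 0 < ‖a‖ := norm_pos_iff.mpr ha
  refine ⟨a, 16 + 4 * (C * H.q / (2 * Real.pi * ‖a‖ ^ 2)) +
    H.q / (2 * Real.pi * ‖a‖) * Real.exp (2 * Real.pi * M' / H.q), ?_⟩
  have h0 : 0 < H.q / (2 * Real.pi * ‖a‖) * Real.exp (2 * Real.pi * M' / H.q) := by positivity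
  have h1 : 0 < C * H.q / (2 * Real.pi * ‖a‖ ^ 2) := by positivity
  refine ⟨ha, hE.isCoeff, by positivity, fun w hw => ?_, hdef, fun R => ?_⟩
  · have hwM : M' < w.im := by
      have h2 : H.q / (2 * Real.pi * ‖a‖) * Real.exp (2 * Real.pi * M' / H.q) <
          H.q / (2 * Real.pi * ‖a‖) * Real.exp (2 * Real.pi * w.im / H.q) := by
        rw [← norm_u]
        linarith
      have h3 := lt_of_mul_lt_mul_left h2 (by positivity)
      rw [Real.exp_lt_exp, div_lt_div_iff_of_pos_right hq] at h3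
      exact lt_of_mul_lt_mul_left h3 (by positivity)
    exact ⟨H.top w (lt_of_le_of_lt hM hwM), SA0_near hE hwM (by linarith)⟩
  · obtain ⟨n0, hn0⟩ := horb R
    exact ⟨n0, fun n hn => (hn0 n hn).1⟩

theorem Top.absorb {a : ℂ} {R1 : ℝ} (hT : H.Top a R1) {w : ℂ} (hw : 2 * R1 < ‖H.u a w‖)
    (hre : 0 ≤ (H.u a w).re) (n : ℕ) : H.Def n w ∧ ‖H.u a w‖ / 2 ≤ ‖H.u a (H.E^[n] w)‖ := by
  set A : ℝ := ‖H.u a w‖ with hA
  have hA0 : 0 ≤ A := norm_nonneg _
  -- the lower bound
  have hlow : ∀ m : ℕ, ‖H.u a (H.E^[m] w) - H.u a w - m‖ ≤ m / 4 →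
      A / 2 ≤ ‖H.u a (H.E^[m] w)‖ := by
    intro m hm
    have h1 : ‖H.u a w + m‖ ≤ ‖H.u a (H.E^[m] w)‖ + m / 4 := by
      have h2 := norm_sub_le (H.u a (H.E^[m] w)) (H.u a (H.E^[m] w) - H.u a w - m)
      have e : H.u a (H.E^[m] w) - (H.u a (H.E^[m] w) - H.u a w - m) = H.u a w + m := by ring
      rw [e] at h2
      linarith
    have h3 : A ^ 2 + (m : ℝ) ^ 2 ≤ ‖H.u a w + m‖ ^ 2 := by
      rw [hA, ← Complex.normSq_eq_norm_sq, ← Complex.normSq_eq_norm_sq, Complex.normSq_apply,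
        Complex.normSq_apply]
      simp only [Complex.add_re, Complex.natCast_re, Complex.add_im, Complex.natCast_im, add_zero]
      have h4 : 0 ≤ (m : ℝ) * (H.u a w).re := by positivity
      nlinarith
    have h5 : A / 2 + m / 4 ≤ ‖H.u a w + m‖ := by
      refine le_of_sq_le_sq ?_ (norm_nonneg _)
      have h6 : (0 : ℝ) ≤ m := Nat.cast_nonneg m
      nlinarith [sq_nonneg (A - m)]
    linarith
  have key : ∀ m : ℕ, H.Def m w ∧ ‖H.u a (H.E^[m] w) - H.u a w - m‖ ≤ m / 4 := by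
    intro m
    induction m with
    | zero =>
      refine ⟨fun k hk => by omega, ?_⟩
      simp
    | succ m ih =>
      obtain ⟨h1, h2⟩ := ih
      have h3 := hlow m h2
      obtain ⟨h4, h5⟩ := hT.near (H.E^[m] w) (by linarith)
      refine ⟨?_, ?_⟩
      · intro k hk
        rcases Nat.lt_succ_iff_lt_or_eq.mp hk with h | h
        · exact h1 k h
        · rw [h]; exact h4
      · rw [Function.iterate_succ_apply']
        have e : H.u a (H.E (H.E^[m] w)) - H.u a w - ((m + 1 : ℕ) : ℂ) =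
            (H.u a (H.E (H.E^[m] w)) - H.u a (H.E^[m] w) - 1) +
              (H.u a (H.E^[m] w) - H.u a w - m) := by
          push_cast; ring
        rw [e]
        refine (norm_add_le _ _).trans ?_
        push_cast
        linarith
  exact ⟨(key n).1, hlow n (key n).2⟩

end Pool.Agent.CR.Horn
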