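import Pool.Agent.H73.CR.SA

/-!
# CR SB: inverse branches along a backward path, oscillation over unit segments

`branch`: `lift_iter` with `Ω = ball (σ t) ε`, `β = id`, `η0 = σ (t + n)` (`iter`). Last property: `A s = G (σ s)`, `B s = σ (s + n)` on the interval
`uIcc t t'` (`t' ≥ 0`): `E^n A = σ = E^n B`, `deriv E ≠ 0` at `E^k (σ (s + n)) = σ (s + n - k)` for `k < n` (`deriv_ne`); `lift_unique_iter`.
`branch_inj`: `E^n (G x) = x`; `G x1 = G x2 + q` would give `x1 = x2 + q` (`iter_add_int`), but `‖x1 - x2‖ < 2 ε ≤ q`.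
`osc`: `σ [0,1]` is compact, so `‖u‖ ≤ R3` on it and `low_dist` gives `ε > 0`, and we may take `2 ε ≤ q`. Choose `N ≥ 1` with `‖σ s - σ s'‖ < ε/2` for
`s, s' ∈ [0,1]`, `|s - s'| ≤ 1/N`. For `n ∈ ℕ`, `s ∈ [i/N, (i+1)/N]`: with the branch `G` at `t = i/N`: `σ (s + n) - σ (i/N + n) = G (σ s) - G (σ (i/N))` has norm
`≤ C ‖G'‖ ε ≤ C^2 q` by `koebe_translate`. So `‖σ t - σ t'‖ ≤ N C^2 q` for `t, t' ∈ [n, n+1]` up to a factor 2, and `L = 4 N C^2 q` works for `|t - t'| ≤ 1`.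
-/

set_option autoImplicit false

open Set Filter Topology Metric

namespace Pool.Agent.CR.Horn

variable {H : Horn} {σ : ℝ → ℂ} {a : ℂ} {R1 : ℝ}

theorem BPath.branch (hσ : H.BPath σ) (hT : H.Top a R1) {t ε : ℝ} (ht : 0 ≤ t) (hε0 : 0 < ε)
    (hε : ∀ z ∈ H.P, ε ≤ ‖σ t - z‖) (n : ℕ) :
    ∃ G : ℂ → ℂ, DifferentiableOn ℂ G (ball (σ t) ε) ∧
      (∀ x ∈ ball (σ t) ε, H.Def n (G x) ∧ H.E^[n] (G x) = x) ∧ G (σ t) = σ (t + n) ∧
      ∀ t' : ℝ, 0 ≤ t' → (∀ s ∈ uIcc t t', σ s ∈ ball (σ t) ε) → G (σ t') = σ (t' + n) := by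
  obtain ⟨h1, h2⟩ := hσ.iter ht n
  obtain ⟨G, hG1, hG2, hG3⟩ := H.lift_iter isOpen_ball (convex_ball (σ t) ε) (β := fun x => x)
    differentiableOn_id (fun x hx hxP => by
      rw [mem_ball_iff_norm, norm_sub_rev] at hx
      exact absurd (hε x hxP) (not_le.2 hx)) n (mem_ball_self hε0) h1 h2
  refine ⟨G, hG1, hG2, hG3, fun t' ht' hs => ?_⟩
  have hsub : ∀ s ∈ uIcc t t', 0 ≤ s := by
    intro s hs
    have := hs.1
    exact (le_min ht ht').trans this
  refine H.lift_unique_iter (n := n) (Ω := uIcc t t') isPreconnected_uIcc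
    (A := fun s => G (σ s)) (B := fun s => σ (s + n)) ?_ ?_ (fun s hs' => (hG2 _ (hs s hs')).1)
    (fun s hs' => (hσ.iter (hsub s hs') n).1) (fun s hs' => ?_) (fun s hs' k hk => ?_)
    left_mem_uIcc hG3 t' right_mem_uIcc
  · exact hG1.continuousOn.comp (hσ.cont.mono fun s hs' => hsub s hs') fun s hs' => hs s hs'
  · refine hσ.cont.comp (by fun_prop) fun s hs' => ?_
    have := hsub s hs'
    show 0 ≤ s + n
    positivity
  · show H.E^[n] (G (σ s)) = H.E^[n] (σ (s + n))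
    rw [(hG2 _ (hs s hs')).2, (hσ.iter (hsub s hs') n).2]
  · have h0 := hsub s hs'
    obtain ⟨j, rfl⟩ : ∃ j, n = j + 1 + k := ⟨n - 1 - k, by omega⟩
    have e : s + ((j + 1 + k : ℕ) : ℝ) = (s + j + 1) + k := by push_cast; ring
    show deriv H.E (H.E^[k] (σ (s + ((j + 1 + k : ℕ) : ℝ)))) ≠ 0
    rw [e, (hσ.iter (by positivity) k).2]
    exact hσ.deriv_ne hT (by positivity)

theorem branch_inj {G : ℂ → ℂ} {x0 : ℂ} {ε : ℝ} {n : ℕ} (hε : 2 * ε ≤ H.q)
    (hG : ∀ x ∈ ball x0 ε, H.Def n (G x) ∧ H.E^[n] (G x) = x) :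
    InjOn G (ball x0 ε) ∧ ∀ x1 ∈ ball x0 ε, ∀ x2 ∈ ball x0 ε, G x1 ≠ G x2 + H.q := by
  constructor
  · intro x hx y hy h
    rw [← (hG x hx).2, ← (hG y hy).2, h]
  · intro x hx y hy h
    have h1 := H.iter_add_int (hG y hy).1 1
    rw [Int.cast_one, one_mul, ← h, (hG x hx).2, (hG y hy).2] at h1
    have h2 : ‖x - y‖ < 2 * ε := by
      have h3 := dist_triangle_right x y x0
      rw [mem_ball] at hx hy
      rw [← dist_eq_norm]
      linarith
    rw [h1, add_sub_cancel_left, Complex.norm_real, Real.norm_eq_abs, abs_of_pos H.q_pos] at h2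
    linarith

/-- chaining -/
private lemma SB_chain {g : ℝ → ℂ} {δ C0 : ℝ} {N : ℕ} (hN : 1 < N * δ)
    (h : ∀ s ∈ Icc (0 : ℝ) 1, ∀ s' ∈ Icc (0 : ℝ) 1, |s - s'| < δ → ‖g s - g s'‖ ≤ C0) :
    ∀ s ∈ Icc (0 : ℝ) 1, ∀ s' ∈ Icc (0 : ℝ) 1, ‖g s - g s'‖ ≤ N * C0 := by
  intro s hs s' hs'
  have hN0 : (0 : ℝ) < N := by
    by_contra hcon
    have h0 : (N : ℝ) = 0 := le_antisymm (not_lt.1 hcon) (Nat.cast_nonneg _)
    rw [h0, zero_mul] at hN
    linarith
  have hss : |s' - s| ≤ 1 := by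
    rw [abs_le]
    constructor <;> linarith [hs.1, hs.2, hs'.1, hs'.2]
  have hmem : ∀ i : ℕ, i ≤ N → s + i * ((s' - s) / N) ∈ Icc (0 : ℝ) 1 := by
    intro i hi
    have hi' : (i : ℝ) ≤ N := by exact_mod_cast hi
    have h1 : (0 : ℝ) ≤ i / N := by positivity
    have h2 : (i : ℝ) / N ≤ 1 := (div_le_one hN0).2 hi'
    have e : s + i * ((s' - s) / N) = (1 - i / N) * s + i / N * s' := by
      field_simp
      ring
    rw [e]
    constructor
    · have := hs.1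
      have := hs'.1
      have h3 : 0 ≤ 1 - (i : ℝ) / N := by linarith
      positivity
    · have := hs.2
      have := hs'.2
      nlinarith
  have hind : ∀ i : ℕ, i ≤ N → ‖g s - g (s + i * ((s' - s) / N))‖ ≤ i * C0 := by
    intro i
    induction i with
    | zero => intro _; simp
    | succ i ih =>
      intro hi
      have h1 := ih (by omega)
      have h2 := h _ (hmem i (by omega)) _ (hmem (i + 1) hi) (by
        have e : s + i * ((s' - s) / N) - (s + ((i + 1 : ℕ) : ℝ) * ((s' - s) / N)) =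
            -((s' - s) / N) := by push_cast; ring
        rw [e, abs_neg, abs_div, abs_of_pos hN0, div_lt_iff₀ hN0]
        linarith)
      have h3 := norm_sub_le_norm_sub_add_norm_sub (g s) (g (s + i * ((s' - s) / N)))
        (g (s + ((i + 1 : ℕ) : ℝ) * ((s' - s) / N)))
      push_cast at h2 h3 ⊢
      linarith
  have h1 := hind N le_rfl
  have e : s + N * ((s' - s) / N) = s' := by
    field_simp
    ring
  rwa [e] at h1

theorem BPath.osc (hσ : H.BPath σ) (hT : H.Top a R1) :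
    ∃ L : ℝ, ∀ t t' : ℝ, 0 ≤ t → 0 ≤ t' → |t - t'| ≤ 1 → ‖σ t - σ t'‖ ≤ L := by
  have hcu : ContinuousOn (fun s => H.u a (σ s)) (Icc 0 1) :=
    (continuous_u a).comp_continuousOn (hσ.cont.mono fun s hs => hs.1)
  obtain ⟨R3, hR3⟩ := isCompact_Icc.exists_bound_of_continuousOn hcu
  obtain ⟨ε0, hε0, hdist⟩ := hσ.low_dist hT R3
  have hq := H.q_pos
  set ε : ℝ := min ε0 (H.q / 2) with hεdef
  have hε : 0 < ε := lt_min hε0 (half_pos hq)
  have hεq : 2 * ε ≤ H.q := by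
    have := min_le_right ε0 (H.q / 2)
    linarith
  have huc : UniformContinuousOn σ (Icc 0 1) :=
    isCompact_Icc.uniformContinuousOn_of_continuous (hσ.cont.mono fun s hs => hs.1)
  obtain ⟨δ, hδ, hδ2⟩ := Metric.uniformContinuousOn_iff.1 huc (ε / 2) (half_pos hε)
  obtain ⟨C, hC, hkt⟩ := koebe_translate
  obtain ⟨N, hN⟩ := exists_nat_gt (1 / δ)
  rw [div_lt_iff₀ hδ] at hN
  have hloc : ∀ n : ℕ, ∀ s ∈ Icc (0 : ℝ) 1, ∀ s' ∈ Icc (0 : ℝ) 1, |s - s'| < δ →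
      ‖σ (s + n) - σ (s' + n)‖ ≤ C * (C * H.q) / 2 := by
    intro n s hs s' hs' hss
    obtain ⟨G, hG1, hG2, hG3, hG4⟩ := hσ.branch hT hs.1 hε
      (fun z hz => (min_le_left _ _).trans (hdist s hs.1 (hR3 s hs) z hz)) n
    have hnear : ∀ x ∈ uIcc s s', ‖σ x - σ s‖ < ε / 2 := by
      intro x hx
      have hx1 : x ∈ Icc (0 : ℝ) 1 :=
        ⟨(le_min hs.1 hs'.1).trans hx.1, hx.2.trans (max_le hs.2 hs'.2)⟩
      have hx2 : |x - s| ≤ |s' - s| := abs_sub_left_of_mem_uIcc hx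
      have h1 := hδ2 x hx1 s hs (by
        rw [Real.dist_eq]
        rw [abs_sub_comm] at hss
        linarith)
      rwa [dist_eq_norm] at h1
    have hG5 := hG4 s' hs'.1 (fun x hx => by
      rw [mem_ball_iff_norm]
      linarith [hnear x hx])
    obtain ⟨hi1, hi2⟩ := branch_inj hεq hG2
    obtain ⟨k1, k2⟩ := hkt H G (σ s) ε hε hG1 hi1 hi2
    have k3 := k2 (σ s) (mem_ball_self (half_pos hε)) (σ s') (by
      rw [mem_ball_iff_norm]
      exact hnear s' right_mem_uIcc)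
    rw [hG3, hG5] at k3
    refine k3.trans ?_
    have k4 : ‖σ s - σ s'‖ ≤ ε / 2 := by
      rw [norm_sub_rev]
      exact (hnear s' right_mem_uIcc).le
    have k5 : 0 ≤ ‖deriv G (σ s)‖ := norm_nonneg _
    calc C * ‖deriv G (σ s)‖ * ‖σ s - σ s'‖ ≤ C * ‖deriv G (σ s)‖ * (ε / 2) :=
          mul_le_mul_of_nonneg_left k4 (by positivity)
      _ = C * (ε * ‖deriv G (σ s)‖) / 2 := by ring
      _ ≤ C * (C * H.q) / 2 := by
          refine div_le_div_of_nonneg_right (mul_le_mul_of_nonneg_left k1 hC.le) (by norm_num)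
  have hunit : ∀ n : ℕ, ∀ s ∈ Icc (0 : ℝ) 1, ∀ s' ∈ Icc (0 : ℝ) 1,
      ‖σ (s + n) - σ (s' + n)‖ ≤ N * (C * (C * H.q) / 2) := fun n =>
    SB_chain (g := fun s => σ (s + n)) hN (hloc n)
  have hle : ∀ t t' : ℝ, 0 ≤ t → t ≤ t' → t' - t ≤ 1 →
      ‖σ t - σ t'‖ ≤ N * (C * (C * H.q) / 2) + N * (C * (C * H.q) / 2) := by
    intro t t' ht htt h1
    have f1 := Nat.floor_le ht
    have f2 := Nat.lt_floor_add_one t
    set n := ⌊t⌋₊ with hn
    have e1 : t = t - n + n := by ring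
    have hnn : 0 ≤ N * (C * (C * H.q) / 2) := by positivity
    rcases le_or_gt t' (n + 1) with h2 | h2
    · have h3 := hunit n (t - n) ⟨by linarith, by linarith⟩ (t' - n) ⟨by linarith, by linarith⟩
      rw [sub_add_cancel, sub_add_cancel] at h3
      linarith
    · have h3 := hunit n (t - n) ⟨by linarith, by linarith⟩ 1 ⟨zero_le_one, le_rfl⟩
      have h4 := hunit (n + 1) 0 ⟨le_rfl, zero_le_one⟩ (t' - n - 1) ⟨by linarith, by linarith⟩
      have e2 : (1 : ℝ) + n = 0 + ((n + 1 : ℕ) : ℝ) := by push_cast; ring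
      have e3 : t' - n - 1 + ((n + 1 : ℕ) : ℝ) = t' := by push_cast; ring
      rw [sub_add_cancel, e2] at h3
      rw [e3] at h4
      exact (norm_sub_le_norm_sub_add_norm_sub _ _ _).trans (add_le_add h3 h4)
  refine ⟨N * (C * (C * H.q) / 2) + N * (C * (C * H.q) / 2), fun t t' ht ht' h => ?_⟩
  rw [abs_le] at h
  rcases le_total t t' with h1 | h1
  · exact hle t t' ht h1 (by linarith)
  · rw [norm_sub_rev]
    exact hle t' t ht' h1 (by linarith)

end Pool.Agent.CR.Horn
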