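import Pool.Agent.H73.CR.SA

/-!
# CR SC: capture of a backward path at the top

`trapped`: let `R2 = max R4 (2 R1) + 1`, `‖u (σ t)‖ > R2` for `t ∈ [n0, n0 + 1]`, so there `Re u < 0` (`repel`). Claim: `‖u (σ t)‖ > R1` for all `t ≥ n0`.
Otherwise let `t*` be the smallest `t ≥ n0` with `‖u (σ t)‖ ≤ R1`; `t* > n0 + 1`. For `s ∈ [n0 + 1, t*)`: `near` at `w = σ s`: `u (σ s) = u (σ (s-1)) - 1 + e`, `‖e‖ ≤ 1/4`. So
`u (σ s) = u (σ (s - k)) - k + e_k`, `‖e_k‖ ≤ k/4`, `s - k ∈ [n0, n0+1]`, where `Re u < 0`, so `‖u (σ s)‖ ≥ sqrt (R2^2 + k^2) - k/4 ≥ 0.9 R2 > 1.5 R1`; by continuity the same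
holds (with `≥`) at `t*`, a contradiction. Hence the formula holds for all `s ≥ n0 + 1` and gives, with `b` a bound of `‖u (σ t)‖` on `[n0, n0+1]`:
`Re u (σ s) ≤ - 3k/4`, `|Im u (σ s)| ≤ b + k/4`, `k = ⌊s - n0⌋`: the claims, using `norm_u` for `Im (σ s) → ∞`.
-/

set_option autoImplicit false

open Set Filter Topology Metric

namespace Pool.Agent.CR.Horn

variable {H : Horn} {σ : ℝ → ℂ} {a : ℂ} {R1 : ℝ}

private theorem SC_step (hσ : H.BPath σ) (hT : H.Top a R1) {s : ℝ} (hs : 1 ≤ s)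
    (h : R1 < ‖H.u a (σ s)‖) : ‖H.u a (σ s) - H.u a (σ (s - 1)) + 1‖ ≤ 1 / 4 := by
  have h1 := (hT.near (σ s) h).2
  have h2 := hσ.map (s - 1) (by linarith)
  rw [sub_add_cancel] at h2
  rw [h2] at h1
  have e : H.u a (σ s) - H.u a (σ (s - 1)) + 1 = -(H.u a (σ (s - 1)) - H.u a (σ s) - 1) := by ring
  rw [e, norm_neg]
  exact h1

private theorem SC_iter (hσ : H.BPath σ) (hT : H.Top a R1) (k : ℕ) : ∀ s : ℝ,
    (∀ j < k, 1 ≤ s - j ∧ R1 < ‖H.u a (σ (s - j))‖) →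
      ‖H.u a (σ s) - H.u a (σ (s - k)) + k‖ ≤ k / 4 := by
  induction k with
  | zero => intro s _; simp
  | succ k ih =>
    intro s hs
    have h1 := ih s (fun j hj => hs j (by omega))
    obtain ⟨h2, h3⟩ := hs k (by omega)
    have h4 := SC_step hσ hT h2 h3
    have e1 : s - ((k + 1 : ℕ) : ℝ) = s - k - 1 := by push_cast; ring
    rw [e1]
    have e : H.u a (σ s) - H.u a (σ (s - k - 1)) + ((k + 1 : ℕ) : ℂ) =
        (H.u a (σ s) - H.u a (σ (s - k)) + k) +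
          (H.u a (σ (s - k)) - H.u a (σ (s - k - 1)) + 1) := by
      push_cast; ring
    rw [e]
    refine (norm_add_le _ _).trans ?_
    push_cast
    linarith

private theorem SC_low {z u0 : ℂ} {k : ℕ} {A : ℝ} (h : ‖z - u0 + k‖ ≤ k / 4) (hre : u0.re ≤ 0)
    (hA0 : 0 ≤ A) (hA : A ≤ ‖u0‖) : A / 2 ≤ ‖z‖ := by
  have h1 : ‖u0 - k‖ ≤ ‖z‖ + k / 4 := by
    have h2 := norm_sub_le z (z - u0 + k)
    have e : z - (z - u0 + k) = u0 - k := by ring
    rw [e] at h2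
    linarith
  have h3 : A ^ 2 + (k : ℝ) ^ 2 ≤ ‖u0 - k‖ ^ 2 := by
    have h5 : A ^ 2 ≤ ‖u0‖ ^ 2 := pow_le_pow_left₀ hA0 hA 2
    rw [← Complex.normSq_eq_norm_sq, Complex.normSq_apply] at h5
    rw [← Complex.normSq_eq_norm_sq, Complex.normSq_apply]
    simp only [Complex.sub_re, Complex.natCast_re, Complex.sub_im, Complex.natCast_im, sub_zero]
    have h4 : (k : ℝ) * u0.re ≤ 0 := mul_nonpos_of_nonneg_of_nonpos (Nat.cast_nonneg k) hre
    nlinarith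
  have h5 : A / 2 + k / 4 ≤ ‖u0 - k‖ := by
    refine le_of_sq_le_sq ?_ (norm_nonneg _)
    have h6 : (0 : ℝ) ≤ k := Nat.cast_nonneg k
    nlinarith [sq_nonneg (A - k)]
  linarith

theorem BPath.trapped (hσ : H.BPath σ) (hT : H.Top a R1) :
    ∃ R2 : ℝ, ∀ n0 : ℝ, 0 ≤ n0 → (∀ t ∈ Icc n0 (n0 + 1), R2 < ‖H.u a (σ t)‖) →
      ∀ R : ℝ, ∃ t0 : ℝ, ∀ t ≥ t0, R < (σ t).im ∧ |(H.u a (σ t)).im| ≤ -(H.u a (σ t)).re := by
  obtain ⟨R4, hR4⟩ := hσ.repel hT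
  have hR1 := hT.R1_pos
  set R2 : ℝ := max R4 (2 * R1) + 1 with hR2
  have hR2a : R4 < R2 := by
    have := le_max_left R4 (2 * R1)
    linarith
  have hR2b : 2 * R1 + 1 ≤ R2 := by
    have := le_max_right R4 (2 * R1)
    linarith
  refine ⟨R2, fun n0 hn0 hseg R => ?_⟩
  have hneg : ∀ t ∈ Icc n0 (n0 + 1), (H.u a (σ t)).re < 0 := fun t ht =>
    hR4 t (hn0.trans ht.1) (hR2a.trans (hseg t ht))
  have hcont : ContinuousOn (fun t => ‖H.u a (σ t)‖) (Ici 0) :=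
    ((continuous_u a).comp_continuousOn hσ.cont).norm
  -- the formula on an interval where `‖u‖ > R1`
  have hform : ∀ s : ℝ, n0 ≤ s → (∀ s' ∈ Icc n0 s, R1 < ‖H.u a (σ s')‖) →
      s - ⌊s - n0⌋₊ ∈ Icc n0 (n0 + 1) ∧
      ‖H.u a (σ s) - H.u a (σ (s - ⌊s - n0⌋₊)) + ⌊s - n0⌋₊‖ ≤ ⌊s - n0⌋₊ / 4 := by
    intro s hs hbig
    have hk1 : ((⌊s - n0⌋₊ : ℕ) : ℝ) ≤ s - n0 := Nat.floor_le (by linarith)
    have hk2 : s - n0 < ((⌊s - n0⌋₊ : ℕ) : ℝ) + 1 := Nat.lt_floor_add_one _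
    refine ⟨⟨by linarith, by linarith⟩, SC_iter hσ hT _ s fun j hj => ?_⟩
    have hj' : (j : ℝ) + 1 ≤ ((⌊s - n0⌋₊ : ℕ) : ℝ) := by exact_mod_cast hj
    have hj0 : (0 : ℝ) ≤ j := Nat.cast_nonneg j
    exact ⟨by linarith, hbig _ ⟨by linarith, by linarith⟩⟩
  have hlow : ∀ s : ℝ, n0 ≤ s → (∀ s' ∈ Icc n0 s, R1 < ‖H.u a (σ s')‖) →
      R2 / 2 ≤ ‖H.u a (σ s)‖ := by
    intro s hs hbig
    obtain ⟨h1, h2⟩ := hform s hs hbig
    exact SC_low h2 (hneg _ h1).le (by linarith) (hseg _ h1).le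
  -- `‖u‖ > R1` for all `t ≥ n0`
  have hall : ∀ s : ℝ, n0 ≤ s → R1 < ‖H.u a (σ s)‖ := by
    by_contra hcon
    push Not at hcon
    obtain ⟨s1, hs1, hs1'⟩ := hcon
    set Z : Set ℝ := {t | n0 ≤ t ∧ ‖H.u a (σ t)‖ ≤ R1} with hZ
    have hZne : Z.Nonempty := ⟨s1, hs1, hs1'⟩
    have hZbd : BddBelow Z := ⟨n0, fun t ht => ht.1⟩
    have hZcl : IsClosed Z := by
      have h1 : Z = Ici n0 ∩ (fun t => ‖H.u a (σ t)‖) ⁻¹' (Iic R1) := by
        ext t; rfl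
      rw [h1]
      exact (hcont.mono (Ici_subset_Ici.mpr hn0)).preimage_isClosed_of_isClosed isClosed_Ici
        isClosed_Iic
    have hmem : sInf Z ∈ Z := hZcl.csInf_mem hZne hZbd
    set ts : ℝ := sInf Z with hts
    obtain ⟨hts1, hts2⟩ := hmem
    have hbefore : ∀ s, n0 ≤ s → s < ts → R1 < ‖H.u a (σ s)‖ := by
      intro s h1 h2
      by_contra h3
      push Not at h3
      have : ts ≤ s := csInf_le hZbd ⟨h1, h3⟩
      linarith
    have htsgt : n0 + 1 < ts := by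
      by_contra h3
      push Not at h3
      have := hseg ts ⟨hts1, h3⟩
      linarith
    have hge : R2 / 2 ≤ ‖H.u a (σ ts)‖ := by
      have h1 : ContinuousAt (fun t => ‖H.u a (σ t)‖) ts :=
        hcont.continuousAt (Ici_mem_nhds (by linarith))
      have h2 : Tendsto (fun t => ‖H.u a (σ t)‖) (𝓝[<] ts) (𝓝 ‖H.u a (σ ts)‖) :=
        h1.tendsto.mono_left nhdsWithin_le_nhds
      refine ge_of_tendsto h2 ?_
      have h3 : Ioo n0 ts ∈ 𝓝[<] ts := Ioo_mem_nhdsLT (by linarith)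
      filter_upwards [h3] with s hs
      exact hlow s hs.1.le fun s' hs' => hbefore s' hs'.1 (lt_of_le_of_lt hs'.2 hs.2)
    linarith
  -- a bound on the first segment
  obtain ⟨b, hb⟩ : ∃ b : ℝ, ∀ t ∈ Icc n0 (n0 + 1), ‖H.u a (σ t)‖ ≤ b := by
    have h1 := isCompact_Icc.exists_bound_of_continuousOn (s := Icc n0 (n0 + 1))
      (hcont.mono fun t ht => hn0.trans ht.1)
    obtain ⟨b, hb⟩ := h1
    refine ⟨b, fun t ht => ?_⟩
    have := hb t ht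
    rwa [norm_norm] at this
  have hq := H.q_pos
  have hpi := Real.pi_pos
  have hapos : 0 < ‖a‖ := norm_pos_iff.mpr hT.a_ne
  set B : ℝ := H.q / (2 * Real.pi * ‖a‖) * Real.exp (2 * Real.pi * R / H.q) with hB
  have hBpos : 0 < B := by positivity
  refine ⟨n0 + (max (2 * b) (2 * B)) + 1, fun t ht => ?_⟩
  have hbpos : 0 ≤ b := (norm_nonneg _).trans (hb n0 ⟨le_rfl, by linarith⟩)
  have hmx1 := le_max_left (2 * b) (2 * B)
  have hmx2 := le_max_right (2 * b) (2 * B)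
  have htn : n0 ≤ t := by linarith
  obtain ⟨h1, h2⟩ := hform t htn fun s' hs' => hall s' hs'.1
  set k : ℕ := ⌊t - n0⌋₊ with hk
  have hk2 : t - n0 < (k : ℝ) + 1 := Nat.lt_floor_add_one _
  have hkb : 2 * b ≤ k := by linarith
  have hkB : 2 * B ≤ k := by linarith
  have hk0 : (0 : ℝ) ≤ k := Nat.cast_nonneg k
  have h3 := (Complex.abs_re_le_norm _).trans h2
  have h4 := (Complex.abs_im_le_norm _).trans h2
  simp only [Complex.add_re, Complex.sub_re, Complex.natCast_re, Complex.add_im, Complex.sub_im,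
    Complex.natCast_im, add_zero] at h3 h4
  have h5 := hneg _ h1
  have h6 := (Complex.abs_im_le_norm _).trans (hb _ h1)
  have h7 := abs_le.mp h3
  have h8 := abs_le.mp h4
  have h9 := abs_le.mp h6
  have hre : (H.u a (σ t)).re ≤ -(3 * k / 4) := by linarith [h7.2]
  have him : |(H.u a (σ t)).im| ≤ b + k / 4 := by
    rw [abs_le]
    exact ⟨by linarith [h8.1, h9.1], by linarith [h8.2, h9.2]⟩
  refine ⟨?_, by linarith⟩
  have h10 : B < ‖H.u a (σ t)‖ := by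
    have h11 := Complex.abs_re_le_norm (H.u a (σ t))
    have h12 : -(H.u a (σ t)).re ≤ |(H.u a (σ t)).re| := neg_le_abs _
    linarith
  rw [norm_u, hB] at h10
  have h11 := lt_of_mul_lt_mul_left h10 (by positivity)
  rw [Real.exp_lt_exp, div_lt_div_iff_of_pos_right hq] at h11
  exact lt_of_mul_lt_mul_left h11 (by positivity)

end Pool.Agent.CR.Horn
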