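import Pool.Agent.H73.CR.SB

/-!
# CR SE: backward paths which stay low: inverse branches contract

`Low ε`: the data of the low case. `exists_low`: `low_dist`, and make `ε` smaller (`2 ε ≤ q`).
`decay`: suppose not: there are `δ > 0`, `n_j → ∞`, `t_j ≥ 0`, `G_j` with `‖deriv G_j (σ t_j)‖ > δ`. The points `y_j = σ (t_j + n_j) - k_j q`
(`0 ≤ Re y_j < q` for suitable `k_j`) are bounded: `Im ≥ - M` by `bot` (`n_j ≥ 1`, `mem`), `Im` is bounded above because `‖u‖ ≤ R3` (`norm_u`). Subsequence: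
`y_j → y`. `koebe` (file KB) with `κ`: `ball (σ (t_j + n_j)) (κ ε δ) ⊆ G_j '' ball (σ t_j) ε`. For large `j`: `ball y (κ ε δ / 2) + k_j q ⊆ G_j '' ball`, so all
points of `ball y (κ ε δ / 2)` have `Def n_j` (`def_add_int`), for infinitely many `j`, so `Def n` for all `n`. But `y_j` lies in this ball for large `j`, and
`Def n (σ (t_j + n_j))` for all `n` contradicts `not_def`.
-/

set_option autoImplicit false

open Set Filter Topology Metric

namespace Pool.Agent.CR.Horn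

/-- the path stays low, at distance `≥ ε` from the post-singular set -/
structure Low (H : Horn) (a : ℂ) (σ : ℝ → ℂ) (R3 ε : ℝ) : Prop where
  low : ∀ t : ℝ, 0 ≤ t → ‖H.u a (σ t)‖ ≤ R3
  ε_pos : 0 < ε
  dist : ∀ t : ℝ, 0 ≤ t → ∀ z ∈ H.P, ε ≤ ‖σ t - z‖
  ε_le : 2 * ε ≤ H.q

variable {H : Horn} {σ : ℝ → ℂ} {a : ℂ} {R1 : ℝ}

theorem BPath.exists_low (hσ : H.BPath σ) (hT : H.Top a R1) {R3 : ℝ}
    (h : ∀ t : ℝ, 0 ≤ t → ‖H.u a (σ t)‖ ≤ R3) : ∃ ε : ℝ, H.Low a σ R3 ε := by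
  obtain ⟨ε, hε, h1⟩ := hσ.low_dist hT R3
  have hq := H.q_pos
  refine ⟨min ε (H.q / 2), h, lt_min hε (by positivity), fun t ht z hz => ?_, ?_⟩
  · exact (min_le_left _ _).trans (h1 t ht (h t ht) z hz)
  · have := min_le_right ε (H.q / 2)
    linarith

private theorem SE_im_le {a w : ℂ} (ha : a ≠ 0) {R3 : ℝ} (h : ‖H.u a w‖ ≤ R3) :
    w.im ≤ H.q / (2 * Real.pi) * Real.log (R3 / (H.q / (2 * Real.pi * ‖a‖))) := by
  have hq := H.q_pos
  have hpi := Real.pi_pos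
  have ha' : 0 < ‖a‖ := norm_pos_iff.2 ha
  rw [norm_u] at h
  have h1 : Real.exp (2 * Real.pi * w.im / H.q) ≤ R3 / (H.q / (2 * Real.pi * ‖a‖)) := by
    rw [le_div_iff₀ (by positivity)]
    linarith
  have h2 : 0 < R3 / (H.q / (2 * Real.pi * ‖a‖)) := (Real.exp_pos _).trans_le h1
  have h3 := (Real.le_log_iff_exp_le h2).2 h1
  rw [div_le_iff₀ hq] at h3
  rw [div_mul_eq_mul_div, le_div_iff₀ (by positivity)]
  linarith

theorem BPath.decay (hσ : H.BPath σ) (hT : H.Top a R1) {R3 ε : ℝ} (hL : H.Low a σ R3 ε) {δ : ℝ}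
    (hδ : 0 < δ) : ∃ n0 : ℕ, ∀ n ≥ n0, ∀ t : ℝ, 0 ≤ t → ∀ G : ℂ → ℂ,
      DifferentiableOn ℂ G (ball (σ t) ε) →
      (∀ x ∈ ball (σ t) ε, H.Def n (G x) ∧ H.E^[n] (G x) = x) → G (σ t) = σ (t + n) →
      ‖deriv G (σ t)‖ ≤ δ := by
  have hq := H.q_pos
  have hε := hL.ε_pos
  obtain ⟨κ, hκ, hK⟩ := koebe
  by_contra hcon
  push Not at hcon
  have hc : ∀ j : ℕ, ∃ (n : ℕ) (t : ℝ) (G : ℂ → ℂ), j + 1 ≤ n ∧ 0 ≤ t ∧
      DifferentiableOn ℂ G (ball (σ t) ε) ∧
      (∀ x ∈ ball (σ t) ε, H.Def n (G x) ∧ H.E^[n] (G x) = x) ∧ G (σ t) = σ (t + n) ∧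
      δ < ‖deriv G (σ t)‖ := by
    intro j
    obtain ⟨n, hn, t, ht, G, h1, h2, h3, h4⟩ := hcon (j + 1)
    exact ⟨n, t, G, hn, ht, h1, h2, h3, h4⟩
  choose n t G hn ht hG1 hG2 hG3 hG4 using hc
  set s : ℕ → ℝ := fun j => t j + n j with hs
  have hs0 : ∀ j, 0 ≤ s j := fun j => add_nonneg (ht j) (Nat.cast_nonneg _)
  set k : ℕ → ℤ := fun j => ⌊(σ (s j)).re / H.q⌋ with hk
  set y : ℕ → ℂ := fun j => σ (s j) + ((-(k j) : ℤ) : ℂ) * H.q with hy
  have hyre : ∀ j, 0 ≤ (y j).re ∧ (y j).re ≤ H.q := by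
    intro j
    have e1 : (y j).re = (σ (s j)).re - k j * H.q := by
      show (σ (s j) + ((-(k j) : ℤ) : ℂ) * H.q).re = _
      simp
      ring
    have e2 := Int.floor_le ((σ (s j)).re / H.q)
    have e3 := Int.lt_floor_add_one ((σ (s j)).re / H.q)
    rw [le_div_iff₀ hq] at e2
    rw [div_lt_iff₀ hq] at e3
    rw [e1]
    have e4 : (k j : ℝ) = (⌊(σ (s j)).re / H.q⌋ : ℝ) := rfl
    rw [e4]
    constructor <;> nlinarith
  have hyim : ∀ j, (y j).im = (σ (s j)).im := by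
    intro j
    show (σ (s j) + ((-(k j) : ℤ) : ℂ) * H.q).im = _
    simp
  have hbot : ∀ j, -H.M ≤ (y j).im := by
    intro j
    rw [hyim]
    refine H.bot _ ?_
    have e1 : s j = (t j + (n j - 1 : ℕ)) + 1 := by
      show t j + n j = _
      have e2 : ((n j : ℕ) : ℝ) = ((n j - 1 : ℕ) : ℝ) + 1 := by
        have := hn j
        have e3 : n j = (n j - 1) + 1 := by omega
        exact_mod_cast e3
      rw [e2]
      ring
    rw [e1]
    exact hσ.mem _ (add_nonneg (ht j) (Nat.cast_nonneg _))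
  set B : ℝ := H.q / (2 * Real.pi) * Real.log (R3 / (H.q / (2 * Real.pi * ‖a‖))) with hB
  have htop : ∀ j, (y j).im ≤ B := by
    intro j
    rw [hyim]
    exact SE_im_le hT.a_ne (hL.low _ (hs0 j))
  have hnorm : ∀ j, ‖y j‖ ≤ H.q + (|H.M| + |B|) := by
    intro j
    refine (Complex.norm_le_abs_re_add_abs_im _).trans (add_le_add ?_ ?_)
    · rw [abs_of_nonneg (hyre j).1]
      exact (hyre j).2
    · rw [abs_le]
      constructor
      · have := hbot j
        have := le_abs_self H.M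
        have := abs_nonneg B
        linarith
      · have := htop j
        have := le_abs_self B
        have := abs_nonneg H.M
        linarith
  -- a limit point
  have hcomp : IsCompact (closedBall (0 : ℂ) (H.q + (|H.M| + |B|))) := isCompact_closedBall _ _
  obtain ⟨y0, _, φ, hφ, hlim⟩ := hcomp.tendsto_subseq (x := y) fun j => by
    rw [mem_closedBall_zero_iff]
    exact hnorm j
  set r : ℝ := κ * ε * δ / 2 with hr
  have hr0 : 0 < r := by positivity
  have hclose : ∀ᶠ i in atTop, y (φ i) ∈ ball y0 r := hlim (ball_mem_nhds y0 hr0)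
  -- all iterates are defined on the ball
  have hdef : ∀ w ∈ ball y0 r, ∀ N : ℕ, H.Def N w := by
    intro w hw N
    obtain ⟨i, hi1, hi2⟩ := (hclose.and (eventually_ge_atTop N)).exists
    set j : ℕ := φ i with hj
    have hNn : N ≤ n j := by
      have e1 : i ≤ φ i := hφ.id_le i
      have e2 := hn j
      omega
    have hinj := (branch_inj hL.ε_le (hG2 j)).1
    have h1 := hK (G j) (σ (t j)) ε hε (hG1 j) hinj
    have h2 : w + (k j : ℂ) * H.q ∈ ball (G j (σ (t j))) (κ * ε * ‖deriv (G j) (σ (t j))‖) := by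
      rw [hG3 j, mem_ball_iff_norm]
      have e1 : w + (k j : ℂ) * H.q - σ (t j + n j) = (w - y0) - (y j - y0) := by
        have e2 : y j = σ (t j + n j) + ((-(k j) : ℤ) : ℂ) * H.q := rfl
        rw [e2]
        push_cast
        ring
      rw [e1]
      rw [mem_ball_iff_norm] at hw hi1
      have e3 : κ * ε * δ < κ * ε * ‖deriv (G j) (σ (t j))‖ :=
        mul_lt_mul_of_pos_left (hG4 j) (by positivity)
      have e4 := norm_sub_le (w - y0) (y j - y0)
      have e5 : r = κ * ε * δ / 2 := rfl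
      have e6 : ‖y j - y0‖ < r := hi1
      linarith
    obtain ⟨x, hx, hxw⟩ := h1 h2
    have h3 := (hG2 j x hx).1
    rw [hxw, def_add_int] at h3
    exact fun m hm => h3 m (lt_of_lt_of_le hm hNn)
  obtain ⟨i, hi⟩ := hclose.exists
  have h1 := hdef _ hi (⌊s (φ i)⌋₊ + 2)
  have h2 : H.Def (⌊s (φ i)⌋₊ + 2) (σ (s (φ i))) := (H.def_add_int _ _ _).1 h1
  exact hσ.not_def (hs0 _) h2

end Pool.Agent.CR.Horn
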